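import Pool.Agent.SPD.Stmts

set_option autoImplicit false

/-!
Assembly of Part II.
-/

open Finset

namespace Pool.Agent.SPD

theorem Tree_all (hA : Stmt_TreeA) (hB : Stmt_TreeB) (hC : Stmt_TreeC) :
    ∀ (F : Type) [Field F] (S : Dat F), Ok0 S → Tr S := by
  intro F _ S h
  exact ⟨hA F S h, hB F S h (hA F S h), hC F S h (hA F S h)⟩

theorem Fin_proof (hA : Stmt_FinA) (hB : Stmt_FinB) : Stmt_Fin := by
  intro p r₂ r₃ hp hlt
  obtain ⟨m₂, Q, M, h⟩ := hA p r₂ r₃ hp (fun m => (2 * m + 2) * (2 * m + 2))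
  refine ⟨m₂ + 1, Q, M, by omega, ?_⟩
  intro α cw Fm lb hc
  have hc' : Conf p r₂ r₃ m₂ Q M cw Fm lb :=
    { base := hc.base
      mono := fun q q' I I' T h1 h2 h3 h4 => hc.mono q q' I I' T h1 h2 h3 (by omega)
      cw_ne := fun q I T h1 h2 => hc.cw_ne q I T h1 (by omega)
      lab_lt := hc.lab_lt
      supp := fun q I T l h1 h2 => hc.supp q I T l h1 (by omega)
      card := fun q I T h1 h2 => hc.card q I T h1 (by omega)
      uniq := fun q I T T' h1 h2 => hc.uniq q I T T' h1 (by omega)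
      rep := fun q I₁ I₂ T₁ T₂ h1 h2 => hc.rep q I₁ I₂ T₁ T₂ h1 (by omega) }
  obtain ⟨m, q, v, H, h1, h2, h3, h4, h5, h6⟩ := h α cw Fm lb hc'
  exact hB p r₂ r₃ m₂ Q M hp hlt α cw Fm lb hc' m q v H h1 h2 h3 h4 h5 h6

/-- The root. -/
lemma exists_root (k g₀ : ℕ) (h2 : 2 ≤ g₀) (hk : g₀ ^ 150 ≤ k) :
    ∃ g, g₀ ≤ g ∧ g ^ 150 ≤ k ∧ k ≤ g ^ 300 := by
  have hex : ∃ g, k < (g + 1) ^ 150 := ⟨k, by
    calc k < k + 1 := Nat.lt_succ_self k
      _ = (k + 1) ^ 1 := (pow_one _).symm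
      _ ≤ (k + 1) ^ 150 := Nat.pow_le_pow_right (by omega) (by norm_num)⟩
  classical
  set g := Nat.find hex with hg
  have h1 : k < (g + 1) ^ 150 := Nat.find_spec hex
  have hgg : g₀ ≤ g := by
    by_contra hcon
    push Not at hcon
    have h3 : (g + 1) ^ 150 ≤ g₀ ^ 150 := Nat.pow_le_pow_left (by omega) _
    omega
  have h4 : g ^ 150 ≤ k := by
    have h5 : g - 1 < g := by omega
    have h6 := Nat.find_min hex (hg ▸ h5)
    rw [not_lt, show g - 1 + 1 = g by omega] at h6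
    exact h6
  refine ⟨g, hgg, h4, ?_⟩
  have h5 : g + 1 ≤ g ^ 2 := by nlinarith
  calc k ≤ (g + 1) ^ 150 := h1.le
    _ ≤ (g ^ 2) ^ 150 := Nat.pow_le_pow_left h5 _
    _ = g ^ 300 := by rw [← pow_mul]

theorem conf_of_ctx {p : ℕ} [Fact p.Prime] (hBase : Stmt_LabBase) (hOwn : Stmt_LabOwn)
    (hRank : Stmt_LabRank) (hCard : Stmt_LabCard) (hUniq : Stmt_LabUniq) (hRep : Stmt_Rep)
    {S : Dat (ZMod p)} {g L Q m₂ r M : ℕ} {z : Fin M → ℕ × ℤ} (h : Ctx S g L Q m₂ r M z) :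
    Conf p r r m₂ Q M S.cw (fun q I T => Fam S z q I T) (fun T l => lab S g (z l) T) where
  base := fun l => ⟨z l, (hBase _ S g L Q m₂ r M z h).1 l⟩
  mono := fun q q' I I' T h1 _ h3 _ h5 => (hBase _ S g L Q m₂ r M z h).2.2.1 q q' I I' T h1 h3 h5
  cw_ne := fun q I T _ _ h3 => h.tr.cw_ne T ((hBase _ S g L Q m₂ r M z h).2.1 q I T h3)
  lab_lt := fun T l => (hRank _ S g L Q m₂ r M z h l T T).1
  supp := by
    intro q I T l h1 h2 h3 h4
    obtain ⟨w, hw1, hw2, i, hi⟩ := h3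
    have h5 := (hOwn _ S g L Q m₂ r M z h q h1 I h2 w hw1 hw2).2 l h4 i
    rw [hi] at h5
    exact (hRank _ S g L Q m₂ r M z h l T T).2.2.1.2 h5
  card := fun q I T h1 h2 h3 => hCard _ S g L Q m₂ r M z h q h1 I h2 T h3
  uniq := fun q I T T' h1 h2 h3 h4 h5 => hUniq _ S g L Q m₂ r M z h q h1 I h2 T T' h3 h4 h5
  rep := fun q I₁ I₂ T₁ T₂ h1 h2 h3 h4 h5 =>
    hRep _ S g L Q m₂ r M z h q I₁ I₂ T₁ T₂ h1 h2 h3 h4 h5

theorem Main2_proof (hA : Stmt_TreeA) (hB : Stmt_TreeB) (hC : Stmt_TreeC)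
    (hGood : Stmt_GoodC) (hPick : Stmt_Pick) (hBase : Stmt_LabBase) (hOwn : Stmt_LabOwn)
    (hRank : Stmt_LabRank) (hCard : Stmt_LabCard) (hUniq : Stmt_LabUniq) (hRep : Stmt_Rep)
    (hFin : Stmt_Fin) : Stmt_Main2 := by
  intro d C₀ p hp hlt
  obtain ⟨m₂, Q, M, hm₂, hfin⟩ := hFin p (300 * (d + 1)) (300 * (d + 1)) hp.out hlt
  obtain ⟨N, hN, hpick⟩ := hPick M (m₂ + 1) C₀
  obtain ⟨g₀, hgood⟩ := hGood d (m₂ + 1) N (Q + 20) Q le_rfl
  refine ⟨(g₀ + 2) ^ 150 + 100 * (m₂ + 2), ?_⟩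
  intro S hS hk hd Z hZV hZ2 hZ
  obtain ⟨g, hg1, hg2, hg3⟩ := exists_root S.k (g₀ + 2) (by omega) (by omega)
  have htr : Tr S := Tree_all hA hB hC _ S hS.toOk0
  have hne : 1 ≤ S.V0.card := hS.ne.card_pos
  have hk10 := hS.k_pos
  have hZne : Z.Nonempty := by
    rw [nonempty_iff_ne_empty]
    intro h0
    rw [h0, card_empty, mul_zero] at hZ
    have : 0 < S.k * S.V0.card := Nat.mul_pos (by omega) (by omega)
    omega
  obtain ⟨z, hz1, hz2⟩ := hpick (ℕ × ℤ) S.V Z S.Uh.card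
    (fun I z => Good S (g ^ 64) (Q + 20) Q g z) hZV hZne (by rw [htr.Uh_card]; exact hZ)
    (by
      intro I hI
      have h1 := hgood (ZMod p) S hS htr g (by omega) hg2 hg3 hd I (by
        rw [Fintype.card_coe]; exact hI)
      rw [Fintype.card_coe] at h1
      refine le_trans (le_of_eq ?_) h1
      congr 2
      ext x
      simp only [mem_filter, Fintype.mem_piFinset])
  have hbk := hS.b_big
  have hctx : Ctx S g (Q + 20) Q m₂ (300 * (d + 1)) M z :=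
    { ok := hS
      tr := htr
      g2 := by omega
      hL := le_rfl
      hb := by omega
      card := by
        rw [htr.Uh_card]
        calc S.k * S.V0.card ≤ S.k * S.k ^ d := Nat.mul_le_mul_left _ hd
          _ = S.k ^ (d + 1) := by rw [pow_succ]; ring
          _ ≤ (g ^ 300) ^ (d + 1) := Nat.pow_le_pow_left hg3 _
          _ = _ := by rw [← pow_mul]
      good := hz2
      two := fun l => hZ2 _ (hz1 l) }
  exact hfin _ _ _ _ (conf_of_ctx hBase hOwn hRank hCard hUniq hRep hctx)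

end Pool.Agent.SPD
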