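import Pool.Agent.SPD.Stmts1

set_option autoImplicit false

/-!
Assembly: the number of nonzero sparse digits.
-/

open Finset

namespace Pool.Agent.SPD

theorem Lam_proof (hInst : Stmt_Inst) (hChoose : Stmt_ChooseP) (hOk : Stmt_OkDat)
    (hGrow : Stmt_Grow) (hInert : Stmt_Inert) (hNum : Stmt_Num) (hMain : Stmt_Main2) :
    Stmt_Lam := by
  have key : ∀ A : ℕ, 1 ≤ A → ∃ N₀ : ℕ, ∀ N, N₀ ≤ N →
      (Nat.log 2 N) ^ A < Sqrt2Digits.lam DChg.fs N := by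
    intro A hA
    obtain ⟨p, hp1, hp2, hp3⟩ := hInert (4 ^ (300 * (5 * A + 1)) + 11)
    have hfact : Fact p.Prime := ⟨hp2⟩
    have hpos : 0 < 4 ^ (300 * (5 * A + 1)) := by positivity
    have hp11 : 11 ≤ p := by linarith
    have hplt : 4 ^ (300 * (5 * A + 1)) < p := by linarith
    obtain ⟨k₀, hk₀⟩ := hMain (5 * A) (4 * 2 ^ (4 * A + 4)) p hplt
    obtain ⟨N₀, hN₀⟩ := hNum A p (4 * (k₀ + 16) ^ 2 + 1) hA hp11
    refine ⟨N₀, fun N hN => ?_⟩
    by_contra hcon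
    push Not at hcon
    obtain ⟨m₁, K, h1, h2, h3, h4, h5, h6, h7⟩ := hN₀ N hN _ hcon
    obtain ⟨G, hG⟩ := hInst p hp2 hp11 hp3 N
    obtain ⟨P, hP⟩ := hChoose p N _ _ m₁ K G hp2 hp3 hG h1 (by omega) h4 h5
    obtain ⟨k, g1, g2, g3, g4, Z, g5, g6, g7⟩ := hGrow p N _ _ m₁ _ P K (4 * A + 4) G hP h2 h6
    have hk : Ok (dat G k (p ^ (2 * m₁)) P) := hOk p N _ _ m₁ _ P K k G hP (by omega) g2
    have hkk : k₀ + 16 < k := by
      by_contra hcon2
      push Not at hcon2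
      have : k ^ 2 ≤ (k₀ + 16) ^ 2 := Nat.pow_le_pow_left hcon2 2
      omega
    refine hk₀ _ hk (show k₀ ≤ k by omega) ?_ Z g5 g6 g7
    calc (dat G k (p ^ (2 * m₁)) P).V0.card ≤ K ^ (2 * A) := g4.trans h7
      _ ≤ (4 * k ^ 2) ^ (2 * A) := Nat.pow_le_pow_left g3 _
      _ = 16 ^ A * k ^ (4 * A) := by
          rw [mul_pow, ← pow_mul, pow_mul 4 2 A, show 2 * (2 * A) = 4 * A by ring]
          norm_num
      _ ≤ k ^ A * k ^ (4 * A) := Nat.mul_le_mul_right _ (Nat.pow_le_pow_left (by omega) _)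
      _ = k ^ (5 * A) := by rw [← pow_add]; congr 1; ring
  intro A
  rcases Nat.eq_zero_or_pos A with h0 | h0
  · obtain ⟨N₀, h⟩ := key 1 le_rfl
    refine ⟨max N₀ 2, fun N hN => ?_⟩
    have h1 := h N (by omega)
    have h2 : 1 ≤ Nat.log 2 N := Nat.le_log_of_pow_le (by norm_num) (by omega)
    rw [h0, pow_zero]
    rw [pow_one] at h1
    omega
  · exact key A h0

end Pool.Agent.SPD
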