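import Pool.Agent.SPD.Stmts

set_option autoImplicit false

/-!
Module B1c: counting of the bad tuples of the first kind.
-/

open Finset

namespace Pool.Agent.SPD

namespace B1c

theorem card_option {ι β : Type} [Fintype ι] [DecidableEq ι] [DecidableEq β]
    (O : Finset (Option (ι × β))) (n : ℕ)
    (h : ∀ i, ∀ K : Finset β, (∀ p ∈ K, some (i, p) ∈ O) → K.card ≤ n) :
    O.card ≤ 1 + Fintype.card ι * n := by
  have h1 : O.card ≤ (eraseNone O).card + 1 := by
    rw [← card_insertNone, insertNone_eraseNone]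
    exact card_le_card (subset_insert _ _)
  have h2 : (eraseNone O).card ≤ n * ((eraseNone O).image Prod.fst).card := by
    apply card_le_mul_card_image
    intro i _
    have e1 : ((eraseNone O).filter (fun x => x.1 = i)).card =
        (((eraseNone O).filter (fun x => x.1 = i)).image Prod.snd).card := by
      rw [card_image_of_injOn]
      intro x hx y hy hxy
      simp only [coe_filter, Set.mem_ofPred_eq] at hx hy
      exact Prod.ext (hx.2.trans hy.2.symm) hxy
    rw [e1]
    apply h i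
    intro p hp
    simp only [mem_image, mem_filter, mem_eraseNone] at hp
    obtain ⟨x, ⟨hx1, hx2⟩, rfl⟩ := hp
    rw [← hx2]
    exact hx1
  have h3 : ((eraseNone O).image Prod.fst).card ≤ Fintype.card ι := card_le_univ _
  have h4 : n * ((eraseNone O).image Prod.fst).card ≤ n * Fintype.card ι :=
    Nat.mul_le_mul_left _ h3
  have h5 : n * Fintype.card ι = Fintype.card ι * n := Nat.mul_comm _ _
  omega

variable {F : Type} [Field F] {S : Dat F}

theorem close (htr : Tr S) {m j : ℕ} (hb : 100 * (m + 1) ≤ S.b) {x y : ℕ × ℤ}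
    (hx : x ∈ S.Uh) (hy : y ∈ S.Uh) (hj : j + 12 ≤ S.k)
    (h : |S.X x - S.X y| ≤ (4 * m + 4) * S.D (j + 3)) : S.R (j + 1) x y := by
  by_contra hn
  have h1 := htr.far (j + 1) (by omega) x (mem_insert_of_mem hx) y (mem_insert_of_mem hy) hn
  have h2 := htr.Dsucc (j + 1) (by omega)
  have h3 := htr.Dsucc (j + 2) (by omega)
  have hD := htr.Dpos (j + 3)
  have hb' : (100 * (m + 1) : ℤ) ≤ S.b := by exact_mod_cast hb
  have hm : (0 : ℤ) ≤ m := by positivity
  have hb1 : (1 : ℤ) ≤ S.b := by linarith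
  have hb4 : (4 * m + 4 : ℤ) ≤ (S.b : ℤ) ^ 4 := by
    have : (S.b : ℤ) ^ 1 ≤ (S.b : ℤ) ^ 4 := pow_le_pow_right₀ hb1 (by norm_num)
    rw [pow_one] at this
    linarith
  have h4 : S.D (j + 1) = (S.b : ℤ) ^ 4 * ((S.b : ℤ) ^ 2 * S.D (j + 3)) := by
    rw [h2, h3]; ring
  have h5 : |S.X x - S.X y| * (S.b : ℤ) ^ 2 ≤ (4 * m + 4) * S.D (j + 3) * (S.b : ℤ) ^ 2 :=
    mul_le_mul_of_nonneg_right h (by positivity)
  have h6 : (4 * m + 4 : ℤ) * ((S.b : ℤ) ^ 2 * S.D (j + 3)) ≤
      (S.b : ℤ) ^ 4 * ((S.b : ℤ) ^ 2 * S.D (j + 3)) :=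
    mul_le_mul_of_nonneg_right hb4 (by positivity)
  linarith

open Classical in
theorem card_block {ι : Type} [Fintype ι] (htr : Tr S) {t j H : ℕ} {w : ι → ℕ × ℤ} {i : ι}
    (htj : t ≤ j) (hH : H * S.nn (j + 1) (w i) ≤ S.nn j (w i))
    (B : Finset (ι → ℕ × ℤ)) (hB1 : ∀ u ∈ B, ∀ l, u l ∈ S.Uh)
    (hB2 : ∀ u ∈ B, ∀ l, S.R t (w l) (u l)) (hB3 : ∀ u ∈ B, S.R (j + 1) (w i) (u i)) :
    H * B.card ≤ ((Fintype.piFinset (fun _ : ι => S.Uh)).filter
      (fun u => ∀ l, S.R t (w l) (u l))).card := by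
  have e1 : (Fintype.piFinset (fun _ : ι => S.Uh)).filter (fun u => ∀ l, S.R t (w l) (u l)) =
      Fintype.piFinset (fun l : ι => S.Uh.filter (fun y => S.R t (w l) y)) := by
    ext u
    simp only [mem_filter, Fintype.mem_piFinset]
    constructor
    · rintro ⟨h1, h2⟩ l; exact ⟨h1 l, h2 l⟩
    · intro h; exact ⟨fun l => (h l).1, fun l => (h l).2⟩
  have e2 : B ⊆ Fintype.piFinset (fun l : ι => if l = i then
      S.Uh.filter (fun y => S.R (j + 1) (w i) y) else S.Uh.filter (fun y => S.R t (w l) y)) := by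
    intro u hu
    rw [Fintype.mem_piFinset]
    intro l
    by_cases hl : l = i
    · subst hl
      rw [if_pos rfl, mem_filter]
      exact ⟨hB1 u hu l, hB3 u hu⟩
    · rw [if_neg hl, mem_filter]
      exact ⟨hB1 u hu l, hB2 u hu l⟩
  have e3 := card_le_card e2
  rw [Fintype.card_piFinset] at e3
  rw [e1, Fintype.card_piFinset]
  have e4 : ∏ l, (S.Uh.filter (fun y => S.R t (w l) y)).card =
      S.nn t (w i) * ∏ l ∈ univ.erase i, S.nn t (w l) := by
    rw [mul_prod_erase univ (fun l => S.nn t (w l)) (mem_univ i)]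
    rfl
  have e5 : ∏ l, (if l = i then S.Uh.filter (fun y => S.R (j + 1) (w i) y)
      else S.Uh.filter (fun y => S.R t (w l) y)).card =
      S.nn (j + 1) (w i) * ∏ l ∈ univ.erase i, S.nn t (w l) := by
    rw [← mul_prod_erase univ _ (mem_univ i), if_pos rfl]
    congr 1
    apply prod_congr rfl
    intro l hl
    rw [if_neg (ne_of_mem_erase hl)]
    rfl
  rw [e4]
  rw [e5] at e3
  have e6 : S.nn j (w i) ≤ S.nn t (w i) := htr.nn_anti t j (w i) htj
  calc H * B.card ≤ H * (S.nn (j + 1) (w i) * ∏ l ∈ univ.erase i, S.nn t (w l)) :=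
        Nat.mul_le_mul_left _ e3
    _ = (H * S.nn (j + 1) (w i)) * ∏ l ∈ univ.erase i, S.nn t (w l) := by ring
    _ ≤ S.nn t (w i) * ∏ l ∈ univ.erase i, S.nn t (w l) :=
        Nat.mul_le_mul_right _ (hH.trans e6)

/-- the final arithmetic -/
theorem arith {m l g e R0 A bad : ℕ} (hl : 2 ≤ l) (hg : 2 ≤ g)
    (h : g ^ (8 * e) * bad ≤ 1 * ((1 + m * (640 * l * (g ^ e) ^ 6)) *
      ((2 * R0 * (m * l + 1)) * m)) * A) :
    bad * g ^ (2 * e) ≤ 2000 * (m + 1) ^ 3 * R0 * l ^ 3 * A := by
  have hge : 0 < g ^ e := by positivity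
  have e1 : g ^ (8 * e) = (g ^ e) ^ 6 * g ^ (2 * e) := by
    rw [← pow_mul, ← pow_add]; congr 1; ring
  set X := (g ^ e) ^ 6 with hX
  have hX1 : 1 ≤ X := Nat.one_le_pow _ _ hge
  have e2 : 1 + m * (640 * l * X) ≤ 641 * (m + 1) * l * X := by
    have : 1 ≤ l * X := Nat.mul_pos (by omega) hX1
    nlinarith
  have e3 : m * l + 1 ≤ (m + 1) * l := by nlinarith
  have e4 : 1 * ((1 + m * (640 * l * X)) * ((2 * R0 * (m * l + 1)) * m)) * A ≤
      (641 * (m + 1) * l * X) * ((2 * R0 * ((m + 1) * l)) * (m + 1)) * A := by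
    rw [one_mul]
    apply Nat.mul_le_mul_right
    apply Nat.mul_le_mul e2
    apply Nat.mul_le_mul
    · exact Nat.mul_le_mul_left _ e3
    · omega
  have e5 : X * (bad * g ^ (2 * e)) ≤ X * (2000 * (m + 1) ^ 3 * R0 * l ^ 3 * A) := by
    calc X * (bad * g ^ (2 * e)) = g ^ (8 * e) * bad := by rw [e1]; ring
      _ ≤ (641 * (m + 1) * l * X) * ((2 * R0 * ((m + 1) * l)) * (m + 1)) * A := h.trans e4
      _ = X * (1282 * (m + 1) ^ 3 * R0 * l ^ 2 * A) := by ring
      _ ≤ X * (2000 * (m + 1) ^ 3 * R0 * l ^ 3 * A) := by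
          apply Nat.mul_le_mul_left
          have : 1282 * (m + 1) ^ 3 * R0 * l ^ 2 ≤ 2000 * (m + 1) ^ 3 * R0 * l ^ 3 := by
            calc 1282 * (m + 1) ^ 3 * R0 * l ^ 2 ≤ 2000 * (m + 1) ^ 3 * R0 * l ^ 2 := by gcongr; norm_num
              _ ≤ 2000 * (m + 1) ^ 3 * R0 * l ^ 3 := by
                apply Nat.mul_le_mul_left
                exact Nat.pow_le_pow_right (by omega) (by norm_num)
          exact Nat.mul_le_mul_right _ this
  exact Nat.le_of_mul_le_mul_left e5 (by omega)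

end B1c

open Classical in
open B1c in
theorem B1c_proof (hB1k : Stmt_B1k) (hKeys : Stmt_Keys) (hCnt : Stmt_Cnt) (hOpt : Stmt_Opt) :
    Stmt_B1c := by
  intro F _ S hok htr ι _ G L q g e r hg he hG hq hb hU
  have hll : 2 ≤ ll S := by unfold ll; omega
  set A : Finset (ι → ℕ × ℤ) := Fintype.piFinset (fun _ : ι => S.Uh) with hA
  set bad := A.filter (fun w => Reg S G L w ∧ B1 S G L q g e w) with hbad
  have hcardA : A.card = S.Uh.card ^ Fintype.card ι := by
    rw [hA, Fintype.card_piFinset]; simp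
  rw [← hcardA]
  by_cases hne : bad = ∅
  · rw [hne]; simp
  obtain ⟨w₀, hw₀⟩ := nonempty_iff_ne_empty.2 hne
  have hι : Nonempty ι := by
    rw [hbad, mem_filter] at hw₀
    obtain ⟨-, -, w', -, -, i, -⟩ := hw₀
    exact ⟨i⟩
  have key : ∀ w : ι → ℕ × ℤ, w ∈ bad → _ := fun w hw =>
    hB1k F S hok htr ι G L q g e hg he hG hq hb w (mem_filter.1 hw).2.1 (mem_filter.1 hw).2.2
  choose! τ jj ii om oo k1 k2 k3 k4 k5 k6 k7 k8 using key
  have hm : Fintype.card ι + 2 * (Fintype.card ι + 1) < S.b := by omega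
  have hcount := hCnt (ι → ℕ × ℤ) ℕ ((ι → ℕ × ℤ) × (ι × Option (ι × (ℕ × (ℕ × ℤ))))) A bad
    (fun t w u => ∀ l, S.R t (w l) (u l)) τ (fun w => (om w, (ii w, oo w)))
    ((1 + Fintype.card ι * (640 * ll S * (g ^ e) ^ 6)) *
      ((2 * (Fintype.card ι + 1) ^ (Fintype.card ι * r) * (Fintype.card ι * ll S + 1)) *
        Fintype.card ι))
    (g ^ (8 * e)) 1 (filter_subset _ _)
    (fun t => ⟨fun w l => htr.refl t (w l), fun h l => htr.symm t _ _ (h l),
      fun h h' l => htr.trans t _ _ _ (h l) (h' l)⟩) ?_ ?_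
  · exact arith hll hg hcount
  · -- the number of keys of a tuple
    intro x hx Q hQ
    have hx' : ∀ l, x l ∈ S.Uh := by
      rw [hA, Fintype.mem_piFinset] at hx; exact hx
    have c1 := card_le_mul_card_image (f := fun p : ℕ × ((ι → ℕ × ℤ) × (ι × Option (ι × (ℕ × (ℕ × ℤ))))) =>
      ((p.1, p.2.1), p.2.2.1)) Q (1 + Fintype.card ι * (640 * ll S * (g ^ e) ^ 6)) ?_
    · refine c1.trans (Nat.mul_le_mul_left _ ?_)
      set K1 : Finset (ℕ × (ι → ℕ × ℤ)) := Q.image (fun p => (p.1, p.2.1)) with hK1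
      have c2 : K1.card ≤ 2 * (Fintype.card ι + 1) ^ (Fintype.card ι * r) *
          (Fintype.card ι * ll S + 1) := by
        apply hKeys F S hok htr ι G L (Fintype.card ι + 1) r x hm (by omega) hG hU hx'
        intro p hp
        rw [hK1, mem_image] at hp
        obtain ⟨p', hp', rfl⟩ := hp
        obtain ⟨w, hw, e1, e2, e3⟩ := hQ p' hp'
        have e4 := k5 w hw x hx' (by rw [e1]; exact e3)
        rw [e1] at e4
        have e5 : om w = p'.2.1 := by rw [← e2]
        rw [e5] at e4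
        exact e4
      have c3 : Q.image (fun p : ℕ × ((ι → ℕ × ℤ) × (ι × Option (ι × (ℕ × (ℕ × ℤ))))) =>
          ((p.1, p.2.1), p.2.2.1)) ⊆ K1 ×ˢ univ := by
        intro p hp
        rw [mem_image] at hp
        obtain ⟨p', hp', rfl⟩ := hp
        rw [mem_product]
        exact ⟨mem_image_of_mem _ hp', mem_univ _⟩
      refine (card_le_card c3).trans ?_
      rw [card_product, card_univ]
      exact Nat.mul_le_mul_right _ c2
    · intro p _
      obtain ⟨⟨t, ω⟩, i⟩ := p
      set Qf := Q.filter (fun p : ℕ × ((ι → ℕ × ℤ) × (ι × Option (ι × (ℕ × (ℕ × ℤ))))) =>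
        ((p.1, p.2.1), p.2.2.1) = ((t, ω), i)) with hQf
      have e1 : Qf.card = (Qf.image (fun p => p.2.2.2)).card := by
        rw [card_image_of_injOn]
        intro p hp p' hp' hpp
        simp only [hQf, coe_filter, Set.mem_ofPred_eq, Prod.mk.injEq] at hp hp'
        obtain ⟨_, ⟨a1, a2⟩, a3⟩ := hp
        obtain ⟨_, ⟨b1, b2⟩, b3⟩ := hp'
        exact Prod.ext (a1.trans b1.symm) (Prod.ext (a2.trans b2.symm)
          (Prod.ext (a3.trans b3.symm) hpp))
      rw [e1]
      apply card_option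
      intro i' K hK
      by_cases hKe : K = ∅
      · rw [hKe, card_empty]; exact Nat.zero_le _
      have hωU : ω i' ∈ S.U := by
        obtain ⟨p, hp⟩ := nonempty_iff_ne_empty.2 hKe
        have hp2 := hK p hp
        rw [mem_image] at hp2
        obtain ⟨p', hp', hpe⟩ := hp2
        rw [hQf, mem_filter] at hp'
        obtain ⟨w, hw, f1, f2, f3⟩ := hQ p' hp'.1
        have f4 := k6 w hw i'
        have f5 : om w = ω := by
          have := hp'.2
          simp only [Prod.mk.injEq] at this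
          rw [← this.1.2, ← f2]
        rw [f5] at f4
        exact f4
      apply hOpt F S hok htr (g ^ e) (by
        calc 2 ≤ g := hg
          _ = g ^ 1 := (pow_one g).symm
          _ ≤ g ^ e := Nat.pow_le_pow_right (by omega) he) (ω i') hωU
      intro p hp
      have hp2 := hK p hp
      rw [mem_image] at hp2
      obtain ⟨p', hp', hpe⟩ := hp2
      rw [hQf, mem_filter] at hp'
      obtain ⟨w, hw, f1, f2, f3⟩ := hQ p' hp'.1
      have f5 : om w = ω := by
        have := hp'.2
        simp only [Prod.mk.injEq] at this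
        rw [← this.1.2, ← f2]
      have f6 : oo w = some (i', (p.1, p.2)) := by
        rw [← f2] at hpe
        exact hpe
      have f7 := (k8 w hw i' p.1 p.2 f6).2.1
      rw [f5] at f7
      exact f7
  · -- the proportion
    intro w hw
    have hwA : ∀ l, w l ∈ S.Uh := (mem_filter.1 hw).2.1.mem
    have hmem : ∀ u ∈ bad.filter (fun u => τ u = τ w ∧ (om u, (ii u, oo u)) = (om w, (ii w, oo w)) ∧
        ∀ l, S.R (τ w) (w l) (u l)), (∀ l, u l ∈ S.Uh) ∧ (∀ l, S.R (τ w) (w l) (u l)) ∧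
        S.R (jj w + 1) (w (ii w)) (u (ii w)) := by
      intro u hu
      rw [mem_filter] at hu
      obtain ⟨hub, hu1, hu2, hu3⟩ := hu
      simp only [Prod.mk.injEq] at hu2
      obtain ⟨hu4, hu5, hu6⟩ := hu2
      have huA : ∀ l, u l ∈ S.Uh := (mem_filter.1 hub).2.1.mem
      refine ⟨huA, hu3, ?_⟩
      -- the centres at time t agree
      have hkt : τ w ≤ S.k := by have := k1 w hw; have := k2 w hw; omega
      have hcen : ∀ l, S.cenU (τ w) (u l) = S.cenU (τ w) (w l) := fun l =>
        (htr.cen_eq (τ w) hkt (w l) (mem_insert_of_mem (hwA l)) (u l)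
          (mem_insert_of_mem (huA l)) (hu3 l)).symm
      have hcen' : (fun l => S.cenU (τ w) (u l)) = (fun l => S.cenU (τ w) (w l)) := funext hcen
      cases ho : oo w with
      | some p =>
        obtain ⟨i', j', y⟩ := p
        have ho' : oo u = some (i', (j', y)) := by rw [hu6, ho]
        obtain ⟨g1, -, g3⟩ := k8 w hw i' j' y ho
        obtain ⟨h1, -, h3⟩ := k8 u hub i' j' y ho'
        rw [hu1, hu5, hcen', hcen (ii w), hu4] at h3
        have hj : jj u = jj w := by rw [← h1, ← g1]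
        rw [hj] at h3
        apply close htr hb (hwA _) (huA _) (k2 w hw)
        rw [abs_le] at g3 h3 ⊢
        constructor <;> linarith [g3.1, g3.2, h3.1, h3.2]
      | none =>
        have ho' : oo u = none := by rw [hu6, ho]
        have g3 := k7 w hw ho
        have h3 := k7 u hub ho'
        rw [hu1, hu5, hcen', hcen (ii w), hu4] at h3
        have hD : ∀ a b, a ≤ b → S.D b ≤ S.D a := htr.Danti
        have cl : ∀ j1, j1 ≤ jj w → j1 ≤ jj u → j1 + 12 ≤ S.k →
            S.R (j1 + 1) (w (ii w)) (u (ii w)) := by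
          intro j1 ha hb1 hk
          apply close htr hb (hwA _) (huA _) hk
          have d1 := hD (j1 + 3) (jj w + 3) (by omega)
          have d2 := hD (j1 + 3) (jj u + 3) (by omega)
          have m0 : (0 : ℤ) ≤ 2 * Fintype.card ι + 2 := by positivity
          have d3 := mul_le_mul_of_nonneg_left d1 m0
          have d4 := mul_le_mul_of_nonneg_left d2 m0
          rw [abs_le] at g3 h3 ⊢
          constructor <;> linarith [g3.1, g3.2, h3.1, h3.2]
        rcases lt_trichotomy (jj w) (jj u) with hlt | heq | hgt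
        · exfalso
          have c1 := cl (jj w) le_rfl hlt.le (k2 w hw)
          have c2 := (htr.mnR (jj w) _ (mem_insert_of_mem (hwA _)) _ (mem_insert_of_mem (huA _)) c1)
          have c3 : S.Mn (jj w) (u (ii w)) := by
            have := k4 u hub (jj w) (by rw [hu1]; exact k1 w hw) hlt
            rwa [hu5] at this
          exact (k3 w hw).2.1 (c2.2 c3)
        · exact cl (jj w) le_rfl heq.le (k2 w hw)
        · exfalso
          have c1 := cl (jj u) hgt.le le_rfl (k2 u hub)
          have c2 := (htr.mnR (jj u) _ (mem_insert_of_mem (hwA _)) _ (mem_insert_of_mem (huA _)) c1)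
          have c3 : S.Mn (jj u) (w (ii w)) :=
            k4 w hw (jj u) (by rw [← hu1]; exact k1 u hub) hgt
          have c4 := (k3 u hub).2.1
          rw [hu5] at c4
          exact c4 (c2.1 c3)
    rw [one_mul]
    have hfin := card_block htr (k1 w hw) (k3 w hw).2.2 _ (fun u hu => (hmem u hu).1)
      (fun u hu => (hmem u hu).2.1) (fun u hu => (hmem u hu).2.2)
    convert hfin

end Pool.Agent.SPD
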