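import Pool.Agent.SPD.Stmts

set_option autoImplicit false

/-!
B1k: bad tuples of the first kind, the geometry.
-/

open Finset

namespace Pool.Agent.SPD

namespace B1k

variable {F : Type} [Field F] {S : Dat F}

omit [Field F] in
theorem uh_U {x : ℕ × ℤ} (hx : x ∈ S.Uh) : x ∈ S.U := Finset.mem_insert_of_mem hx

/-- A point which is main on `[a, c)` is in the cluster at time `c` of the centre of its cluster
at time `a`. -/
theorem follow (hT : Tr S) {x : ℕ × ℤ} (hx : x ∈ S.U) (a : ℕ) (ha : a ≤ S.k) :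
    ∀ n : ℕ, a + n ≤ S.k → (∀ t', a ≤ t' → t' < a + n → S.Mn t' x) →
      S.R (a + n) x (S.cenU a x) := by
  intro n
  induction n with
  | zero => intro _ _; exact hT.toTrC.cen_R a ha x hx
  | succ n ih =>
    intro hn hM
    have h1 := ih (by omega) (fun t' h1 h2 => hM t' h1 (by omega))
    exact hT.toTrB.main (a + n) x hx _ (hT.toTrC.cen_mem a ha x hx) h1
      (hM (a + n) (by omega) (by omega))
      (hT.toTrC.cen_main a (a + n) (by omega) (by omega) x hx)

theorem follow' (hT : Tr S) {x : ℕ × ℤ} (hx : x ∈ S.U) (a c : ℕ) (hac : a ≤ c) (hc : c ≤ S.k)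
    (hM : ∀ t', a ≤ t' → t' < c → S.Mn t' x) : S.R c x (S.cenU a x) := by
  obtain ⟨n, rfl⟩ := Nat.exists_eq_add_of_le hac
  exact follow hT hx a (by omega) n hc hM

omit [Field F] in
/-- The estimate. -/
theorem estimate {ι : Type} [Fintype ι] (w w' u c : ι → ℕ × ℤ) (i : ι) (Δ Δ' : ℤ)
    (h1 : |SX S w - SX S w'| ≤ Δ') (h2 : ∀ l, |S.X (w' l) - S.X (u l)| ≤ Δ)
    (h3 : ∀ l, l ≠ i → |S.X (w l) - S.X (c l)| ≤ Δ) (h4 : Δ' ≤ Δ) (h5 : 0 ≤ Δ) :
    |S.X (w i) - (SX S u - SX S c + S.X (c i))| ≤ (2 * Fintype.card ι + 2) * Δ := by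
  classical
  have e1 : |SX S w' - SX S u| ≤ Fintype.card ι * Δ := by
    unfold SX
    rw [← Finset.sum_sub_distrib]
    refine (Finset.abs_sum_le_sum_abs _ _).trans ?_
    refine (Finset.sum_le_sum (fun l _ => h2 l)).trans ?_
    rw [Finset.sum_const, Finset.card_univ, nsmul_eq_mul]
  have e2 : |∑ l ∈ univ.erase i, (S.X (w l) - S.X (c l))| ≤ Fintype.card ι * Δ := by
    refine (Finset.abs_sum_le_sum_abs _ _).trans ?_
    refine (Finset.sum_le_sum (fun l hl => h3 l (Finset.mem_erase.mp hl).1)).trans ?_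
    rw [Finset.sum_const, nsmul_eq_mul]
    refine mul_le_mul_of_nonneg_right ?_ h5
    have := Finset.card_erase_le (s := (univ : Finset ι)) (a := i)
    rw [Finset.card_univ] at this
    exact_mod_cast this
  have e3 : SX S w = S.X (w i) + ∑ l ∈ univ.erase i, S.X (w l) := by
    unfold SX
    exact (Finset.add_sum_erase _ _ (Finset.mem_univ i)).symm
  have e4 : SX S c = S.X (c i) + ∑ l ∈ univ.erase i, S.X (c l) := by
    unfold SX
    exact (Finset.add_sum_erase _ _ (Finset.mem_univ i)).symm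
  rw [Finset.sum_sub_distrib] at e2
  have e5 : S.X (w i) - (SX S u - SX S c + S.X (c i))
      = (SX S w - SX S w') + (SX S w' - SX S u)
        - (∑ l ∈ univ.erase i, S.X (w l) - ∑ l ∈ univ.erase i, S.X (c l)) := by
    rw [e3, e4]; ring
  rw [e5]
  refine (abs_sub _ _).trans ?_
  refine (add_le_add (abs_add_le _ _) le_rfl).trans ?_
  have : (2 * (Fintype.card ι : ℤ) + 2) * Δ
      = (Δ + Fintype.card ι * Δ) + Fintype.card ι * Δ + Δ := by ring
  rw [this]
  linarith

end B1k

theorem B1k_proof : Stmt_B1k := by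
  intro F _ S hOk hT ι _ G L q g e hg he hG hqL hb w hw hB1
  classical
  obtain ⟨w', hw', hsum, i, j, hBig, hnB⟩ := hB1
  have hA := hT.toTrA
  have hjk : j < S.k := hBig.1
  have hJpi : S.Jp G j (w i) := ⟨hjk, Or.inl hBig.2.1⟩
  have hfin : j + L < S.k := hw.fin i j hJpi
  have hUw : ∀ l, w l ∈ S.U := fun l => B1k.uh_U (hw.mem l)
  have hUw' : ∀ l, w' l ∈ S.U := fun l => B1k.uh_U (hw'.mem l)
  -- the time `t`
  set P : ℕ → Prop := fun t => t = 0 ∨ (1 ≤ t ∧ ∃ l, ¬ S.Mn (t - 1) (w l)) ∨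
    (3 ≤ t ∧ ∃ l, ¬ S.Mn (t - 3) (w' l)) with hP
  set t : ℕ := Nat.findGreatest P j with ht
  have htj : t ≤ j := Nat.findGreatest_le j
  have hPt : P t := Nat.findGreatest_spec (Nat.zero_le j) (Or.inl rfl)
  have hmax : ∀ s, t < s → s ≤ j → ¬ P s := fun s h1 h2 => Nat.findGreatest_is_greatest h1 h2
  have hMw : ∀ l t', t ≤ t' → t' < j → S.Mn t' (w l) := by
    intro l t' h1 h2
    by_contra hn
    exact hmax (t' + 1) (by omega) (by omega) (Or.inr (Or.inl ⟨by omega, l, hn⟩))
  have hMw' : ∀ l t', t - 2 ≤ t' → t' + 3 ≤ j → S.Mn t' (w' l) := by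
    intro l t' h1 h2
    by_contra hn
    exact hmax (t' + 3) (by omega) (by omega) (Or.inr (Or.inr ⟨by omega, l, hn⟩))
  have hMwo : ∀ l, l ≠ i → ∀ t', t ≤ t' → t' < j + 3 → S.Mn t' (w l) := by
    intro l hl t' h1 h2
    rcases lt_or_ge t' j with h3 | h3
    · exact hMw l t' h1 h3
    · by_contra hn
      have := hw.sep l i hl t' j ⟨by omega, Or.inl hn⟩ hJpi
      omega
  -- distances
  have hDD : S.D (S.k - q) ≤ S.D (j + 3) := hA.Danti _ _ (by omega)
  have hDt : S.D (S.k - q) ≤ S.D t := hA.Danti _ _ (by omega)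
  have hD0 : 0 ≤ S.D (j + 3) := (hA.Dpos _).le
  have h3 : ∀ l, l ≠ i → |S.X (w l) - S.X (S.cenU t (w l))| ≤ S.D (j + 3) := by
    intro l hl
    exact hA.near (j + 3) (by omega) _ (hUw l) _ (hT.toTrC.cen_mem t (by omega) _ (hUw l))
      (B1k.follow' hT (hUw l) t (j + 3) (by omega) (by omega) (hMwo l hl))
  have hkey : ∀ v : ι → ℕ × ℤ, (∀ l, v l ∈ S.Uh) → (∀ l, S.R t (w l) (v l)) →
      KeyOf S G L (Fintype.card ι + 1) v (t, fun l => S.cenU (t - 2) (w' l)) := by
    intro v hv hR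
    refine ⟨by show t ≤ S.k; omega, w', hw', rfl, ?_, ?_⟩
    · show |SX S v - SX S w'| ≤ ((Fintype.card ι + 1 : ℕ) : ℤ) * S.D t
      have e1 : |SX S w - SX S v| ≤ Fintype.card ι * S.D t := by
        unfold SX
        rw [← Finset.sum_sub_distrib]
        refine (Finset.abs_sum_le_sum_abs _ _).trans ?_
        refine (Finset.sum_le_sum (fun l _ => hA.near t (by omega) _ (hUw l) _
          (B1k.uh_U (hv l)) (hR l))).trans ?_
        rw [Finset.sum_const, Finset.card_univ, nsmul_eq_mul]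
      have e2 : SX S v - SX S w' = -(SX S w - SX S v) + (SX S w - SX S w') := by ring
      rw [e2]
      refine (abs_add_le _ _).trans ?_
      rw [abs_neg]
      push_cast
      rw [add_mul, one_mul]
      linarith
    · rcases hPt with h0 | ⟨h1, l, hl⟩ | h2
      · exact Or.inl h0
      · refine Or.inr (Or.inl ⟨l, ?_⟩)
        show ¬ S.Mn (t - 1) (v l)
        have h4 : S.R (t - 1 + 1) (w l) (v l) := by
          have : t - 1 + 1 = t := by omega
          rw [this]
          exact hR l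
        rw [← hT.toTrB.mnR (t - 1) _ (hUw l) _ (B1k.uh_U (hv l)) h4]
        exact hl
      · exact Or.inr (Or.inr h2)
  have hωU : ∀ l, S.cenU (t - 2) (w' l) ∈ S.U := fun l => hT.toTrC.cen_mem _ (by omega) _ (hUw' l)
  by_cases hcase : ∃ t₁, j ≤ t₁ + 2 ∧ t₁ ≤ j + 2 ∧ ∃ l, ¬ S.Mn t₁ (w' l)
  · -- case B
    set t₁ : ℕ := Nat.find hcase with ht₁
    obtain ⟨ha, hb1, i', hi'⟩ := Nat.find_spec hcase
    have hmin : ∀ s, s < t₁ → ¬ (j ≤ s + 2 ∧ s ≤ j + 2 ∧ ∃ l, ¬ S.Mn s (w' l)) :=
      fun s hs => Nat.find_min hcase hs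
    rw [← ht₁] at ha hb1 hi'
    have hJp1 : S.Jp G t₁ (w' i') := ⟨by omega, Or.inl hi'⟩
    have hMo : ∀ l, l ≠ i' → ∀ t', t - 2 ≤ t' → t' < j + 3 → S.Mn t' (w' l) := by
      intro l hl t' h1 h2
      rcases lt_or_ge (t' + 2) j with h4 | h4
      · exact hMw' l t' h1 (by omega)
      · by_contra hn
        have := hw'.sep l i' hl t' t₁ ⟨by omega, Or.inl hn⟩ hJp1
        omega
    have hMi : ∀ t', t - 2 ≤ t' → t' < t₁ → S.Mn t' (w' i') := by
      intro t' h1 h2
      rcases lt_or_ge (t' + 2) j with h4 | h4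
      · exact hMw' i' t' h1 (by omega)
      · by_contra hn
        exact hmin t' h2 ⟨h4, by omega, i', hn⟩
    have hdist : ∀ l, l ≠ i' → |S.X (w' l) - S.X (S.cenU (t - 2) (w' l))| ≤ S.D (j + 3) := by
      intro l hl
      exact hA.near (j + 3) (by omega) _ (hUw' l) _ (hωU l)
        (B1k.follow' hT (hUw' l) (t - 2) (j + 3) (by omega) (by omega) (hMo l hl))
    have hdist' : |S.X (w' i') - S.X (S.cenU (j + 3) (w' i'))| ≤ S.D (j + 3) :=
      hA.near (j + 3) (by omega) _ (hUw' i') _ (hT.toTrC.cen_mem _ (by omega) _ (hUw' i'))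
        (hT.toTrC.cen_R (j + 3) (by omega) _ (hUw' i'))
    refine ⟨t, j, i, fun l => S.cenU (t - 2) (w' l), some (i', (j, S.cenU (j + 3) (w' i'))),
      htj, by omega, hBig, hMw i, hkey, hωU, fun h => by simp at h, ?_⟩
    intro i₂ j₂ y hio
    simp only [Option.some.injEq, Prod.mk.injEq] at hio
    obtain ⟨rfl, rfl, rfl⟩ := hio
    refine ⟨rfl, ⟨w' i', hw'.mem i', t₁, ?_, hi', ha, hb1, by omega, ?_, rfl⟩, ?_⟩
    · exact B1k.follow' hT (hUw' i') (t - 2) t₁ (by omega) (by omega) hMi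
    · intro t' h1 h2
      exact hnB i' t' (by omega) h2
    · have hest := B1k.estimate (S := S) w w'
        (Function.update (fun l => S.cenU (t - 2) (w' l)) i' (S.cenU (j + 3) (w' i')))
        (fun l => S.cenU t (w l)) i (S.D (j + 3)) (S.D (S.k - q)) hsum ?_ h3 hDD hD0
      · have e1 : SX S (Function.update (fun l => S.cenU (t - 2) (w' l)) i'
            (S.cenU (j + 3) (w' i')))
            = SX S (fun l => S.cenU (t - 2) (w' l)) - S.X (S.cenU (t - 2) (w' i'))
              + S.X (S.cenU (j + 3) (w' i')) := by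
          unfold SX
          rw [← Finset.add_sum_erase univ _ (Finset.mem_univ i'),
            ← Finset.add_sum_erase univ (fun l => S.X (S.cenU (t - 2) (w' l)))
              (Finset.mem_univ i'), Function.update_self]
          have e2 : ∑ x ∈ univ.erase i', S.X (Function.update
              (fun l => S.cenU (t - 2) (w' l)) i' (S.cenU (j + 3) (w' i')) x)
              = ∑ x ∈ univ.erase i', S.X (S.cenU (t - 2) (w' x)) := by
            refine Finset.sum_congr rfl (fun l hl => ?_)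
            rw [Function.update_of_ne (Finset.mem_erase.mp hl).1]
          rw [e2]
          ring
        rw [e1] at hest
        exact hest
      · intro l
        by_cases hl : l = i'
        · subst hl
          rw [Function.update_self]
          exact hdist'
        · rw [Function.update_of_ne hl]
          exact hdist l hl
  · -- case A
    have hMo : ∀ l, ∀ t', t - 2 ≤ t' → t' < j + 3 → S.Mn t' (w' l) := by
      intro l t' h1 h2
      rcases lt_or_ge (t' + 2) j with h4 | h4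
      · exact hMw' l t' h1 (by omega)
      · by_contra hn
        exact hcase ⟨t', h4, by omega, l, hn⟩
    have hdist : ∀ l, |S.X (w' l) - S.X (S.cenU (t - 2) (w' l))| ≤ S.D (j + 3) := by
      intro l
      exact hA.near (j + 3) (by omega) _ (hUw' l) _ (hωU l)
        (B1k.follow' hT (hUw' l) (t - 2) (j + 3) (by omega) (by omega) (hMo l))
    refine ⟨t, j, i, fun l => S.cenU (t - 2) (w' l), none,
      htj, by omega, hBig, hMw i, hkey, hωU, fun _ => ?_, fun _ _ _ h => by simp at h⟩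
    exact B1k.estimate (S := S) w w' (fun l => S.cenU (t - 2) (w' l))
      (fun l => S.cenU t (w l)) i (S.D (j + 3)) (S.D (S.k - q)) hsum hdist h3 hDD hD0

end Pool.Agent.SPD
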