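import Pool.Agent.SPD.Stmts

set_option autoImplicit false

open Finset

namespace Pool.Agent.SPD

namespace B2c

variable {F : Type} [Field F] {S : Dat F} {ι : Type} [Fintype ι]

open Classical in
/-- the properties given by `B2k` for the coordinate `i` -/
def PP (S : Dat F) (G L : ℕ) (i : ι) (w : ι → ℕ × ℤ) (t j : ℕ)
    (ω' : {l : ι // l ≠ i} → ℕ × ℤ) : Prop :=
  t ≤ j ∧ j + 12 ≤ S.k ∧ S.Jp G j (w i) ∧
    (∀ v : {l : ι // l ≠ i} → ℕ × ℤ, (∀ l, v l ∈ S.Uh) → (∀ l, S.R t (w l.1) (v l)) →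
      KeyOf S G L (Fintype.card ι + 1) v (t, ω')) ∧
    S.D (j + 1) < 2 * (S.b : ℤ) ^ 2 *
      |SX S ω' - SX S (fun l : {l : ι // l ≠ i} => S.cenU t (w l.1))| ∧
    |SX S ω' - SX S (fun l : {l : ι // l ≠ i} => S.cenU t (w l.1))| < 2 * S.D j

omit [Field F] in
theorem Uh_sub_U {x : ℕ × ℤ} (hx : x ∈ S.Uh) : x ∈ S.U := mem_insert_of_mem hx

/-- the time `j` is determined up to one -/
theorem j_close (htr : Tr S) (hb : 100 ≤ S.b) {j₁ j₂ : ℕ} {δ : ℤ} (h1 : j₁ + 12 ≤ S.k)
    (hδ : S.D (j₁ + 1) < 2 * (S.b : ℤ) ^ 2 * |δ|) (hδ' : |δ| < 2 * S.D j₂) : j₂ ≤ j₁ + 1 := by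
  by_contra hcon
  have h2 : j₁ + 2 ≤ j₂ := by omega
  have h3 := htr.Dsucc (j₁ + 1) (by omega)
  have h4 := htr.Danti (j₁ + 1 + 1) j₂ (by omega)
  have h5 := htr.Dpos j₂
  have hb' : (100 : ℤ) ≤ (S.b : ℤ) := by exact_mod_cast hb
  have h6 : (S.b : ℤ) ^ 3 * S.D j₂ ≤ S.D (j₁ + 1) := by
    rw [h3]
    exact mul_le_mul_of_nonneg_left h4 (by positivity)
  have h7 : 2 * (S.b : ℤ) ^ 2 * |δ| < 2 * (S.b : ℤ) ^ 2 * (2 * S.D j₂) :=
    mul_lt_mul_of_pos_left hδ' (by positivity)
  have h8 : (S.b : ℤ) ^ 3 * S.D j₂ < 4 * (S.b : ℤ) ^ 2 * S.D j₂ := by linarith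
  have h9 : 0 < (S.b : ℤ) ^ 2 * S.D j₂ := by positivity
  nlinarith

open Classical in
theorem one (hCnt : Stmt_Cnt) (hKeys : Stmt_Keys) (hJplB : Stmt_JplB) (hok : Ok S) (htr : Tr S)
    {G L r : ℕ} (hG : 2 ≤ G) (hL : 2 ≤ L)
    (hb : 100 * (Fintype.card ι + 1) ≤ S.b) (hr : S.Uh.card ≤ G ^ r) (i : ι) :
    S.k * ((Fintype.piFinset (fun _ : ι => S.Uh)).filter
      (fun w => ∃ t j ω', PP S G L i w t j ω')).card ≤
      (6 * G * ll S) * (2 * (Fintype.card ι) ^ ((Fintype.card ι - 1) * r) *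
        ((Fintype.card ι - 1) * ll S + 1)) * S.Uh.card ^ Fintype.card ι := by
  set A := Fintype.piFinset (fun _ : ι => S.Uh) with hA
  set bad := A.filter (fun w => ∃ t j ω', PP S G L i w t j ω') with hbad
  have hAcard : A.card = S.Uh.card ^ Fintype.card ι := by
    rw [hA, Fintype.card_piFinset, prod_const, card_univ]
  rw [← hAcard]
  have hch : ∀ w : ι → ℕ × ℤ, ∃ t j ω', (∃ t j ω', PP S G L i w t j ω') → PP S G L i w t j ω' := by
    intro w
    by_cases h : ∃ t j ω', PP S G L i w t j ω'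
    · obtain ⟨t, j, ω', h'⟩ := h
      exact ⟨t, j, ω', fun _ => h'⟩
    · exact ⟨0, 0, fun _ => (0, 0), fun h' => absurd h' h⟩
  choose τ jj κ hP using hch
  have hcardsub : Fintype.card {l : ι // l ≠ i} = Fintype.card ι - 1 := by
    rw [Fintype.card_subtype_compl]
    simp
  have hpos : 1 ≤ Fintype.card ι := Fintype.card_pos_iff.2 ⟨i⟩
  have memA : ∀ {w : ι → ℕ × ℤ}, w ∈ A ↔ ∀ l, w l ∈ S.Uh := by
    intro w
    rw [hA, Fintype.mem_piFinset]
  refine hCnt (ι → ℕ × ℤ) ℕ ({l : ι // l ≠ i} → ℕ × ℤ) A bad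
    (fun t w u => ∀ l, l ≠ i → S.R t (w l) (u l)) τ κ _ S.k (6 * G * ll S)
    (filter_subset _ _) ?_ ?_ ?_
  · intro t
    exact ⟨fun w l _ => htr.refl t _, fun h l hl => htr.symm t _ _ (h l hl),
      fun h h' l hl => htr.trans t _ _ _ (h l hl) (h' l hl)⟩
  · intro x hx Q hQ
    have h := hKeys F S hok htr {l : ι // l ≠ i} G L (Fintype.card ι + 1) r (fun l => x l.1)
      (by rw [hcardsub]; omega) hL hG hr (fun l => memA.1 hx _) Q (by
        intro q hq
        obtain ⟨w, hw, h1, h2, h3⟩ := hQ q hq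
        have h4 := hP w (mem_filter.1 hw).2
        have h5 := h4.2.2.2.1 (fun l => x l.1) (fun l => memA.1 hx _) (fun l => by
          rw [h1]
          exact h3 l.1 l.2)
        rw [h1, h2] at h5
        exact h5)
    rw [hcardsub, Nat.sub_add_cancel hpos] at h
    exact h
  · intro w hw
    have hwA := memA.1 (mem_filter.1 hw).1
    have hPw := hP w (mem_filter.1 hw).2
    set t := τ w with ht
    set C' := (Fintype.piFinset (fun _ : {l : ι // l ≠ i} => S.Uh)).filter
      (fun v => ∀ l : {l : ι // l ≠ i}, S.R t (w l.1) (v l)) with hC'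
    set blk := bad.filter (fun u => τ u = t ∧ κ u = κ w ∧ ∀ l, l ≠ i → S.R t (w l) (u l)) with hblk
    set e := Equiv.funSplitAt i (ℕ × ℤ) with he
    have he1 : ∀ u : ι → ℕ × ℤ, (e u).1 = u i := fun u => rfl
    have he2 : ∀ (u : ι → ℕ × ℤ) (l : {l : ι // l ≠ i}), (e u).2 l = u l.1 := fun u l => rfl
    have hclass : (A.filter (fun u => ∀ l, l ≠ i → S.R t (w l) (u l))).card =
        S.Uh.card * C'.card := by
      rw [← card_product]
      apply Finset.card_equiv e
      intro u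
      rw [mem_filter, memA, mem_product, hC', mem_filter, Fintype.mem_piFinset]
      constructor
      · rintro ⟨h1, h2⟩
        exact ⟨h1 i, fun l => h1 l.1, fun l => h2 l.1 l.2⟩
      · rintro ⟨h1, h2, h3⟩
        refine ⟨fun l => ?_, fun l hl => h3 ⟨l, hl⟩⟩
        by_cases hl : l = i
        · subst hl
          exact h1
        · exact h2 ⟨l, hl⟩
    suffices key : S.k * blk.card ≤
        6 * G * ll S * (A.filter (fun u => ∀ l, l ≠ i → S.R t (w l) (u l))).card by
      convert key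
    rw [hclass]
    rcases blk.eq_empty_or_nonempty with hemp | hne
    · rw [hemp, card_empty, mul_zero]
      exact Nat.zero_le _
    · obtain ⟨u₀, hu₀, hmin⟩ := exists_min_image blk jj hne
      -- the number `δ` is the same for all elements of the block
      have hδ : ∀ u ∈ blk, SX S (κ u) - SX S (fun l : {l : ι // l ≠ i} => S.cenU (τ u) (u l.1)) =
          SX S (κ w) - SX S (fun l : {l : ι // l ≠ i} => S.cenU t (w l.1)) := by
        intro u hu
        obtain ⟨hu1, hu2, hu3, hu4⟩ := mem_filter.1 hu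
        have hPw1 := hPw.1
        have hPw2 := hPw.2.1
        rw [hu2, hu3]
        congr 2
        funext l
        exact (htr.cen_eq t (by omega) _ (Uh_sub_U (hwA l.1)) _
          (Uh_sub_U (memA.1 (mem_filter.1 hu1).1 l.1)) (hu4 l.1 l.2)).symm
      have hPu : ∀ u ∈ blk, PP S G L i u (τ u) (jj u) (κ u) := fun u hu =>
        hP u (mem_filter.1 (mem_filter.1 hu).1).2
      have hj : ∀ u ∈ blk, jj u = jj u₀ ∨ jj u = jj u₀ + 1 := by
        intro u hu
        have h1 := hmin u hu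
        have h2 := hPu u₀ hu₀
        have h3 := hPu u hu
        have h4 := h2.2.2.2.2.1
        have h5 := h3.2.2.2.2.2
        rw [hδ u₀ hu₀] at h4
        rw [hδ u hu] at h5
        have := j_close htr (by omega) h2.2.1 h4 h5
        omega
      set J := S.Uh.filter (fun x => S.Jp G (jj u₀) x) ∪
        S.Uh.filter (fun x => S.Jp G (jj u₀ + 1) x) with hJ
      have hJcard : J.card ≤ 6 * G * ll S * S.V0.card := by
        have h2 := (hPu u₀ hu₀).2.1
        have h3 := hJplB F S hok htr G hG (jj u₀) (by omega)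
        have h4 := hJplB F S hok htr G hG (jj u₀ + 1) (by omega)
        have h5 := card_union_le (S.Uh.filter (fun x => S.Jp G (jj u₀) x))
          (S.Uh.filter (fun x => S.Jp G (jj u₀ + 1) x))
        calc J.card ≤ _ := h5
          _ ≤ 3 * G * ll S * S.V0.card + 3 * G * ll S * S.V0.card := Nat.add_le_add h3 h4
          _ = _ := by ring
      have hblkcard : blk.card ≤ J.card * C'.card := by
        rw [← card_product]
        apply Finset.card_le_card_of_injOn e _ e.injective.injOn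
        intro u hu
        have hu' : u ∈ blk := hu
        obtain ⟨hu1, hu2, hu3, hu4⟩ := mem_filter.1 hu'
        have huA := memA.1 (mem_filter.1 hu1).1
        rw [mem_coe, mem_product, hC', mem_filter, Fintype.mem_piFinset]
        refine ⟨?_, fun l => huA l.1, fun l => hu4 l.1 l.2⟩
        rw [he1, hJ, mem_union, mem_filter, mem_filter]
        have h3 := (hPu u hu').2.2.1
        rcases hj u hu' with h | h
        · left
          rw [← h]
          exact ⟨huA i, h3⟩
        · right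
          rw [← h]
          exact ⟨huA i, h3⟩
      calc S.k * blk.card ≤ S.k * (J.card * C'.card) := Nat.mul_le_mul_left _ hblkcard
        _ ≤ S.k * ((6 * G * ll S * S.V0.card) * C'.card) :=
          Nat.mul_le_mul_left _ (Nat.mul_le_mul_right _ hJcard)
        _ = 6 * G * ll S * (S.Uh.card * C'.card) := by
          rw [htr.Uh_card]
          ring

end B2c

open Classical in
theorem B2c_proof (hB2k : Stmt_B2k) (hKeys : Stmt_Keys) (hCnt : Stmt_Cnt) (hJplB : Stmt_JplB) :
    Stmt_B2c := by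
  intro F _ S hok htr ι _ G L q r hG hL hb hr
  set m := Fintype.card ι with hm
  set A := Fintype.piFinset (fun _ : ι => S.Uh) with hA
  have hsub : A.filter (fun w => Reg S G L w ∧ B2 S G L q w) ⊆
      univ.biUnion (fun i : ι => A.filter (fun w => ∃ t j ω', B2c.PP S G L i w t j ω')) := by
    intro w hw
    obtain ⟨hw1, hw2, hw3⟩ := mem_filter.1 hw
    obtain ⟨i, t, j, ω', h⟩ := hB2k F S hok htr ι G L q hG hL hb w hw2 hw3
    rw [mem_biUnion]
    exact ⟨i, mem_univ _, mem_filter.2 ⟨hw1, t, j, ω', h⟩⟩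
  have hone := fun i : ι => B2c.one hCnt hKeys hJplB hok htr hG (by omega : 2 ≤ L) hb hr i
  have h1 : (A.filter (fun w => Reg S G L w ∧ B2 S G L q w)).card ≤
      ∑ i : ι, (A.filter (fun w => ∃ t j ω', B2c.PP S G L i w t j ω')).card :=
    (card_le_card hsub).trans card_biUnion_le
  have hll : 1 ≤ ll S := by
    unfold ll
    omega
  have h2 : ∀ i : ι, S.k * (A.filter (fun w => ∃ t j ω', B2c.PP S G L i w t j ω')).card ≤
      12 * (m + 1) * (m + 1) ^ (m * r) * G * ll S ^ 2 * S.Uh.card ^ m := by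
    intro i
    refine (hone i).trans ?_
    have hpos : 1 ≤ m := Fintype.card_pos_iff.2 ⟨i⟩
    have e1 : m ^ ((m - 1) * r) ≤ (m + 1) ^ (m * r) := by
      calc m ^ ((m - 1) * r) ≤ (m + 1) ^ ((m - 1) * r) := Nat.pow_le_pow_left (by omega) _
        _ ≤ (m + 1) ^ (m * r) := Nat.pow_le_pow_right (by omega)
            (Nat.mul_le_mul_right _ (by omega))
    have e2 : (m - 1) * ll S + 1 ≤ (m + 1) * ll S := by
      calc (m - 1) * ll S + 1 ≤ (m - 1) * ll S + 2 * ll S := by omega
        _ = (m - 1 + 2) * ll S := by ring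
        _ = (m + 1) * ll S := by
          congr 1
          omega
    calc (6 * G * ll S) * (2 * m ^ ((m - 1) * r) * ((m - 1) * ll S + 1)) * S.Uh.card ^ m
        ≤ (6 * G * ll S) * (2 * (m + 1) ^ (m * r) * ((m + 1) * ll S)) * S.Uh.card ^ m := by
          apply Nat.mul_le_mul_right
          apply Nat.mul_le_mul_left
          exact Nat.mul_le_mul (Nat.mul_le_mul_left _ e1) e2
      _ = _ := by ring
  calc (A.filter (fun w => Reg S G L w ∧ B2 S G L q w)).card * S.k
      ≤ (∑ i : ι, (A.filter (fun w => ∃ t j ω', B2c.PP S G L i w t j ω')).card) * S.k :=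
        Nat.mul_le_mul_right _ h1
    _ = ∑ i : ι, S.k * (A.filter (fun w => ∃ t j ω', B2c.PP S G L i w t j ω')).card := by
        rw [sum_mul]
        exact sum_congr rfl fun i _ => mul_comm _ _
    _ ≤ ∑ _i : ι, 12 * (m + 1) * (m + 1) ^ (m * r) * G * ll S ^ 2 * S.Uh.card ^ m :=
        sum_le_sum fun i _ => h2 i
    _ = m * (12 * (m + 1) * (m + 1) ^ (m * r) * G * ll S ^ 2 * S.Uh.card ^ m) := by
        rw [sum_const, card_univ, smul_eq_mul]
    _ ≤ 20 * (m + 1) ^ 3 * (m + 1) ^ (m * r) * G * ll S ^ 2 * S.Uh.card ^ m := by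
        have e3 : m * (12 * (m + 1)) ≤ 20 * (m + 1) ^ 3 := by
          have : m * (12 * (m + 1)) ≤ (m + 1) * (12 * (m + 1)) := Nat.mul_le_mul_right _ (by omega)
          nlinarith [Nat.zero_le m, Nat.zero_le (m ^ 2), Nat.zero_le (m ^ 3)]
        calc m * (12 * (m + 1) * (m + 1) ^ (m * r) * G * ll S ^ 2 * S.Uh.card ^ m)
            = (m * (12 * (m + 1))) * ((m + 1) ^ (m * r) * G * ll S ^ 2 * S.Uh.card ^ m) := by ring
          _ ≤ (20 * (m + 1) ^ 3) * ((m + 1) ^ (m * r) * G * ll S ^ 2 * S.Uh.card ^ m) :=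
            Nat.mul_le_mul_right _ e3
          _ = _ := by ring

end Pool.Agent.SPD
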