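import Pool.Agent.SPD.Stmts

set_option autoImplicit false

/-!
Superpolylogarithmic number of digit changes of `√2`: module B2k.
-/

open Finset

namespace Pool.Agent.SPD

namespace B2k

variable {F : Type} [Field F] {S : Dat F}

/-- two points which stay main remain in the same cluster -/
theorem follow (hT : Tr S) {x y : ℕ × ℤ} (hx : x ∈ S.U) (hy : y ∈ S.U) {s : ℕ}
    (h : S.R s x y) (n : ℕ) (h1 : ∀ t, s ≤ t → t < s + n → S.Mn t x)
    (h2 : ∀ t, s ≤ t → t < s + n → S.Mn t y) : S.R (s + n) x y := by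
  induction n with
  | zero => exact h
  | succ n ih =>
    have h3 := ih (fun t ht ht' => h1 t ht (by omega)) (fun t ht ht' => h2 t ht (by omega))
    exact hT.main (s + n) x hx y hy h3 (h1 _ (by omega) (by omega)) (h2 _ (by omega) (by omega))

/-- a point which is main from `s` to `e` is close to the centre of its cluster at time `s` -/
theorem follow_cen (hT : Tr S) {x : ℕ × ℤ} (hx : x ∈ S.U) {s e : ℕ} (hse : s ≤ e) (he : e ≤ S.k)
    (h1 : ∀ t, s ≤ t → t < e → S.Mn t x) : |S.X x - S.X (S.cenU s x)| ≤ S.D e := by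
  have hs : s ≤ S.k := hse.trans he
  have h2 : S.R s x (S.cenU s x) := hT.cen_R s hs x hx
  have h3 : S.R (s + (e - s)) x (S.cenU s x) := by
    apply follow hT hx (hT.cen_mem s hs x hx) h2
    · intro t ht ht'
      exact h1 t ht (by omega)
    · intro t ht ht'
      exact hT.cen_main s t ht (by omega) x hx
  have h4 : s + (e - s) = e := by omega
  rw [h4] at h3
  exact hT.near e he x hx _ (hT.cen_mem s hs x hx) h3

omit [Field F] in
theorem SX_split {ι : Type} [Fintype ι] (i : ι) [Fintype {l : ι // l ≠ i}] (w : ι → ℕ × ℤ) :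
    SX S w = S.X (w i) + SX S (fun l : {l : ι // l ≠ i} => w l.1) := by
  classical
  unfold SX
  rw [Fintype.sum_eq_add_sum_subtype_ne (fun l => S.X (w l)) i]
  congr 1
  exact Finset.sum_congr (by ext x; simp) (fun _ _ => rfl)

theorem card_ne {ι : Type} [Fintype ι] (i : ι) [Fintype {l : ι // l ≠ i}] :
    Fintype.card {l : ι // l ≠ i} + 1 = Fintype.card ι := by
  classical
  have h := Fintype.sum_eq_add_sum_subtype_ne (fun _ : ι => 1) i
  simp only [sum_const, smul_eq_mul, mul_one, card_univ] at h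
  rw [h, add_comm]
  congr 1
  exact @Fintype.card_congr _ _ (_) (_) (Equiv.refl _)

omit [Field F] in
theorem abs_SX_sub_le {κ : Type} [Fintype κ] (f f' : κ → ℕ × ℤ) (d : ℤ)
    (h : ∀ l, |S.X (f l) - S.X (f' l)| ≤ d) : |SX S f - SX S f'| ≤ Fintype.card κ * d := by
  unfold SX
  rw [← Finset.sum_sub_distrib]
  refine (Finset.abs_sum_le_sum_abs _ _).trans ?_
  refine (Finset.sum_le_sum (fun l _ => h l)).trans ?_
  simp

end B2k

open Classical in
theorem B2k_proof : Stmt_B2k := by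
  intro F _ S hS hT ι _ G L q hG hq hb w hw hB
  obtain ⟨w', hw', hd, i, j, hR, hR', hJ, ho, ho'⟩ := hB
  have hjk : j + L < S.k := hw.fin i j hJ
  -- the last departure
  let Pr : ℕ → Prop := fun t => t = 0 ∨ (1 ≤ t ∧ ∃ l, l ≠ i ∧ ¬ S.Mn (t - 1) (w l)) ∨
    (3 ≤ t ∧ ∃ l, l ≠ i ∧ ¬ S.Mn (t - 3) (w' l))
  set t := Nat.findGreatest Pr j with ht
  have htj : t ≤ j := Nat.findGreatest_le j
  have htP : Pr t := Nat.findGreatest_spec (P := Pr) (Nat.zero_le j) (Or.inl rfl)
  have htmax : ∀ s, t < s → s ≤ j → ¬ Pr s := fun s h1 h2 =>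
    Nat.findGreatest_is_greatest h1 h2
  have hUw : ∀ l, w l ∈ S.U := fun l => mem_insert_of_mem (hw.mem l)
  have hUw' : ∀ l, w' l ∈ S.U := fun l => mem_insert_of_mem (hw'.mem l)
  have hmain : ∀ l, l ≠ i → ∀ s, t ≤ s → s < j + 11 → S.Mn s (w l) := by
    intro l hl s h1 h2
    by_contra hn
    by_cases h3 : s < j
    · exact htmax (s + 1) (by omega) (by omega) (Or.inr (Or.inl ⟨by omega, l, hl, by simpa using hn⟩))
    · have := ho l hl s ⟨by omega, Or.inl hn⟩
      omega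
  have hmain' : ∀ l, l ≠ i → ∀ s, t - 2 ≤ s → s < j + 11 → S.Mn s (w' l) := by
    intro l hl s h1 h2
    by_contra hn
    by_cases h3 : s + 3 ≤ j
    · exact htmax (s + 3) (by omega) (by omega)
        (Or.inr (Or.inr ⟨by omega, l, hl, by simpa using hn⟩))
    · have := ho' l hl s ⟨by omega, Or.inl hn⟩
      omega
  have hc1 := B2k.SX_split (S := S) i w
  have hc2 := B2k.SX_split (S := S) i w'
  have hcard := B2k.card_ne i
  set W : {l : ι // l ≠ i} → ℕ × ℤ := fun l => w l.1 with hW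
  set W' : {l : ι // l ≠ i} → ℕ × ℤ := fun l => w' l.1 with hW'
  have hnear : |S.X (w i) - S.X (w' i)| ≤ S.D j :=
    hT.near j (by omega) _ (hUw i) _ (hUw' i) hR
  have hfar : S.D (j + 1) < |S.X (w i) - S.X (w' i)| * (S.b : ℤ) ^ 2 :=
    hT.far (j + 1) (by omega) _ (hUw i) _ (hUw' i) hR'
  refine ⟨i, t, j, fun l => S.cenU (t - 2) (w' l.1), htj, by omega, hJ, ?_, ?_⟩
  · intro v hv hvR
    refine ⟨by show t ≤ S.k; omega, W', ⟨fun l => hw'.mem l.1, ?_, ?_⟩, rfl, ?_, ?_⟩
    · intro a b hab s s' h1 h2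
      exact hw'.sep a.1 b.1 (fun h => hab (Subtype.ext h)) s s' h1 h2
    · intro a s h
      exact hw'.fin a.1 s h
    · show |SX S v - SX S W'| ≤ ((Fintype.card ι + 1 : ℕ) : ℤ) * S.D t
      have h1 : |SX S v - SX S W| ≤ Fintype.card {l : ι // l ≠ i} * S.D t := by
        apply B2k.abs_SX_sub_le
        intro l
        rw [abs_sub_comm]
        exact hT.near t (by omega) _ (hUw l.1) _ (mem_insert_of_mem (hv l)) (hvR l)
      have h2 : S.D (S.k - q) ≤ S.D t := hT.Danti _ _ (by omega)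
      have h3 : S.D j ≤ S.D t := hT.Danti _ _ (by omega)
      have h4 : SX S v - SX S W' = (SX S v - SX S W) + (SX S w - SX S w') -
          (S.X (w i) - S.X (w' i)) := by
        rw [hc1, hc2]; ring
      have h5 : ((Fintype.card ι + 1 : ℕ) : ℤ) * S.D t =
          Fintype.card {l : ι // l ≠ i} * S.D t + S.D t + S.D t := by
        rw [← hcard]; push_cast; ring
      rw [h4, h5]
      have h6 := abs_le.1 h1
      have h7 := abs_le.1 hd
      have h8 := abs_le.1 hnear
      rw [abs_le]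
      constructor <;> linarith [h6.1, h6.2, h7.1, h7.2, h8.1, h8.2]
    · show t = 0 ∨ (∃ l, ¬ S.Mn (t - 1) (v l)) ∨ (3 ≤ t ∧ ∃ l, ¬ S.Mn (t - 3) (W' l))
      rcases htP with h | ⟨h, l, hl, hn⟩ | ⟨h, l, hl, hn⟩
      · exact Or.inl h
      · refine Or.inr (Or.inl ⟨⟨l, hl⟩, fun hn' => hn ?_⟩)
        refine (hT.mnR (t - 1) _ (hUw l) _ (mem_insert_of_mem (hv ⟨l, hl⟩)) ?_).2 hn'
        have : t - 1 + 1 = t := by omega
        rw [this]
        exact hvR ⟨l, hl⟩
      · exact Or.inr (Or.inr ⟨h, ⟨l, hl⟩, hn⟩)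
  · -- the estimates
    set ω' : {l : ι // l ≠ i} → ℕ × ℤ := fun l => S.cenU (t - 2) (w' l.1) with hω'
    set ω : {l : ι // l ≠ i} → ℕ × ℤ := fun l => S.cenU t (w l.1) with hω
    have h1 : |SX S W - SX S ω| ≤ Fintype.card {l : ι // l ≠ i} * S.D (j + 11) := by
      apply B2k.abs_SX_sub_le
      intro l
      exact B2k.follow_cen hT (hUw l.1) (by omega) (by omega) (hmain l.1 l.2)
    have h2 : |SX S W' - SX S ω'| ≤ Fintype.card {l : ι // l ≠ i} * S.D (j + 11) := by
      apply B2k.abs_SX_sub_le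
      intro l
      exact B2k.follow_cen hT (hUw' l.1) (by omega) (by omega) (hmain' l.1 l.2)
    have h3 : S.D (S.k - q) ≤ S.D (j + 11) := hT.Danti _ _ (by omega)
    have h4 : S.D (j + 11) ≤ S.D (j + 2) := hT.Danti _ _ (by omega)
    have h5 : S.D (j + 1) = (S.b : ℤ) ^ 3 * S.D (j + 2) := hT.Dsucc (j + 1) (by omega)
    have h6 : S.D (j + 1) ≤ S.D j := hT.Danti _ _ (by omega)
    have hp : 0 < S.D (j + 2) := hT.Dpos _
    set c : ℤ := (Fintype.card {l : ι // l ≠ i} : ℤ) with hc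
    have hc0 : 0 ≤ c := by positivity
    have hcb : 100 * (c + 2) ≤ (S.b : ℤ) := by
      have : 100 * (Fintype.card {l : ι // l ≠ i} + 1 + 1) ≤ S.b := by rw [hcard]; exact hb
      have h' : ((100 * (Fintype.card {l : ι // l ≠ i} + 1 + 1) : ℕ) : ℤ) ≤ (S.b : ℤ) := by
        exact_mod_cast this
      push_cast at h'
      linarith
    have hb0 : 0 < (S.b : ℤ) := by linarith
    have herr : |(SX S ω' - SX S ω) - (S.X (w i) - S.X (w' i))| ≤ (2 * c + 1) * S.D (j + 2) := by
      have e1 : (SX S ω' - SX S ω) - (S.X (w i) - S.X (w' i)) =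
          - (SX S W' - SX S ω') + (SX S W - SX S ω) - (SX S w - SX S w') := by
        rw [hc1, hc2]; ring
      have e2 : c * S.D (j + 11) ≤ c * S.D (j + 2) := mul_le_mul_of_nonneg_left h4 hc0
      have e3 : (2 * c + 1) * S.D (j + 2) = c * S.D (j + 2) + c * S.D (j + 2) + S.D (j + 2) := by
        ring
      rw [e1, e3, abs_le]
      have h7 := abs_le.1 h1
      have h8 := abs_le.1 h2
      have h9 := abs_le.1 hd
      constructor <;> linarith [h7.1, h7.2, h8.1, h8.2, h9.1, h9.2]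
    have hbig : 2 * (S.b : ℤ) ^ 2 * ((2 * c + 1) * S.D (j + 2)) ≤ S.D (j + 1) := by
      rw [h5]
      have e1 : 2 * (2 * c + 1) ≤ (S.b : ℤ) := by linarith
      calc 2 * (S.b : ℤ) ^ 2 * ((2 * c + 1) * S.D (j + 2))
          = (S.b : ℤ) ^ 2 * S.D (j + 2) * (2 * (2 * c + 1)) := by ring
        _ ≤ (S.b : ℤ) ^ 2 * S.D (j + 2) * S.b :=
            mul_le_mul_of_nonneg_left e1 (by positivity)
        _ = (S.b : ℤ) ^ 3 * S.D (j + 2) := by ring
    have hsm : (2 * c + 1) * S.D (j + 2) < S.D j := by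
      have e1 : (1 : ℤ) ≤ (S.b : ℤ) ^ 2 := one_le_pow₀ (by linarith)
      have e2 : 0 < (2 * c + 1) * S.D (j + 2) := by positivity
      nlinarith
    have h10 : |S.X (w i) - S.X (w' i)| ≤ |SX S ω' - SX S ω| + (2 * c + 1) * S.D (j + 2) := by
      have e1 : S.X (w i) - S.X (w' i) = (SX S ω' - SX S ω) -
        ((SX S ω' - SX S ω) - (S.X (w i) - S.X (w' i))) := by ring
      rw [e1]
      exact (abs_sub _ _).trans (add_le_add_right herr _)
    have h11 : |SX S ω' - SX S ω| ≤ |S.X (w i) - S.X (w' i)| + (2 * c + 1) * S.D (j + 2) := by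
      have e1 : SX S ω' - SX S ω = (S.X (w i) - S.X (w' i)) +
        ((SX S ω' - SX S ω) - (S.X (w i) - S.X (w' i))) := by ring
      calc |SX S ω' - SX S ω| = |(S.X (w i) - S.X (w' i)) +
        ((SX S ω' - SX S ω) - (S.X (w i) - S.X (w' i)))| := by rw [← e1]
        _ ≤ _ := (abs_add_le _ _).trans (add_le_add_right herr _)
    constructor
    · have e1 : 2 * (|S.X (w i) - S.X (w' i)| * (S.b : ℤ) ^ 2) ≤
          2 * ((|SX S ω' - SX S ω| + (2 * c + 1) * S.D (j + 2)) * (S.b : ℤ) ^ 2) := by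
        have : (0 : ℤ) ≤ (S.b : ℤ) ^ 2 := by positivity
        nlinarith [mul_le_mul_of_nonneg_right h10 this]
      have e2 : 2 * ((|SX S ω' - SX S ω| + (2 * c + 1) * S.D (j + 2)) * (S.b : ℤ) ^ 2) =
          2 * (S.b : ℤ) ^ 2 * |SX S ω' - SX S ω| +
            2 * (S.b : ℤ) ^ 2 * ((2 * c + 1) * S.D (j + 2)) := by ring
      linarith
    · linarith

end Pool.Agent.SPD
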