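import Pool.Agent.SPD.Stmts1

set_option autoImplicit false

/-!
From the number of nonzero sparse digits to the number of breaks of a period.
-/

open Finset Sqrt2Digits SqrtFrob Filter

namespace Pool.Agent.SPD

theorem Brk_proof (hLam : Stmt_Lam) : Stmt_Brk := by
  intro m hm A
  set Q : ℕ := 10 ^ m - 1 with hQ
  have hQ9 : 9 ≤ Q := by
    have : (10 : ℕ) ^ 1 ≤ 10 ^ m := Nat.pow_le_pow_right (by norm_num) hm
    omega
  obtain ⟨K₀, hK₀, hfew⟩ := few_blocks m hm (Q := Q)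
    (fun q _ hq => Nat.le_of_dvd (by omega) hq)
  set K₁ : ℝ := m + K₀ + 1 with hK₁
  have hK₁0 : 0 < K₁ := by positivity
  set A₀ : ℕ := ⌈A⌉₊ + 1 with hA₀
  obtain ⟨N₀, hN₀⟩ := hLam (A₀ * Q + 1)
  have hdiv : Tendsto (fun N : ℕ => N / Q) atTop atTop := Nat.tendsto_div_const_atTop (by omega)
  have hlogN : Tendsto (fun N : ℕ => Real.log N) atTop atTop :=
    Real.tendsto_log_atTop.comp tendsto_natCast_atTop_atTop
  filter_upwards [hdiv.eventually_ge_atTop (max N₀ 2), hlogN.eventually_ge_atTop 1,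
    hlogN.eventually_ge_atTop (K₁ * 2 ^ Q),
    hlogN.eventually_ge_atTop (4 * (Real.log Q + 4))] with N h1 h2 h3 h4
  set M := N / Q with hM
  set x : ℝ := Real.log N with hx
  set lm := brk m N with hlm
  by_contra hcon
  push Not at hcon
  have hM2 : 2 ≤ M := le_trans (le_max_right _ _) h1
  have hQM : Q * M ≤ N := Nat.mul_div_le N Q
  have hMN : M + 1 ≤ N := by nlinarith
  have hN0 : (0 : ℝ) < N := by
    have : 0 < N := by omega
    exact_mod_cast this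
  have hQ0 : (0 : ℝ) < Q := by
    have : 0 < Q := by omega
    exact_mod_cast this
  -- `lm` is small
  have hlm : (lm : ℝ) < x ^ A₀ := by
    refine hcon.trans_le ?_
    rw [← Real.rpow_natCast]
    refine Real.rpow_le_rpow_of_exponent_le h2 ?_
    have := Nat.le_ceil A
    rw [hA₀]
    push_cast
    linarith
  have hx1 : (1 : ℝ) ≤ x ^ A₀ := one_le_pow₀ h2
  have hL1 : (1 : ℝ) ≤ 1 + (lm : ℝ) := by
    have : (0 : ℝ) ≤ lm := by positivity
    linarith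
  have hL : (1 + (lm : ℝ)) ≤ 2 * x ^ A₀ := by linarith
  have hP1 : (1 : ℝ) ≤ (1 + (lm : ℝ)) ^ Q := one_le_pow₀ hL1
  have hPle : (1 + (lm : ℝ)) ≤ (1 + (lm : ℝ)) ^ Q := by
    calc (1 + (lm : ℝ)) = (1 + (lm : ℝ)) ^ 1 := (pow_one _).symm
      _ ≤ _ := pow_le_pow_right₀ hL1 (by omega)
  have hXB : (DChg.XB m M : ℝ) ≤ K₀ * (1 + (lm : ℝ)) ^ Q := by
    refine (hfew M).trans ?_
    have h1 : (brk m (Q * M) : ℝ) ≤ lm := by exact_mod_cast DChg.brk_mono m hQM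
    gcongr
  have hlamR : (lam DChg.fs M : ℝ) ≤ K₁ * (1 + (lm : ℝ)) ^ Q := by
    have h1 : (lam DChg.fs M : ℝ) ≤ m + DChg.XB m M + brk m (M + 1) := by
      exact_mod_cast DChg.lam_fs_le m hm M
    have h2 : (brk m (M + 1) : ℝ) ≤ lm := by exact_mod_cast DChg.brk_mono m hMN
    have h3 : (m : ℝ) ≤ m * (1 + (lm : ℝ)) ^ Q := le_mul_of_one_le_right (by positivity) hP1
    rw [hK₁]
    nlinarith
  have hlam2 : (lam DChg.fs M : ℝ) ≤ K₁ * 2 ^ Q * x ^ (A₀ * Q) := by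
    calc (lam DChg.fs M : ℝ) ≤ K₁ * (1 + (lm : ℝ)) ^ Q := hlamR
      _ ≤ K₁ * (2 * x ^ A₀) ^ Q := by gcongr
      _ = _ := by rw [mul_pow, ← pow_mul]; ring
  have hlt : ((Nat.log 2 M) ^ (A₀ * Q + 1) : ℝ) < lam DChg.fs M := by
    exact_mod_cast hN₀ M (le_trans (le_max_left _ _) h1)
  -- `x ≤ Nat.log 2 M`
  have hlog : x ≤ (Nat.log 2 M : ℝ) := by
    have h5 : M < 2 ^ (Nat.log 2 M + 1) := Nat.lt_pow_succ_log_self (by norm_num) _
    have h6 : N < Q * 2 ^ (Nat.log 2 M + 1) := by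
      have h7 := Nat.lt_mul_div_succ N (show 0 < Q by omega)
      exact h7.trans_le (Nat.mul_le_mul_left _ h5)
    have h8 : (N : ℝ) ≤ Q * (2 : ℝ) ^ (Nat.log 2 M + 1) := by exact_mod_cast h6.le
    have h9 := Real.log_le_log hN0 h8
    rw [Real.log_mul (by positivity) (by positivity), Real.log_pow] at h9
    have h10 : Real.log 2 ≤ 0.7 := by
      have := Real.log_two_lt_d9
      linarith
    have h11 : ((Nat.log 2 M + 1 : ℕ) : ℝ) * Real.log 2 ≤ ((Nat.log 2 M + 1 : ℕ) : ℝ) * 0.7 := by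
      gcongr
    push_cast at h9 h11
    rw [← hx] at h9
    linarith
  have hx0 : (0 : ℝ) < x := by linarith
  have h5 : x ^ (A₀ * Q + 1) < K₁ * 2 ^ Q * x ^ (A₀ * Q) := by
    calc x ^ (A₀ * Q + 1) ≤ (Nat.log 2 M : ℝ) ^ (A₀ * Q + 1) := by gcongr
      _ < lam DChg.fs M := hlt
      _ ≤ _ := hlam2
  rw [pow_succ, mul_comm] at h5
  have h6 : x < K₁ * 2 ^ Q := lt_of_mul_lt_mul_right h5 (by positivity)
  linarith

end Pool.Agent.SPD
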