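import Pool.Agent.SPD.Stmts1

set_option autoImplicit false

/-!
Module CenSum: sums over the centres of the clusters.
-/

open Finset

namespace Pool.Agent.SPD

theorem CenSum_proof : Stmt_CenSum := by
  intro F _ S hO hA hC n hn1 hnk y hy
  classical
  set s := S.k - n with hs
  have hU : ∀ v ∈ S.V0, ((n, v) : ℕ × ℤ) ∈ S.U := by
    intro v hv
    rw [Dat.U, mem_insert, Dat.Uh, mem_product, mem_Icc]
    exact Or.inr ⟨⟨hn1, hnk⟩, hv⟩
  have hcenU : ∀ v, S.cenU S.k (n, v) = (n, S.cen s v) := by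
    intro v
    rw [Dat.cenU, if_neg (not_lt.2 hnk)]
  have hmem : ∀ v ∈ S.V0, S.cen s v ∈ S.V0 := by
    intro v hv
    have h := hC.cen_mem S.k le_rfl (n, v) (hU v hv)
    rw [hcenU, Dat.U, mem_insert, Dat.Uh, mem_product] at h
    rcases h with h | h
    · exfalso
      have h1 := congrArg Prod.fst h
      simp only [Dat.zero] at h1
      omega
    · exact h.2
  have hE : ∀ v ∈ S.V0, S.E s v (S.cen s v) := by
    intro v hv
    have h := hC.cen_R S.k le_rfl (n, v) (hU v hv)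
    rw [hcenU] at h
    rcases h with h | h
    · exact absurd h.1 (not_lt.2 hnk)
    · exact h.2.2
  have hEq : ∀ v ∈ S.V0, ∀ v' ∈ S.V0, S.E s v v' → S.cen s v = S.cen s v' := by
    intro v hv v' hv' h
    have h1 := hC.cen_eq S.k le_rfl (n, v) (hU v hv) (n, v') (hU v' hv')
      (Or.inr ⟨rfl, hnk, h⟩)
    rw [hcenU, hcenU] at h1
    exact congrArg Prod.snd h1
  have hcw : ∀ v, S.cw (n, v) = ∑ u ∈ S.cls s v, S.c u := by
    intro v
    rw [Dat.cw, if_neg (by simp only; omega)]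
  -- the representatives
  set C : Finset ℤ := S.V0.filter (fun v => S.cen s v = v ∧ v ≤ y) with hCdef
  have h1 : ∑ x ∈ S.V.filter (fun x => x.1 = n ∧ x.2 ≤ y), S.cw x
      = ∑ v ∈ C, S.cw (n, v) := by
    have h2 : ∑ v ∈ C, S.cw (n, v) = ∑ v ∈ C.filter (fun v => S.cw (n, v) ≠ 0), S.cw (n, v) := by
      rw [Finset.sum_filter_ne_zero]
    rw [h2]
    refine (Finset.sum_bij (fun v _ => ((n, v) : ℕ × ℤ)) ?_ ?_ ?_ ?_).symm
    · intro v hv
      rw [mem_filter, hCdef, mem_filter] at hv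
      rw [mem_filter, Dat.V, mem_filter, Dat.Uh, mem_product, mem_Icc]
      exact ⟨⟨⟨⟨hn1, hnk⟩, hv.1.1⟩, hv.1.2.1, hv.2⟩, rfl, hv.1.2.2⟩
    · intro a _ b _ hab
      exact congrArg Prod.snd hab
    · rintro ⟨m, v⟩ hx
      rw [mem_filter, Dat.V, mem_filter, Dat.Uh, mem_product, mem_Icc] at hx
      obtain ⟨⟨⟨_, hv⟩, hc, hw⟩, hm, hvy⟩ := hx
      simp only at hm hv hc hvy
      subst hm
      refine ⟨v, ?_, rfl⟩
      rw [mem_filter, hCdef, mem_filter]
      exact ⟨⟨hv, hc, hvy⟩, hw⟩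
    · intro _ _
      rfl
  have h3 : ∑ u ∈ S.V0.filter (fun u => u ≤ y), S.c u
      = ∑ v ∈ C, ∑ u ∈ (S.V0.filter (fun u => u ≤ y)).filter (fun u => S.cen s u = v), S.c u := by
    rw [Finset.sum_fiberwise_of_maps_to]
    intro u hu
    rw [mem_filter] at hu
    rw [hCdef, mem_filter]
    have hcu := hmem u hu.1
    have hEu := hE u hu.1
    refine ⟨hcu, (hEq u hu.1 _ hcu hEu).symm, ?_⟩
    by_contra hlt
    exact hy u hu.1 _ hcu hu.2 (not_le.1 hlt) hEu
  have h4 : ∀ v ∈ C, ∑ u ∈ (S.V0.filter (fun u => u ≤ y)).filter (fun u => S.cen s u = v), S.c u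
      = S.cw (n, v) := by
    intro v hv
    rw [hCdef, mem_filter] at hv
    rw [hcw]
    apply Finset.sum_congr _ (fun _ _ => rfl)
    ext u
    rw [mem_filter, mem_filter, Dat.cls, mem_filter]
    constructor
    · rintro ⟨⟨hu, huy⟩, hcu⟩
      refine ⟨hu, ?_⟩
      have := hE u hu
      rw [hcu] at this
      exact (hO.equiv s).symm this
    · rintro ⟨hu, hvu⟩
      refine ⟨⟨hu, ?_⟩, ?_⟩
      · by_contra hlt
        exact hy v hv.1 u hu hv.2.2 (not_le.1 hlt) hvu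
      · rw [← hEq v hv.1 u hu hvu, hv.2.1]
  rw [h3, Finset.sum_congr rfl h4]
  convert h1 using 2

end Pool.Agent.SPD
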