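import Pool.Agent.SPD.Stmts1

set_option autoImplicit false

/-!
Superpolylogarithmic number of digit changes of `√2`: the choice of `P`.
-/

open Finset

namespace Pool.Agent.SPD

namespace ChooseP

theorem b_cube (p m₁ : ℕ) : (p ^ (2 * m₁)) ^ 3 = p ^ (6 * m₁) := by
  rw [← pow_mul]; congr 1; ring

/-- division of `b³ P` by a small power of `p` -/
theorem div_eq {p m₁ i : ℕ} (hp : 0 < p) (hi : i ≤ 6 * m₁) (P : ℤ) :
    ((p ^ (2 * m₁) : ℕ) : ℤ) ^ 3 * P / (p : ℤ) ^ i = (p : ℤ) ^ (6 * m₁ - i) * P := by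
  have h1 : ((p ^ (2 * m₁) : ℕ) : ℤ) ^ 3 = (p : ℤ) ^ i * (p : ℤ) ^ (6 * m₁ - i) := by
    rw [← pow_add, Nat.add_sub_cancel' hi]
    exact_mod_cast b_cube p m₁
  rw [h1, mul_assoc]
  exact Int.mul_ediv_cancel_left _ (by positivity)

open Classical in
/-- bad values of the first kind -/
theorem bad1 {p : ℕ} (G : ℤ → ZMod p) (N lam b : ℕ) (T T' : ℤ) (hT' : 0 ≤ T')
    (hb : 1 ≤ b) (hTT : T = b * T') (hN : 4 * T < N)
    (hj : ((Ico 0 (N : ℤ)).filter (fun n => G n ≠ G (n - 1))).card ≤ lam) :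
    ((Ioc T (2 * T)).filter (fun P => ∃ x : ℤ, P < x ∧ (b : ℤ) * x ≤ (b + 1) * P ∧
      G x ≠ G (x - 1))).card ≤ lam * (2 * T').toNat := by
  classical
  have hT0 : 0 ≤ T := by rw [hTT]; positivity
  have hb' : (1 : ℤ) ≤ b := by exact_mod_cast hb
  have hsub : (Ioc T (2 * T)).filter (fun P => ∃ x : ℤ, P < x ∧ (b : ℤ) * x ≤ (b + 1) * P ∧
      G x ≠ G (x - 1)) ⊆ ((Ico 0 (N : ℤ)).filter (fun n => G n ≠ G (n - 1))).biUnion
        (fun x => Ico (x - 2 * T') x) := by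
    intro P hP
    rw [mem_filter, mem_Ioc] at hP
    obtain ⟨⟨h1, h2⟩, x, h3, h4, h5⟩ := hP
    rw [mem_biUnion]
    have h6 : (b : ℤ) * (x - P) ≤ b * (2 * T') := by
      calc (b : ℤ) * (x - P) ≤ P := by linarith
        _ ≤ 2 * T := h2
        _ = b * (2 * T') := by rw [hTT]; ring
    have h7 : x - P ≤ 2 * T' := le_of_mul_le_mul_left h6 (by linarith)
    have h8 : 2 * T' ≤ 2 * T := by rw [hTT]; nlinarith
    refine ⟨x, ?_, ?_⟩
    · rw [mem_filter, mem_Ico]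
      exact ⟨⟨by linarith, by linarith⟩, h5⟩
    · rw [mem_Ico]; exact ⟨by linarith, h3⟩
  calc _ ≤ _ := card_le_card hsub
    _ ≤ ((Ico 0 (N : ℤ)).filter (fun n => G n ≠ G (n - 1))).card * (2 * T').toNat := by
        apply card_biUnion_le_card_mul
        intro x _
        rw [Int.card_Ico]
        apply le_of_eq; congr 1; ring
    _ ≤ lam * (2 * T').toNat := Nat.mul_le_mul_right _ hj

open Classical in
/-- bad values of the second kind -/
theorem bad2 {p : ℕ} (hp : 0 < p) (G : ℤ → ZMod p) (N E m₁ : ℕ) (T : ℤ)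
    (hE : ((Ico 0 (N : ℤ)).filter (fun n => G n ≠ - G (n / p))).card ≤ E) :
    ((Ioc T (2 * T)).filter (fun P => ¬ Cl G N (6 * m₁)
      (((p ^ (2 * m₁) : ℕ) : ℤ) ^ 3 * P))).card ≤ 6 * m₁ * E := by
  classical
  have hsub : (Ioc T (2 * T)).filter (fun P => ¬ Cl G N (6 * m₁)
      (((p ^ (2 * m₁) : ℕ) : ℤ) ^ 3 * P)) ⊆ (range (6 * m₁)).biUnion
        (fun i => (Ioc T (2 * T)).filter (fun P =>
          (p : ℤ) ^ (6 * m₁ - i) * P ∈ (Ico 0 (N : ℤ)).filter (fun n => G n ≠ - G (n / p)))) := by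
    intro P hP
    rw [mem_filter] at hP
    obtain ⟨h1, h2⟩ := hP
    unfold Cl at h2
    push Not at h2
    obtain ⟨i, hi, h3, h4, h5⟩ := h2
    rw [div_eq hp hi.le] at h3 h4 h5
    rw [mem_biUnion]
    refine ⟨i, mem_range.2 hi, ?_⟩
    rw [mem_filter, mem_filter, mem_Ico]
    exact ⟨h1, ⟨h3, h4⟩, h5⟩
  calc _ ≤ _ := card_le_card hsub
    _ ≤ (range (6 * m₁)).card * E := by
        apply card_biUnion_le_card_mul
        intro i _
        refine le_trans ?_ hE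
        apply card_le_card_of_injOn (fun P => (p : ℤ) ^ (6 * m₁ - i) * P)
        · intro P hP
          have := (mem_filter.1 hP).2
          exact this
        · intro P _ P' _ h
          have hp' : (p : ℤ) ^ (6 * m₁ - i) ≠ 0 := by positivity
          exact mul_left_cancel₀ hp' h
    _ = 6 * m₁ * E := by rw [card_range]

theorem pow_ge (p m₁ : ℕ) (hp : 2 ≤ p) : 3 * m₁ + 1 ≤ p ^ (2 * m₁) := by
  calc 3 * m₁ + 1 ≤ 4 ^ m₁ := by
        induction m₁ with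
        | zero => simp
        | succ n ih => rw [pow_succ]; omega
    _ = 2 ^ (2 * m₁) := by rw [pow_mul]; norm_num
    _ ≤ p ^ (2 * m₁) := Nat.pow_le_pow_left hp _

end ChooseP

open ChooseP

theorem ChooseP_proof (hScale : Stmt_ScaleA) : Stmt_ChooseP := by
  intro p N lam E m₁ K G hp hns hyp hm hK hbig hN
  classical
  set b : ℕ := p ^ (2 * m₁) with hb
  have hp2 := hp.two_le
  have hb0 : 3 * m₁ + 1 ≤ b := pow_ge p m₁ hp2
  have hb1 : 1 ≤ b := by omega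
  have hK2 : 144 ≤ (K + 2) ^ 2 := by nlinarith
  have hlam : 1440 * ((lam + 1) ^ 2 * (E + 1)) ≤ b := by
    calc 1440 * ((lam + 1) ^ 2 * (E + 1)) ≤ 10 * (K + 2) ^ 2 * ((lam + 1) ^ 2 * (E + 1)) := by
          apply Nat.mul_le_mul_right; omega
      _ = 10 * (K + 2) ^ 2 * (lam + 1) ^ 2 * (E + 1) := by ring
      _ ≤ b := hbig
  have hs1 : (lam + 1) * 1 ≤ (lam + 1) ^ 2 * (E + 1) := by
    apply Nat.mul_le_mul _ (by omega)
    exact Nat.le_self_pow (by norm_num) _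
  have hs2 : 1 * (E + 1) ≤ (lam + 1) ^ 2 * (E + 1) := by
    apply Nat.mul_le_mul_right
    exact Nat.one_le_pow _ _ (by omega)
  have hlam1 : 2 * lam + 2 ≤ b := by omega
  have hE1 : E + 1 ≤ b := by omega
  -- T = b ^ (3 K), T' = b ^ (3 K - 1)
  set T' : ℕ := b ^ (3 * K - 1) with hT'
  set T : ℕ := b ^ (3 * K) with hT
  have hTT : T = b * T' := by
    rw [hT, hT', ← pow_succ', Nat.sub_add_cancel (by omega)]
  have hT'b : b ^ 2 ≤ T' := Nat.pow_le_pow_right hb1 (by omega)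
  have hT'1 : 1 ≤ T' := Nat.one_le_pow _ _ hb1
  have hT1 : 1 ≤ T := Nat.one_le_pow _ _ hb1
  have hb4 : 4 < b := by omega
  have hNT : b ^ 3 * (T * (2 * T)) < N := by
    calc b ^ 3 * (T * (2 * T)) < b ^ 3 * (T * (b * T)) := by
          apply Nat.mul_lt_mul_of_pos_left _ (by positivity)
          apply Nat.mul_lt_mul_of_pos_left _ (by omega)
          apply Nat.mul_lt_mul_of_pos_right _ (by omega)
          omega
      _ = b ^ (3 * K + (3 * K) + 4) := by rw [hT]; ring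
      _ ≤ b ^ (3 * (2 * K + 3)) := Nat.pow_le_pow_right hb1 (by omega)
      _ ≤ N := hN
  have h4T : 4 * T < N := by
    have h1 : 4 * T ≤ b ^ 3 * (T * (2 * T)) := by
      have : 4 ≤ b ^ 3 := by
        calc 4 ≤ b := hb4.le
          _ ≤ b ^ 3 := Nat.le_self_pow (by norm_num) b
      calc 4 * T ≤ b ^ 3 * T := Nat.mul_le_mul_right _ this
        _ ≤ b ^ 3 * (T * (2 * T)) := by
            apply Nat.mul_le_mul_left
            nlinarith
    omega
  have hB1 := bad1 G N lam b (T : ℤ) (T' : ℤ) (by positivity) hb1 (by exact_mod_cast hTT)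
    (by exact_mod_cast h4T) hyp.jmp
  have hB2 := bad2 (by omega : 0 < p) G N E m₁ (T : ℤ) hyp.scl
  have htn : (2 * (T' : ℤ)).toNat = 2 * T' := by omega
  rw [htn] at hB1
  have hcardI : (Ioc (T : ℤ) (2 * T)).card = T := by
    rw [Int.card_Ioc]; omega
  have hlt : lam * (2 * T') + 6 * m₁ * E < T := by
    have h1 : 6 * m₁ * E ≤ 2 * T' := by
      calc 6 * m₁ * E ≤ 2 * b * b := by
            have : 6 * m₁ ≤ 2 * b := by omega
            exact Nat.mul_le_mul this (by omega)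
        _ = 2 * b ^ 2 := by ring
        _ ≤ 2 * T' := by omega
    calc lam * (2 * T') + 6 * m₁ * E ≤ (2 * lam + 2) * T' := by
          linarith
      _ < b * T' := by
          apply Nat.mul_lt_mul_of_pos_right _ (by omega)
          omega
      _ = T := hTT.symm
  obtain ⟨P, hP, hPb⟩ : ∃ P ∈ Ioc (T : ℤ) (2 * T), P ∉
      ((Ioc (T : ℤ) (2 * T)).filter (fun P => ∃ x : ℤ, P < x ∧ (b : ℤ) * x ≤ (b + 1) * P ∧
        G x ≠ G (x - 1))) ∪ ((Ioc (T : ℤ) (2 * T)).filter (fun P => ¬ Cl G N (6 * m₁)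
      (((p ^ (2 * m₁) : ℕ) : ℤ) ^ 3 * P))) := by
    by_contra hcon
    push Not at hcon
    have h1 := card_le_card (show Ioc (T : ℤ) (2 * T) ⊆ _ from fun P hP => hcon P hP)
    have h2 := card_union_le ((Ioc (T : ℤ) (2 * T)).filter (fun P => ∃ x : ℤ, P < x ∧
      (b : ℤ) * x ≤ (b + 1) * P ∧ G x ≠ G (x - 1))) ((Ioc (T : ℤ) (2 * T)).filter
        (fun P => ¬ Cl G N (6 * m₁) (((p ^ (2 * m₁) : ℕ) : ℤ) ^ 3 * P)))
    rw [hcardI] at h1
    omega
  rw [mem_Ioc] at hP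
  obtain ⟨P', rfl⟩ : ∃ P' : ℕ, P = P' := ⟨P.toNat, by omega⟩
  have hPb1 : ∀ x : ℤ, (P' : ℤ) < x → (b : ℤ) * x ≤ (b + 1) * P' → G x = G (x - 1) := by
    intro x h1 h2
    by_contra h3
    apply hPb
    rw [mem_union, mem_filter, mem_Ioc]
    exact Or.inl ⟨hP, x, h1, h2, h3⟩
  have hPb2 : Cl G N (6 * m₁) (((p ^ (2 * m₁) : ℕ) : ℤ) ^ 3 * P') := by
    by_contra h3
    apply hPb
    rw [mem_union]
    right
    rw [mem_filter, mem_Ioc]
    exact ⟨hP, h3⟩
  have hP1 : T < P' := by exact_mod_cast hP.1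
  have hP2 : P' ≤ 2 * T := by exact_mod_cast hP.2
  have hNP : b ^ 3 * (T * P') < N := by
    refine lt_of_le_of_lt ?_ hNT
    gcongr
  refine ⟨P', ⟨hp, hns, hyp, hm, hb, hbig, hK, ?_, ?_, hPb1, ?_⟩⟩
  · exact hP1.le
  · refine lt_of_le_of_lt ?_ hNP
    calc b ^ (3 * K) * P' = T * P' := rfl
      _ ≤ b ^ 3 * (T * P') := Nat.le_mul_of_pos_left _ (by positivity)
  · have h2 : b ^ 3 * P' < N := by
      refine lt_of_le_of_lt ?_ hNP
      apply Nat.mul_le_mul_left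
      exact Nat.le_mul_of_pos_left _ hT1
    have h3 : ((b ^ 3 * P' : ℕ) : ℤ) = ((p ^ (2 * m₁) : ℕ) : ℤ) ^ 3 * P' := by
      rw [hb]; push_cast; ring
    have h1 := (hScale p N lam E G hp hyp).1 (6 * m₁) (b ^ 3 * P') (Nat.zero_le _) h2
      (by rw [h3]; exact hPb2)
    rw [h3, div_eq (by omega) le_rfl, Nat.sub_self, pow_zero, one_mul] at h1
    rw [hb, h1, Even.neg_one_pow ⟨3 * m₁, by ring⟩, one_mul]

end Pool.Agent.SPD
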