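import Pool.Agent.SPD.Stmts

set_option autoImplicit false

open Finset

namespace Pool.Agent.SPD

open Classical in
theorem Cnt_proof : Stmt_Cnt := by
  intro Ω T K A bad cl τ κ a H N hbA hcl hQ hb
  let Cl : Ω → Finset Ω := fun w => A.filter (fun u => cl (τ w) w u)
  let f : Ω → T × K × Finset Ω := fun w => (τ w, κ w, Cl w)
  let BB : Finset (T × K × Finset Ω) := bad.image f
  have hself : ∀ w ∈ bad, w ∈ Cl w := fun w hw =>
    Finset.mem_filter.2 ⟨hbA hw, (hcl _).refl w⟩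
  have hfib : ∀ w ∈ bad, bad.filter (fun u => f u = f w) =
      bad.filter (fun u => τ u = τ w ∧ κ u = κ w ∧ cl (τ w) w u) := by
    intro w hw
    ext u
    simp only [Finset.mem_filter, f, Prod.mk.injEq]
    constructor
    · rintro ⟨hu, h1, h2, h3⟩
      refine ⟨hu, h1, h2, ?_⟩
      have : u ∈ Cl w := h3 ▸ hself u hu
      exact (Finset.mem_filter.1 this).2
    · rintro ⟨hu, h1, h2, h3⟩
      refine ⟨hu, h1, h2, ?_⟩
      ext y
      simp only [Cl, Finset.mem_filter, h1]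
      constructor
      · rintro ⟨hy, h4⟩; exact ⟨hy, (hcl _).trans h3 h4⟩
      · rintro ⟨hy, h4⟩; exact ⟨hy, (hcl _).trans ((hcl _).symm h3) h4⟩
  have h1 : bad.card = ∑ β ∈ BB, (bad.filter (fun u => f u = β)).card :=
    Finset.card_eq_sum_card_image f bad
  have h2 : H * bad.card ≤ ∑ β ∈ BB, N * β.2.2.card := by
    rw [h1, Finset.mul_sum]
    apply Finset.sum_le_sum
    intro β hβ
    obtain ⟨w, hw, rfl⟩ := Finset.mem_image.1 hβ
    rw [hfib w hw]
    exact hb w hw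
  have h3 : ∑ β ∈ BB, β.2.2.card = ∑ x ∈ A, (BB.filter (fun β => x ∈ β.2.2)).card := by
    have e1 : ∀ β ∈ BB, β.2.2.card = ∑ x ∈ A, if x ∈ β.2.2 then 1 else 0 := by
      intro β hβ
      obtain ⟨w, hw, rfl⟩ := Finset.mem_image.1 hβ
      rw [← Finset.card_filter]
      congr 1
      ext x
      simp only [Finset.mem_filter, f, Cl]
      tauto
    rw [Finset.sum_congr rfl e1, Finset.sum_comm]
    apply Finset.sum_congr rfl
    intro x _
    rw [← Finset.card_filter]
  have h4 : ∀ x ∈ A, (BB.filter (fun β => x ∈ β.2.2)).card ≤ a := by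
    intro x hx
    have hinj : Set.InjOn (fun β : T × K × Finset Ω => (β.1, β.2.1))
        (BB.filter (fun β => x ∈ β.2.2)) := by
      intro β hβ β' hβ' he
      rw [Finset.mem_coe, Finset.mem_filter] at hβ hβ'
      obtain ⟨hβ, hx1⟩ := hβ
      obtain ⟨hβ', hx2⟩ := hβ'
      obtain ⟨w, hw, rfl⟩ := Finset.mem_image.1 hβ
      obtain ⟨w', hw', rfl⟩ := Finset.mem_image.1 hβ'
      simp only [f, Prod.mk.injEq] at he hx1 hx2 ⊢
      refine ⟨he.1, he.2, ?_⟩
      have k1 : cl (τ w) w x := (Finset.mem_filter.1 hx1).2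
      have k2 : cl (τ w') w' x := (Finset.mem_filter.1 hx2).2
      rw [← he.1] at k2
      have k3 : cl (τ w) w w' := (hcl _).trans k1 ((hcl _).symm k2)
      ext y
      simp only [Cl, Finset.mem_filter, ← he.1]
      constructor
      · rintro ⟨hy, h4⟩; exact ⟨hy, (hcl _).trans ((hcl _).symm k3) h4⟩
      · rintro ⟨hy, h4⟩; exact ⟨hy, (hcl _).trans k3 h4⟩
    rw [← Finset.card_image_of_injOn hinj]
    apply hQ x hx
    intro q hq
    obtain ⟨β, hβ, rfl⟩ := Finset.mem_image.1 hq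
    rw [Finset.mem_filter] at hβ
    obtain ⟨hβ, hx1⟩ := hβ
    obtain ⟨w, hw, rfl⟩ := Finset.mem_image.1 hβ
    exact ⟨w, hw, rfl, rfl, (Finset.mem_filter.1 hx1).2⟩
  calc H * bad.card ≤ ∑ β ∈ BB, N * β.2.2.card := h2
    _ = N * ∑ x ∈ A, (BB.filter (fun β => x ∈ β.2.2)).card := by rw [← Finset.mul_sum, h3]
    _ ≤ N * ∑ x ∈ A, a := Nat.mul_le_mul_left _ (Finset.sum_le_sum h4)
    _ = N * a * A.card := by rw [Finset.sum_const, smul_eq_mul]; ring

end Pool.Agent.SPD
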