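import Pool.Agent.SPD.Stmts1

set_option autoImplicit false

/-!
The coarse function: the module `Coarse`.
-/

open Finset

namespace Pool.Agent.SPD

namespace Coarse

theorem cl_mono {p : ℕ} (G : ℤ → ZMod p) (N e e' : ℕ) (x : ℤ) (h : e' ≤ e) (hx : Cl G N e x) :
    Cl G N e' x := fun i hi => hx i (lt_of_lt_of_le hi h)

/-- The scale of a number. -/
theorem exists_scale (k b P : ℕ) (y : ℤ) (h0 : (P : ℤ) < y)
    (h1 : y ≤ (b : ℤ) ^ (3 * k) * P) :
    ∃ n, 1 ≤ n ∧ n ≤ k ∧ (b : ℤ) ^ (3 * (k - n)) * P < y ∧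
      y ≤ (b : ℤ) ^ (3 * (k - (n - 1))) * P := by
  classical
  have hex : ∃ n, (b : ℤ) ^ (3 * (k - n)) * P < y := ⟨k, by simpa using h0⟩
  have hspec := Nat.find_spec hex
  have hle : Nat.find hex ≤ k := Nat.find_min' hex (by simpa using h0)
  have hpos : 1 ≤ Nat.find hex := by
    by_contra hc
    have h2 : Nat.find hex = 0 := by omega
    rw [h2] at hspec
    simp only [Nat.sub_zero] at hspec
    exact absurd h1 (not_le.mpr hspec)
  refine ⟨Nat.find hex, hpos, hle, hspec, ?_⟩
  have h3 := Nat.find_min hex (m := Nat.find hex - 1) (by omega)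
  exact not_lt.mp h3

end Coarse

open Coarse in
open Classical in
theorem Coarse_proof (hEEs : Stmt_EEs) (hOk0 : Stmt_Ok0) (hTreeA : Stmt_TreeA)
    (hTreeC : Stmt_TreeC) (hScaleA : Stmt_ScaleA) (hCenSum : Stmt_CenSum) (hWtSum : Stmt_WtSum)
    (hTel : Stmt_Tel) : Stmt_Coarse := by
  intro p N lam E m₁ b P K k G hpar hk hkK y hfree hy
  have hok : Ok0 (dat G k b P) := hOk0 p N lam E m₁ b P K k G hpar hk hkK
  have : Fact p.Prime := ⟨hpar.prime⟩
  have hA : TrA (dat G k b P) := hTreeA (ZMod p) (dat G k b P) hok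
  have hC : TrC (dat G k b P) := hTreeC (ZMod p) (dat G k b P) hok hA
  have hb1 : 1 ≤ b := by
    rw [hpar.hb]; exact Nat.one_le_iff_ne_zero.mpr (pow_ne_zero _ hpar.prime.ne_zero)
  have hP1 : 1 ≤ P := hok.P_pos
  set S := dat G k b P with hS
  set J := jm G P ((b : ℤ) ^ 3 * P) with hJ
  have hSk : S.k = k := rfl
  have hSb : S.b = b := rfl
  have hSP : S.P = P := rfl
  have hSE : S.E = EE J b P := rfl
  have hSV : S.V0 = vis G J b P k := rfl
  have hSc : S.c = wt G J b P k := rfl
  have hSg : S.g0 = G P := rfl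
  have hzmem : S.zero ∉ S.V := by
    intro h
    have h2 := hC.V_sub h
    simp only [Dat.Uh, Dat.zero, mem_product, mem_Icc] at h2
    omega
  have hXz : S.X S.zero = 0 := by simp [Dat.X, Dat.zero]
  have hcz : S.cw S.zero = G P := by simp [Dat.cw, Dat.zero, hSg]
  unfold Gh
  rcases hfree with hneg | ⟨h3P, hcl, hfar⟩
  · rw [hpar.hyp.neg y hneg]
    symm
    have : S.Vp.filter (fun x => S.X x ≤ y) = ∅ := by
      apply Finset.filter_false_of_mem
      intro x hx hxy
      have := hA.Xnonneg x (hC.Vp_sub hx)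
      omega
    rw [this, Finset.sum_empty]
  · have hPy : (P : ℤ) < y := by
      have : (0 : ℤ) ≤ P := Int.natCast_nonneg P
      linarith
    obtain ⟨n, hn1, hnk, hlow, hhigh⟩ := exists_scale k b P y hPy hy
    set B : ℤ := (b : ℤ) ^ (3 * (k - n)) with hB
    have hbpos : (0 : ℤ) < b := by exact_mod_cast hb1
    have hBpos : 0 < B := pow_pos hbpos _
    have hhigh' : y ≤ B * ((b : ℤ) ^ 3 * P) := by
      have : (b : ℤ) ^ (3 * (k - (n - 1))) = B * (b : ℤ) ^ 3 := by
        rw [hB, ← pow_add]; congr 1; omega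
      rw [this] at hhigh
      linarith [hhigh]
    set y' := y / B with hy'
    have hPy' : (P : ℤ) ≤ y' := by
      rw [hy', Int.le_ediv_iff_mul_le hBpos]
      linarith [hlow]
    have hy'3 : y' ≤ (b : ℤ) ^ 3 * P := by
      rw [hy']
      calc y / B ≤ (B * ((b : ℤ) ^ 3 * P)) / B := Int.ediv_le_ediv hBpos hhigh'
        _ = (b : ℤ) ^ 3 * P := Int.mul_ediv_cancel_left _ hBpos.ne'
    -- scaling
    have hBp : B = (p : ℤ) ^ (6 * m₁ * (k - n)) := by
      rw [hB, hpar.hb]
      push_cast
      rw [← pow_mul]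
      congr 1
      ring
    have hyN : y < N := by
      have h1 : (b : ℤ) ^ (3 * k) * P ≤ (b : ℤ) ^ (3 * K) * P := by
        apply mul_le_mul_of_nonneg_right _ (Int.natCast_nonneg P)
        exact pow_le_pow_right₀ (by exact_mod_cast hb1) (by omega)
      have h2 : ((b : ℤ) ^ (3 * K) * P) < N := by exact_mod_cast hpar.hN
      linarith
    have hy0 : 0 ≤ y := by
      have : (0 : ℤ) ≤ P := Int.natCast_nonneg P
      linarith
    have hGy : G y = G y' := by
      obtain ⟨z, hz⟩ := Int.eq_ofNat_of_zero_le hy0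
      have hzN : z < N := by
        have h0 := hyN
        rw [hz] at h0
        exact_mod_cast h0
      have h1 := (hScaleA p N lam E G hpar.prime hpar.hyp).1 (6 * m₁ * (k - n)) z (Nat.zero_le z)
        hzN (by
          rw [← hz]
          exact cl_mono G N _ _ y (Nat.mul_le_mul_left _ (Nat.sub_le k n)) hcl)
      rw [← hz] at h1
      rw [h1, ← hBp, ← hy']
      have h2 : (-1 : ZMod p) ^ (6 * m₁ * (k - n)) = 1 := by
        have : 6 * m₁ * (k - n) = 2 * (3 * m₁ * (k - n)) := by ring
        rw [this, pow_mul]; simp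
      rw [h2, one_mul]
    -- separation of clusters
    have hJcard : J.card ≤ b ^ 2 := by
      have h1 : J.card ≤ lam := by
        refine le_trans (Finset.card_le_card ?_) hpar.hyp.jmp
        intro x hx
        rw [hJ] at hx
        simp only [jm, mem_filter, mem_Ioc] at hx
        simp only [mem_filter, mem_Ico]
        refine ⟨⟨?_, ?_⟩, hx.2⟩
        · have : (0 : ℤ) ≤ P := Int.natCast_nonneg P
          linarith [hx.1.1]
        · have h1 : (b : ℤ) ^ 3 * P ≤ (b : ℤ) ^ (3 * K) * P := by
            apply mul_le_mul_of_nonneg_right _ (Int.natCast_nonneg P)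
            exact pow_le_pow_right₀ (by exact_mod_cast hb1) (by have := hpar.hK; omega)
          have h2 : ((b : ℤ) ^ (3 * K) * P) < N := by exact_mod_cast hpar.hN
          linarith [hx.1.2]
      have h2 : lam ≤ b := by
        have h3 := hpar.big
        have h4 : lam ≤ 10 * (K + 2) ^ 2 * (lam + 1) ^ 2 * (E + 1) := by
          have : 1 ≤ 10 * (K + 2) ^ 2 := Nat.one_le_iff_ne_zero.mpr (by positivity)
          have h5 : 1 ≤ E + 1 := by omega
          calc lam ≤ (lam + 1) ^ 2 := by nlinarith
            _ = 1 * (lam + 1) ^ 2 * 1 := by ring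
            _ ≤ _ := Nat.mul_le_mul (Nat.mul_le_mul_right _ this) h5
        omega
      nlinarith
    obtain ⟨hE1, hE2, hE3, hE4, hE5, hE6, hE7⟩ := hEEs p G J b P hb1 hP1
    have hsep : ∀ s, k - n ≤ s → ∀ x ∈ J, ∀ x' ∈ J, x ≤ y' → y' < x' → ¬ EE J b P s x x' := by
      intro s hs x hx x' hx' hxy hxy' hEE
      have h1 := hE3 hJcard s x x' hEE
      have h2 := hfar n (mem_Icc.mpr ⟨hn1, hnk⟩) x hx
      have h3 := hfar n (mem_Icc.mpr ⟨hn1, hnk⟩) x' hx'
      have h4 : B * x ≤ y := by
        rw [hy', Int.le_ediv_iff_mul_le hBpos] at hxy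
        linarith
      have h5 : y < B * x' := by
        rw [hy', Int.ediv_lt_iff_lt_mul hBpos] at hxy'
        linarith
      have h6 : |x - x'| * B ≤ P := by
        refine le_trans ?_ h1
        apply mul_le_mul_of_nonneg_left _ (abs_nonneg _)
        exact pow_le_pow_right₀ (by exact_mod_cast hb1) (by omega)
      rw [abs_of_nonneg (by rw [← hB]; linarith)] at h2
      rw [abs_of_neg (by rw [← hB]; linarith)] at h3
      rw [← hB] at h2 h3
      have h7 : |x - x'| = x' - x := by
        rw [abs_of_neg (by linarith)]; ring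
      rw [h7] at h6
      have : (0 : ℤ) ≤ P := Int.natCast_nonneg P
      nlinarith
    have hvisJ : ∀ v ∈ S.V0, v ∈ J := by
      intro v hv
      rw [hSV] at hv
      simp only [vis, mem_filter] at hv
      exact hv.1
    have hVJ : ∀ v ∈ S.V0, v ≤ (b : ℤ) ^ 3 * P := fun v hv => hok.hi v hv
    -- sums
    have hW : ∑ u ∈ S.V0.filter (fun u => u ≤ y'), S.c u = G y' - G P := by
      rw [← hTel p G P ((b : ℤ) ^ 3 * P) y' hPy' hy'3, ← hJ]
      rw [hSV, hSc]
      exact hWtSum p G J b P k y' hb1 hP1 (hsep k (Nat.sub_le k n))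
    have hWtot : ∑ u ∈ S.V0.filter (fun u => u ≤ (b : ℤ) ^ 3 * P), S.c u = 0 := by
      have h1 : G ((b : ℤ) ^ 3 * P) - G P = 0 := by rw [hpar.per]; ring
      have hPb : (P : ℤ) ≤ (b : ℤ) ^ 3 * P := by
        have : (1 : ℤ) ≤ (b : ℤ) ^ 3 := one_le_pow₀ (by exact_mod_cast hb1)
        have : (0 : ℤ) ≤ P := Int.natCast_nonneg P
        nlinarith
      rw [← h1, ← hTel p G P ((b : ℤ) ^ 3 * P) _ hPb le_rfl, ← hJ]
      rw [hSV, hSc]
      apply hWtSum p G J b P k _ hb1 hP1
      intro x hx x' hx' _ h3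
      exfalso
      rw [hJ] at hx'
      simp only [jm, mem_filter, mem_Ioc] at hx'
      linarith [hx'.1.2]
    -- the coarse function
    have hVp : S.Vp.filter (fun x => S.X x ≤ y) = insert S.zero (S.V.filter (fun x => S.X x ≤ y)) := by
      rw [Dat.Vp, Finset.filter_insert, if_pos (by rw [hXz]; exact hy0)]
    rw [hVp, Finset.sum_insert (by
      intro h
      exact hzmem (Finset.mem_filter.mp h).1), hcz]
    have hmaps : ∀ x ∈ S.V.filter (fun x => S.X x ≤ y), x.1 ∈ Icc 1 k := by
      intro x hx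
      have h2 := hC.V_sub (Finset.mem_filter.mp hx).1
      simp only [Dat.Uh, mem_product] at h2
      exact h2.1
    rw [← Finset.sum_fiberwise_of_maps_to hmaps]
    rw [Finset.sum_eq_single_of_mem n (mem_Icc.mpr ⟨hn1, hnk⟩)]
    · -- the scale n
      have h1 : (S.V.filter (fun x => S.X x ≤ y)).filter (fun x => x.1 = n)
          = S.V.filter (fun x => x.1 = n ∧ x.2 ≤ y') := by
        rw [Finset.filter_filter]
        apply Finset.filter_congr
        intro x hx
        constructor
        · rintro ⟨h1, h2⟩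
          refine ⟨h2, ?_⟩
          rw [hy', Int.le_ediv_iff_mul_le hBpos]
          unfold Dat.X at h1
          rw [hSb, hSk, h2, ← hB] at h1
          linarith
        · rintro ⟨h1, h2⟩
          refine ⟨?_, h1⟩
          rw [hy', Int.le_ediv_iff_mul_le hBpos] at h2
          unfold Dat.X
          rw [hSb, hSk, h1, ← hB]
          linarith
      rw [h1, hCenSum (ZMod p) S hok hA hC n hn1 hnk y', hW, hGy]
      · ring
      · intro v hv v' hv' h2 h3
        exact hsep (k - n) le_rfl v (hvisJ v hv) v' (hvisJ v' hv') h2 h3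
    · intro n' hn' hne
      obtain ⟨hn'1, hn'k⟩ := mem_Icc.mp hn'
      rcases lt_or_gt_of_ne hne with hlt | hgt
      · -- n' < n: nothing
        have : (S.V.filter (fun x => S.X x ≤ y)).filter (fun x => x.1 = n') = ∅ := by
          rw [Finset.filter_filter]
          apply Finset.filter_false_of_mem
          rintro x hx ⟨h1, h2⟩
          have h3 := hA.Xlo x (hC.V_sub hx)
          have h4 := hA.Danti n' (n - 1) (by omega)
          rw [h2] at h3
          have h5 : S.D (n - 1) = (b : ℤ) ^ (3 * (k - (n - 1))) * P := rfl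
          rw [h5] at h4
          linarith
        rw [this, Finset.sum_empty]
      · -- n' > n: everything
        have h1 : (S.V.filter (fun x => S.X x ≤ y)).filter (fun x => x.1 = n')
          = S.V.filter (fun x => x.1 = n' ∧ x.2 ≤ (b : ℤ) ^ 3 * P) := by
          rw [Finset.filter_filter]
          apply Finset.filter_congr
          intro x hx
          constructor
          · rintro ⟨h1, h2⟩
            refine ⟨h2, ?_⟩
            have h3 := hC.V_sub hx
            simp only [Dat.Uh, mem_product] at h3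
            exact hVJ _ h3.2
          · rintro ⟨h1, h2⟩
            refine ⟨?_, h1⟩
            have h3 := hA.Xhi x (hC.V_sub hx)
            have h4 := hA.Danti n (x.1 - 1) (by omega)
            have h5 : S.D n = (b : ℤ) ^ (3 * (k - n)) * P := rfl
            rw [h5] at h4
            linarith
        rw [h1, hCenSum (ZMod p) S hok hA hC n' hn'1 hn'k, hWtot]
        intro v hv v' hv' h2 h3
        exfalso
        linarith [hVJ v' hv']

end Pool.Agent.SPD
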