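import Pool.Agent.SPD.Stmts

set_option autoImplicit false

/-!
Squad SPD, module CodeA: different representations have different codes.
-/

open Finset

namespace Pool.Agent.SPD

namespace CodeA

variable {F : Type} [Field F] {S : Dat F} {ι : Type}

open Classical in
/-- The letter. -/
noncomputable def letter (p : ι → Prop) : Option ι :=
  if h : ∃ i, p i then some (Classical.choose h) else none

theorem letter_some {p : ι → Prop} {i : ι} (h : ∃ i, p i) (hu : ∀ i', p i' → i' = i) :
    letter p = some i := by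
  unfold letter
  rw [dif_pos h]
  congr 1
  exact hu _ (Classical.choose_spec h)

theorem letter_none {p : ι → Prop} (h : ¬ ∃ i, p i) : letter p = none := by
  unfold letter
  rw [dif_neg h]

theorem code_eq (G s : ℕ) (w : ι → ℕ × ℤ) :
    code S G s w = (List.range s).filterMap (fun t => letter (fun i => S.Jr G t (w i))) := rfl

theorem range_split {j s : ℕ} (h : j + 2 ≤ s) :
    ∃ l, List.range s = List.range j ++ (j :: (j + 1) :: l) := by
  have h1 : s = (j + 2) + (s - (j + 2)) := by omega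
  refine ⟨(List.range (s - (j + 2))).map (j + 2 + ·), ?_⟩
  conv_lhs => rw [h1]
  rw [List.range_add, List.range_succ, List.range_succ]
  simp

theorem head {f : ℕ → Option ι} {j τ : ℕ} {i : ι} (l : List ℕ) (hτ : τ = j ∨ τ = j + 1)
    (h1 : f τ = some i) (h2 : ∀ t, (t = j ∨ t = j + 1) → f t = some i ∨ f t = none) :
    ∃ l', (j :: (j + 1) :: l).filterMap f = i :: l' := by
  rcases h2 j (Or.inl rfl) with h | h
  · exact ⟨_, List.filterMap_cons_some h⟩
  · have hτ' : τ = j + 1 := by
      rcases hτ with rfl | rfl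
      · rw [h] at h1
        cases h1
      · rfl
    subst hτ'
    rw [List.filterMap_cons_none h]
    exact ⟨_, List.filterMap_cons_some h1⟩

/-- the letters at the times `j`, `j + 1` -/
theorem letters {G L : ℕ} {w : ι → ℕ × ℤ} (hL : 2 ≤ L) (hw : Reg S G L w) {j τ : ℕ} {i : ι}
    (hτ : τ = j ∨ τ = j + 1) (hJ : S.Jr G τ (w i)) :
    letter (fun i => S.Jr G τ (w i)) = some i ∧
    ∀ t, (t = j ∨ t = j + 1) → letter (fun i => S.Jr G t (w i)) = some i ∨
      letter (fun i => S.Jr G t (w i)) = none := by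
  have hu : ∀ t, (t = j ∨ t = j + 1) → ∀ i', S.Jr G t (w i') → i' = i := by
    intro t ht i' hi'
    by_contra hne
    have h1 := hw.sep i' i hne t τ ⟨hi'.1, Or.inl hi'.2.1⟩ ⟨hJ.1, Or.inl hJ.2.1⟩
    omega
  refine ⟨letter_some ⟨i, hJ⟩ (hu τ hτ), ?_⟩
  intro t ht
  by_cases h : ∃ i', S.Jr G t (w i')
  · exact Or.inl (letter_some h (hu t ht))
  · exact Or.inr (letter_none h)

end CodeA

open CodeA in
theorem CodeA_proof (hSep : Stmt_Sep) : Stmt_CodeA := by
  classical
  intro F _ S hok htr ι _ G L C T s s' w w' hb hL hw hw' hX hT hne hs hs'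
  -- the first separation
  have hex : ∃ n, ∃ i, ¬ S.R n (w i) (w' i) := ⟨T - 2, hne⟩
  set n := Nat.find hex with hn
  have hn1 : ∃ i, ¬ S.R n (w i) (w' i) := Nat.find_spec hex
  have hn2 : n ≤ T - 2 := Nat.find_min' hex hne
  have hmin : ∀ t, t < n → ∀ i, S.R t (w i) (w' i) := by
    intro t ht i
    by_contra hcon
    exact Nat.find_min hex ht ⟨i, hcon⟩
  have hU : ∀ i, w i ∈ S.U := fun i => Finset.mem_insert_of_mem (hw.mem i)
  have hU' : ∀ i, w' i ∈ S.U := fun i => Finset.mem_insert_of_mem (hw'.mem i)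
  have hn0 : n ≠ 0 := by
    intro h
    rw [h] at hn1
    obtain ⟨i, hi⟩ := hn1
    exact hi (htr.root _ (hU i) _ (hU' i))
  obtain ⟨j, hj⟩ := Nat.exists_eq_succ_of_ne_zero hn0
  have hRj : ∀ i, S.R j (w i) (w' i) := hmin j (by omega)
  have hRj1 : ∃ i, ¬ S.R (j + 1) (w i) (w' i) := by
    have : n = j + 1 := hj
    rw [← this]
    exact hn1
  obtain ⟨i₁, i₂, τ₁, τ₂, hi, hτ₁, hτ₂, hJ₁, hJ₂⟩ := hSep F S hok htr ι G L C T j w w' hb hL hw hw'
    hX (by omega) hT hRj hRj1
  -- the letters before time `j` agree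
  have hpre : (List.range j).filterMap (fun t => letter (fun i => S.Jr G t (w i))) =
      (List.range j).filterMap (fun t => letter (fun i => S.Jr G t (w' i))) := by
    refine List.filterMap_congr fun t ht => ?_
    rw [List.mem_range] at ht
    congr 1
    funext i
    have hR1 : S.R (t + 1) (w i) (w' i) := hmin (t + 1) (by omega) i
    have hR0 : S.R t (w i) (w' i) := hmin t (by omega) i
    have e1 := htr.mnR t _ (hU i) _ (hU' i) hR1
    have e2 := htr.nnR t _ _ hR0
    have e3 := htr.nmR t _ _ hR0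
    unfold Dat.Jr
    rw [e1, e2, e3]
  intro hcode
  rw [code_eq, code_eq] at hcode
  obtain ⟨l, hl⟩ := range_split (j := j) (s := s) (by omega)
  obtain ⟨l', hl'⟩ := range_split (j := j) (s := s') (by omega)
  rw [hl, hl', List.filterMap_append, List.filterMap_append, hpre] at hcode
  have h1 := List.append_cancel_left hcode
  obtain ⟨a1, a2⟩ := letters hL hw hτ₁ hJ₁
  obtain ⟨b1, b2⟩ := letters hL hw' hτ₂ hJ₂
  obtain ⟨m, hm⟩ := head (f := fun t => letter (fun i => S.Jr G t (w i))) l hτ₁ a1 a2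
  obtain ⟨m', hm'⟩ := head (f := fun t => letter (fun i => S.Jr G t (w' i))) l' hτ₂ b1 b2
  rw [hm, hm'] at h1
  exact hi (List.head_eq_of_cons_eq h1)

end Pool.Agent.SPD
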