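import Pool.Agent.SPD.Stmts

set_option autoImplicit false

/-!
The length of a code.
-/

open Finset

namespace Pool.Agent.SPD

namespace CodeB

open Classical in
theorem code_length {F : Type} (S : Dat F) {ι : Type} (G s : ℕ) (w : ι → ℕ × ℤ) :
    (code S G s w).length = ((range s).filter (fun t => ∃ i, S.Jr G t (w i))).card := by
  induction s with
  | zero => simp [code]
  | succ n ih =>
    have h1 : (code S G (n + 1) w).length = (code S G n w).length +
        (if ∃ i, S.Jr G n (w i) then 1 else 0) := by
      unfold code
      rw [List.range_succ, List.filterMap_append, List.length_append]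
      congr 1
      by_cases h : ∃ i, S.Jr G n (w i)
      · simp [h]
      · simp [h]
    rw [h1, ih, range_add_one, filter_insert]
    split_ifs with h
    · rw [card_insert_of_notMem (by simp)]
    · rfl

end CodeB

open Classical in
theorem CodeB_proof (JC : Stmt_JplC) (JD : Stmt_JplD) : Stmt_CodeB := by
  intro F _ S hok htr ι _ G r s w hG hcard hw
  rw [CodeB.code_length]
  refine (card_le_card (t := (univ : Finset ι).biUnion
    (fun i => (range S.k).filter (fun t => S.Big G t (w i)))) ?_).trans ?_
  · intro t ht
    simp only [mem_filter, mem_range, mem_biUnion, mem_univ, true_and] at ht ⊢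
    obtain ⟨_, i, hi⟩ := ht
    refine ⟨i, hi.1, (JC F S hok htr).2 G t (w i) ?_ hi⟩
    exact mem_insert_of_mem (hw i)
  · refine (card_biUnion_le_card_mul _ _ r fun i _ => ?_).trans ?_
    · exact JD F S hok htr G r hG hcard (w i) (hw i)
    · rw [card_univ]

end Pool.Agent.SPD
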