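import Pool.Agent.SPD.Stmts

set_option autoImplicit false

/-!
The number of words of length at most `n`.
-/

open Finset

namespace Pool.Agent.SPD

theorem CodeC_proof : Stmt_CodeC := by
  intro ι _ _ n A hA
  let f : List ι → (Fin n → Option ι) := fun l i => l[(i : ℕ)]?
  have hf : Set.InjOn f A := by
    intro l hl l' hl' h
    refine List.ext_getElem? fun i => ?_
    by_cases hi : i < n
    · exact congrFun h ⟨i, hi⟩
    · rw [List.getElem?_eq_none (by have := hA l hl; omega),
        List.getElem?_eq_none (by have := hA l' hl'; omega)]
  calc A.card = (A.image f).card := (card_image_of_injOn hf).symm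
    _ ≤ (univ : Finset (Fin n → Option ι)).card := card_le_card (subset_univ _)
    _ = (Fintype.card ι + 1) ^ n := by
      rw [card_univ, Fintype.card_fun, Fintype.card_fin, Fintype.card_option]

end Pool.Agent.SPD
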