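import Mathlib

set_option autoImplicit false

/-!
Superpolylogarithmic number of digit changes of `√2`: the combinatorial setting.

A `Dat` is a finite set `V0 ⊂ (P, b³P]` of positions with weights in a field, with a chain of
equivalence relations `E 0 ⊃ E 1 ⊃ ... ⊃ E k` (clusters at finer and finer resolution).  The
elements of `Uh` are the copies `(n, v)` of `v ∈ V0` at scale `n`, `1 ≤ n ≤ k`, with position
`X (n, v) = b ^ (3 (k - n)) v`; `zero = (k+1, 0)` is the point `0`.  `R t` is the relation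
`in the same cluster at time t`, `0 ≤ t ≤ k`.
-/

open Finset

namespace Pool.Agent.SPD

/-- The data. -/
structure Dat (F : Type) where
  k : ℕ
  b : ℕ
  P : ℕ
  V0 : Finset ℤ
  E : ℕ → ℤ → ℤ → Prop
  c : ℤ → F
  g0 : F

namespace Dat

variable {F : Type} (S : Dat F)

/-- The point `0`. -/
def zero : ℕ × ℤ := (S.k + 1, 0)

/-- The nonzero points. -/
def Uh : Finset (ℕ × ℤ) := Icc 1 S.k ×ˢ S.V0

/-- All points. -/
def U : Finset (ℕ × ℤ) := insert S.zero S.Uh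

/-- The position of a point. -/
def X (x : ℕ × ℤ) : ℤ := (S.b : ℤ) ^ (3 * (S.k - x.1)) * x.2

/-- The length scale at time `t`. -/
def D (t : ℕ) : ℤ := (S.b : ℤ) ^ (3 * (S.k - t)) * S.P

/-- The same cluster at time `t`. -/
def R (t : ℕ) (x y : ℕ × ℤ) : Prop :=
  (t < x.1 ∧ t < y.1) ∨ (x.1 = y.1 ∧ x.1 ≤ t ∧ S.E (t - x.1) x.2 y.2)

open Classical in
/-- The cluster of `v` at level `s`. -/
noncomputable def cls (s : ℕ) (v : ℤ) : Finset ℤ := S.V0.filter (fun u => S.E s v u)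

open Classical in
/-- A point of the main child (the subcluster with the largest number of points) of the cluster
of `v` at level `s`; it depends on the cluster only. -/
noncomputable def mc (s : ℕ) (v : ℤ) : ℤ :=
  if h : (S.cls s v).Nonempty then
    Classical.choose (Finset.exists_max_image (S.cls s v) (fun u => (S.cls (s + 1) u).card) h)
  else v

/-- `x` goes to the main child at time `t`. -/
def Mn (t : ℕ) (x : ℕ × ℤ) : Prop :=
  if t < x.1 then t + 1 < x.1 else S.E (t - x.1 + 1) (S.mc (t - x.1) x.2) x.2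

open Classical in
/-- The number of points in the cluster of `x` at time `t`. -/
noncomputable def nn (t : ℕ) (x : ℕ × ℤ) : ℕ := (S.Uh.filter (fun y => S.R t x y)).card

open Classical in
/-- The number of points in the cluster of `x` at time `t` outside of the main child. -/
noncomputable def nm (t : ℕ) (x : ℕ × ℤ) : ℕ :=
  (S.Uh.filter (fun y => S.R t x y ∧ ¬ S.Mn t y)).card

/-- Time `t` is special for `x`: `x` leaves the main child, or many points of its cluster do. -/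
def Jp (G t : ℕ) (x : ℕ × ℤ) : Prop := t < S.k ∧ (¬ S.Mn t x ∨ S.nn t x ≤ G * S.nm t x)

/-- `x` has a rare letter at time `t`. -/
def Jr (G t : ℕ) (x : ℕ × ℤ) : Prop := t < S.k ∧ ¬ S.Mn t x ∧ G * S.nm t x < S.nn t x

/-- `x` has a big letter at time `t`. -/
def Big (H t : ℕ) (x : ℕ × ℤ) : Prop :=
  t < S.k ∧ ¬ S.Mn t x ∧ H * S.nn (t + 1) x ≤ S.nn t x

/-- Follow the main children `f` times. -/
noncomputable def cenF : ℕ → ℕ → ℤ → ℤ
  | 0, _, v => v
  | f + 1, s, v => cenF f (s + 1) (S.mc s v)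

/-- The centre of the cluster of `v` at level `s`. -/
noncomputable def cen (s : ℕ) (v : ℤ) : ℤ := S.cenF (S.k - s) s v

/-- The centre of the cluster of `x` at time `t`. -/
noncomputable def cenU (t : ℕ) (x : ℕ × ℤ) : ℕ × ℤ :=
  if t < x.1 then S.zero else (x.1, S.cen (t - x.1) x.2)

variable [AddCommMonoid F]

/-- The weight of the final cluster of `x`. -/
noncomputable def cw (x : ℕ × ℤ) : F :=
  if x.1 = S.k + 1 then S.g0 else ∑ u ∈ S.cls (S.k - x.1) x.2, S.c u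

open Classical in
/-- The final clusters of weight `≠ 0`, given by their centres. -/
noncomputable def V : Finset (ℕ × ℤ) :=
  S.Uh.filter (fun x => S.cen (S.k - x.1) x.2 = x.2 ∧ S.cw x ≠ 0)

/-- The final clusters and `0`. -/
noncomputable def Vp : Finset (ℕ × ℤ) := insert S.zero S.V

end Dat

/-- The structural axioms. -/
structure Ok0 {F : Type} (S : Dat F) : Prop where
  k_pos : 10 ≤ S.k
  b_big : S.k ≤ S.b
  P_pos : 1 ≤ S.P
  equiv : ∀ s, Equivalence (S.E s)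
  mono : ∀ s v v', S.E (s + 1) v v' → S.E s v v'
  top : ∀ v ∈ S.V0, ∀ v' ∈ S.V0, S.E S.k v v' → v = v'
  lo : ∀ v ∈ S.V0, ((S.b : ℤ) + 1) * S.P ≤ S.b * v
  hi : ∀ v ∈ S.V0, v ≤ (S.b : ℤ) ^ 3 * S.P
  near : ∀ s, ∀ v ∈ S.V0, ∀ v' ∈ S.V0, S.E s v v' → |v - v'| * (S.b : ℤ) ^ (3 * s) ≤ S.P
  far : ∀ s, ∀ v ∈ S.V0, ∀ v' ∈ S.V0, ¬ S.E s v v' → (S.P : ℤ) < |v - v'| * (S.b : ℤ) ^ (3 * s + 2)

/-- The axioms. -/
structure Ok {F : Type} [Field F] (S : Dat F) : Prop extends Ok0 S where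
  ne : S.V0.Nonempty
  rel : ∀ σ : ℤ, S.D (S.k - 2) ≤ σ → σ + 4 * S.b * S.P ≤ S.D 0 → ∃ n₁ n₂ : ℤ,
    σ - 2 * S.b * S.P ≤ n₁ ∧ n₁ ≤ σ - S.b * S.P ∧ σ + S.b * S.P ≤ n₂ ∧ n₂ ≤ σ + 2 * S.b * S.P ∧
    ∑ q ∈ (S.Vp ×ˢ S.Vp).filter (fun q => n₁ < S.X q.1 + S.X q.2 ∧ S.X q.1 + S.X q.2 ≤ n₂),
      S.cw q.1 * S.cw q.2 = 0

section tuples

variable {F : Type} (S : Dat F) {ι : Type}

/-- A regular tuple: the special times of different coordinates are more than `L` apart, and no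
special time is within `L` of the end. -/
structure Reg (G L : ℕ) (w : ι → ℕ × ℤ) : Prop where
  mem : ∀ i, w i ∈ S.Uh
  sep : ∀ i i', i ≠ i' → ∀ t t', S.Jp G t (w i) → S.Jp G t' (w i') → t + L < t' ∨ t' + L < t
  fin : ∀ i t, S.Jp G t (w i) → t + L < S.k

variable [Fintype ι]

/-- The sum of the positions. -/
def SX (w : ι → ℕ × ℤ) : ℤ := ∑ i, S.X (w i)

/-- First kind of bad tuples: a big letter of `w` is predicted by another representation. -/
def B1 (G L q g e : ℕ) (w : ι → ℕ × ℤ) : Prop :=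
  ∃ w' : ι → ℕ × ℤ, Reg S G L w' ∧ |SX S w - SX S w'| ≤ S.D (S.k - q) ∧
    ∃ i j, S.Big (g ^ (8 * e)) j (w i) ∧
      ∀ i' t, j ≤ t + 2 → t ≤ j + 2 → ¬ S.Big (g ^ e) t (w' i')

/-- Second kind of bad tuples: a special time of one coordinate is predicted by the others. -/
def B2 (G L q : ℕ) (w : ι → ℕ × ℤ) : Prop :=
  ∃ w' : ι → ℕ × ℤ, Reg S G L w' ∧ |SX S w - SX S w'| ≤ S.D (S.k - q) ∧
    ∃ i j, S.R j (w i) (w' i) ∧ ¬ S.R (j + 1) (w i) (w' i) ∧ S.Jp G j (w i) ∧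
      (∀ i', i' ≠ i → ∀ t, S.Jp G t (w i') → t + 10 < j ∨ j + 10 < t) ∧
      (∀ i', i' ≠ i → ∀ t, S.Jp G t (w' i') → t + 10 < j ∨ j + 10 < t)

/-- A good tuple: all tuples of (almost) the same sum are regular and not bad. -/
def Good [AddCommMonoid F] (G L Q g : ℕ) (z : ι → ℕ × ℤ) : Prop :=
  (∀ i, z i ∈ S.V) ∧
  ∀ w : ι → ℕ × ℤ, (∀ i, w i ∈ S.Vp) → |SX S w - SX S z| ≤ S.D (S.k - Q) →
    Reg S G L w ∧ ¬ B1 S G L (Q + 1) g 1 w ∧ ¬ B1 S G L (Q + 1) g 8 w ∧ ¬ B2 S G L (Q + 1) w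

end tuples

end Pool.Agent.SPD
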