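import Pool.Agent.SPD.Stmts1

set_option autoImplicit false

open Finset

namespace Pool.Agent.SPD

namespace EEs

variable {J : Finset ℤ} {b P : ℕ}

theorem equiv (s : ℕ) : Equivalence (EE J b P s) := by
  refine ⟨?_, ?_, ?_⟩
  · intro v y h1 h2
    exfalso
    rw [min_self] at h1
    rw [max_self] at h2
    omega
  · intro v v' h y h1 h2
    rw [min_comm] at h1
    rw [max_comm] at h2
    exact h y h1 h2
  · intro v v' v'' h h' y h1 h2
    by_cases h3 : min v v' ≤ y ∧ y < max v v'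
    · exact h y h3.1 h3.2
    · apply h' y
      · omega
      · omega

theorem mono (hb : 1 ≤ b) (s : ℕ) (v v' : ℤ) (h : EE J b P (s + 1) v v') : EE J b P s v v' := by
  intro y h1 h2
  obtain ⟨x, hx, hyx, hle⟩ := h y h1 h2
  refine ⟨x, hx, hyx, ?_⟩
  refine le_trans ?_ hle
  apply mul_le_mul_of_nonneg_left _ (by omega)
  exact pow_le_pow_right₀ (by exact_mod_cast hb) (by omega)

theorem near_aux (hb : 1 ≤ b) (hJ : J.card ≤ b ^ 2) (s : ℕ) (v v' : ℤ) (hv : v ≤ v')
    (h : EE J b P s v v') : (v' - v) * (b : ℤ) ^ (3 * s) ≤ P := by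
  set B : ℕ := b ^ (3 * s + 2) with hB
  have hBpos : 0 < B := pow_pos hb _
  set q : ℕ := P / B with hq
  have hsub : Ico v v' ⊆ J.biUnion (fun x => Ico (x - q) x) := by
    intro y hy
    rw [mem_Ico] at hy
    obtain ⟨x, hx, hyx, hle⟩ := h y (by omega) (by omega)
    rw [mem_biUnion]
    refine ⟨x, hx, ?_⟩
    rw [mem_Ico]
    refine ⟨?_, hyx⟩
    have h1 : (x - y) * (B : ℤ) ≤ P := by
      rw [hB]; push_cast; exact hle
    have h2 : x - y ≤ (P : ℤ) / (B : ℤ) :=
      (Int.le_ediv_iff_mul_le (by exact_mod_cast hBpos)).2 h1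
    have h3 : ((P : ℤ) / (B : ℤ)) = (q : ℤ) := by rw [hq]; norm_cast
    omega
  have h1 := (card_le_card hsub).trans card_biUnion_le
  have h2 : ∑ x ∈ J, (Ico (x - (q : ℤ)) x).card = J.card * q := by
    rw [Finset.sum_congr rfl (fun x _ => by rw [Int.card_Ico]), Finset.sum_congr rfl
      (fun x _ => by rw [show (x - (x - (q : ℤ))) = q by ring, Int.toNat_natCast])]
    rw [sum_const, smul_eq_mul]
  rw [h2, Int.card_Ico] at h1
  have h3 : v' - v ≤ (J.card * q : ℕ) := by omega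
  have h4 : (J.card * q) * b ^ (3 * s) ≤ P := by
    calc (J.card * q) * b ^ (3 * s) ≤ (b ^ 2 * q) * b ^ (3 * s) := by
          apply Nat.mul_le_mul_right
          exact Nat.mul_le_mul_right _ hJ
      _ = q * B := by rw [hB]; ring
      _ ≤ P := Nat.div_mul_le_self _ _
  calc (v' - v) * (b : ℤ) ^ (3 * s) ≤ ((J.card * q : ℕ) : ℤ) * (b : ℤ) ^ (3 * s) :=
        mul_le_mul_of_nonneg_right h3 (by positivity)
    _ = (((J.card * q) * b ^ (3 * s) : ℕ) : ℤ) := by push_cast; ring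
    _ ≤ P := by exact_mod_cast h4

theorem near (hb : 1 ≤ b) (hJ : J.card ≤ b ^ 2) (s : ℕ) (v v' : ℤ)
    (h : EE J b P s v v') : |v - v'| * (b : ℤ) ^ (3 * s) ≤ P := by
  rcases le_total v v' with hv | hv
  · rw [abs_sub_comm, abs_of_nonneg (by omega)]
    exact near_aux hb hJ s v v' hv h
  · rw [abs_of_nonneg (by omega)]
    exact near_aux hb hJ s v' v hv ((equiv s).symm h)

theorem far (s : ℕ) (v : ℤ) (hv : v ∈ J) (v' : ℤ) (hv' : v' ∈ J)
    (h : ¬ EE J b P s v v') : (P : ℤ) < |v - v'| * (b : ℤ) ^ (3 * s + 2) := by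
  by_contra hcon
  push Not at hcon
  apply h
  intro y h1 h2
  refine ⟨max v v', ?_, h2, ?_⟩
  · rcases max_choice v v' with e | e <;> rw [e] <;> assumption
  · refine le_trans ?_ hcon
    apply mul_le_mul_of_nonneg_right _ (by positivity)
    rw [← max_sub_min_eq_abs]
    omega

variable {p : ℕ} (G : ℤ → ZMod p)

theorem wt_eq (s : ℕ) (v v' : ℤ) (h : EE J b P s v v') :
    wt G J b P s v = wt G J b P s v' := by
  unfold wt
  congr 1
  ext x
  simp only [mem_filter]
  exact and_congr_right fun _ =>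
    ⟨fun h1 => (equiv s).trans ((equiv s).symm h) h1, fun h1 => (equiv s).trans h h1⟩

theorem uniq (s : ℕ) (v : ℤ) (hv : v ∈ vis G J b P s) (v' : ℤ) (hv' : v' ∈ vis G J b P s)
    (h : EE J b P s v v') : v = v' := by
  simp only [vis, mem_filter] at hv hv'
  exact le_antisymm (hv.2.1 v' hv'.1 h) (hv'.2.1 v hv.1 ((equiv s).symm h))

theorem exi (s : ℕ) (x : ℤ) (hx : x ∈ J) (hw : wt G J b P s x ≠ 0) :
    ∃ v ∈ vis G J b P s, EE J b P s v x := by
  classical
  have hne : (J.filter (fun u => EE J b P s x u)).Nonempty :=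
    ⟨x, mem_filter.2 ⟨hx, (equiv s).refl x⟩⟩
  obtain ⟨v, hv, hmin⟩ := Finset.exists_min_image _ (fun u : ℤ => u) hne
  rw [mem_filter] at hv
  refine ⟨v, ?_, (equiv s).symm hv.2⟩
  simp only [vis, mem_filter]
  refine ⟨hv.1, ?_, ?_⟩
  · intro u hu huv
    exact hmin u (mem_filter.2 ⟨hu, (equiv s).trans hv.2 huv⟩)
  · rw [← wt_eq G s x v hv.2]; exact hw

end EEs

theorem EEs_proof : Stmt_EEs := by
  intro p G J b P hb hP
  exact ⟨EEs.equiv, EEs.mono hb, fun hJ => EEs.near hb hJ, fun s v hv v' hv' => EEs.far s v hv v' hv',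
    fun s v hv v' hv' => EEs.uniq G s v hv v' hv', fun s x hx => EEs.exi G s x hx,
    fun s v v' => EEs.wt_eq G s v v'⟩

end Pool.Agent.SPD
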