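import Pool.Agent.SPD.Stmts

set_option autoImplicit false

/-!
The number of centre tuples of regular tuples near a target.
-/

open Finset

namespace Pool.Agent.SPD

theorem FamT_proof (hA : Stmt_CodeA) (hB : Stmt_CodeB) (hC : Stmt_CodeC) : Stmt_FamT := by
  classical
  intro F _ S hS tr ι _ G L C T r σ hb hL hG hr hT K hK
  choose! W hW1 hW2 hW3 using hK
  have hmem : ∀ ω ∈ K, ∀ i, W ω i ∈ S.U := by
    intro ω hω i
    unfold Dat.U
    exact mem_insert_of_mem ((hW1 ω hω).mem i)
  have hinj : Set.InjOn (fun ω => code S G (T - 1) (W ω)) (K : Set (ι → ℕ × ℤ)) := by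
    intro ω hω ω' hω' heq
    by_contra hne
    rw [mem_coe] at hω hω'
    have hex : ∃ i, ¬ S.R (T - 2) (W ω i) (W ω' i) := by
      by_contra hcon
      push Not at hcon
      apply hne
      rw [hW3 ω hω, hW3 ω' hω']
      funext i
      exact tr.cen_eq (T - 2) (by omega) _ (hmem ω hω i) _ (hmem ω' hω' i) (hcon i)
    have hd : |SX S (W ω) - SX S (W ω')| ≤ ((2 * C : ℕ) : ℤ) * S.D T := by
      have h1 := hW2 ω hω
      have h2 := hW2 ω' hω'
      rw [abs_le] at h1 h2 ⊢
      push_cast
      constructor <;> linarith [h1.1, h1.2, h2.1, h2.2]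
    exact hA F S hS tr ι G L (2 * C) T (T - 1) (T - 1) (W ω) (W ω') (by omega) hL (hW1 ω hω)
      (hW1 ω' hω') hd hT hex (by omega) (by omega) heq
  have h1 := hC ι (Fintype.card ι * r) (K.image (fun ω => code S G (T - 1) (W ω))) (by
    intro l hl
    rw [mem_image] at hl
    obtain ⟨ω, hω, rfl⟩ := hl
    exact hB F S hS tr ι G r (T - 1) (W ω) hG hr (hW1 ω hω).mem)
  rwa [card_image_of_injOn hinj] at h1

end Pool.Agent.SPD
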