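import Pool.Agent.SPD.Stmts

set_option autoImplicit false

/-!
Module FamV: the number of representations by final clusters.
-/

open Finset

namespace Pool.Agent.SPD

namespace FamV

/-- The first time of separation. -/
theorem exists_sep {F : Type} [Field F] {S : Dat F} {x y : ℕ × ℤ} {a : ℕ} (ha : S.R a x y)
    (hk : ¬ S.R S.k x y) (hak : a ≤ S.k) : ∃ j, a ≤ j ∧ j < S.k ∧ S.R j x y ∧ ¬ S.R (j + 1) x y := by
  by_contra hcon
  push Not at hcon
  have key : ∀ n, a ≤ n → n ≤ S.k → S.R n x y := by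
    intro n hn
    induction n, hn using Nat.le_induction with
    | base => intro _; exact ha
    | succ n hn ih => intro h; exact hcon n hn (by omega) (ih (by omega))
  exact hk (key S.k hak le_rfl)

end FamV

theorem FamV_proof (hA : Stmt_CodeA) (hB : Stmt_CodeB) (hC : Stmt_CodeC) : Stmt_FamV := by
  classical
  intro F _ S hOk hTr ι _ G L C q r σ hb hL hG hcard K hK
  have hinj : Set.InjOn (fun w => code S G S.k w) (K : Set (ι → ℕ × ℤ)) := by
    intro w hw w' hw' hcode
    by_contra hne
    obtain ⟨hV, hR, hs⟩ := hK w hw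
    obtain ⟨hV', hR', hs'⟩ := hK w' hw'
    have hdiff : |SX S w - SX S w'| ≤ (2 * C : ℕ) * S.D (S.k - q) := by
      have h1 : SX S w - SX S w' = (SX S w - σ) - (SX S w' - σ) := by ring
      rw [h1]
      refine (abs_sub _ _).trans ?_
      push_cast
      linarith
    by_cases hsep : ∃ i, ¬ S.R (S.k - q - 2) (w i) (w' i)
    · exact hA F S hOk hTr ι G L (2 * C) (S.k - q) S.k S.k w w' hb (by omega) hR hR' hdiff
        (by omega) hsep (by omega) (by omega) hcode
    · push Not at hsep
      obtain ⟨i, hi⟩ : ∃ i, w i ≠ w' i := by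
        by_contra h
        push Not at h
        exact hne (funext h)
      have hVp : w i ∈ S.Vp := mem_insert_of_mem (hV i)
      have hVp' : w' i ∈ S.Vp := mem_insert_of_mem (hV' i)
      have hnR : ¬ S.R S.k (w i) (w' i) := fun h => hi (hTr.V_eq _ hVp _ hVp' h)
      obtain ⟨j, hj1, hj2, hj3, hj4⟩ := FamV.exists_sep (hsep i) hnR (by omega)
      have hU : w i ∈ S.U := hTr.Vp_sub hVp
      have hU' : w' i ∈ S.U := hTr.Vp_sub hVp'
      by_cases hm : S.Mn j (w i)
      · have hm' : ¬ S.Mn j (w' i) := fun h => hj4 (hTr.main j _ hU _ hU' hj3 hm h)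
        have := hR'.fin i j ⟨hj2, Or.inl hm'⟩
        omega
      · have := hR.fin i j ⟨hj2, Or.inl hm⟩
        omega
  rw [← card_image_of_injOn hinj]
  apply hC
  intro l hl
  obtain ⟨w, hw, rfl⟩ := mem_image.1 hl
  obtain ⟨hV, _, _⟩ := hK w hw
  exact hB F S hOk hTr ι G r S.k w hG hcard fun i => hTr.V_sub (hV i)

end Pool.Agent.SPD
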