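import Pool.Agent.SPD.Stmts

set_option autoImplicit false

open Finset

namespace Pool.Agent.SPD

namespace Fill

variable {m l : ℕ}

/-- the block number -/
noncomputable def qq (ρ : Fin l ↪o Fin m) (ψ : Fin l ↪o Fin (2 * l)) (x : Fin m) : ℕ :=
  (univ.filter (fun a => ρ a ≤ x)).sup (fun a => (ψ a : ℕ) + 1)

open Classical in
/-- the offset -/
noncomputable def oo (ρ : Fin l ↪o Fin m) (κ : Fin 2) (x : Fin m) : ℕ :=
  if ∃ a, ρ a = x then 0 else 1 + (κ : ℕ) * m + x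

/-- the index -/
noncomputable def idx (ρ : Fin l ↪o Fin m) (κ : Fin 2) (ψ : Fin l ↪o Fin (2 * l)) (x : Fin m) :
    ℕ := (2 * m + 2) * qq ρ ψ x + oo ρ κ x

theorem qq_im (ρ : Fin l ↪o Fin m) (ψ : Fin l ↪o Fin (2 * l)) (a : Fin l) :
    qq ρ ψ (ρ a) = (ψ a : ℕ) + 1 := by
  unfold qq
  apply le_antisymm
  · apply Finset.sup_le
    intro b hb
    have h1 : b ≤ a := ρ.le_iff_le.1 (Finset.mem_filter.1 hb).2
    have h2 : ψ b ≤ ψ a := ψ.le_iff_le.2 h1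
    have h3 : (ψ b : ℕ) ≤ (ψ a : ℕ) := h2
    omega
  · exact Finset.le_sup (f := fun a => (ψ a : ℕ) + 1) (by simp)

theorem qq_mono (ρ : Fin l ↪o Fin m) (ψ : Fin l ↪o Fin (2 * l)) {x x' : Fin m} (h : x ≤ x') :
    qq ρ ψ x ≤ qq ρ ψ x' := by
  unfold qq
  apply Finset.sup_mono
  intro a ha
  rw [Finset.mem_filter] at ha ⊢
  exact ⟨ha.1, ha.2.trans h⟩

theorem qq_lt (ρ : Fin l ↪o Fin m) (ψ : Fin l ↪o Fin (2 * l)) {x : Fin m} (a : Fin l)
    (h : x < ρ a) : qq ρ ψ x < (ψ a : ℕ) + 1 := by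
  unfold qq
  rw [Finset.sup_lt_iff (by simp)]
  intro b hb
  have h1 : ρ b < ρ a := lt_of_le_of_lt (Finset.mem_filter.1 hb).2 h
  have h2 : ψ b < ψ a := ψ.lt_iff_lt.2 (ρ.lt_iff_lt.1 h1)
  have h3 : (ψ b : ℕ) < (ψ a : ℕ) := h2
  omega

theorem qq_le (ρ : Fin l ↪o Fin m) (ψ : Fin l ↪o Fin (2 * l)) (x : Fin m) :
    qq ρ ψ x ≤ 2 * l := by
  unfold qq
  apply Finset.sup_le
  intro b _
  have := (ψ b).2
  omega

theorem oo_lt (ρ : Fin l ↪o Fin m) (κ : Fin 2) (x : Fin m) : oo ρ κ x < 2 * m + 2 := by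
  unfold oo
  split_ifs
  · omega
  · have h1 := x.2
    have h2 : (κ : ℕ) * m ≤ 1 * m := Nat.mul_le_mul_right _ (by have := κ.2; omega)
    omega

theorem idx_strictMono (ρ : Fin l ↪o Fin m) (κ : Fin 2) (ψ : Fin l ↪o Fin (2 * l)) :
    StrictMono (idx ρ κ ψ) := by
  intro x x' h
  unfold idx
  by_cases hx' : ∃ a, ρ a = x'
  · obtain ⟨a, rfl⟩ := hx'
    rw [qq_im]
    have h1 := qq_lt ρ ψ a h
    have h2 := oo_lt ρ κ x
    calc (2 * m + 2) * qq ρ ψ x + oo ρ κ x < (2 * m + 2) * qq ρ ψ x + (2 * m + 2) := by omega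
      _ = (2 * m + 2) * (qq ρ ψ x + 1) := by ring
      _ ≤ (2 * m + 2) * ((ψ a : ℕ) + 1) := Nat.mul_le_mul_left _ (by omega)
      _ ≤ _ := Nat.le_add_right _ _
  · have h1 : (2 * m + 2) * qq ρ ψ x ≤ (2 * m + 2) * qq ρ ψ x' :=
      Nat.mul_le_mul_left _ (qq_mono ρ ψ h.le)
    have h2 : oo ρ κ x < oo ρ κ x' := by
      unfold oo
      rw [if_neg hx']
      have h3 : (x : ℕ) < x' := h
      split_ifs
      · omega
      · omega
    omega

theorem idx_lt (ρ : Fin l ↪o Fin m) (κ : Fin 2) (ψ : Fin l ↪o Fin (2 * l)) (x : Fin m) :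
    idx ρ κ ψ x < (2 * l + 2) * (2 * m + 2) := by
  unfold idx
  have h1 := qq_le ρ ψ x
  have h2 := oo_lt ρ κ x
  calc (2 * m + 2) * qq ρ ψ x + oo ρ κ x < (2 * m + 2) * (2 * l) + (2 * m + 2) := by
        have := Nat.mul_le_mul_left (2 * m + 2) h1
        omega
    _ ≤ (2 * l + 2) * (2 * m + 2) := by nlinarith

theorem idx_im (ρ : Fin l ↪o Fin m) (κ : Fin 2) (ψ : Fin l ↪o Fin (2 * l)) (a : Fin l) :
    idx ρ κ ψ (ρ a) = (2 * m + 2) * ((ψ a : ℕ) + 1) := by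
  unfold idx oo
  rw [qq_im, if_pos ⟨a, rfl⟩, add_zero]

theorem idx_ne (ρ : Fin l ↪o Fin m) (ψ ψ' : Fin l ↪o Fin (2 * l)) (hd : ∀ a a', ψ a ≠ ψ' a')
    (x x' : Fin m) : idx ρ 0 ψ x ≠ idx ρ 1 ψ' x' := by
  intro h
  have h1 := oo_lt ρ 0 x
  have h2 := oo_lt ρ 1 x'
  have hq : qq ρ ψ x = qq ρ ψ' x' ∧ oo ρ 0 x = oo ρ 1 x' := by
    have e1 : idx ρ 0 ψ x / (2 * m + 2) = qq ρ ψ x := by
      unfold idx
      rw [Nat.mul_add_div (by omega), Nat.div_eq_of_lt h1, add_zero]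
    have e2 : idx ρ 1 ψ' x' / (2 * m + 2) = qq ρ ψ' x' := by
      unfold idx
      rw [Nat.mul_add_div (by omega), Nat.div_eq_of_lt h2, add_zero]
    have e3 : idx ρ 0 ψ x % (2 * m + 2) = oo ρ 0 x := by
      unfold idx
      rw [Nat.mul_add_mod, Nat.mod_eq_of_lt h1]
    have e4 : idx ρ 1 ψ' x' % (2 * m + 2) = oo ρ 1 x' := by
      unfold idx
      rw [Nat.mul_add_mod, Nat.mod_eq_of_lt h2]
    rw [← e1, ← e2, ← e3, ← e4, h]
    exact ⟨rfl, rfl⟩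
  by_cases hx : ∃ a, ρ a = x
  · by_cases hx' : ∃ a, ρ a = x'
    · obtain ⟨a, rfl⟩ := hx
      obtain ⟨a', rfl⟩ := hx'
      rw [qq_im, qq_im] at hq
      apply hd a a'
      ext
      omega
    · have := hq.2
      unfold oo at this
      rw [if_pos hx, if_neg hx'] at this
      omega
  · by_cases hx' : ∃ a, ρ a = x'
    · have := hq.2
      unfold oo at this
      rw [if_pos hx', if_neg hx] at this
      omega
    · have := hq.2
      unfold oo at this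
      rw [if_neg hx', if_neg hx] at this
      have h3 := x.2
      simp only [Fin.val_zero, Fin.val_one, zero_mul, one_mul] at this
      omega

end Fill

open Pool.Agent.SPD.Fill in
theorem Fill_proof : Stmt_Fill := by
  intro m l ρ M H hH
  -- enumeration of H
  let e := H.orderEmbOfFin rfl
  let hh : ∀ n : ℕ, n < H.card → Fin M := fun n hn => e ⟨n, hn⟩
  have hmono : ∀ n n' (h : n < H.card) (h' : n' < H.card), n < n' → hh n h < hh n' h' :=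
    fun n n' h h' hlt => e.lt_iff_lt.2 hlt
  have hb : ∀ i : Fin (2 * l), (2 * m + 2) * ((i : ℕ) + 1) < H.card := by
    intro i
    have := i.2
    calc (2 * m + 2) * ((i : ℕ) + 1) ≤ (2 * m + 2) * (2 * l) := Nat.mul_le_mul_left _ (by omega)
      _ < (2 * l + 2) * (2 * m + 2) := by nlinarith
      _ ≤ _ := hH
  have hi : ∀ κ ψ x, idx ρ κ ψ x < H.card := fun κ ψ x => lt_of_lt_of_le (idx_lt ρ κ ψ x) hH
  refine ⟨OrderEmbedding.ofStrictMono (fun i => hh ((2 * m + 2) * ((i : ℕ) + 1)) (hb i)) ?_,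
    fun κ ψ => OrderEmbedding.ofStrictMono (fun x => hh (idx ρ κ ψ x) (hi κ ψ x)) ?_, ?_, ?_, ?_⟩
  · intro i i' h
    have h' : (i : ℕ) < i' := h
    exact hmono _ _ _ _ (Nat.mul_lt_mul_of_pos_left (by omega) (by omega))
  · intro x x' h
    exact hmono _ _ _ _ (idx_strictMono ρ κ ψ h)
  · intro κ ψ x
    exact Finset.orderEmbOfFin_mem H rfl _
  · intro κ ψ a
    have e1 : idx ρ κ ψ (ρ a) = (2 * m + 2) * ((ψ a : ℕ) + 1) := idx_im ρ κ ψ a
    show hh (idx ρ κ ψ (ρ a)) _ = hh ((2 * m + 2) * ((ψ a : ℕ) + 1)) _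
    congr 1
  · intro ψ ψ' hd x x' h
    have h' : hh (idx ρ 0 ψ x) (hi 0 ψ x) = hh (idx ρ 1 ψ' x') (hi 1 ψ' x') := h
    have h2 := e.injective h'
    have h3 := congrArg Fin.val h2
    exact idx_ne ρ ψ ψ' hd x x' h3

end Pool.Agent.SPD
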