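import Pool.Agent.SPD.Stmts

set_option autoImplicit false

/-!
SPD/FinA (helper92): a stable homogeneous stage.
-/

open Finset

namespace Pool.Agent.SPD

namespace FinA

theorem exists_stable (V : ℕ) (v : ℕ → ℕ) (hlt : ∀ s ≤ V, v s < V) : ∃ s < V, v (s + 1) ≤ v s := by
  by_contra hcon
  push Not at hcon
  have h : ∀ s ≤ V, s ≤ v s := by
    intro s
    induction s with
    | zero => intro _; exact Nat.zero_le _
    | succ s ih =>
      intro hs
      have h1 := ih (by omega)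
      have h2 := hcon s (by omega)
      omega
  have h1 := h V le_rfl
  have h2 := hlt V le_rfl
  omega

end FinA

open FinA in
theorem FinA_proof (hRam : Stmt_Ram) (hVl : Stmt_Vl) : Stmt_FinA := by
  classical
  intro p r₂ r₃ hp hh
  have : Fact p.Prime := ⟨hp⟩
  obtain ⟨-, -, -, -, hV5⟩ := hVl
  set V : ℕ := (2 ^ r₃) ^ r₂ with hV
  have hVpos : 0 < V := by positivity
  set h : ℕ := (∑ s ∈ range (V + 1), hh (2 ^ s)) + 2 ^ V with hh'
  obtain ⟨M, hM⟩ := hRam h V (fun s => 2 ^ s)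
    (fun s => Set ((Fin (2 ^ s) → Finset (Fin r₃)) × ZMod p))
  refine ⟨3 * 2 ^ V, V + 1, M, ?_⟩
  intro α cw Fm lb hC
  obtain ⟨H, hHcard, hH⟩ := hM (fun s I => if hI : I.card = 2 ^ s then
    {q | ∃ T, Fm s I T ∧ (∀ x, q.1 x = univ.filter
      (fun j : Fin r₃ => (j : ℕ) ∈ lb T ((I.orderEmbOfFin hI) x))) ∧ q.2 = cw T} else ∅)
  have hpow : ∀ s ≤ V, 2 ^ s ≤ 2 ^ V := fun s hs => Nat.pow_le_pow_right (by norm_num) hs
  have hHne : H.Nonempty := by
    rw [← Finset.card_pos, hHcard]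
    have : 0 < 2 ^ V := by positivity
    omega
  have hHbig : ∀ s ≤ V, 2 ^ s ≤ H.card := by
    intro s hs
    have := hpow s hs
    omega
  -- the maximal values
  have hbd : ∀ s ≤ V, ∀ I : Finset (Fin M), I.card = 2 ^ s → ∀ T, Fm s I T →
      vl (2 ^ r₃) lb T < V := by
    intro s hs I hI T hT
    have h1 := (hV5 M r₃ α lb hC.lab_lt).1 T
    have h2 := hC.card s I T (by omega) (by rw [hI]; have := hpow s hs; omega) hT
    refine lt_of_lt_of_le h1 ?_
    rw [hV]
    exact Nat.pow_le_pow_right (by positivity) h2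
  set P : ℕ → ℕ → Prop := fun s n => ∃ I ⊆ H, I.card = 2 ^ s ∧ ∃ T, Fm s I T ∧
    vl (2 ^ r₃) lb T = n with hP
  set v : ℕ → ℕ := fun s => Nat.findGreatest (P s) V with hv
  have hPne : ∀ s ≤ V, ∃ n, n ≤ V ∧ P s n := by
    intro s hs
    obtain ⟨l, hl⟩ := hHne
    obtain ⟨T, hT⟩ := hC.base l
    obtain ⟨I, hlI, hIH, hI⟩ := Finset.exists_subsuperset_card_eq
      (Finset.singleton_subset_iff.2 hl) (n := 2 ^ s)
      (by rw [Finset.card_singleton]; exact Nat.one_le_two_pow) (hHbig s hs)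
    have hT' : Fm s I T := hC.mono 0 s {l} I T (Nat.zero_le _) (by omega) hlI
      (by rw [hI]; have := hpow s hs; omega) hT
    exact ⟨vl (2 ^ r₃) lb T, (hbd s hs I hI T hT').le, I, hIH, hI, T, hT', rfl⟩
  have hvP : ∀ s ≤ V, P s (v s) := by
    intro s hs
    obtain ⟨n, hn, hPn⟩ := hPne s hs
    exact Nat.findGreatest_spec hn hPn
  have hvlt : ∀ s ≤ V, v s < V := by
    intro s hs
    obtain ⟨I, _, hI, T, hT, hTv⟩ := hvP s hs
    rw [← hTv]
    exact hbd s hs I hI T hT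
  have hvle : ∀ s ≤ V, ∀ I ⊆ H, I.card = 2 ^ s → ∀ T, Fm s I T → vl (2 ^ r₃) lb T ≤ v s := by
    intro s hs I hIH hI T hT
    exact Nat.le_findGreatest (hbd s hs I hI T hT).le ⟨I, hIH, hI, T, hT, rfl⟩
  obtain ⟨s, hs, hst⟩ := exists_stable V v hvlt
  refine ⟨2 ^ s, s, v s, H, by omega, ?_, ?_, ?_, ?_, ?_⟩
  · have := hpow s hs.le
    omega
  · have h1 : hh (2 ^ s) ≤ ∑ s ∈ range (V + 1), hh (2 ^ s) :=
      Finset.single_le_sum (f := fun s => hh (2 ^ s)) (fun _ _ => Nat.zero_le _)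
        (Finset.mem_range.2 (by omega))
    rw [hHcard]
    exact h1.trans (Nat.le_add_right _ _)
  · -- homogeneity
    intro e e' he he' T hT
    obtain ⟨a, ha⟩ := hH s hs.le
    have hc : ∀ e : Fin (2 ^ s) ↪o Fin M, (univ.image e).card = 2 ^ s := by
      intro e
      rw [Finset.card_image_of_injective _ e.injective, Finset.card_univ, Fintype.card_fin]
    have hsub : ∀ e : Fin (2 ^ s) ↪o Fin M, (∀ x, e x ∈ H) → univ.image e ⊆ H := by
      intro e he x hx
      obtain ⟨y, _, rfl⟩ := Finset.mem_image.1 hx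
      exact he y
    have heq : ∀ e : Fin (2 ^ s) ↪o Fin M, e = (univ.image e).orderEmbOfFin (hc e) := by
      intro e
      exact Finset.orderEmbOfFin_unique' (hc e) fun x => Finset.mem_image_of_mem _ (Finset.mem_univ x)
    have h1 := ha (univ.image e) (hsub e he) (hc e)
    have h2 := ha (univ.image e') (hsub e' he') (hc e')
    rw [← h2] at h1
    simp only [dif_pos (hc e), dif_pos (hc e')] at h1
    have h3 : ((fun x => univ.filter (fun j : Fin r₃ => (j : ℕ) ∈ lb T (e x)), cw T) :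
        (Fin (2 ^ s) → Finset (Fin r₃)) × ZMod p) ∈
        {q : (Fin (2 ^ s) → Finset (Fin r₃)) × ZMod p | ∃ T, Fm s (univ.image e) T ∧
          (∀ x, q.1 x = univ.filter
      (fun j : Fin r₃ => (j : ℕ) ∈ lb T (((univ.image e).orderEmbOfFin (hc e)) x))) ∧
        q.2 = cw T} := by
      refine ⟨T, hT, fun x => ?_, rfl⟩
      rw [← heq e]
    rw [h1] at h3
    obtain ⟨T', hT', hl, hcw⟩ := h3
    refine ⟨T', hT', fun x => ?_, hcw.symm⟩
    have h4 := hl x
    rw [← heq e'] at h4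
    ext j
    constructor
    · intro hj
      have hj' := hC.lab_lt T' (e' x) j hj
      have h5 : (⟨j, hj'⟩ : Fin r₃) ∈ univ.filter (fun j : Fin r₃ => (j : ℕ) ∈ lb T' (e' x)) := by
        simpa using hj
      rw [← h4] at h5
      simpa using h5
    · intro hj
      have hj' := hC.lab_lt T (e x) j hj
      have h5 : (⟨j, hj'⟩ : Fin r₃) ∈ univ.filter (fun j : Fin r₃ => (j : ℕ) ∈ lb T (e x)) := by
        simpa using hj
      have h6 : (⟨j, hj'⟩ : Fin r₃) ∈ univ.filter (fun j : Fin r₃ => (j : ℕ) ∈ lb T' (e' x)) := by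
        rw [← h4]; exact h5
      simpa using h6
  · obtain ⟨I, hIH, hI, T, hT, hTv⟩ := hvP s hs.le
    refine ⟨I.orderEmbOfFin hI, fun x => hIH (Finset.orderEmbOfFin_mem I hI x), T, ?_, hTv⟩
    rw [Finset.image_orderEmbOfFin_univ]
    exact hT
  · intro I hIH hI T hT
    exact (hvle (s + 1) (by omega) I hIH (by rw [hI]; ring) T hT).trans hst

end Pool.Agent.SPD
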