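import Pool.Agent.SPD.Stmts

set_option autoImplicit false

/-!
FinB: the contradiction at a stable stage.
-/

open Finset

namespace Pool.Agent.SPD

namespace FinB

/-- `T` has the pattern of the embedding `f`, with the labels `W0`. -/
def Pat {M l : ℕ} {α : Type} (lb : α → Fin M → Finset ℕ) (W0 : Fin l → Finset ℕ)
    (T : α) (f : Fin l ↪o Fin M) : Prop :=
  (∀ x, lb T x ≠ ∅ ↔ ∃ a, f a = x) ∧ ∀ a, lb T (f a) = W0 a

theorem pat_eq {M l : ℕ} {α : Type} {lb : α → Fin M → Finset ℕ} {W0 : Fin l → Finset ℕ}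
    {T T' : α} {f : Fin l ↪o Fin M} (h : Pat lb W0 T f) (h' : Pat lb W0 T' f) (x : Fin M) :
    lb T x = lb T' x := by
  by_cases hx : ∃ a, f a = x
  · obtain ⟨a, rfl⟩ := hx
    rw [h.2, h'.2]
  · have h1 : lb T x = ∅ := by
      by_contra hc
      exact hx ((h.1 x).1 hc)
    have h2 : lb T' x = ∅ := by
      by_contra hc
      exact hx ((h'.1 x).1 hc)
    rw [h1, h2]

/-- the pattern of two complementary words -/
theorem split {M l : ℕ} {α : Type} (lb : α → Fin M → Finset ℕ) (y : Fin (2 * l) ↪o Fin M)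
    (U : Fin M → Finset ℕ) (hU : ∀ x, U x ≠ ∅ ↔ ∃ c, y c = x) (S S' : α)
    (hd : ∀ x, Disjoint (lb S x) (lb S' x) ∧ lb S x ∪ lb S' x = U x)
    (h1 : (univ.filter (fun x => lb S x ≠ ∅)).card ≤ l)
    (h2 : (univ.filter (fun x => lb S' x ≠ ∅)).card ≤ l) :
    ∃ φ₁ φ₂ : Fin l ↪o Fin (2 * l), (∀ a a', φ₁ a ≠ φ₂ a') ∧
      (∀ x, lb S x ≠ ∅ ↔ ∃ a, y (φ₁ a) = x) ∧ (∀ x, lb S' x ≠ ∅ ↔ ∃ a, y (φ₂ a) = x) ∧
      (∀ a, lb S (y (φ₁ a)) = U (y (φ₁ a))) ∧ (∀ a, lb S' (y (φ₂ a)) = U (y (φ₂ a))) ∧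
      (∀ c, (∃ a, φ₁ a = c) ↔ lb S (y c) ≠ ∅) := by
  classical
  set A : Finset (Fin (2 * l)) := univ.filter (fun c => lb S (y c) ≠ ∅) with hA
  set A' : Finset (Fin (2 * l)) := univ.filter (fun c => lb S' (y c) ≠ ∅) with hA'
  have cA : A.card ≤ l := by
    refine le_trans ?_ h1
    refine Finset.card_le_card_of_injOn (fun c => y c) ?_ (fun a _ b _ h => y.injective h)
    intro c hc
    simp only [hA, coe_filter, mem_univ, true_and, Set.mem_ofPred_eq] at hc ⊢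
    exact hc
  have cA' : A'.card ≤ l := by
    refine le_trans ?_ h2
    refine Finset.card_le_card_of_injOn (fun c => y c) ?_ (fun a _ b _ h => y.injective h)
    intro c hc
    simp only [hA', coe_filter, mem_univ, true_and, Set.mem_ofPred_eq] at hc ⊢
    exact hc
  have hun : A ∪ A' = univ := by
    ext c
    simp only [hA, hA', mem_union, mem_filter, mem_univ, true_and, iff_true]
    by_contra hc
    push Not at hc
    have := (hU (y c)).2 ⟨c, rfl⟩
    rw [← (hd (y c)).2, hc.1, hc.2] at this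
    exact this (by simp)
  have hcard : (A ∪ A').card = 2 * l := by rw [hun]; simp
  have hint := Finset.card_union_add_card_inter A A'
  have eA : A.card = l := by omega
  have eA' : A'.card = l := by omega
  have hempty : A ∩ A' = ∅ := by
    rw [← Finset.card_eq_zero]; omega
  have hdis : ∀ c, c ∈ A → c ∈ A' → False := by
    intro c h h'
    have : c ∈ A ∩ A' := mem_inter.2 ⟨h, h'⟩
    rw [hempty] at this
    exact absurd this (by simp)
  have r1 : ∀ c, (∃ a, A.orderEmbOfFin eA a = c) ↔ c ∈ A := by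
    intro c
    have := Finset.range_orderEmbOfFin A eA
    have h3 : c ∈ Set.range (A.orderEmbOfFin eA) ↔ c ∈ (A : Set (Fin (2 * l))) := by rw [this]
    rw [Set.mem_range, Finset.mem_coe] at h3
    exact h3
  have r2 : ∀ c, (∃ a, A'.orderEmbOfFin eA' a = c) ↔ c ∈ A' := by
    intro c
    have := Finset.range_orderEmbOfFin A' eA'
    have h3 : c ∈ Set.range (A'.orderEmbOfFin eA') ↔ c ∈ (A' : Set (Fin (2 * l))) := by rw [this]
    rw [Set.mem_range, Finset.mem_coe] at h3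
    exact h3
  have m1 : ∀ c, c ∈ A ↔ lb S (y c) ≠ ∅ := by intro c; simp [hA]
  have m2 : ∀ c, c ∈ A' ↔ lb S' (y c) ≠ ∅ := by intro c; simp [hA']
  refine ⟨A.orderEmbOfFin eA, A'.orderEmbOfFin eA', ?_, ?_, ?_, ?_, ?_, ?_⟩
  · intro a a' h
    have h3 := (r1 _).1 ⟨a, rfl⟩
    have h4 := (r2 _).1 ⟨a', rfl⟩
    rw [← h] at h4
    exact hdis _ h3 h4
  · intro x
    constructor
    · intro hx
      have : U x ≠ ∅ := by
        rw [← (hd x).2]
        intro hc
        exact hx (Finset.union_eq_empty.1 hc).1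
      obtain ⟨c, rfl⟩ := (hU x).1 this
      obtain ⟨a, ha⟩ := (r1 c).2 ((m1 c).2 hx)
      exact ⟨a, by rw [ha]⟩
    · rintro ⟨a, rfl⟩
      exact (m1 _).1 ((r1 _).1 ⟨a, rfl⟩)
  · intro x
    constructor
    · intro hx
      have : U x ≠ ∅ := by
        rw [← (hd x).2]
        intro hc
        exact hx (Finset.union_eq_empty.1 hc).2
      obtain ⟨c, rfl⟩ := (hU x).1 this
      obtain ⟨a, ha⟩ := (r2 c).2 ((m2 c).2 hx)
      exact ⟨a, by rw [ha]⟩
    · rintro ⟨a, rfl⟩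
      exact (m2 _).1 ((r2 _).1 ⟨a, rfl⟩)
  · intro a
    have h3 := (r1 _).1 ⟨a, rfl⟩
    have h4 : lb S' (y (A.orderEmbOfFin eA a)) = ∅ := by
      by_contra hc
      exact hdis _ h3 ((m2 _).2 hc)
    rw [← (hd _).2, h4, Finset.union_empty]
  · intro a
    have h3 := (r2 _).1 ⟨a, rfl⟩
    have h4 : lb S (y (A'.orderEmbOfFin eA' a)) = ∅ := by
      by_contra hc
      exact hdis _ ((m1 _).2 hc) h3
    rw [← (hd _).2, h4, Finset.empty_union]
  · intro c
    rw [r1, m1]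

end FinB

open FinB

theorem FinB_proof (hLex : Stmt_Lex) (hFill : Stmt_Fill) (hVl : Stmt_Vl) : Stmt_FinB := by
  classical
  intro p r₂ r₃ m₂ Q M hp hpr α cw Fm lb hC m q v H hqQ h3m hH hHom hex hmax
  have : Fact p.Prime := ⟨hp⟩
  obtain ⟨hv1, hv2, hv3, hv4, hv5⟩ := hVl
  obtain ⟨e, heH, T, hT, hTv⟩ := hex
  have hqQ' : q ≤ Q := by omega
  -- cardinals of images
  have cim : ∀ f : Fin m ↪o Fin M, (univ.image f).card = m := by
    intro f
    rw [Finset.card_image_of_injective _ f.injective]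
    simp
  have him : ∀ f : Fin m ↪o Fin M, (univ.image f).card ≤ m₂ := by
    intro f
    rw [cim]
    omega
  -- the support of `T`
  set σ : Finset (Fin m) := univ.filter (fun x => lb T (e x) ≠ ∅) with hσ
  obtain ⟨l, hl⟩ : ∃ l, σ.card = l := ⟨_, rfl⟩
  have hTsupp : ∀ x, lb T x ≠ ∅ → ∃ x', e x' = x := by
    intro x hx
    by_contra hc
    apply hx
    refine hC.supp q (univ.image e) T x hqQ' (him e) hT ?_
    intro h
    rw [mem_image] at h
    obtain ⟨x', -, h'⟩ := h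
    exact hc ⟨x', h'⟩
  have hsT : (univ.filter (fun x => lb T x ≠ ∅)).card = l := by
    rw [← hl]
    have : univ.filter (fun x => lb T x ≠ ∅) = σ.image e := by
      ext x
      simp only [mem_filter, mem_univ, true_and, mem_image, hσ]
      constructor
      · intro hx
        obtain ⟨x', rfl⟩ := hTsupp x hx
        exact ⟨x', hx, rfl⟩
      · rintro ⟨x', hx', rfl⟩
        exact hx'
    rw [this, Finset.card_image_of_injective _ e.injective]
  have hlr : l ≤ r₂ := by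
    rw [← hsT]
    exact hC.card q _ T hqQ' (him e) hT
  have hlm : l ≤ m := by
    rw [← hl]
    have := Finset.card_le_univ σ
    simpa using this
  set ρ : Fin l ↪o Fin m := σ.orderEmbOfFin hl with hρ
  have hρr : ∀ x, (∃ a, ρ a = x) ↔ lb T (e x) ≠ ∅ := by
    intro x
    have := Finset.range_orderEmbOfFin σ hl
    have h3 : x ∈ Set.range (σ.orderEmbOfFin hl) ↔ x ∈ (σ : Set (Fin m)) := by rw [this]
    rw [Set.mem_range, Finset.mem_coe] at h3
    exact h3.trans (by simp [hσ])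
  set W0 : Fin l → Finset ℕ := fun a => lb T (e (ρ a)) with hW0
  set w : Fin l → ℕ := fun a => enc (W0 a) with hw
  have hwb : ∀ a, 1 ≤ w a ∧ w a < 2 ^ r₃ := by
    intro a
    refine ⟨hv1 _ ((hρr _).1 ⟨a, rfl⟩), hv2 _ _ (hC.lab_lt T _)⟩
  obtain ⟨ψ₁, ψ₂, hψ, hLW⟩ := hLex l (2 ^ r₃) w hwb
  have hH' : (2 * l + 2) * (2 * m + 2) ≤ H.card := by
    refine le_trans ?_ hH
    gcongr
  obtain ⟨y, J, hJH, hJy, hJd⟩ := hFill m l ρ M H hH'
  -- the value of `T`
  have hvT : v = wval (2 ^ r₃) w := by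
    rw [← hTv]
    refine hv4 M (2 ^ r₃) α lb T l (ρ.trans e) ?_
    intro x
    constructor
    · intro hx
      obtain ⟨x', rfl⟩ := hTsupp x hx
      obtain ⟨a, ha⟩ := (hρr x').2 hx
      exact ⟨a, by simp [ha]⟩
    · rintro ⟨a, rfl⟩
      exact (hρr (ρ a)).1 ⟨a, rfl⟩
  -- transport by homogeneity
  have tr : ∀ (κ : Fin 2) (φ : Fin l ↪o Fin (2 * l)), ∃ T', Fm q (univ.image (J κ φ)) T' ∧
      Pat lb W0 T' (φ.trans y) ∧ cw T' = cw T := by
    intro κ φ
    obtain ⟨T', h1, h2, h3⟩ := hHom e (J κ φ) heH (fun x => hJH κ φ x) T hT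
    refine ⟨T', h1, ⟨?_, ?_⟩, h3⟩
    · intro x
      constructor
      · intro hx
        have hxi : x ∈ univ.image (J κ φ) := by
          by_contra hc
          exact hx (hC.supp q _ T' x hqQ' (him _) h1 hc)
        rw [mem_image] at hxi
        obtain ⟨x', -, rfl⟩ := hxi
        rw [h2] at hx
        obtain ⟨a, rfl⟩ := (hρr x').2 hx
        exact ⟨a, (hJy κ φ a).symm⟩
      · rintro ⟨a, rfl⟩
        have : lb T' (J κ φ (ρ a)) ≠ ∅ := by
          rw [h2]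
          exact (hρr _).1 ⟨a, rfl⟩
        rw [hJy] at this
        exact this
    · intro a
      have := h2 (ρ a)
      rw [hJy] at this
      exact this
  obtain ⟨T₁, hT₁, hP₁, hc₁⟩ := tr 0 ψ₁
  obtain ⟨T₂, hT₂, hP₂, hc₂⟩ := tr 1 ψ₂
  set I₁ := univ.image (J 0 ψ₁) with hI₁
  set I₂ := univ.image (J 1 ψ₂) with hI₂
  have hdI : Disjoint I₁ I₂ := by
    rw [Finset.disjoint_left]
    intro x h1 h2
    rw [hI₁, mem_image] at h1
    rw [hI₂, mem_image] at h2
    obtain ⟨x1, -, e1⟩ := h1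
    obtain ⟨x2, -, e2⟩ := h2
    exact hJd ψ₁ ψ₂ hψ x1 x2 (e1.trans e2.symm)
  have c1 : I₁.card = m := cim _
  have c2 : I₂.card = m := cim _
  have c12 : (I₁ ∪ I₂).card = 2 * m := by
    rw [Finset.card_union_of_disjoint hdI, c1, c2]
    ring
  have hsubH : I₁ ∪ I₂ ⊆ H := by
    intro x hx
    rw [mem_union, hI₁, hI₂, mem_image, mem_image] at hx
    rcases hx with ⟨x', -, rfl⟩ | ⟨x', -, rfl⟩
    · exact hJH _ _ _
    · exact hJH _ _ _
  obtain ⟨Sg, hSg0, hSg1, hSg2⟩ := hC.rep q I₁ I₂ T₁ T₂ hqQ (by rw [c1, c2]; omega) hdI hT₁ hT₂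
  -- the union of the labels
  set U : Fin M → Finset ℕ := fun x => lb T₁ x ∪ lb T₂ x with hU
  have hψcov : ∀ c : Fin (2 * l), (∃ a, ψ₁ a = c) ∨ ∃ a, ψ₂ a = c := by
    intro c
    have hdd : Disjoint (univ.image ψ₁) (univ.image ψ₂) := by
      rw [Finset.disjoint_left]
      intro x h1 h2
      rw [mem_image] at h1 h2
      obtain ⟨x1, -, e1⟩ := h1
      obtain ⟨x2, -, e2⟩ := h2
      exact hψ x1 x2 (e1.trans e2.symm)
    have hcu : (univ.image ψ₁ ∪ univ.image ψ₂).card = 2 * l := by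
      rw [Finset.card_union_of_disjoint hdd, Finset.card_image_of_injective _ ψ₁.injective,
        Finset.card_image_of_injective _ ψ₂.injective]
      simp
      ring
    have huniv : univ.image ψ₁ ∪ univ.image ψ₂ = univ := by
      apply Finset.eq_univ_of_card
      rw [hcu]
      simp
    have : c ∈ univ.image ψ₁ ∪ univ.image ψ₂ := by rw [huniv]; exact mem_univ c
    rw [mem_union, mem_image, mem_image] at this
    rcases this with ⟨a, -, h⟩ | ⟨a, -, h⟩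
    · exact Or.inl ⟨a, h⟩
    · exact Or.inr ⟨a, h⟩
  have hUne : ∀ x, U x ≠ ∅ ↔ ∃ c, y c = x := by
    intro x
    constructor
    · intro hx
      by_cases h1 : lb T₁ x = ∅
      · have h2 : lb T₂ x ≠ ∅ := by
          intro hc
          apply hx
          rw [hU]
          simp only [h1, hc, Finset.union_empty]
        obtain ⟨a, ha⟩ := (hP₂.1 x).1 h2
        exact ⟨ψ₂ a, ha⟩
      · obtain ⟨a, ha⟩ := (hP₁.1 x).1 h1
        exact ⟨ψ₁ a, ha⟩
    · rintro ⟨c, rfl⟩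
      rcases hψcov c with ⟨a, rfl⟩ | ⟨a, rfl⟩
      · have := (hP₁.1 (y (ψ₁ a))).2 ⟨a, rfl⟩
        intro hc
        exact this (Finset.union_eq_empty.1 hc).1
      · have := (hP₂.1 (y (ψ₂ a))).2 ⟨a, rfl⟩
        intro hc
        exact this (Finset.union_eq_empty.1 hc).2
  set W : Fin (2 * l) → ℕ := fun c => enc (U (y c)) with hW
  have hW1 : ∀ a, W (ψ₁ a) = w a := by
    intro a
    have h2 : lb T₂ (y (ψ₁ a)) = ∅ := by
      by_contra hc
      obtain ⟨a', ha'⟩ := (hP₂.1 _).1 hc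
      exact hψ a a' (y.injective ha').symm
    have h1 : lb T₁ (y (ψ₁ a)) = W0 a := hP₁.2 a
    simp only [hW, hU, hw, h1, h2, Finset.union_empty]
  have hW2 : ∀ a, W (ψ₂ a) = w a := by
    intro a
    have h2 : lb T₁ (y (ψ₂ a)) = ∅ := by
      by_contra hc
      obtain ⟨a', ha'⟩ := (hP₁.1 _).1 hc
      exact hψ a' a (y.injective ha')
    have h1 : lb T₂ (y (ψ₂ a)) = W0 a := hP₂.2 a
    simp only [hW, hU, hw, h1, h2, Finset.empty_union]
  -- the pairs in `Sg`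
  have hcu : (I₁ ∪ I₂).card ≤ m₂ := by rw [c12]; omega
  have hcwT : cw T ≠ 0 := hC.cw_ne q _ T hqQ' (him e) hT
  have hval : ∀ s ∈ Sg, vl (2 ^ r₃) lb s.1 ≤ v ∧ vl (2 ^ r₃) lb s.2 ≤ v := by
    intro s hs
    obtain ⟨h1, h2, -⟩ := hSg1 s hs
    exact ⟨hmax _ hsubH c12 _ h1, hmax _ hsubH c12 _ h2⟩
  obtain ⟨hv51, hv52⟩ := hv5 M r₃ α lb hC.lab_lt
  have hpat : ∀ s ∈ Sg, ∃ φ₁ φ₂ : Fin l ↪o Fin (2 * l), Pat lb W0 s.1 (φ₁.trans y) ∧
      Pat lb W0 s.2 (φ₂.trans y) ∧ (∀ a a', φ₁ a ≠ φ₂ a') ∧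
      (∀ c, (∃ a, φ₁ a = c) ↔ lb s.1 (y c) ≠ ∅) := by
    intro s hs
    obtain ⟨hF1, hF2, hlab⟩ := hSg1 s hs
    obtain ⟨hx1, hx2⟩ := hval s hs
    have k1 : (univ.filter (fun x => lb s.1 x ≠ ∅)).card ≤ l := by
      rw [← hsT]
      exact hv52 s.1 T (by rw [hTv]; exact hx1)
    have k2 : (univ.filter (fun x => lb s.2 x ≠ ∅)).card ≤ l := by
      rw [← hsT]
      exact hv52 s.2 T (by rw [hTv]; exact hx2)
    obtain ⟨φ₁, φ₂, g1, g2, g3, g4, g5, g6⟩ := split lb y U hUne s.1 s.2 hlab k1 k2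
    have w1 : vl (2 ^ r₃) lb s.1 = wval (2 ^ r₃) (fun a => W (φ₁ a)) := by
      rw [hv4 M (2 ^ r₃) α lb s.1 l (φ₁.trans y) (fun x => g2 x)]
      congr 1
      funext a
      show enc (lb s.1 (y (φ₁ a))) = W (φ₁ a)
      rw [g4 a]
    have w2 : vl (2 ^ r₃) lb s.2 = wval (2 ^ r₃) (fun a => W (φ₂ a)) := by
      rw [hv4 M (2 ^ r₃) α lb s.2 l (φ₂.trans y) (fun x => g3 x)]
      congr 1
      funext a
      show enc (lb s.2 (y (φ₂ a))) = W (φ₂ a)
      rw [g5 a]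
    rw [w1, hvT] at hx1
    rw [w2, hvT] at hx2
    obtain ⟨u1, u2⟩ := hLW W hW1 hW2 φ₁ φ₂ g1 hx1 hx2
    refine ⟨φ₁, φ₂, ⟨fun x => g2 x, fun a => ?_⟩, ⟨fun x => g3 x, fun a => ?_⟩, g1, g6⟩
    · show lb s.1 (y (φ₁ a)) = W0 a
      rw [g4 a]
      exact hv3 _ _ (u1 a)
    · show lb s.2 (y (φ₂ a)) = W0 a
      rw [g5 a]
      exact hv3 _ _ (u2 a)
  -- the weights
  have hcwpat : ∀ (S : α) (φ : Fin l ↪o Fin (2 * l)), Fm (q + 1) (I₁ ∪ I₂) S →
      Pat lb W0 S (φ.trans y) → cw S = cw T := by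
    intro S φ hS hPS
    obtain ⟨T₃, hT₃, hP₃, hc₃⟩ := tr 0 φ
    have hcard3 : ((I₁ ∪ I₂) ∪ univ.image (J 0 φ)).card ≤ m₂ := by
      refine (Finset.card_union_le _ _).trans ?_
      rw [c12, cim]
      omega
    have f1 : Fm (q + 1) ((I₁ ∪ I₂) ∪ univ.image (J 0 φ)) S :=
      hC.mono (q + 1) (q + 1) _ _ S le_rfl hqQ Finset.subset_union_left hcard3 hS
    have f2 : Fm (q + 1) ((I₁ ∪ I₂) ∪ univ.image (J 0 φ)) T₃ :=
      hC.mono q (q + 1) _ _ T₃ (by omega) hqQ Finset.subset_union_right hcard3 hT₃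
    have := hC.uniq (q + 1) _ S T₃ hqQ hcard3 f1 f2 (fun x => pat_eq hPS hP₃ x)
    rw [this, hc₃]
  have hprod : ∀ s ∈ Sg, cw s.1 * cw s.2 = cw T * cw T := by
    intro s hs
    obtain ⟨φ₁, φ₂, p1, p2, -, -⟩ := hpat s hs
    obtain ⟨hF1, hF2, -⟩ := hSg1 s hs
    rw [hcwpat _ _ hF1 p1, hcwpat _ _ hF2 p2]
  rw [Finset.sum_congr rfl hprod, Finset.sum_const, nsmul_eq_mul] at hSg2
  have hz : ((Sg.card : ℕ) : ZMod p) = 0 := by
    rcases mul_eq_zero.1 hSg2 with h | h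
    · exact h
    · exact absurd h (mul_ne_zero hcwT hcwT)
  rw [ZMod.natCast_eq_zero_iff] at hz
  have hpos : 0 < Sg.card := Finset.card_pos.2 ⟨_, hSg0⟩
  have hle : Sg.card ≤ 4 ^ l := by
    have h4 : (univ : Finset (Finset (Fin (2 * l)))).card = 4 ^ l := by
      rw [Finset.card_univ, Fintype.card_finset, Fintype.card_fin, pow_mul]
      norm_num
    rw [← h4]
    refine Finset.card_le_card_of_injOn (fun s => univ.filter (fun c => lb s.1 (y c) ≠ ∅))
      (fun _ _ => by simp) ?_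
    intro s hs s' hs' heq
    rw [mem_coe] at hs hs'
    obtain ⟨φ₁, φ₂, p1, p2, d12, g6⟩ := hpat s hs
    obtain ⟨φ₁', φ₂', p1', p2', d12', g6'⟩ := hpat s' hs'
    obtain ⟨hF1, hF2, hlab⟩ := hSg1 s hs
    obtain ⟨hF1', hF2', hlab'⟩ := hSg1 s' hs'
    have hiff : ∀ c, lb s.1 (y c) ≠ ∅ ↔ lb s'.1 (y c) ≠ ∅ := by
      intro c
      have := congrArg (fun A : Finset (Fin (2 * l)) => c ∈ A) heq
      simp only [mem_filter, mem_univ, true_and] at this
      rw [this]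
    have hφ : φ₁ = φ₁' := by
      apply OrderEmbedding.range_inj.1
      ext c
      have a1 : c ∈ Set.range φ₁ ↔ ∃ a, φ₁ a = c := Iff.rfl
      have a2 : c ∈ Set.range φ₁' ↔ ∃ a, φ₁' a = c := Iff.rfl
      rw [a1, a2, g6, g6', hiff]
    have e1 : s.1 = s'.1 := by
      refine hC.uniq (q + 1) _ _ _ hqQ hcu hF1 hF1' (fun x => ?_)
      rw [← hφ] at p1'
      exact pat_eq p1 p1' x
    have e2 : s.2 = s'.2 := by
      refine hC.uniq (q + 1) _ _ _ hqQ hcu hF2 hF2' (fun x => ?_)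
      -- the second label is the complement of the first one
      have b1 := hlab x
      have b2 := hlab' x
      rw [← e1] at b2
      have b3 : lb s.2 x = (lb T₁ x ∪ lb T₂ x) \ lb s.1 x := by
        rw [← b1.2, Finset.union_sdiff_left]
        exact (Finset.sdiff_eq_self_of_disjoint b1.1.symm).symm
      have b4 : lb s'.2 x = (lb T₁ x ∪ lb T₂ x) \ lb s.1 x := by
        rw [← b2.2, Finset.union_sdiff_left]
        exact (Finset.sdiff_eq_self_of_disjoint b2.1.symm).symm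
      rw [b3, b4]
    exact Prod.ext e1 e2
  have h4r : 4 ^ l ≤ 4 ^ r₂ := Nat.pow_le_pow_right (by norm_num) hlr
  have := Nat.le_of_dvd hpos hz
  omega

end Pool.Agent.SPD
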