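import Pool.Agent.SPD.Stmts

set_option autoImplicit false

/-!
SPD, module GoodC.
-/

open Finset

namespace Pool.Agent.SPD

namespace GoodC

theorem cube_le (n : ℕ) (hn : 11 ≤ n) : (n + 1) ^ 3 ≤ 2 ^ n := by
  induction n, hn using Nat.le_induction with
  | base => norm_num
  | succ n hn ih =>
    rw [pow_succ 2 n]
    have : (n + 1 + 1) ^ 3 ≤ (n + 1) ^ 3 * 2 := by nlinarith [sq_nonneg n]
    omega

theorem log_le (g : ℕ) (hg : 2048 ≤ g) : (Nat.log 2 g + 1) ^ 3 ≤ g := by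
  have h1 : 11 ≤ Nat.log 2 g := by
    have : Nat.log 2 2048 = 11 := by
      rw [show 2048 = 2 ^ 11 by norm_num]
      exact Nat.log_pow (by norm_num) 11
    rw [← this]
    exact Nat.log_mono_right hg
  exact (cube_le _ h1).trans (Nat.pow_log_le_self 2 (by omega))

end GoodC

open Classical in
theorem GoodC_proof (hE : Stmt_GoodE) : Stmt_GoodC := by
  intro d m N L Q hQ
  set r : ℕ := 5 * (d + 1) with hr
  set E : ℕ := 64 * r with hEd
  set K0 : ℕ := 10000 * (L + 1) * (m + 1) ^ 3 * 2 ^ m * ((m + 1) ^ (m * r)) ^ 2 with hK0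
  refine ⟨2048 + N * K0 * (E + 2) ^ 3 + 100 * (m + 1), ?_⟩
  intro F _ S hok htr g hg hk1 hk2 hV ι _ hι
  have hg1 : 2048 ≤ g := by omega
  have hg2 : N * K0 * (E + 2) ^ 3 ≤ g := by omega
  have hg3 : 100 * (m + 1) ≤ g := by omega
  have hgk : g ≤ S.k := (Nat.le_self_pow (by norm_num) g).trans hk1
  have hb : 100 * (Fintype.card ι + 1) ≤ S.b := by
    have := hok.b_big
    omega
  have hU : S.Uh.card ≤ (g ^ 64) ^ r := by
    rw [htr.Uh_card]
    calc S.k * S.V0.card ≤ S.k * S.k ^ d := Nat.mul_le_mul_left _ hV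
      _ = S.k ^ (d + 1) := by rw [pow_succ]; ring
      _ ≤ (g ^ 300) ^ (d + 1) := Nat.pow_le_pow_left hk2 _
      _ = g ^ (300 * (d + 1)) := by rw [pow_mul]
      _ ≤ g ^ (64 * r) := Nat.pow_le_pow_right (by omega) (by rw [hr]; omega)
      _ = (g ^ 64) ^ r := by rw [pow_mul]
  have key := hE F S hok htr ι g L Q r (by omega) hQ hb hU hk1
  set bad : ℕ := ((Fintype.piFinset (fun _ : ι => S.V)).filter
      (fun z => ¬ Good S (g ^ 64) L Q g z)).card with hbad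
  have hll : ll S ≤ (Nat.log 2 g + 1) * (E + 2) := by
    unfold ll
    have h1 : S.Uh.card ≤ 2 ^ ((Nat.log 2 g + 1) * E) := by
      refine hU.trans ?_
      rw [← pow_mul, pow_mul 2]
      exact Nat.pow_le_pow_left (Nat.lt_pow_succ_log_self (by norm_num) g).le _
    have h2 : Nat.log 2 S.Uh.card ≤ (Nat.log 2 g + 1) * E := by
      have := Nat.log_mono_right (b := 2) h1
      rwa [Nat.log_pow (by norm_num)] at this
    have h3 : (Nat.log 2 g + 1) * (E + 2) = (Nat.log 2 g + 1) * E + 2 * Nat.log 2 g + 2 := by ring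
    omega
  have hll3 : ll S ^ 3 ≤ g * (E + 2) ^ 3 := by
    calc ll S ^ 3 ≤ ((Nat.log 2 g + 1) * (E + 2)) ^ 3 := Nat.pow_le_pow_left hll 3
      _ = (Nat.log 2 g + 1) ^ 3 * (E + 2) ^ 3 := by rw [mul_pow]
      _ ≤ g * (E + 2) ^ 3 := Nat.mul_le_mul_right _ (GoodC.log_le g hg1)
  have hC : 10000 * (L + 1) * (Fintype.card ι + 1) ^ 3 * 2 ^ Fintype.card ι
      * ((Fintype.card ι + 1) ^ (Fintype.card ι * r)) ^ 2 ≤ K0 := by
    rw [hK0]
    have h1 : Fintype.card ι + 1 ≤ m + 1 := by omega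
    gcongr <;> omega
  have h1 : bad * g ^ 2 ≤ K0 * ll S ^ 3 * S.Uh.card ^ Fintype.card ι :=
    key.trans (Nat.mul_le_mul_right _ (Nat.mul_le_mul_right _ hC))
  have h2 : N * (K0 * ll S ^ 3) ≤ g ^ 2 := by
    calc N * (K0 * ll S ^ 3) ≤ N * (K0 * (g * (E + 2) ^ 3)) :=
          Nat.mul_le_mul_left _ (Nat.mul_le_mul_left _ hll3)
      _ = (N * K0 * (E + 2) ^ 3) * g := by ring
      _ ≤ g * g := Nat.mul_le_mul_right _ hg2
      _ = g ^ 2 := by ring
  have hpos : 0 < K0 * ll S ^ 3 := by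
    have : 0 < ll S := by unfold ll; omega
    rw [hK0]
    positivity
  have h3 : bad * N * (K0 * ll S ^ 3) ≤ S.Uh.card ^ Fintype.card ι * (K0 * ll S ^ 3) := by
    calc bad * N * (K0 * ll S ^ 3) = bad * (N * (K0 * ll S ^ 3)) := by ring
      _ ≤ bad * g ^ 2 := Nat.mul_le_mul_left _ h2
      _ ≤ K0 * ll S ^ 3 * S.Uh.card ^ Fintype.card ι := h1
      _ = S.Uh.card ^ Fintype.card ι * (K0 * ll S ^ 3) := by ring
  exact Nat.le_of_mul_le_mul_right h3 hpos

end Pool.Agent.SPD
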