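import Pool.Agent.SPD.Stmts

set_option autoImplicit false

/-!
Module GoodE: the number of tuples which are not good.
-/

open Finset

namespace Pool.Agent.SPD

namespace GoodE

open Classical in
theorem slice {ι : Type} [Fintype ι] (z : ℕ × ℤ) (W : Finset (ℕ × ℤ)) (B k : ℕ)
    (hW : W.card ≤ 2 * B) (hk : k ≤ B) (i : ι) :
    ((Fintype.piFinset (fun _ : ι => W)).filter (fun w => w i = z)).card * k
      ≤ 2 ^ Fintype.card ι * B ^ Fintype.card ι := by
  have hm : 1 ≤ Fintype.card ι := Fintype.card_pos_iff.mpr ⟨i⟩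
  have h1 : (Fintype.piFinset (fun _ : ι => W)).filter (fun w => w i = z) ⊆
      Fintype.piFinset (Function.update (fun _ => W) i {z}) := by
    intro w hw
    rw [mem_filter, Fintype.mem_piFinset] at hw
    rw [Fintype.mem_piFinset]
    intro j
    by_cases hj : j = i
    · subst hj
      simp [hw.2]
    · rw [Function.update_of_ne hj]
      exact hw.1 j
  have h2 : (Fintype.piFinset (Function.update (fun _ : ι => W) i {z})).card
      = W.card ^ (Fintype.card ι - 1) := by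
    rw [Fintype.card_piFinset, ← Finset.mul_prod_erase univ _ (mem_univ i),
      Function.update_self, card_singleton, one_mul]
    rw [Finset.prod_congr rfl (g := fun _ => W.card)]
    · rw [prod_const, card_erase_of_mem (mem_univ i), card_univ]
    · intro j hj
      rw [Function.update_of_ne (ne_of_mem_erase hj)]
  have h3 := card_le_card h1
  rw [h2] at h3
  calc _ ≤ W.card ^ (Fintype.card ι - 1) * k := Nat.mul_le_mul_right _ h3
    _ ≤ (2 * B) ^ (Fintype.card ι - 1) * (2 * B) :=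
        Nat.mul_le_mul (Nat.pow_le_pow_left hW _) (by omega)
    _ = (2 * B) ^ Fintype.card ι := by
        rw [← pow_succ, Nat.sub_add_cancel hm]
    _ = _ := by rw [mul_pow]

open Classical in
theorem zeroCount {ι : Type} [Fintype ι] (z : ℕ × ℤ) (W : Finset (ℕ × ℤ)) (B k : ℕ)
    (hW : W.card ≤ 2 * B) (hk : k ≤ B) :
    ((Fintype.piFinset (fun _ : ι => W)).filter (fun w => ∃ i, w i = z)).card * k
      ≤ Fintype.card ι * (2 ^ Fintype.card ι * B ^ Fintype.card ι) := by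
  have h1 : (Fintype.piFinset (fun _ : ι => W)).filter (fun w => ∃ i, w i = z) ⊆
      univ.biUnion (fun i => (Fintype.piFinset (fun _ : ι => W)).filter (fun w => w i = z)) := by
    intro w hw
    rw [mem_filter] at hw
    obtain ⟨hw1, i, hi⟩ := hw
    rw [mem_biUnion]
    exact ⟨i, mem_univ _, mem_filter.mpr ⟨hw1, hi⟩⟩
  calc _ ≤ (∑ i : ι, ((Fintype.piFinset (fun _ : ι => W)).filter (fun w => w i = z)).card) * k :=
        Nat.mul_le_mul_right _ ((card_le_card h1).trans card_biUnion_le)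
    _ = ∑ i : ι, ((Fintype.piFinset (fun _ : ι => W)).filter (fun w => w i = z)).card * k := by
        rw [sum_mul]
    _ ≤ ∑ _i : ι, 2 ^ Fintype.card ι * B ^ Fintype.card ι :=
        sum_le_sum (fun i _ => slice z W B k hW hk i)
    _ = _ := by rw [sum_const, card_univ, smul_eq_mul]

open Classical in
theorem cover {α β : Type} (Z A : Finset α) (W : Finset β) (rel : α → β → Prop) (R0 : ℕ)
    (h1 : ∀ z ∈ Z, z ∈ A ∨ ∃ w ∈ W, rel z w)
    (h2' : ∀ w ∈ W, ∀ K : Finset α, (∀ z ∈ K, z ∈ Z ∧ rel z w) → K.card ≤ R0) :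
    Z.card ≤ A.card + W.card * R0 := by
  have h2 : ∀ w ∈ W, (Z.filter (fun z => rel z w)).card ≤ R0 :=
    fun w hw => h2' w hw _ (fun z hz => mem_filter.mp hz)
  have h3 : Z ⊆ A ∪ W.biUnion (fun w => Z.filter (fun z => rel z w)) := by
    intro z hz
    rcases h1 z hz with h | ⟨w, hw, h⟩
    · exact mem_union_left _ h
    · exact mem_union_right _ (mem_biUnion.mpr ⟨w, hw, mem_filter.mpr ⟨hz, h⟩⟩)
  exact (card_le_card h3).trans ((card_union_le _ _).trans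
    (Nat.add_le_add_left (card_biUnion_le_card_mul _ _ _ h2) _))

theorem arith (m L R0 l BB PM g k z x0 x x1 x8 x2 : ℕ) (hR : 1 ≤ R0) (hl : 1 ≤ l)
    (hPM : 1 ≤ PM) (hg : 1 ≤ g) (hk : g ^ 150 ≤ k) (hz : z ≤ x + (x0 + x + x1 + x8 + x2) * R0)
    (h0 : x0 * k ≤ m * (PM * BB))
    (hx : x * k ≤ 20 * (L + 1) * m ^ 2 * (g ^ 64) ^ 2 * l ^ 2 * BB)
    (h1 : x1 * g ^ (2 * 1) ≤ 2000 * (m + 1) ^ 3 * R0 * l ^ 3 * BB)
    (h8 : x8 * g ^ (2 * 8) ≤ 2000 * (m + 1) ^ 3 * R0 * l ^ 3 * BB)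
    (h2 : x2 * k ≤ 20 * (m + 1) ^ 3 * R0 * (g ^ 64) * l ^ 2 * BB) :
    z * g ^ 2 ≤ 10000 * (L + 1) * (m + 1) ^ 3 * PM * R0 ^ 2 * l ^ 3 * BB := by
  have hpos : ∀ n : ℕ, 0 < g ^ n := fun n => pow_pos hg n
  obtain ⟨A, hA⟩ : ∃ A, A = (L + 1) * (m + 1) ^ 3 * PM * R0 ^ 2 * l ^ 3 * BB := ⟨_, rfl⟩
  -- monotonicity facts
  have hm3 : 1 ≤ (m + 1) ^ 3 := Nat.one_le_pow _ _ (by omega)
  have hmm : m ≤ (m + 1) ^ 3 := by nlinarith
  have hm2 : m ^ 2 ≤ (m + 1) ^ 3 := by nlinarith [sq_nonneg m]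
  have hl23 : l ^ 2 ≤ l ^ 3 := Nat.pow_le_pow_right hl (by norm_num)
  have hl3 : 1 ≤ l ^ 3 := Nat.one_le_pow _ _ hl
  have hR2 : R0 ≤ R0 ^ 2 := by nlinarith
  have hR1 : 1 ≤ R0 ^ 2 := Nat.one_le_pow _ _ hR
  have key : ∀ a b c d e f : ℕ, a ≤ L + 1 → b ≤ (m + 1) ^ 3 → c ≤ PM → d ≤ R0 ^ 2 → e ≤ l ^ 3 →
      f = a * b * c * d * e → f * BB ≤ A := by
    intro a b c d e f ha hb hc hd he hf
    subst hf
    rw [hA]
    gcongr
  -- x0
  have e0 : x0 * g ^ 2 * R0 ≤ A := by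
    have : x0 * g ^ 2 ≤ m * (PM * BB) := by
      refine le_trans ?_ h0
      refine Nat.mul_le_mul_left _ (le_trans ?_ hk)
      exact Nat.pow_le_pow_right hg (by norm_num)
    calc x0 * g ^ 2 * R0 ≤ m * (PM * BB) * R0 := Nat.mul_le_mul_right _ this
      _ = (1 * m * PM * R0 * 1) * BB := by ring
      _ ≤ A := key 1 m PM R0 1 _ (by omega) hmm le_rfl hR2 hl3 rfl
  -- x
  have ex : x * g ^ 2 ≤ 20 * ((L + 1) * m ^ 2 * l ^ 2 * BB) := by
    have h3 : x * g ^ 2 * g ^ 128 ≤ 20 * ((L + 1) * m ^ 2 * l ^ 2 * BB) * g ^ 128 := by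
      calc x * g ^ 2 * g ^ 128 = x * g ^ 130 := by ring
        _ ≤ x * g ^ 150 := Nat.mul_le_mul_left _ (Nat.pow_le_pow_right hg (by norm_num))
        _ ≤ x * k := Nat.mul_le_mul_left _ hk
        _ ≤ _ := hx
        _ = _ := by ring
    exact Nat.le_of_mul_le_mul_right h3 (hpos 128)
  have ex1 : x * g ^ 2 ≤ 20 * A := by
    refine ex.trans (Nat.mul_le_mul_left _ ?_)
    calc (L + 1) * m ^ 2 * l ^ 2 * BB = ((L + 1) * m ^ 2 * 1 * 1 * l ^ 2) * BB := by ring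
      _ ≤ A := key (L + 1) (m ^ 2) 1 1 (l ^ 2) _ le_rfl hm2 hPM hR1 hl23 rfl
  have ex2 : x * g ^ 2 * R0 ≤ 20 * A := by
    calc x * g ^ 2 * R0 ≤ 20 * ((L + 1) * m ^ 2 * l ^ 2 * BB) * R0 := Nat.mul_le_mul_right _ ex
      _ = 20 * (((L + 1) * m ^ 2 * 1 * R0 * l ^ 2) * BB) := by ring
      _ ≤ 20 * A := Nat.mul_le_mul_left _
          (key (L + 1) (m ^ 2) 1 R0 (l ^ 2) _ le_rfl hm2 hPM hR2 hl23 rfl)
  have e1 : x1 * g ^ 2 * R0 ≤ 2000 * A := by
    calc x1 * g ^ 2 * R0 ≤ 2000 * (m + 1) ^ 3 * R0 * l ^ 3 * BB * R0 :=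
          Nat.mul_le_mul_right _ h1
      _ = 2000 * ((1 * (m + 1) ^ 3 * 1 * R0 ^ 2 * l ^ 3) * BB) := by ring
      _ ≤ 2000 * A := Nat.mul_le_mul_left _
          (key 1 ((m + 1) ^ 3) 1 (R0 ^ 2) (l ^ 3) _ (by omega) le_rfl hPM le_rfl le_rfl rfl)
  have e8 : x8 * g ^ 2 * R0 ≤ 2000 * A := by
    have h3 : x8 * g ^ 2 ≤ 2000 * (m + 1) ^ 3 * R0 * l ^ 3 * BB :=
      le_trans (Nat.mul_le_mul_left _ (Nat.pow_le_pow_right hg (by norm_num))) h8
    calc x8 * g ^ 2 * R0 ≤ 2000 * (m + 1) ^ 3 * R0 * l ^ 3 * BB * R0 :=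
          Nat.mul_le_mul_right _ h3
      _ = 2000 * ((1 * (m + 1) ^ 3 * 1 * R0 ^ 2 * l ^ 3) * BB) := by ring
      _ ≤ 2000 * A := Nat.mul_le_mul_left _
          (key 1 ((m + 1) ^ 3) 1 (R0 ^ 2) (l ^ 3) _ (by omega) le_rfl hPM le_rfl le_rfl rfl)
  have e2 : x2 * g ^ 2 * R0 ≤ 20 * A := by
    have h3 : x2 * g ^ 2 ≤ 20 * (m + 1) ^ 3 * R0 * l ^ 2 * BB := by
      have h4 : x2 * g ^ 2 * g ^ 64 ≤ 20 * (m + 1) ^ 3 * R0 * l ^ 2 * BB * g ^ 64 := by
        calc x2 * g ^ 2 * g ^ 64 = x2 * g ^ 66 := by ring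
          _ ≤ x2 * g ^ 150 := Nat.mul_le_mul_left _ (Nat.pow_le_pow_right hg (by norm_num))
          _ ≤ x2 * k := Nat.mul_le_mul_left _ hk
          _ ≤ _ := h2
          _ = _ := by ring
      exact Nat.le_of_mul_le_mul_right h4 (hpos 64)
    calc x2 * g ^ 2 * R0 ≤ 20 * (m + 1) ^ 3 * R0 * l ^ 2 * BB * R0 :=
          Nat.mul_le_mul_right _ h3
      _ = 20 * ((1 * (m + 1) ^ 3 * 1 * R0 ^ 2 * l ^ 2) * BB) := by ring
      _ ≤ 20 * A := Nat.mul_le_mul_left _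
          (key 1 ((m + 1) ^ 3) 1 (R0 ^ 2) (l ^ 2) _ (by omega) le_rfl hPM le_rfl hl23 rfl)
  calc z * g ^ 2 ≤ (x + (x0 + x + x1 + x8 + x2) * R0) * g ^ 2 := Nat.mul_le_mul_right _ hz
    _ = x * g ^ 2 + x0 * g ^ 2 * R0 + x * g ^ 2 * R0 + x1 * g ^ 2 * R0 + x8 * g ^ 2 * R0
        + x2 * g ^ 2 * R0 := by ring
    _ ≤ 10000 * A := by omega
    _ = _ := by rw [hA]; ring

end GoodE

open Classical in
theorem GoodE_proof (hIrr : Stmt_Irr) (hFamV : Stmt_FamV) (hB1c : Stmt_B1c)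
    (hB2c : Stmt_B2c) : Stmt_GoodE := by
  intro F _ S hok htr ι _ g L Q r hg hQL hb hcard hgk
  have hG : 2 ≤ g ^ 64 := le_trans hg (Nat.le_self_pow (by norm_num) g)
  have hirr := hIrr F S hok htr ι (g ^ 64) L hG
  have hb1 := hB1c F S hok htr ι (g ^ 64) L (Q + 1) g 1 r hg le_rfl hG (by omega) hb hcard
  have hb8 := hB1c F S hok htr ι (g ^ 64) L (Q + 1) g 8 r hg (by norm_num) hG (by omega) hb hcard
  have hb2 := hB2c F S hok htr ι (g ^ 64) L (Q + 1) r hG (by omega) hb hcard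
  have hV0 : 1 ≤ S.V0.card := card_pos.mpr hok.ne
  have hkB : S.k ≤ S.Uh.card := by
    rw [htr.Uh_card]
    exact Nat.le_mul_of_pos_right _ hV0
  have hk10 := hok.k_pos
  have hVpc : S.Vp.card ≤ 2 * S.Uh.card := by
    have h1 : S.Vp.card ≤ S.V.card + 1 := card_insert_le _ _
    have h2 : S.V.card ≤ S.Uh.card := card_le_card htr.V_sub
    omega
  have hz := GoodE.zeroCount (ι := ι) S.zero S.Vp S.Uh.card S.k hVpc hkB
  refine GoodE.arith (Fintype.card ι) L ((Fintype.card ι + 1) ^ (Fintype.card ι * r)) (ll S)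
    (S.Uh.card ^ Fintype.card ι) (2 ^ Fintype.card ι) g S.k _ _ _ _ _ _
    (Nat.one_le_pow _ _ (by omega)) (by unfold ll; omega) (Nat.one_le_pow _ _ (by norm_num))
    (by omega) hgk ?_ hz hirr hb1 hb8 hb2
  set Z := (Fintype.piFinset (fun _ : ι => S.V)).filter (fun z => ¬ Good S (g ^ 64) L Q g z)
  set X0 := (Fintype.piFinset (fun _ : ι => S.Vp)).filter (fun w => ∃ i, w i = S.zero) with hX0
  set X := (Fintype.piFinset (fun _ : ι => S.Uh)).filter (fun w => ¬ Reg S (g ^ 64) L w) with hX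
  set X1 := (Fintype.piFinset (fun _ : ι => S.Uh)).filter
    (fun w => Reg S (g ^ 64) L w ∧ B1 S (g ^ 64) L (Q + 1) g 1 w) with hX1
  set X8 := (Fintype.piFinset (fun _ : ι => S.Uh)).filter
    (fun w => Reg S (g ^ 64) L w ∧ B1 S (g ^ 64) L (Q + 1) g 8 w) with hX8
  set X2 := (Fintype.piFinset (fun _ : ι => S.Uh)).filter
    (fun w => Reg S (g ^ 64) L w ∧ B2 S (g ^ 64) L (Q + 1) w) with hX2
  have hW : (X0 ∪ X ∪ X1 ∪ X8 ∪ X2).card ≤ X0.card + X.card + X1.card + X8.card + X2.card := by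
    refine (card_union_le _ _).trans (Nat.add_le_add_right ?_ _)
    refine (card_union_le _ _).trans (Nat.add_le_add_right ?_ _)
    refine (card_union_le _ _).trans (Nat.add_le_add_right ?_ _)
    exact card_union_le _ _
  have hcov := GoodE.cover Z X (X0 ∪ X ∪ X1 ∪ X8 ∪ X2)
    (fun z w => Reg S (g ^ 64) L z ∧ |SX S w - SX S z| ≤ S.D (S.k - Q))
    ((Fintype.card ι + 1) ^ (Fintype.card ι * r)) ?_ ?_
  · exact hcov.trans (Nat.add_le_add_left (Nat.mul_le_mul_right _ hW) _)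
  · intro z hz
    rw [mem_filter, Fintype.mem_piFinset] at hz
    obtain ⟨hzV, hzG⟩ := hz
    by_cases hreg : Reg S (g ^ 64) L z
    · right
      unfold Good at hzG
      push Not at hzG
      obtain ⟨w, hw, hwz, hbad⟩ := hzG hzV
      refine ⟨w, ?_, hreg, hwz⟩
      simp only [mem_union]
      by_cases h0 : ∃ i, w i = S.zero
      · left; left; left; left
        rw [hX0, mem_filter, Fintype.mem_piFinset]
        exact ⟨hw, h0⟩
      · have hwU : ∀ i, w i ∈ S.Uh := by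
          intro i
          rcases mem_insert.mp (hw i) with h | h
          · exact absurd ⟨i, h⟩ h0
          · exact htr.V_sub h
        by_cases hr : Reg S (g ^ 64) L w
        · by_cases c1 : B1 S (g ^ 64) L (Q + 1) g 1 w
          · left; left; right
            rw [hX1, mem_filter, Fintype.mem_piFinset]
            exact ⟨hwU, hr, c1⟩
          · by_cases c8 : B1 S (g ^ 64) L (Q + 1) g 8 w
            · left; right
              rw [hX8, mem_filter, Fintype.mem_piFinset]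
              exact ⟨hwU, hr, c8⟩
            · right
              rw [hX2, mem_filter, Fintype.mem_piFinset]
              exact ⟨hwU, hr, hbad hr c1 c8⟩
        · left; left; left; right
          rw [hX, mem_filter, Fintype.mem_piFinset]
          exact ⟨hwU, hr⟩
    · left
      rw [hX, mem_filter, Fintype.mem_piFinset]
      exact ⟨fun i => htr.V_sub (hzV i), hreg⟩
  · intro w _ K hK
    refine hFamV F S hok htr ι (g ^ 64) L 1 Q r (SX S w) (by omega) (by omega) hG hcard K ?_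
    intro z hz
    obtain ⟨hz1, hz2, hz3⟩ := hK z hz
    obtain ⟨hz4, _⟩ := Finset.mem_filter.mp hz1
    refine ⟨fun i => Fintype.mem_piFinset.mp hz4 i, hz2, ?_⟩
    rw [abs_sub_comm, Nat.cast_one, one_mul]
    exact hz3

end Pool.Agent.SPD
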