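import Pool.Agent.SPD.Stmts1

set_option autoImplicit false

/-!
SPD, module GoodN: most `n` in an interval of length `b P` are good.
-/

open Finset

namespace Pool.Agent.SPD

namespace GoodN

/-- The final inequality. -/
lemma num (k K lam E b P : ℕ) (hk : k ≤ K) (hP : 1 ≤ P)
    (big : 10 * (K + 2) ^ 2 * (lam + 1) ^ 2 * (E + 1) ≤ b) :
    E + ((k + 1) * lam + 1) * ((3 * P + 1) + E * P + k * lam * (6 * P + 1)) ≤ b * P := by
  have h1 : (k + 1) * lam + 1 ≤ (K + 2) * (lam + 1) := by nlinarith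
  have h2 : (3 * P + 1) + E * P + k * lam * (6 * P + 1) ≤
      7 * (K + 2) * (lam + 1) * (E + 1) * P := by
    have e1 : k * lam * (6 * P + 1) ≤ K * lam * (7 * P) :=
      Nat.mul_le_mul (Nat.mul_le_mul_right _ hk) (by omega)
    have e2 : (3 * P + 1) + E * P + K * lam * (7 * P) ≤ (4 + E + 7 * (K * lam)) * P := by
      nlinarith
    have e3 : 4 + E + 7 * (K * lam) ≤ 7 * (K + 2) * (lam + 1) * (E + 1) := by
      have : (K * lam) ≤ (K * lam) * (E + 1) := Nat.le_mul_of_pos_right _ (by omega)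
      nlinarith [Nat.zero_le (K * E), Nat.zero_le (lam * E), Nat.zero_le (K * lam * E)]
    calc _ ≤ (3 * P + 1) + E * P + K * lam * (7 * P) := by omega
      _ ≤ (4 + E + 7 * (K * lam)) * P := e2
      _ ≤ _ := Nat.mul_le_mul_right _ e3
  have h3 : E ≤ (K + 2) ^ 2 * (lam + 1) ^ 2 * (E + 1) * P := by
    have e1 : 1 ≤ (K + 2) ^ 2 * (lam + 1) ^ 2 := Nat.mul_pos (by positivity) (by positivity)
    calc E ≤ 1 * (E + 1) * 1 := by omega
      _ ≤ _ := Nat.mul_le_mul (Nat.mul_le_mul_right _ e1) hP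
  calc _ ≤ (K + 2) ^ 2 * (lam + 1) ^ 2 * (E + 1) * P +
        ((K + 2) * (lam + 1)) * (7 * (K + 2) * (lam + 1) * (E + 1) * P) :=
        Nat.add_le_add h3 (Nat.mul_le_mul h1 h2)
    _ = 8 * ((K + 2) ^ 2 * (lam + 1) ^ 2 * (E + 1)) * P := by ring
    _ ≤ (10 * (K + 2) ^ 2 * (lam + 1) ^ 2 * (E + 1)) * P := by
        refine Nat.mul_le_mul_right _ ?_
        have : 0 ≤ (K + 2) ^ 2 * (lam + 1) ^ 2 * (E + 1) := Nat.zero_le _
        nlinarith
    _ ≤ b * P := Nat.mul_le_mul_right _ big

end GoodN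

open Classical in
theorem GoodN_proof (hA : Stmt_ScaleA) : Stmt_GoodN := by
  intro p N lam E m₁ b P K k G hpar hk10 hkK a ha haN Sh hSh
  obtain ⟨_, hcl⟩ := hA p N lam E G hpar.prime hpar.hyp
  have hp1 : 1 ≤ p := hpar.prime.one_lt.le
  have hb1 : 1 ≤ b := by
    rw [hpar.hb]; exact Nat.one_le_pow _ _ hp1
  have hP1 : 1 ≤ P := le_trans (Nat.one_le_pow _ _ hb1) hpar.hP
  have hbk : b ^ (3 * k) ≤ P :=
    (Nat.pow_le_pow_right hb1 (by omega)).trans hpar.hP
  have hpe : p ^ (6 * m₁ * k) ≤ P := by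
    refine le_trans (le_of_eq ?_) hbk
    rw [hpar.hb, ← pow_mul]
    congr 1
    ring
  -- the number of jumps
  have hjm : (jm G P ((b : ℤ) ^ 3 * P)).card ≤ lam := by
    refine le_trans (Finset.card_le_card ?_) hpar.hyp.jmp
    intro x hx
    simp only [jm, Finset.mem_filter, Finset.mem_Ioc] at hx
    simp only [Finset.mem_filter, Finset.mem_Ico]
    refine ⟨⟨by omega, ?_⟩, hx.2⟩
    have h1 : b ^ 3 * P ≤ b ^ (3 * K) * P := by
      refine Nat.mul_le_mul_right _ (Nat.pow_le_pow_right hb1 ?_)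
      have := hpar.hK
      omega
    have h2 : b ^ 3 * P < N := lt_of_le_of_lt h1 hpar.hN
    have h3 : ((b : ℤ) ^ 3 * P) < N := by exact_mod_cast h2
    omega
  set J := jm G P ((b : ℤ) ^ 3 * P) with hJ
  set I : Finset ℤ := Icc a (a + b * P) with hI
  have hIcard : I.card = b * P + 1 := by
    rw [hI, Int.card_Icc]
    have : a + b * P + 1 - a = ((b * P + 1 : ℕ) : ℤ) := by push_cast; ring
    rw [this, Int.toNat_natCast]
  -- the exceptions
  set B0 : Finset ℤ := I.filter
    (fun n => ∑ i ∈ Icc 0 n, (G i - G (i - 1)) * G (n - i) ≠ 2) with hB0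
  have hB0c : B0.card ≤ E := by
    refine le_trans (Finset.card_le_card ?_) hpar.hyp.sq
    intro x hx
    simp only [hB0, hI, Finset.mem_filter, Finset.mem_Icc] at hx
    simp only [Finset.mem_filter, Finset.mem_Ico]
    exact ⟨⟨by omega, by omega⟩, hx.2⟩
  set Bs : ℤ → Finset ℤ := fun s => I.filter (fun n => ¬ Free G N k b P m₁ (n - s)) with hBs
  have hBsc : ∀ s, (Bs s).card ≤ (3 * P + 1) + E * P + k * lam * (6 * P + 1) := by
    intro s
    set A1 : Finset ℤ := Icc s (s + 3 * P) with hA1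
    set A2 : Finset ℤ := I.filter (fun n => ¬ Cl G N (6 * m₁ * k) (n - s)) with hA2
    set A3 : Finset ℤ := (Icc 1 k ×ˢ J).biUnion (fun q =>
      Icc (s + (b : ℤ) ^ (3 * (k - q.1)) * q.2 - 3 * P)
        (s + (b : ℤ) ^ (3 * (k - q.1)) * q.2 + 3 * P)) with hA3
    have hsub : Bs s ⊆ A1 ∪ A2 ∪ A3 := by
      intro n hn
      simp only [hBs, Finset.mem_filter] at hn
      obtain ⟨hnI, hnF⟩ := hn
      by_contra hcon
      simp only [Finset.mem_union, not_or] at hcon
      obtain ⟨⟨h1, h2⟩, h3⟩ := hcon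
      apply hnF
      by_cases hneg : n - s < 0
      · exact Or.inl hneg
      · right
        refine ⟨?_, ?_, ?_⟩
        · by_contra h4
          apply h1
          simp only [hA1, Finset.mem_Icc]
          constructor <;> omega
        · by_contra h4
          apply h2
          simp only [hA2, Finset.mem_filter]
          exact ⟨hnI, h4⟩
        · intro n' hn' x hx
          by_contra h4
          apply h3
          simp only [hA3, Finset.mem_biUnion]
          refine ⟨(n', x), Finset.mem_product.2 ⟨hn', hx⟩, ?_⟩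
          push Not at h4
          rw [abs_le] at h4
          simp only [Finset.mem_Icc]
          constructor <;> linarith [h4.1, h4.2]
    have c1 : A1.card ≤ 3 * P + 1 := by
      rw [hA1, Int.card_Icc]
      omega
    have c2 : A2.card ≤ E * P := by
      refine le_trans ?_ ((hcl (6 * m₁ * k) (a - s) (a + b * P + 1 - s)).trans
        (Nat.mul_le_mul_left _ hpe))
      refine Finset.card_le_card_of_injOn (fun n => n - s) ?_ ?_
      · intro n hn
        simp only [hA2, hI, Finset.coe_filter, Finset.mem_Icc, Set.mem_ofPred_eq] at hn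
        simp only [Finset.coe_filter, Finset.mem_Ico, Set.mem_ofPred_eq]
        refine ⟨⟨by omega, by omega⟩, hn.2⟩
      · intro x _ y _ hxy
        simpa using hxy
    have c3 : A3.card ≤ k * lam * (6 * P + 1) := by
      refine (Finset.card_biUnion_le_card_mul _ _ (6 * P + 1) ?_).trans ?_
      · intro q _
        rw [Int.card_Icc]
        omega
      · refine Nat.mul_le_mul_right _ ?_
        rw [Finset.card_product, Nat.card_Icc]
        exact Nat.mul_le_mul (by omega) hjm
    calc (Bs s).card ≤ (A1 ∪ A2 ∪ A3).card := Finset.card_le_card hsub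
      _ ≤ (A1 ∪ A2).card + A3.card := Finset.card_union_le _ _
      _ ≤ A1.card + A2.card + A3.card := Nat.add_le_add_right (Finset.card_union_le _ _) _
      _ ≤ _ := by omega
  -- conclusion
  by_contra hcon
  push Not at hcon
  have hcov : I ⊆ B0 ∪ Sh.biUnion Bs := by
    intro n hn
    by_cases h1 : ∑ i ∈ Icc 0 n, (G i - G (i - 1)) * G (n - i) = 2
    · have hn' := hn
      simp only [hI, Finset.mem_Icc] at hn'
      obtain ⟨s, hs, hs'⟩ := hcon n hn'.1 hn'.2 h1
      refine Finset.mem_union_right _ (Finset.mem_biUnion.2 ⟨s, hs, ?_⟩)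
      simp only [hBs, Finset.mem_filter]
      exact ⟨hn, hs'⟩
    · refine Finset.mem_union_left _ ?_
      simp only [hB0, Finset.mem_filter]
      exact ⟨hn, h1⟩
  have hfin : I.card ≤ b * P := by
    calc I.card ≤ (B0 ∪ Sh.biUnion Bs).card := Finset.card_le_card hcov
      _ ≤ B0.card + (Sh.biUnion Bs).card := Finset.card_union_le _ _
      _ ≤ E + ((k + 1) * lam + 1) * ((3 * P + 1) + E * P + k * lam * (6 * P + 1)) := by
          refine Nat.add_le_add hB0c ?_
          exact (Finset.card_biUnion_le_card_mul _ _ _ (fun s _ => hBsc s)).trans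
            (Nat.mul_le_mul_right _ hSh)
      _ ≤ b * P := GoodN.num k K lam E b P hkK hP1 hpar.big
  rw [hIcard] at hfin
  omega

end Pool.Agent.SPD
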