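import Pool.Agent.SPD.Stmts1

/-!
# Module Grow of squad SPD
-/

set_option autoImplicit false

open Finset

namespace Pool.Agent.SPD

theorem Grow_proof (hVis : Stmt_Vis) (hPigeon : Stmt_Pigeon) (hOkDat : Stmt_OkDat) :
    Stmt_Grow := by
  intro p N lam E m₁ b P K C G _ hPar hK hlam
  obtain ⟨hmono, hle, hcard⟩ := hVis p N lam E m₁ b P K G hPar
  obtain ⟨a, ha⟩ : ∃ a : ℕ → ℕ, ∀ s, a s = (vis G (jm G P ((b : ℤ) ^ 3 * P)) b P s).card :=
    ⟨_, fun _ => rfl⟩
  have hmono' : ∀ s, a s ≤ a (s + 1) := fun s => by rw [ha, ha]; exact hmono s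
  have hV0 : ∀ k, (dat G k b P).V0.card = a k := fun k => (ha k).symm
  have hpos : ∀ s, 10 ≤ s → s ≤ K → 1 ≤ a s := by
    intro s h1 h2
    rw [← hV0 s]
    exact Finset.card_pos.2 (hOkDat p N lam E m₁ b P K s G hPar h1 h2).ne
  have haK : a K < 2 ^ (C * Nat.log 4 K) := lt_of_le_of_lt (by rw [ha]; exact hle K) hlam
  obtain ⟨k, hk20, hkK, hKk, hkC⟩ := hPigeon a K C hK hmono' hpos haK
  refine ⟨k, hk20, hkK, hKk, by rw [hV0, ha]; exact hle k,
    (dat G k b P).V.filter (fun x => 2 ≤ x.1), Finset.filter_subset _ _,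
    fun x hx => (Finset.mem_filter.1 hx).2, ?_⟩
  have hmono2 : Monotone a := monotone_nat_of_le_succ hmono'
  -- lower bound for the number of points
  have hZ : (k - k / 2 - 1) * a (k / 2) ≤ ((dat G k b P).V.filter (fun x => 2 ≤ x.1)).card := by
    have h1 : ∑ n ∈ Finset.Icc 2 (k - k / 2), a (k / 2) ≤
        ∑ n ∈ Finset.Icc 2 (k - k / 2), ((dat G k b P).V.filter (fun x => x.1 = n)).card := by
      refine Finset.sum_le_sum fun n hn => ?_
      rw [Finset.mem_Icc] at hn
      rw [hcard k n (by omega) hkK (by omega) (by omega), ← ha]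
      exact hmono2 (by omega)
    have h2 : ∑ n ∈ Finset.Icc 2 (k - k / 2), ((dat G k b P).V.filter (fun x => x.1 = n)).card ≤
        ((dat G k b P).V.filter (fun x => 2 ≤ x.1)).card := by
      classical
      rw [← Finset.card_biUnion]
      · apply Finset.card_le_card
        intro x hx
        rw [Finset.mem_biUnion] at hx
        obtain ⟨n, hn, hx⟩ := hx
        rw [Finset.mem_filter] at hx ⊢
        rw [Finset.mem_Icc] at hn
        exact ⟨hx.1, by omega⟩
      · intro n _ n' _ hne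
        change Disjoint _ _
        rw [Finset.disjoint_left]
        intro x hx hx'
        rw [Finset.mem_filter] at hx hx'
        exact hne (hx.2.symm.trans hx'.2)
    have h3 := h1.trans h2
    rw [Finset.sum_const, Nat.card_Icc, smul_eq_mul] at h3
    have h4 : k - k / 2 + 1 - 2 = k - k / 2 - 1 := by omega
    rwa [h4] at h3
  rw [hV0]
  calc k * a k ≤ k * (2 ^ C * a (k / 2)) := Nat.mul_le_mul_left _ hkC
    _ ≤ (4 * (k - k / 2 - 1)) * (2 ^ C * a (k / 2)) := Nat.mul_le_mul_right _ (by omega)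
    _ = (4 * 2 ^ C) * ((k - k / 2 - 1) * a (k / 2)) := by ring
    _ ≤ _ := Nat.mul_le_mul_left _ hZ

end Pool.Agent.SPD
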