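import Pool.Agent.SPD.Stmts1

set_option autoImplicit false

/-!
Infinitely many primes modulo which `2` is not a square.
-/

open Finset

namespace Pool.Agent.SPD

theorem Inert_proof : Stmt_Inert := by
  intro n
  have hu : IsUnit (3 : ZMod 8) := by decide
  obtain ⟨p, hn, hp, h3⟩ := Nat.forall_exists_prime_gt_and_eq_mod hu n
  refine ⟨p, hn, hp, ?_⟩
  have : Fact p.Prime := ⟨hp⟩
  have hp2 : p ≠ 2 := by
    rintro rfl
    exact absurd h3 (by decide)
  have h8 : p % 8 = 3 := by
    have h4 : ((p : ℕ) : ZMod 8) = ((3 : ℕ) : ZMod 8) := by rw [h3]; rfl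
    have h5 := (ZMod.natCast_eq_natCast_iff' p 3 8).1 h4
    omega
  rw [ZMod.exists_sq_eq_two_iff hp2]
  omega

end Pool.Agent.SPD
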