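import Pool.Agent.SPD.Stmts1

set_option autoImplicit false

/-!
Superpolylogarithmic number of digit changes of the square root of two: Frobenius modulo `p`.
-/

open Finset PowerSeries

namespace Pool.Agent.SPD

namespace Inst

open Sqrt2Digits SqrtFrob DChg

/-- The cofactor. -/
noncomputable def Sg (m : ℕ) : PowerSeries ℤ :=
  ∑ i ∈ range m, (C 1 * cf ^ 2) ^ i * (C 2 : PowerSeries ℤ) ^ (m - 1 - i)

/-- The series `T c Σ`. -/
noncomputable def Wf (m : ℕ) : PowerSeries ℤ := Tf * Sg m * cf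

lemma uu_mul_W (m : ℕ) : uu * Wf m = (C 2 : PowerSeries ℤ) ^ m * cf - cf ^ (2 * m + 1) := by
  have h1 := uu_mul_TT 1 2 fs
  have h2 : uu * Tf = C 2 - C 1 * cf ^ 2 := h1
  have h3 := (Commute.all (C 1 * cf ^ 2) (C 2 : PowerSeries ℤ)).geom_sum₂_mul m
  have h4 : (C 1 : PowerSeries ℤ) = 1 := map_one _
  have h5 : uu * Wf m = (uu * Tf) * Sg m * cf := by unfold Wf; ring
  rw [h5, h2]
  have h6 : (C 2 - C 1 * cf ^ 2) * Sg m = (C 2 : PowerSeries ℤ) ^ m - (C 1 * cf ^ 2) ^ m := by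
    unfold Sg
    linear_combination -h3
  rw [h6, h4]
  ring

section modp

variable {p : ℕ} [hp : Fact p.Prime]

lemma ten_pow_card : (10 : ZMod p) ^ p = 10 := ZMod.pow_card _

lemma ten_ne (h11 : 11 ≤ p) : (10 : ZMod p) ≠ 0 := by
  intro h
  have h1 : ((10 : ℕ) : ZMod p) = 0 := by exact_mod_cast h
  rw [ZMod.natCast_eq_zero_iff] at h1
  exact absurd (Nat.le_of_dvd (by norm_num) h1) (by omega)

lemma two_ne (h11 : 11 ≤ p) : (2 : ZMod p) ≠ 0 := by
  intro h
  have h1 : ((2 : ℕ) : ZMod p) = 0 := by exact_mod_cast h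
  rw [ZMod.natCast_eq_zero_iff] at h1
  exact absurd (Nat.le_of_dvd (by norm_num) h1) (by omega)

lemma two_pow (h11 : 11 ≤ p) (hns : ¬ IsSquare (2 : ZMod p)) (m : ℕ) (hm : p = 2 * m + 1) :
    (2 : ZMod p) ^ m = -1 := by
  have h1 := ZMod.euler_criterion p (two_ne h11)
  have h2 : p / 2 = m := by omega
  rw [h2] at h1
  have h3 := ZMod.pow_div_two_eq_neg_one_or_one p (two_ne h11)
  rw [h2] at h3
  rcases h3 with h3 | h3
  · exact absurd (h1.2 h3) hns
  · exact h3

/-- `1 - 10 X` modulo `p`. -/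
lemma red_uu : red p uu = 1 - C (10 : ZMod p) * X := by
  have h10 : (red p) (C (10 : ℤ)) = C (10 : ZMod p) := by
    simp only [red, PowerSeries.map_C]
    simp
  unfold uu
  rw [map_sub, map_mul, map_one, h10]
  simp [red]

lemma red_uu_ne : red p uu ≠ 0 := by
  intro h0
  have := congrArg (coeff 0) h0
  simp [red, uu] at this

lemma red_uu_pow : red p uu ^ (p - 1) = ∑ r ∈ range p, (C (10 : ZMod p) * X) ^ r := by
  apply mul_left_cancel₀ (red_uu_ne (p := p))
  have h1 : red p uu * red p uu ^ (p - 1) = red p uu ^ p := by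
    rw [← pow_succ', Nat.sub_add_cancel hp.out.one_le]
  have h2 := mul_neg_geom_sum (C (10 : ZMod p) * X) p
  have : CharP (PowerSeries (ZMod p)) p :=
    charP_of_injective_ringHom (f := (C : ZMod p →+* PowerSeries (ZMod p))) C_injective p
  rw [h1, red_uu, h2, sub_pow_char, one_pow]

/-- The Frobenius identity modulo `p`. -/
lemma frobp (h11 : 11 ≤ p) (hns : ¬ IsSquare (2 : ZMod p)) (m : ℕ) (hm : p = 2 * m + 1) (n : ℕ) :
    ((coeff n (Wf m) : ℤ) : ZMod p)
      = - ((pre fs n : ℤ) : ZMod p) - 10 ^ (n % p) * ((pre fs (n / p) : ℤ) : ZMod p) := by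
  set C' : PowerSeries ℤ := PowerSeries.mk (pre fs) with hC'
  have hc : uu * C' = cf := uu_mul_pre fs
  have hc' : red p cf = red p uu * red p C' := by rw [← hc, map_mul]
  have h2 : red p ((C 2 : PowerSeries ℤ) ^ m) = -1 := by
    have h3 : red p (C (2 : ℤ)) = C (2 : ZMod p) := by
      simp only [red, PowerSeries.map_C]
      simp
    rw [map_pow, h3, ← map_pow, two_pow h11 hns m hm, map_neg, map_one]
  have hpp : p = (p - 1) + 1 := by have := hp.out.one_le; omega
  have hkey : red p (Wf m) = - red p C' - red p uu ^ (p - 1) * red p C' ^ p := by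
    apply mul_left_cancel₀ (red_uu_ne (p := p))
    have h1 := congrArg (red p) (uu_mul_W m)
    rw [map_mul, map_sub, map_mul, h2, map_pow, ← hm, hc', mul_pow] at h1
    rw [h1]
    have h4 : red p uu ^ p = red p uu * red p uu ^ (p - 1) := by
      rw [← pow_succ', Nat.sub_add_cancel hp.out.one_le]
    rw [h4]
    ring
  rw [← expand_eq_pow] at hkey
  rw [← coeff_red, hkey, map_sub, map_neg, coeff_red, hC', coeff_mk, ← hC', red_uu_pow]
  congr 1
  rw [sum_mul, map_sum, sum_eq_single (n % p)]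
  · rw [mul_pow, mul_assoc, ← map_pow, coeff_C_mul, coeff_X_pow_mul', if_pos (Nat.mod_le _ _)]
    have h5 : n - n % p = p * (n / p) := by
      have := Nat.mod_add_div n p
      omega
    rw [h5, coeff_expand_mul, coeff_red, hC', coeff_mk]
  · intro r hr hne
    rw [mem_range] at hr
    rw [mul_pow, mul_assoc, ← map_pow, coeff_C_mul, coeff_X_pow_mul']
    split_ifs with h5
    · rw [coeff_expand_of_not_dvd, mul_zero]
      intro hdvd
      apply hne
      obtain ⟨k, hk⟩ := hdvd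
      have h6 : n = r + p * k := by omega
      rw [h6, Nat.add_mul_mod_self_left, Nat.mod_eq_of_lt hr]
    · rw [mul_zero]
  · intro hne
    exact absurd (mem_range.2 (Nat.mod_lt _ hp.out.pos)) hne

/-- The residues. -/
noncomputable def Gp (p : ℕ) [Fact p.Prime] (n : ℤ) : ZMod p :=
  if n < 0 then 0 else (10 : ZMod p)⁻¹ ^ n.toNat * ((pre fs n.toNat : ℤ) : ZMod p)

lemma Gp_nat (n : ℕ) : Gp p n = (10 : ZMod p)⁻¹ ^ n * ((pre fs n : ℤ) : ZMod p) := by
  unfold Gp
  rw [if_neg (by omega), Int.toNat_natCast]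

lemma Gp_sub (h11 : 11 ≤ p) (n : ℕ) :
    Gp p n - Gp p ((n : ℤ) - 1) = (10 : ZMod p)⁻¹ ^ n * ((fs n : ℤ) : ZMod p) := by
  cases n with
  | zero =>
    rw [Gp_nat]
    unfold Gp
    rw [if_pos (by norm_num), sub_zero]
    rfl
  | succ n =>
    rw [show ((n + 1 : ℕ) : ℤ) - 1 = (n : ℤ) by push_cast; ring, Gp_nat, Gp_nat, pre_succ']
    rw [Int.cast_add, Int.cast_mul, pow_succ]
    have h1 : (10 : ZMod p)⁻¹ * 10 = 1 := inv_mul_cancel₀ (ten_ne h11)
    push_cast
    linear_combination (10 : ZMod p)⁻¹ ^ n * ((pre fs n : ℤ) : ZMod p) * h1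

lemma Gp_div (h11 : 11 ≤ p) (n : ℕ)
    (h : - ((pre fs n : ℤ) : ZMod p) - 10 ^ (n % p) * ((pre fs (n / p) : ℤ) : ZMod p) = 0) :
    Gp p n = - Gp p ((n : ℤ) / p) := by
  have h6 : ((n : ℤ) / p) = ((n / p : ℕ) : ℤ) := by push_cast; rfl
  rw [h6, Gp_nat, Gp_nat]
  have h10 := ten_ne (p := p) h11
  have h1 : (10 : ZMod p)⁻¹ ^ n * 10 ^ (n % p) = (10 : ZMod p)⁻¹ ^ (n / p) := by
    have h2 : n = n % p + p * (n / p) := (Nat.mod_add_div n p).symm
    have h3 : (10 : ZMod p)⁻¹ ^ n = (10 : ZMod p)⁻¹ ^ (n % p) * ((10 : ZMod p)⁻¹ ^ p) ^ (n / p) := by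
      rw [← pow_mul, ← pow_add, ← h2]
    rw [h3, ZMod.pow_card, mul_right_comm, ← mul_pow, inv_mul_cancel₀ h10, one_pow, one_mul]
  have h2 : ((pre fs n : ℤ) : ZMod p) = - (10 ^ (n % p) * ((pre fs (n / p) : ℤ) : ZMod p)) := by
    linear_combination -h
  rw [h2, ← h1]
  ring

end modp

lemma sum_Icc_int' {p : ℕ} (n : ℕ) (F : ℤ → ZMod p) :
    ∑ i ∈ Icc (0 : ℤ) n, F i = ∑ i ∈ range (n + 1), F (i : ℤ) := by
  apply sum_nbij' Int.toNat (fun i : ℕ => (i : ℤ))
  · intro i hi; rw [mem_Icc] at hi; rw [mem_range]; omega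
  · intro i hi; rw [mem_range] at hi; rw [mem_Icc]; omega
  · intro i hi; rw [mem_Icc] at hi; exact Int.toNat_of_nonneg hi.1
  · intro i _; exact Int.toNat_natCast i
  · intro i hi; rw [mem_Icc] at hi; rw [Int.toNat_of_nonneg hi.1]

lemma cnt_sum (s : Finset ℕ) (φ : ℕ → PowerSeries ℤ) (N : ℕ) :
    cnt (∑ i ∈ s, φ i) N ≤ ∑ i ∈ s, cnt (φ i) N := by
  classical
  induction s using Finset.induction_on with
  | empty => simp [cnt]
  | insert a s ha ih =>
    rw [sum_insert ha, sum_insert ha]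
    exact (cnt_add _ _ _).trans (Nat.add_le_add_left ih _)

lemma cnt_Sg (m N : ℕ) : cnt (Sg m) N ≤ m * (lam fs N + 1) ^ (2 * (m - 1)) := by
  unfold Sg
  refine (cnt_sum _ _ _).trans ?_
  calc ∑ i ∈ range m, cnt ((C 1 * cf ^ 2) ^ i * (C 2 : PowerSeries ℤ) ^ (m - 1 - i)) N
      ≤ ∑ i ∈ range m, (lam fs N + 1) ^ (2 * (m - 1)) := by
        refine sum_le_sum fun i hi => ?_
        rw [mem_range] at hi
        rw [← map_pow, mul_comm, map_one, one_mul, ← pow_mul]
        refine (cnt_C_mul _ _ _).trans ((cnt_pow _ _ _).trans ?_)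
        rw [cnt_cf]
        calc lam fs N ^ (2 * i) ≤ (lam fs N + 1) ^ (2 * i) := Nat.pow_le_pow_left (by omega) _
          _ ≤ _ := Nat.pow_le_pow_right (by omega) (by omega)
    _ = _ := by rw [sum_const, card_range, smul_eq_mul]

lemma cnt_Tf' (N : ℕ) : cnt Tf N ≤ 33 * (lam fs N + 1) ^ 2 := by
  have h := cnt_Tf N
  exact_mod_cast h

lemma cnt_W (m N : ℕ) (hm : 1 ≤ m) : cnt (Wf m) N ≤ 33 * m * (lam fs N + 1) ^ (2 * m + 1) := by
  unfold Wf
  refine (cnt_mul _ _ _).trans ?_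
  rw [cnt_cf]
  have h1 := (cnt_mul Tf (Sg m) N).trans (Nat.mul_le_mul (cnt_Tf' N) (cnt_Sg m N))
  obtain ⟨k, rfl⟩ : ∃ k, m = k + 1 := ⟨m - 1, by omega⟩
  rw [Nat.add_sub_cancel] at h1
  calc cnt (Tf * Sg (k + 1)) N * lam fs N
      ≤ (33 * (lam fs N + 1) ^ 2 * ((k + 1) * (lam fs N + 1) ^ (2 * k))) * (lam fs N + 1) :=
        Nat.mul_le_mul h1 (by omega)
    _ = _ := by ring

end Inst

open Inst Sqrt2Digits SqrtFrob DChg in
theorem Inst_proof : Stmt_Inst := by
  intro p hp h11 hns N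
  have : Fact p.Prime := ⟨hp⟩
  obtain ⟨m, hm⟩ : ∃ m, p = 2 * m + 1 := by
    rcases hp.eq_two_or_odd' with h | h
    · omega
    · exact h
  have hl : 1 ≤ lam fs N + 1 := by omega
  refine ⟨Gp p, fun n hn => by unfold Gp; rw [if_pos hn], ?_, ?_, ?_⟩
  · refine card_int_le (Q := fun k => fs k ≠ 0) ?_
    intro n hn h0
    apply hn
    have := Gp_sub h11 n
    rw [h0, Int.cast_zero, mul_zero] at this
    exact sub_eq_zero.1 this
  · refine le_trans (card_int_le (Q := fun k => coeff k (Wf m) ≠ 0) ?_) (le_trans (cnt_W m N (by omega)) ?_)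
    · intro n hn h0
      apply hn
      have h4 := frobp h11 hns m hm n
      rw [h0, Int.cast_zero] at h4
      exact Gp_div h11 n h4.symm
    · apply Nat.mul_le_mul
      · omega
      · apply Nat.pow_le_pow_right hl
        omega
  · refine le_trans (card_int_le (Q := fun k => coeff k Tf ≠ 0) ?_) (le_trans (cnt_Tf' N) ?_)
    · intro n hn h0
      apply hn
      rw [sum_Icc_int']
      have h4 : ∑ i ∈ range (n + 1), (Gp p (i : ℤ) - Gp p ((i : ℤ) - 1)) * Gp p ((n : ℤ) - i)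
          = (10 : ZMod p)⁻¹ ^ n * ((conv fs n : ℤ) : ZMod p) := by
        unfold conv
        rw [Int.cast_sum, mul_sum]
        apply sum_congr rfl
        intro i hi
        rw [mem_range] at hi
        rw [Gp_sub h11, show (n : ℤ) - i = ((n - i : ℕ) : ℤ) by omega, Gp_nat, Int.cast_mul]
        have h5 : (10 : ZMod p)⁻¹ ^ n = (10 : ZMod p)⁻¹ ^ i * (10 : ZMod p)⁻¹ ^ (n - i) := by
          rw [← pow_add]; congr 1; omega
        rw [h5]
        ring
      rw [h4]
      have h5 : TT 1 0 2 fs n = 0 := by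
        simpa [Tf] using h0
      unfold TT at h5
      have h6 : conv fs n = 10 ^ n * 2 := by linarith
      rw [h6, Int.cast_mul, Int.cast_pow, ← mul_assoc]
      push_cast
      rw [← mul_pow, inv_mul_cancel₀ (ten_ne h11), one_pow, one_mul]
    · apply Nat.mul_le_mul
      · omega
      · apply Nat.pow_le_pow_right hl
        omega

end Pool.Agent.SPD
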