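import Pool.Agent.SPD.Stmts

set_option autoImplicit false

/-!
Irregular tuples: the union bound.
-/

open Finset

namespace Pool.Agent.SPD

namespace Irr

section pi

variable {ι α : Type} [Fintype ι] [DecidableEq ι] [DecidableEq α]

theorem pi1 (U : Finset α) (i : ι) (x : α) :
    ((Fintype.piFinset (fun _ : ι => U)).filter (fun w => w i = x)).card * U.card
      ≤ U.card ^ Fintype.card ι := by
  have h1 : (Fintype.piFinset (fun _ : ι => U)).filter (fun w => w i = x) ⊆
      Fintype.piFinset (fun l : ι => if l = i then {x} else U) := by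
    intro w hw
    rw [mem_filter, Fintype.mem_piFinset] at hw
    rw [Fintype.mem_piFinset]
    intro l
    by_cases h : l = i
    · rw [if_pos h, mem_singleton, h]; exact hw.2
    · rw [if_neg h]; exact hw.1 l
  refine (Nat.mul_le_mul_right _ (card_le_card h1)).trans ?_
  rw [Fintype.card_piFinset]
  have h2 : (∏ l : ι, (if l = i then U.card else 1)) = U.card := by
    rw [Finset.prod_ite_eq' univ i (fun _ => U.card)]; simp
  have h3 : (∏ l : ι, (if l = i then ({x} : Finset α) else U).card) * U.card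
      = ∏ _l : ι, U.card := by
    conv_lhs => rw [← h2]
    rw [← Finset.prod_mul_distrib]
    refine Finset.prod_congr rfl fun l _ => ?_
    by_cases h : l = i
    · simp [h]
    · simp [h]
  rw [h3]
  simp

theorem pi2 (U : Finset α) {i i' : ι} (hi : i ≠ i') (x y : α) :
    ((Fintype.piFinset (fun _ : ι => U)).filter (fun w => w i = x ∧ w i' = y)).card
      * (U.card * U.card) ≤ U.card ^ Fintype.card ι := by
  have h1 : (Fintype.piFinset (fun _ : ι => U)).filter (fun w => w i = x ∧ w i' = y) ⊆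
      Fintype.piFinset (fun l : ι => if l = i then {x} else if l = i' then {y} else U) := by
    intro w hw
    rw [mem_filter, Fintype.mem_piFinset] at hw
    rw [Fintype.mem_piFinset]
    intro l
    by_cases h : l = i
    · rw [if_pos h, mem_singleton, h]; exact hw.2.1
    · rw [if_neg h]
      by_cases h' : l = i'
      · rw [if_pos h', mem_singleton, h']; exact hw.2.2
      · rw [if_neg h']; exact hw.1 l
  refine (Nat.mul_le_mul_right _ (card_le_card h1)).trans ?_
  rw [Fintype.card_piFinset]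
  have h2 : ∀ i : ι, (∏ l : ι, (if l = i then U.card else 1)) = U.card := by
    intro i
    rw [Finset.prod_ite_eq' univ i (fun _ => U.card)]; simp
  have h3 : (∏ l : ι, (if l = i then ({x} : Finset α) else if l = i' then {y} else U).card)
      * (U.card * U.card) = ∏ _l : ι, U.card := by
    have e : U.card * U.card = (∏ l : ι, (if l = i then U.card else 1)) *
        (∏ l : ι, (if l = i' then U.card else 1)) := by rw [h2, h2]
    rw [e, ← Finset.prod_mul_distrib, ← Finset.prod_mul_distrib]
    refine Finset.prod_congr rfl fun l _ => ?_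
    by_cases h : l = i
    · have h' : l ≠ i' := by rw [h]; exact hi
      simp [h, hi]
    · by_cases h' : l = i'
      · have : i' ≠ i := hi.symm
        simp [h', this]
      · simp [h, h']
  rw [h3]
  simp

/-- one coordinate in a given set -/
theorem cyl1 (U A : Finset α) (i : ι) (Bad : Finset (ι → α))
    (hB : ∀ w ∈ Bad, (∀ l, w l ∈ U) ∧ w i ∈ A) :
    Bad.card * U.card ≤ A.card * U.card ^ Fintype.card ι := by
  have h1 : Bad ⊆ A.biUnion (fun x =>
      (Fintype.piFinset (fun _ : ι => U)).filter (fun w => w i = x)) := by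
    intro w hw
    obtain ⟨h1, h2⟩ := hB w hw
    rw [mem_biUnion]
    exact ⟨w i, h2, by rw [mem_filter, Fintype.mem_piFinset]; exact ⟨h1, rfl⟩⟩
  calc Bad.card * U.card
      ≤ (∑ x ∈ A, ((Fintype.piFinset (fun _ : ι => U)).filter (fun w => w i = x)).card)
          * U.card := Nat.mul_le_mul_right _ ((card_le_card h1).trans card_biUnion_le)
    _ = ∑ x ∈ A, ((Fintype.piFinset (fun _ : ι => U)).filter (fun w => w i = x)).card
          * U.card := Finset.sum_mul _ _ _
    _ ≤ ∑ _x ∈ A, U.card ^ Fintype.card ι := Finset.sum_le_sum fun x _ => pi1 U i x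
    _ = A.card * U.card ^ Fintype.card ι := by simp

/-- two coordinates in a given set of pairs -/
theorem cyl2 (U : Finset α) (A : Finset (α × α)) {i i' : ι} (hi : i ≠ i')
    (Bad : Finset (ι → α)) (hB : ∀ w ∈ Bad, (∀ l, w l ∈ U) ∧ (w i, w i') ∈ A) :
    Bad.card * (U.card * U.card) ≤ A.card * U.card ^ Fintype.card ι := by
  have h1 : Bad ⊆ A.biUnion (fun x =>
      (Fintype.piFinset (fun _ : ι => U)).filter (fun w => w i = x.1 ∧ w i' = x.2)) := by
    intro w hw
    obtain ⟨h1, h2⟩ := hB w hw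
    rw [mem_biUnion]
    exact ⟨(w i, w i'), h2, by rw [mem_filter, Fintype.mem_piFinset]; exact ⟨h1, rfl, rfl⟩⟩
  calc Bad.card * (U.card * U.card)
      ≤ (∑ x ∈ A, ((Fintype.piFinset (fun _ : ι => U)).filter
          (fun w => w i = x.1 ∧ w i' = x.2)).card) * (U.card * U.card) :=
        Nat.mul_le_mul_right _ ((card_le_card h1).trans card_biUnion_le)
    _ = ∑ x ∈ A, ((Fintype.piFinset (fun _ : ι => U)).filter
          (fun w => w i = x.1 ∧ w i' = x.2)).card * (U.card * U.card) := Finset.sum_mul _ _ _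
    _ ≤ ∑ _x ∈ A, U.card ^ Fintype.card ι := Finset.sum_le_sum fun x _ => pi2 U hi x.1 x.2
    _ = A.card * U.card ^ Fintype.card ι := by simp

end pi

end Irr

open Classical in
theorem Irr_proof (hA : Stmt_JplA) (hB : Stmt_JplB) : Stmt_Irr := by
  intro F _ S ok tr ι _ G L hG
  set m := Fintype.card ι with hm
  set l := ll S with hl
  set B := S.Uh.card with hBc
  have hl1 : 1 ≤ l := by rw [hl]; unfold ll; omega
  have hBk : B = S.k * S.V0.card := tr.Uh_card
  have hBpos : 0 < B := by
    rw [hBk]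
    exact Nat.mul_pos (by have := ok.k_pos; omega) (Finset.card_pos.2 ok.ne)
  -- the two kinds of irregularity
  set Bd := (Fintype.piFinset (fun _ : ι => S.Uh)).filter (fun w => ¬ Reg S G L w) with hBd
  set P2 : (ℕ × ℤ) × (ℕ × ℤ) → Prop := fun p =>
    ∃ t t', S.Jp G t p.1 ∧ S.Jp G t' p.2 ∧ t ≤ t' + L ∧ t' ≤ t + L with hP2
  set P1 : (ℕ × ℤ) → Prop := fun x => ∃ t, S.Jp G t x ∧ S.k ≤ t + L with hP1
  set A2 := (S.Uh ×ˢ S.Uh).filter P2 with hA2
  set A1 := S.Uh.filter P1 with hA1
  -- number of pairs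
  have c2 : A2.card ≤ B * (2 * G * l * ((2 * L + 1) * (3 * G * l * S.V0.card))) := by
    have hsub : A2 ⊆ S.Uh.biUnion (fun x =>
        ((range S.k).filter (fun t => S.Jp G t x)).biUnion (fun t =>
          (Icc (t - L) (t + L)).biUnion (fun t' =>
            if t' < S.k then (S.Uh.filter (fun y => S.Jp G t' y)).image (fun y => (x, y))
            else ∅))) := by
      rintro ⟨x, y⟩ hp
      rw [hA2, mem_filter, mem_product] at hp
      obtain ⟨⟨hx, hy⟩, t, t', h1, h2, h3, h4⟩ := hp
      simp only at hx hy h1 h2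
      rw [mem_biUnion]
      refine ⟨x, hx, ?_⟩
      rw [mem_biUnion]
      refine ⟨t, by rw [mem_filter, mem_range]; exact ⟨h1.1, h1⟩, ?_⟩
      rw [mem_biUnion]
      refine ⟨t', by rw [mem_Icc]; omega, ?_⟩
      rw [if_pos h2.1, mem_image]
      exact ⟨y, by rw [mem_filter]; exact ⟨hy, h2⟩, rfl⟩
    refine (card_le_card hsub).trans ?_
    refine card_biUnion_le_card_mul _ _ _ fun x hx => ?_
    refine (card_biUnion_le_card_mul _ _ ((2 * L + 1) * (3 * G * l * S.V0.card))
      fun t _ => ?_).trans ?_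
    · refine (card_biUnion_le_card_mul _ _ (3 * G * l * S.V0.card) fun t' _ => ?_).trans ?_
      · by_cases h : t' < S.k
        · rw [if_pos h]
          exact card_image_le.trans (hB F S ok tr G hG t' h)
        · rw [if_neg h]; simp
      · gcongr
        rw [Nat.card_Icc]; omega
    · gcongr
      exact hA F S ok tr G hG x hx
  have c1 : A1.card ≤ L * (3 * G * l * S.V0.card) := by
    have hsub : A1 ⊆ (Ico (S.k - L) S.k).biUnion (fun t =>
        if t < S.k then S.Uh.filter (fun y => S.Jp G t y) else ∅) := by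
      intro x hx
      rw [hA1, mem_filter] at hx
      obtain ⟨hx, t, h1, h2⟩ := hx
      rw [mem_biUnion]
      refine ⟨t, by rw [mem_Ico]; have := h1.1; omega, ?_⟩
      rw [if_pos h1.1, mem_filter]
      exact ⟨hx, h1⟩
    refine (card_le_card hsub).trans ?_
    refine (card_biUnion_le_card_mul _ _ (3 * G * l * S.V0.card) fun t ht => ?_).trans ?_
    · rw [mem_Ico] at ht
      rw [if_pos ht.2]
      exact hB F S ok tr G hG t ht.2
    · gcongr
      rw [Nat.card_Ico]; omega
  -- the bad sets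
  set E2 : ι × ι → Finset (ι → ℕ × ℤ) := fun q =>
    Bd.filter (fun w => q.1 ≠ q.2 ∧ P2 (w q.1, w q.2)) with hE2
  set E1 : ι → Finset (ι → ℕ × ℤ) := fun i => Bd.filter (fun w => P1 (w i)) with hE1
  have hmem : ∀ w ∈ Bd, ∀ i, w i ∈ S.Uh := by
    intro w hw i
    rw [hBd, mem_filter, Fintype.mem_piFinset] at hw
    exact hw.1 i
  have hcov : Bd ⊆ (univ : Finset (ι × ι)).biUnion E2 ∪ (univ : Finset ι).biUnion E1 := by
    intro w hw
    by_contra hcon
    rw [mem_union, not_or, mem_biUnion, mem_biUnion] at hcon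
    obtain ⟨hn2, hn1⟩ := hcon
    have hw' := hw
    rw [hBd, mem_filter] at hw'
    apply hw'.2
    refine ⟨hmem w hw, ?_, ?_⟩
    · intro i i' hii t t' h1 h2
      by_contra h3
      rw [not_or] at h3
      apply hn2
      refine ⟨(i, i'), mem_univ _, ?_⟩
      rw [hE2]
      simp only [mem_filter]
      exact ⟨hw, hii, t, t', h1, h2, by omega, by omega⟩
    · intro i t h1
      by_contra h3
      apply hn1
      refine ⟨i, mem_univ _, ?_⟩
      rw [hE1]
      simp only [mem_filter]
      exact ⟨hw, t, h1, by omega⟩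
  have k2 : ∀ q : ι × ι, (E2 q).card * S.k ≤ 12 * (L + 1) * G ^ 2 * l ^ 2 * B ^ m := by
    intro q
    by_cases hq : q.1 = q.2
    · have : E2 q = ∅ := by
        rw [hE2]
        simp only
        apply filter_false_of_mem
        intro w _ hh
        exact hh.1 hq
      rw [this]; simp
    · have h1 := Irr.cyl2 S.Uh A2 hq (E2 q) (by
        intro w hw
        rw [hE2] at hw
        simp only [mem_filter] at hw
        refine ⟨hmem w hw.1, ?_⟩
        rw [hA2, mem_filter, mem_product]
        exact ⟨⟨hmem w hw.1 _, hmem w hw.1 _⟩, hw.2.2⟩)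
      rw [← hBc, ← hm] at h1
      have h2 : (E2 q).card * S.k * (B * B)
          ≤ (12 * (L + 1) * G ^ 2 * l ^ 2 * B ^ m) * (B * B) := by
        calc (E2 q).card * S.k * (B * B) = ((E2 q).card * (B * B)) * S.k := by ring
          _ ≤ (A2.card * B ^ m) * S.k := by gcongr
          _ ≤ (B * (2 * G * l * ((2 * L + 1) * (3 * G * l * S.V0.card))) * B ^ m) * S.k := by
              gcongr
          _ = 6 * (2 * L + 1) * G ^ 2 * l ^ 2 * B ^ m * (B * (S.k * S.V0.card)) := by ring
          _ = (6 * (2 * L + 1)) * (G ^ 2 * l ^ 2 * B ^ m * (B * B)) := by rw [← hBk]; ring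
          _ ≤ (12 * (L + 1)) * (G ^ 2 * l ^ 2 * B ^ m * (B * B)) :=
              Nat.mul_le_mul_right _ (by omega)
          _ = _ := by ring
      exact Nat.le_of_mul_le_mul_right h2 (Nat.mul_pos hBpos hBpos)
  have k1 : ∀ i : ι, (E1 i).card * S.k ≤ 3 * L * G * l * B ^ m := by
    intro i
    have h1 := Irr.cyl1 S.Uh A1 i (E1 i) (by
      intro w hw
      rw [hE1] at hw
      simp only [mem_filter] at hw
      refine ⟨hmem w hw.1, ?_⟩
      rw [hA1, mem_filter]
      exact ⟨hmem w hw.1 _, hw.2⟩)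
    rw [← hBc, ← hm] at h1
    have h2 : (E1 i).card * S.k * B ≤ (3 * L * G * l * B ^ m) * B := by
      calc (E1 i).card * S.k * B = ((E1 i).card * B) * S.k := by ring
        _ ≤ (A1.card * B ^ m) * S.k := by gcongr
        _ ≤ (L * (3 * G * l * S.V0.card) * B ^ m) * S.k := by gcongr
        _ = 3 * L * G * l * B ^ m * (S.k * S.V0.card) := by ring
        _ = _ := by rw [← hBk]
    exact Nat.le_of_mul_le_mul_right h2 hBpos
  have t1 : Bd.card ≤ (∑ q : ι × ι, (E2 q).card) + ∑ i : ι, (E1 i).card :=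
    (card_le_card hcov).trans ((card_union_le _ _).trans
      (add_le_add card_biUnion_le card_biUnion_le))
  have hmm : m ≤ m ^ 2 := Nat.le_self_pow two_ne_zero m
  have hGG : G ≤ G ^ 2 := Nat.le_self_pow two_ne_zero G
  have hll : l ≤ l ^ 2 := Nat.le_self_pow two_ne_zero l
  calc Bd.card * S.k
      ≤ ((∑ q : ι × ι, (E2 q).card) + ∑ i : ι, (E1 i).card) * S.k := by gcongr
    _ = (∑ q : ι × ι, (E2 q).card * S.k) + ∑ i : ι, (E1 i).card * S.k := by
        rw [add_mul, Finset.sum_mul, Finset.sum_mul]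
    _ ≤ (∑ _q : ι × ι, 12 * (L + 1) * G ^ 2 * l ^ 2 * B ^ m)
          + ∑ _i : ι, 3 * L * G * l * B ^ m :=
        add_le_add (Finset.sum_le_sum fun q _ => k2 q) (Finset.sum_le_sum fun i _ => k1 i)
    _ = m ^ 2 * (12 * (L + 1) * G ^ 2 * l ^ 2 * B ^ m) + m * (3 * L * G * l * B ^ m) := by
        simp only [sum_const, card_univ, Fintype.card_prod, smul_eq_mul, ← hm]
        ring
    _ ≤ m ^ 2 * (12 * (L + 1) * G ^ 2 * l ^ 2 * B ^ m)
          + m ^ 2 * (3 * (L + 1) * G ^ 2 * l ^ 2 * B ^ m) := by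
        gcongr
        omega
    _ = 15 * ((L + 1) * m ^ 2 * G ^ 2 * l ^ 2 * B ^ m) := by ring
    _ ≤ 20 * ((L + 1) * m ^ 2 * G ^ 2 * l ^ 2 * B ^ m) := by gcongr; omega
    _ = 20 * (L + 1) * m ^ 2 * G ^ 2 * l ^ 2 * B ^ m := by ring

end Pool.Agent.SPD
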