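import Pool.Agent.SPD.Stmts

set_option autoImplicit false

/-!
The number of special times of a point.
-/

open Finset

namespace Pool.Agent.SPD

namespace JplA

/-- The decreasing sequence. -/
lemma seq_bound (a : ℕ → ℕ) (n : ℕ) (Sp : Finset ℕ) (hanti : ∀ t, a (t + 1) ≤ a t)
    (hs : ∀ t ∈ Sp, (n + 1) * a (t + 1) ≤ n * a t) (k : ℕ) :
    (n + 1) ^ (Sp.filter (fun t => t < k)).card * a k
      ≤ n ^ (Sp.filter (fun t => t < k)).card * a 0 := by
  induction k with
  | zero =>
    have : Sp.filter (fun t => t < 0) = ∅ := by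
      rw [filter_eq_empty_iff]; intro t _; omega
    rw [this]; simp
  | succ k ih =>
    by_cases hk : k ∈ Sp
    · have h1 : Sp.filter (fun t => t < k + 1) = insert k (Sp.filter (fun t => t < k)) := by
        ext t
        rw [mem_filter, mem_insert, mem_filter]
        constructor
        · rintro ⟨h1, h2⟩
          rcases Nat.lt_or_ge t k with h3 | h3
          · exact Or.inr ⟨h1, h3⟩
          · exact Or.inl (by omega)
        · rintro (rfl | ⟨h1, h2⟩)
          · exact ⟨hk, by omega⟩
          · exact ⟨h1, by omega⟩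
      have h2 : k ∉ Sp.filter (fun t => t < k) := by
        rw [mem_filter]; rintro ⟨_, h⟩; omega
      rw [h1, card_insert_of_notMem h2, pow_succ, pow_succ]
      have h3 := hs k hk
      calc (n + 1) ^ (Sp.filter (fun t => t < k)).card * (n + 1) * a (k + 1)
          = (n + 1) ^ (Sp.filter (fun t => t < k)).card * ((n + 1) * a (k + 1)) := by ring
        _ ≤ (n + 1) ^ (Sp.filter (fun t => t < k)).card * (n * a k) :=
            Nat.mul_le_mul_left _ h3
        _ = n * ((n + 1) ^ (Sp.filter (fun t => t < k)).card * a k) := by ring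
        _ ≤ n * (n ^ (Sp.filter (fun t => t < k)).card * a 0) := Nat.mul_le_mul_left _ ih
        _ = _ := by ring
    · have h1 : Sp.filter (fun t => t < k + 1) = Sp.filter (fun t => t < k) := by
        ext t
        rw [mem_filter, mem_filter]
        constructor
        · rintro ⟨h1, h2⟩
          refine ⟨h1, ?_⟩
          rcases Nat.lt_or_ge t k with h3 | h3
          · exact h3
          · exfalso
            have : t = k := by omega
            rw [this] at h1
            exact hk h1
        · rintro ⟨h1, h2⟩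
          exact ⟨h1, by omega⟩
      rw [h1]
      exact (Nat.mul_le_mul_left _ (hanti k)).trans ih

lemma two_pow (n : ℕ) (hn : 1 ≤ n) : 2 * n ^ n ≤ (n + 1) ^ n := by
  have hn0 : (0 : ℝ) < n := by exact_mod_cast hn
  have h1 := one_add_mul_le_pow (a := (1 / (n : ℝ))) (by
    have : (0 : ℝ) ≤ 1 / (n : ℝ) := by positivity
    linarith) n
  have h2 : (1 : ℝ) + n * (1 / n) = 2 := by field_simp; norm_num
  rw [h2] at h1
  have h3 : (n : ℝ) ^ n * (1 + 1 / n) ^ n = (n + 1) ^ n := by
    rw [← mul_pow]; congr 1; field_simp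
  have h4 : (2 * n ^ n : ℝ) ≤ (n + 1) ^ n := by
    rw [← h3, mul_comm]
    exact mul_le_mul_of_nonneg_left h1 (by positivity)
  exact_mod_cast h4

/-- The number of special steps. -/
lemma count_lt (n r B L : ℕ) (hn : 1 ≤ n) (hB : B < 2 ^ (L + 1))
    (h : (n + 1) ^ r ≤ n ^ r * B) : r < n * (L + 1) := by
  by_contra hcon
  push Not at hcon
  obtain ⟨s, rfl⟩ := Nat.exists_eq_add_of_le hcon
  have h1 : (2 * n ^ n) ^ (L + 1) ≤ ((n + 1) ^ n) ^ (L + 1) := Nat.pow_le_pow_left (two_pow n hn) _
  have h2 : n ^ s ≤ (n + 1) ^ s := Nat.pow_le_pow_left (by omega) _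
  have h3 := Nat.mul_le_mul h1 h2
  rw [← pow_mul, ← pow_add] at h3
  have h4 : (2 * n ^ n) ^ (L + 1) * n ^ s = 2 ^ (L + 1) * n ^ (n * (L + 1) + s) := by
    rw [mul_pow, ← pow_mul, pow_add]; ring
  rw [h4] at h3
  have h5 := h3.trans h
  have h6 : 0 < n ^ (n * (L + 1) + s) := Nat.pow_pos (by omega)
  rw [mul_comm] at h5
  have h7 := Nat.le_of_mul_le_mul_left h5 h6
  omega

end JplA

open JplA in
theorem JplA_proof : Stmt_JplA := by
  classical
  intro F _ S hS tr G hG x hx
  have hxU : x ∈ S.U := by unfold Dat.U; exact mem_insert_of_mem hx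
  have hk := hS.k_pos
  obtain ⟨n, rfl⟩ : ∃ n, G = n + 1 := ⟨G - 1, by omega⟩
  set Sp := (range (S.k - 1)).filter (fun t => S.Jp (n + 1) t x) with hSp
  have hstep : ∀ t ∈ Sp, (n + 1) * S.nn (t + 1) x ≤ n * S.nn t x := by
    intro t ht
    rw [hSp, mem_filter, mem_range] at ht
    obtain ⟨h1, h2, h3⟩ := ht
    by_cases hm : S.Mn t x
    · have h4 := tr.nn_main t x hxU hm
      rcases h3 with h3 | h3
      · exact absurd hm h3
      · nlinarith
    · have h4 := tr.half t (by omega) x hxU hm
      nlinarith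
  have h1 := seq_bound (fun t => S.nn t x) n Sp (fun t => tr.nn_anti t (t + 1) x (by omega)) hstep
    S.k
  have hfil : Sp.filter (fun t => t < S.k) = Sp := by
    rw [filter_eq_self]
    intro t ht
    rw [hSp, mem_filter, mem_range] at ht
    omega
  rw [hfil] at h1
  rw [tr.nn_root x hxU] at h1
  have h2 : (n + 1) ^ Sp.card ≤ n ^ Sp.card * S.Uh.card := by
    refine le_trans ?_ h1
    exact Nat.le_mul_of_pos_right _ (tr.nn_pos S.k x hx)
  have h3 := count_lt n Sp.card S.Uh.card (Nat.log 2 S.Uh.card) (by omega)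
    (Nat.lt_pow_succ_log_self (by norm_num) _) h2
  have h4 : (range S.k).filter (fun t => S.Jp (n + 1) t x) ⊆ insert (S.k - 1) Sp := by
    intro t ht
    rw [mem_filter, mem_range] at ht
    rw [mem_insert, hSp, mem_filter, mem_range]
    by_cases h5 : t = S.k - 1
    · exact Or.inl h5
    · exact Or.inr ⟨by omega, ht.2⟩
  have h5 := (card_le_card h4).trans (card_insert_le _ _)
  unfold ll
  nlinarith

end Pool.Agent.SPD
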