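import Pool.Agent.SPD.Stmts

set_option autoImplicit false

/-!
The number of points which are special at a given time.
-/

open Finset

namespace Pool.Agent.SPD

namespace JplB

variable {F : Type} {S : Dat F}

lemma mem_Uh {x : ℕ × ℤ} : x ∈ S.Uh ↔ (1 ≤ x.1 ∧ x.1 ≤ S.k) ∧ x.2 ∈ S.V0 := by
  unfold Dat.Uh; rw [mem_product, mem_Icc]

/-- Shift of a cluster. -/
lemma nn_shift {t n n' t' : ℕ} {v : ℤ} (hn : 1 ≤ n) (hnk : n ≤ S.k) (hn' : 1 ≤ n')
    (hnk' : n' ≤ S.k) (h : n ≤ t) (h' : n' ≤ t') (he : t - n = t' - n') :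
    S.nn t (n, v) = S.nn t' (n', v) := by
  classical
  unfold Dat.nn
  apply card_bij' (fun y _ => ((n', y.2) : ℕ × ℤ)) (fun y _ => ((n, y.2) : ℕ × ℤ))
  · intro y hy
    rw [mem_filter, mem_Uh] at hy ⊢
    obtain ⟨⟨h1, h2⟩, h3⟩ := hy
    refine ⟨⟨⟨hn', hnk'⟩, h2⟩, ?_⟩
    rcases h3 with ⟨h3, h4⟩ | ⟨h3, h4, h5⟩
    · simp only at h3; omega
    · refine Or.inr ⟨rfl, h', ?_⟩
      simp only at h3 h4 h5 ⊢
      rw [← he]; exact h5
  · intro y hy
    rw [mem_filter, mem_Uh] at hy ⊢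
    obtain ⟨⟨h1, h2⟩, h3⟩ := hy
    refine ⟨⟨⟨hn, hnk⟩, h2⟩, ?_⟩
    rcases h3 with ⟨h3, h4⟩ | ⟨h3, h4, h5⟩
    · simp only at h3; omega
    · refine Or.inr ⟨rfl, h, ?_⟩
      simp only at h3 h4 h5 ⊢
      rw [he]; exact h5
  · intro y hy
    rw [mem_filter] at hy
    rcases hy.2 with ⟨h3, h4⟩ | ⟨h3, h4, h5⟩
    · simp only at h3; omega
    · simp only at h3
      ext <;> simp [h3]
  · intro y hy
    rw [mem_filter] at hy
    rcases hy.2 with ⟨h3, h4⟩ | ⟨h3, h4, h5⟩
    · simp only at h3; omega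
    · simp only at h3
      ext <;> simp [h3]

lemma Mn_shift {t n n' t' : ℕ} {v : ℤ} (h : n ≤ t) (h' : n' ≤ t') (he : t - n = t' - n') :
    S.Mn t (n, v) ↔ S.Mn t' (n', v) := by
  unfold Dat.Mn
  simp only
  rw [if_neg (by omega), if_neg (by omega), he]

lemma nm_shift {t n n' t' : ℕ} {v : ℤ} (hn : 1 ≤ n) (hnk : n ≤ S.k) (hn' : 1 ≤ n')
    (hnk' : n' ≤ S.k) (h : n ≤ t) (h' : n' ≤ t') (he : t - n = t' - n') :
    S.nm t (n, v) = S.nm t' (n', v) := by
  classical
  unfold Dat.nm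
  apply card_bij' (fun y _ => ((n', y.2) : ℕ × ℤ)) (fun y _ => ((n, y.2) : ℕ × ℤ))
  · intro y hy
    rw [mem_filter, mem_Uh] at hy ⊢
    obtain ⟨⟨h1, h2⟩, h3, hm⟩ := hy
    rcases h3 with ⟨h3, h4⟩ | ⟨h3, h4, h5⟩
    · simp only at h3; omega
    · simp only at h3 h4 h5
      refine ⟨⟨⟨hn', hnk'⟩, h2⟩, Or.inr ⟨rfl, h', ?_⟩, ?_⟩
      · simp only
        rw [← he]; exact h5
      · rw [← Mn_shift (S := S) h h' he, h3]; exact hm
  · intro y hy
    rw [mem_filter, mem_Uh] at hy ⊢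
    obtain ⟨⟨h1, h2⟩, h3, hm⟩ := hy
    rcases h3 with ⟨h3, h4⟩ | ⟨h3, h4, h5⟩
    · simp only at h3; omega
    · simp only at h3 h4 h5
      refine ⟨⟨⟨hn, hnk⟩, h2⟩, Or.inr ⟨rfl, h, ?_⟩, ?_⟩
      · simp only
        rw [he]; exact h5
      · rw [Mn_shift (S := S) h h' he, h3]; exact hm
  · intro y hy
    rw [mem_filter] at hy
    rcases hy.2.1 with ⟨h3, h4⟩ | ⟨h3, h4, h5⟩
    · simp only at h3; omega
    · simp only at h3
      ext <;> simp [h3]
  · intro y hy
    rw [mem_filter] at hy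
    rcases hy.2.1 with ⟨h3, h4⟩ | ⟨h3, h4, h5⟩
    · simp only at h3; omega
    · simp only at h3
      ext <;> simp [h3]

/-- A special time of `(n, v)` gives a special time of `(1, v)`. -/
lemma Jp_shift {G t n : ℕ} {v : ℤ} (hn : 1 ≤ n) (hnt : n ≤ t) (h : S.Jp G t (n, v)) :
    S.Jp G (t - n + 1) (1, v) := by
  obtain ⟨h1, h2⟩ := h
  refine ⟨by omega, ?_⟩
  rw [Mn_shift (S := S) (n := n) (n' := 1) hnt (t' := t - n + 1) (by omega) (by omega),
    nn_shift (S := S) hn (by omega) le_rfl (by omega) hnt (t' := t - n + 1) (by omega) (by omega),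
    nm_shift (S := S) hn (by omega) le_rfl (by omega) hnt (t' := t - n + 1) (by omega) (by omega)]
    at h2
  exact h2

end JplB

open JplB in
theorem JplB_proof (hA : Stmt_JplA) : Stmt_JplB := by
  classical
  intro F _ S hS tr G hG t ht
  have hk := hS.k_pos
  -- the three parts
  have hsub : S.Uh.filter (fun x => S.Jp G t x) ⊆
      ((S.V0.biUnion (fun v => (((range S.k).filter (fun s => S.Jp G s (1, v))).image
        (fun s => (((t + 1 - s, v)) : ℕ × ℤ))))) ∪
      S.V0.image (fun v => ((t + 1, v) : ℕ × ℤ))) ∪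
      (if S.k - t ≤ G then ((Ioc t S.k) ×ˢ S.V0) else ∅) := by
    rintro ⟨n, v⟩ hx
    rw [mem_filter, mem_Uh] at hx
    obtain ⟨⟨⟨h1, h2⟩, h3⟩, h4⟩ := hx
    simp only at h1 h2 h3
    rw [mem_union, mem_union]
    rcases Nat.lt_or_ge t n with h5 | h5
    · by_cases h6 : n = t + 1
      · left; right
        rw [mem_image]
        exact ⟨v, h3, by rw [h6]⟩
      · right
        obtain ⟨_, h7⟩ := h4
        have hx : ((n, v) : ℕ × ℤ) ∈ S.U := by
          unfold Dat.U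
          exact mem_insert_of_mem (mem_Uh.2 ⟨⟨h1, h2⟩, h3⟩)
        have hR : S.R t (n, v) S.zero := Or.inl ⟨h5, by
          show t < S.k + 1
          omega⟩
        have hm : S.Mn t (n, v) := by
          unfold Dat.Mn
          simp only
          rw [if_pos h5]
          omega
        rcases h7 with h7 | h7
        · exact absurd hm h7
        · rw [tr.nnR t _ _ hR, tr.nmR t _ _ hR, tr.zero_nn t ht.le, tr.zero_nm t ht] at h7
          have h8 : S.k - t ≤ G := Nat.le_of_mul_le_mul_right h7 hS.ne.card_pos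
          rw [if_pos h8, mem_product, mem_Ioc]
          exact ⟨⟨h5, h2⟩, h3⟩
    · left; left
      rw [mem_biUnion]
      refine ⟨v, h3, ?_⟩
      rw [mem_image]
      refine ⟨t - n + 1, ?_, ?_⟩
      · rw [mem_filter, mem_range]
        exact ⟨by omega, Jp_shift h1 h5 h4⟩
      · ext
        · simp only; omega
        · rfl
  have h1 : (S.V0.biUnion (fun v => (((range S.k).filter (fun s => S.Jp G s (1, v))).image
        (fun s => (((t + 1 - s, v)) : ℕ × ℤ))))).card ≤ S.V0.card * (2 * G * ll S) := by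
    refine card_biUnion_le_card_mul _ _ _ ?_
    intro v hv
    refine card_image_le.trans ?_
    exact hA F S hS tr G hG (1, v) (mem_Uh.2 ⟨⟨le_rfl, by omega⟩, hv⟩)
  have h2 : (S.V0.image (fun v => ((t + 1, v) : ℕ × ℤ))).card ≤ S.V0.card := card_image_le
  have h3 : (if S.k - t ≤ G then ((Ioc t S.k) ×ˢ S.V0) else ∅).card ≤ G * S.V0.card := by
    split_ifs with h
    · rw [card_product, Nat.card_Ioc]
      exact Nat.mul_le_mul_right _ h
    · simp
  have h4 := card_le_card hsub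
  have h5 := card_union_le ((S.V0.biUnion (fun v => (((range S.k).filter
      (fun s => S.Jp G s (1, v))).image (fun s => (((t + 1 - s, v)) : ℕ × ℤ))))) ∪
      S.V0.image (fun v => ((t + 1, v) : ℕ × ℤ)))
      (if S.k - t ≤ G then ((Ioc t S.k) ×ˢ S.V0) else ∅)
  have h6 := card_union_le (S.V0.biUnion (fun v => (((range S.k).filter
      (fun s => S.Jp G s (1, v))).image (fun s => (((t + 1 - s, v)) : ℕ × ℤ)))))
      (S.V0.image (fun v => ((t + 1, v) : ℕ × ℤ)))
  have h7 : 2 ≤ ll S := by unfold ll; omega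
  have h8 : (1 + G) * S.V0.card ≤ G * ll S * S.V0.card := by
    apply Nat.mul_le_mul_right
    nlinarith
  have h9 : 3 * G * ll S * S.V0.card = S.V0.card * (2 * G * ll S) + G * ll S * S.V0.card := by ring
  rw [h9]
  have h10 : (1 + G) * S.V0.card = S.V0.card + G * S.V0.card := by ring
  omega

end Pool.Agent.SPD
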