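import Pool.Agent.SPD.Stmts

set_option autoImplicit false

/-!
The numbers of departures and of big letters.
-/

open Finset

namespace Pool.Agent.SPD

namespace JplC

lemma seq_bound2 (a : ℕ → ℕ) (c : ℕ) (Sp : Finset ℕ) (hanti : ∀ t, a (t + 1) ≤ a t)
    (hs : ∀ t ∈ Sp, c * a (t + 1) ≤ a t) (k : ℕ) :
    c ^ (Sp.filter (fun t => t < k)).card * a k ≤ a 0 := by
  induction k with
  | zero =>
    have : Sp.filter (fun t => t < 0) = ∅ := by
      rw [filter_eq_empty_iff]; intro t _; omega
    rw [this]; simp
  | succ k ih =>
    by_cases hk : k ∈ Sp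
    · have h1 : Sp.filter (fun t => t < k + 1) = insert k (Sp.filter (fun t => t < k)) := by
        ext t
        rw [mem_filter, mem_insert, mem_filter]
        constructor
        · rintro ⟨h1, h2⟩
          rcases Nat.lt_or_ge t k with h3 | h3
          · exact Or.inr ⟨h1, h3⟩
          · exact Or.inl (by omega)
        · rintro (rfl | ⟨h1, h2⟩)
          · exact ⟨hk, by omega⟩
          · exact ⟨h1, by omega⟩
      have h2 : k ∉ Sp.filter (fun t => t < k) := by
        rw [mem_filter]; rintro ⟨_, h⟩; omega
      rw [h1, card_insert_of_notMem h2, pow_succ]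
      have h3 := hs k hk
      calc c ^ (Sp.filter (fun t => t < k)).card * c * a (k + 1)
          = c ^ (Sp.filter (fun t => t < k)).card * (c * a (k + 1)) := by ring
        _ ≤ c ^ (Sp.filter (fun t => t < k)).card * a k := Nat.mul_le_mul_left _ h3
        _ ≤ _ := ih
    · have h1 : Sp.filter (fun t => t < k + 1) = Sp.filter (fun t => t < k) := by
        ext t
        rw [mem_filter, mem_filter]
        constructor
        · rintro ⟨h1, h2⟩
          refine ⟨h1, ?_⟩
          rcases Nat.lt_or_ge t k with h3 | h3
          · exact h3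
          · exfalso
            have : t = k := by omega
            rw [this] at h1
            exact hk h1
        · rintro ⟨h1, h2⟩
          exact ⟨h1, by omega⟩
      rw [h1]
      exact (Nat.mul_le_mul_left _ (hanti k)).trans ih

end JplC

open JplC in
theorem JplC_proof : Stmt_JplC := by
  classical
  intro F _ S hS tr
  refine ⟨?_, ?_⟩
  · intro x hx
    have hxU : x ∈ S.U := by unfold Dat.U; exact mem_insert_of_mem hx
    have hk := hS.k_pos
    set Sp := (range (S.k - 1)).filter (fun t => ¬ S.Mn t x) with hSp
    have h1 := seq_bound2 (fun t => S.nn t x) 2 Sp (fun t => tr.nn_anti t (t + 1) x (by omega))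
      (by
        intro t ht
        rw [hSp, mem_filter, mem_range] at ht
        exact tr.half t (by omega) x hxU ht.2) S.k
    have hfil : Sp.filter (fun t => t < S.k) = Sp := by
      rw [filter_eq_self]
      intro t ht
      rw [hSp, mem_filter, mem_range] at ht
      omega
    rw [hfil, tr.nn_root x hxU] at h1
    have h2 : 2 ^ Sp.card ≤ S.Uh.card :=
      le_trans (Nat.le_mul_of_pos_right _ (tr.nn_pos S.k x hx)) h1
    have h3 : Sp.card ≤ Nat.log 2 S.Uh.card := Nat.le_log_of_pow_le (by norm_num) h2
    have h4 : (range S.k).filter (fun t => ¬ S.Mn t x) ⊆ insert (S.k - 1) Sp := by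
      intro t ht
      rw [mem_filter, mem_range] at ht
      rw [mem_insert, hSp, mem_filter, mem_range]
      by_cases h5 : t = S.k - 1
      · exact Or.inl h5
      · exact Or.inr ⟨by omega, ht.2⟩
    have h5 := (card_le_card h4).trans (card_insert_le _ _)
    unfold ll
    omega
  · intro G t x hx h
    obtain ⟨h1, h2, h3⟩ := h
    refine ⟨h1, h2, ?_⟩
    have h4 := tr.nn_dep t x hx h2
    exact (Nat.mul_le_mul_left G h4).trans h3.le

end Pool.Agent.SPD
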