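import Pool.Agent.SPD.JplC

set_option autoImplicit false

/-!
The number of big letters.
-/

open Finset

namespace Pool.Agent.SPD

open JplC in
theorem JplD_proof : Stmt_JplD := by
  classical
  intro F _ S hS tr H r hH hB x hx
  have hxU : x ∈ S.U := by unfold Dat.U; exact mem_insert_of_mem hx
  set Sp := (range S.k).filter (fun t => S.Big H t x) with hSp
  have h1 := seq_bound2 (fun t => S.nn t x) H Sp (fun t => tr.nn_anti t (t + 1) x (by omega))
    (by
      intro t ht
      rw [hSp, mem_filter, mem_range] at ht
      exact ht.2.2.2) S.k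
  have hfil : Sp.filter (fun t => t < S.k) = Sp := by
    rw [filter_eq_self]
    intro t ht
    rw [hSp, mem_filter, mem_range] at ht
    exact ht.1
  rw [hfil, tr.nn_root x hxU] at h1
  have h2 : H ^ Sp.card ≤ H ^ r :=
    le_trans (Nat.le_mul_of_pos_right _ (tr.nn_pos S.k x hx)) (h1.trans hB)
  exact (Nat.pow_le_pow_iff_right (by omega)).1 h2

end Pool.Agent.SPD
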