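import Pool.Agent.SPD.Stmts

set_option autoImplicit false

/-!
Squad SPD, module Keys: the number of keys of a tuple.
-/

open Finset

namespace Pool.Agent.SPD

namespace Keys

variable {F : Type} [Field F] {S : Dat F} {ι : Type} [Fintype ι]

open Classical in
/-- The number of departures before time `s`. -/
noncomputable def nd (S : Dat F) (s : ℕ) (w : ι → ℕ × ℤ) : ℕ :=
  ∑ l, ((range s).filter (fun t => ¬ S.Mn t (w l))).card

open Classical in
theorem nd_le (hC : Stmt_JplC) (hok : Ok S) (htr : Tr S) {s : ℕ} (hs : s ≤ S.k)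
    {w : ι → ℕ × ℤ} (hw : ∀ l, w l ∈ S.Uh) : nd S s w ≤ Fintype.card ι * ll S := by
  unfold nd
  calc ∑ l, ((range s).filter (fun t => ¬ S.Mn t (w l))).card ≤ ∑ _l : ι, ll S := by
        refine Finset.sum_le_sum fun l _ => ?_
        refine le_trans (Finset.card_le_card ?_) ((hC F S hok htr).1 (w l) (hw l))
        exact Finset.filter_subset_filter _ (Finset.range_subset_range.2 hs)
    _ = Fintype.card ι * ll S := by
        rw [Finset.sum_const, Finset.card_univ, smul_eq_mul]

open Classical in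
theorem nd_congr (htr : Tr S) {s : ℕ} {w w' : ι → ℕ × ℤ} (hw : ∀ l, w l ∈ S.Uh)
    (hw' : ∀ l, w' l ∈ S.Uh) (h : ∀ l, S.R s (w l) (w' l)) : nd S s w = nd S s w' := by
  unfold nd
  refine Finset.sum_congr rfl fun l _ => ?_
  congr 1
  refine Finset.filter_congr fun t ht => ?_
  rw [Finset.mem_range] at ht
  rw [htr.mnR t (w l) (Finset.mem_insert_of_mem (hw l)) (w' l) (Finset.mem_insert_of_mem (hw' l))
    (htr.mono (t + 1) s _ _ (by omega) (h l))]

open Classical in
theorem nd_lt {s s' : ℕ} (hss : s < s') {w : ι → ℕ × ℤ} (h : ∃ l, ¬ S.Mn (s' - 1) (w l)) :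
    nd S s w < nd S s' w := by
  unfold nd
  obtain ⟨l, hl⟩ := h
  refine Finset.sum_lt_sum (fun l _ => Finset.card_le_card
    (Finset.filter_subset_filter _ (Finset.range_subset_range.2 hss.le))) ⟨l, Finset.mem_univ _, ?_⟩
  refine Finset.card_lt_card ?_
  refine (Finset.ssubset_iff_of_subset
    (Finset.filter_subset_filter _ (Finset.range_subset_range.2 hss.le))).2 ⟨s' - 1, ?_, ?_⟩
  · rw [Finset.mem_filter, Finset.mem_range]
    exact ⟨by omega, hl⟩
  · rw [Finset.mem_filter, Finset.mem_range]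
    rintro ⟨h1, -⟩
    omega

end Keys

open Classical in
theorem Keys_proof (hCodeA : Stmt_CodeA) (hCodeB : Stmt_CodeB) (hCodeC : Stmt_CodeC)
    (hFamT : Stmt_FamT) (hJplC : Stmt_JplC) : Stmt_Keys := by
  intro F _ S hok htr ι _ G L C r v hb hL hG hcard hv K hK
  set m := Fintype.card ι with hm
  set R0 := (m + 1) ^ (m * r) with hR0
  -- witnesses
  have hwit : ∀ q : ℕ × (ι → ℕ × ℤ), ∃ w' : ι → ℕ × ℤ, q ∈ K → (Reg S G L w' ∧
      q.2 = (fun i => S.cenU (q.1 - 2) (w' i)) ∧ |SX S v - SX S w'| ≤ C * S.D q.1 ∧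
      (q.1 = 0 ∨ (∃ l, ¬ S.Mn (q.1 - 1) (v l)) ∨ (3 ≤ q.1 ∧ ∃ l, ¬ S.Mn (q.1 - 3) (w' l)))) := by
    intro q
    by_cases hq : q ∈ K
    · obtain ⟨-, w', h⟩ := hK q hq
      exact ⟨w', fun _ => h⟩
    · exact ⟨fun _ => S.zero, fun h => absurd h hq⟩
  choose W hW using hwit
  have hk : ∀ q ∈ K, q.1 ≤ S.k := fun q hq => (hK q hq).1
  let ty : ℕ × (ι → ℕ × ℤ) → Prop := fun q => q.1 = 0 ∨ ∃ l, ¬ S.Mn (q.1 - 1) (v l)
  -- first type
  have h1 : (K.filter ty).card ≤ R0 * (m * ll S + 1) := by
    have e1 : ∀ a ∈ (K.filter ty).image Prod.fst,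
        ((K.filter ty).filter (fun x => x.1 = a)).card ≤ R0 := by
      intro a ha
      obtain ⟨q0, hq0, rfl⟩ := Finset.mem_image.1 ha
      have hq0K := (Finset.mem_filter.1 hq0).1
      have e2 : ((K.filter ty).filter (fun x => x.1 = q0.1)).card =
          (((K.filter ty).filter (fun x => x.1 = q0.1)).image Prod.snd).card := by
        rw [Finset.card_image_of_injOn]
        intro x hx y hy hxy
        have hx' := (Finset.mem_filter.1 (Finset.mem_coe.1 hx)).2
        have hy' := (Finset.mem_filter.1 (Finset.mem_coe.1 hy)).2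
        exact Prod.ext (hx'.trans hy'.symm) hxy
      rw [e2]
      refine hFamT F S hok htr ι G L C q0.1 r (SX S v) hb hL hG hcard (hk q0 hq0K) _ ?_
      intro ω hω
      obtain ⟨q, hq, rfl⟩ := Finset.mem_image.1 hω
      obtain ⟨hq1, hq2⟩ := Finset.mem_filter.1 hq
      have hqK := (Finset.mem_filter.1 hq1).1
      obtain ⟨a1, a2, a3, -⟩ := hW q hqK
      refine ⟨W q, a1, ?_, ?_⟩
      · rw [← hq2, abs_sub_comm]
        exact a3
      · rw [← hq2]
        exact a2
    refine (Finset.card_le_mul_card_image (K.filter ty) R0 e1).trans ?_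
    refine Nat.mul_le_mul_left _ ?_
    -- number of times
    have e3 : (K.filter ty).image Prod.fst ⊆
        insert 0 (((Finset.univ : Finset ι).biUnion fun l =>
          (range S.k).filter (fun t => ¬ S.Mn t (v l))).image (· + 1)) := by
      intro t ht
      obtain ⟨q, hq, rfl⟩ := Finset.mem_image.1 ht
      obtain ⟨hqK, hty⟩ := Finset.mem_filter.1 hq
      rcases hty with h | ⟨l, hl⟩
      · rw [h]
        exact Finset.mem_insert_self _ _
      · by_cases h0 : q.1 = 0
        · rw [h0]
          exact Finset.mem_insert_self _ _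
        · refine Finset.mem_insert_of_mem (Finset.mem_image.2 ⟨q.1 - 1, ?_, by omega⟩)
          refine Finset.mem_biUnion.2 ⟨l, Finset.mem_univ _, Finset.mem_filter.2 ⟨?_, hl⟩⟩
          have := hk q hqK
          rw [Finset.mem_range]
          omega
    refine (Finset.card_le_card e3).trans ((Finset.card_insert_le _ _).trans ?_)
    refine Nat.add_le_add_right (Finset.card_image_le.trans ?_) 1
    refine Finset.card_biUnion_le.trans ?_
    calc ∑ l : ι, ((range S.k).filter (fun t => ¬ S.Mn t (v l))).card ≤ ∑ _l : ι, ll S :=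
          Finset.sum_le_sum fun l _ => (hJplC F S hok htr).1 (v l) (hv l)
      _ = m * ll S := by rw [Finset.sum_const, Finset.card_univ, smul_eq_mul]
  -- third type
  have h3 : (K.filter (fun q => ¬ ty q)).card ≤ R0 * (m * ll S + 1) := by
    set K3 := K.filter (fun q => ¬ ty q) with hK3
    have t3 : ∀ q ∈ K3, 3 ≤ q.1 ∧ ∃ l, ¬ S.Mn (q.1 - 3) (W q l) := by
      intro q hq
      obtain ⟨hqK, hty⟩ := Finset.mem_filter.1 hq
      obtain ⟨-, -, -, a4⟩ := hW q hqK
      rcases a4 with h | h | h
      · exact absurd (Or.inl h) hty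
      · exact absurd (Or.inr h) hty
      · exact h
    let φ : ℕ × (ι → ℕ × ℤ) → List ι × ℕ := fun q =>
      (code S G (q.1 - 1) (W q), Keys.nd S (q.1 - 2) (W q))
    have hinj' : ∀ x ∈ K3, ∀ y ∈ K3, x.1 ≤ y.1 → φ x = φ y → x = y := by
      intro x hx y hy hle hxy
      have hxK := (Finset.mem_filter.1 hx).1
      have hyK := (Finset.mem_filter.1 hy).1
      obtain ⟨b1, b2⟩ := t3 x hx
      obtain ⟨c1, c2⟩ := t3 y hy
      obtain ⟨a1, a2, a3, -⟩ := hW x hxK
      obtain ⟨d1, d2, d3, -⟩ := hW y hyK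
      have hcode : code S G (x.1 - 1) (W x) = code S G (y.1 - 1) (W y) := congrArg Prod.fst hxy
      have hnd : Keys.nd S (x.1 - 2) (W x) = Keys.nd S (y.1 - 2) (W y) := congrArg Prod.snd hxy
      have hR : ∀ i, S.R (x.1 - 2) (W x i) (W y i) := by
        by_contra hcon
        push Not at hcon
        refine hCodeA F S hok htr ι G L (2 * C) x.1 (x.1 - 1) (y.1 - 1) (W x) (W y) hb hL a1 d1
          ?_ (hk x hxK) hcon (by omega) (by omega) hcode
        have hD : S.D y.1 ≤ S.D x.1 := htr.Danti _ _ hle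
        have e1 : |SX S (W x) - SX S (W y)| ≤ |SX S v - SX S (W x)| + |SX S v - SX S (W y)| := by
          have : SX S (W x) - SX S (W y) = -(SX S v - SX S (W x)) + (SX S v - SX S (W y)) := by
            ring
          rw [this]
          refine (abs_add_le _ _).trans ?_
          rw [abs_neg]
        have e2 : (C : ℤ) * S.D y.1 ≤ C * S.D x.1 :=
          mul_le_mul_of_nonneg_left hD (Int.natCast_nonneg _)
        push_cast
        linarith
      rcases hle.eq_or_lt with heq | hlt
      · refine Prod.ext heq ?_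
        rw [a2, d2, ← heq]
        funext i
        exact htr.cen_eq (x.1 - 2) (by have := hk x hxK; omega) _
          (Finset.mem_insert_of_mem (a1.mem i)) _ (Finset.mem_insert_of_mem (d1.mem i)) (hR i)
      · exfalso
        have f1 : Keys.nd S (x.1 - 2) (W x) = Keys.nd S (x.1 - 2) (W y) :=
          Keys.nd_congr htr a1.mem d1.mem hR
        have f2 : Keys.nd S (x.1 - 2) (W y) < Keys.nd S (y.1 - 2) (W y) := by
          refine Keys.nd_lt (by omega) ?_
          have : y.1 - 2 - 1 = y.1 - 3 := by omega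
          rw [this]
          exact c2
        omega
    have hinj : Set.InjOn φ (K3 : Set (ℕ × (ι → ℕ × ℤ))) := by
      intro x hx y hy hxy
      rcases le_total x.1 y.1 with h | h
      · exact hinj' x hx y hy h hxy
      · exact (hinj' y hy x hx h hxy.symm).symm
    have hmaps : K3.image φ ⊆ (K3.image fun q => code S G (q.1 - 1) (W q)) ×ˢ
        range (m * ll S + 1) := by
      intro p hp
      obtain ⟨q, hq, rfl⟩ := Finset.mem_image.1 hp
      refine Finset.mem_product.2 ⟨Finset.mem_image.2 ⟨q, hq, rfl⟩, ?_⟩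
      rw [Finset.mem_range, Nat.lt_succ_iff]
      have hqK := (Finset.mem_filter.1 hq).1
      exact Keys.nd_le hJplC hok htr (by have := hk q hqK; omega) (hW q hqK).1.mem
    calc K3.card = (K3.image φ).card := (Finset.card_image_of_injOn hinj).symm
      _ ≤ ((K3.image fun q => code S G (q.1 - 1) (W q)) ×ˢ range (m * ll S + 1)).card :=
          Finset.card_le_card hmaps
      _ = (K3.image fun q => code S G (q.1 - 1) (W q)).card * (m * ll S + 1) := by
          rw [Finset.card_product, Finset.card_range]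
      _ ≤ R0 * (m * ll S + 1) := by
          refine Nat.mul_le_mul_right _ ?_
          refine hCodeC ι (m * r) _ ?_
          intro l hl
          obtain ⟨q, hq, rfl⟩ := Finset.mem_image.1 hl
          have hqK := (Finset.mem_filter.1 hq).1
          exact hCodeB F S hok htr ι G r _ _ hG hcard (hW q hqK).1.mem
  have hsplit : K.card = (K.filter ty).card + (K.filter (fun q => ¬ ty q)).card :=
    (Finset.card_filter_add_card_filter_not (s := K) ty).symm
  rw [hsplit]
  calc (K.filter ty).card + (K.filter (fun q => ¬ ty q)).card ≤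
        R0 * (m * ll S + 1) + R0 * (m * ll S + 1) := Nat.add_le_add h1 h3
    _ = 2 * R0 * (m * ll S + 1) := by ring

end Pool.Agent.SPD
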