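import Pool.Agent.SPD.Stmts

set_option autoImplicit false

/-!
# SPD, module LabBase: basic properties of the families `Fam`
-/

open Finset

namespace Pool.Agent.SPD

namespace LabBase

lemma D_mono {F : Type} (S : Dat F) (h : Ok0 S) {q q' : ℕ} (hq : q ≤ q') :
    S.D (S.k - q) ≤ S.D (S.k - q') := by
  unfold Dat.D
  have hb : (1 : ℤ) ≤ S.b := by
    have := h.b_big
    have := h.k_pos
    exact_mod_cast (by omega : 1 ≤ S.b)
  have hP : (0 : ℤ) ≤ S.P := Int.natCast_nonneg _
  apply mul_le_mul_of_nonneg_right _ hP
  apply pow_le_pow_right₀ hb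
  omega

lemma D_nonneg {F : Type} (S : Dat F) (t : ℕ) : 0 ≤ S.D t := by
  unfold Dat.D
  positivity

end LabBase

open LabBase in
theorem LabBase_proof : Stmt_LabBase := by
  classical
  intro F _ S g L Q m₂ r M z hC
  have hz : ∀ i, z i ∈ S.V := by
    intro i
    have := (hC.good {i} (by rw [card_singleton]; omega)).1
    exact this ⟨i, mem_singleton_self i⟩
  refine ⟨?_, ?_, ?_, ?_⟩
  · intro l
    refine ⟨fun i => z i, fun i => hz i, ?_, ⟨l, mem_singleton_self l⟩, rfl⟩
    rw [sub_self, abs_zero]
    exact D_nonneg S _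
  · rintro q I T ⟨w, hw, -, i, rfl⟩
    exact hw i
  · rintro q q' I I' T hq hI ⟨w, hw, hs, i, rfl⟩
    set G : Fin M → ℕ × ℤ := fun i => if h : i ∈ I then w ⟨i, h⟩ else z i with hG
    refine ⟨fun i : I' => G i, ?_, ?_, ⟨i.1, hI i.2⟩, ?_⟩
    · intro j
      rw [hG]
      dsimp only
      split_ifs with h
      · exact hw _
      · exact hz _
    · have e1 : SX S (fun i : I' => G i) - SX S (fun i : I' => z i) =
          SX S w - SX S (fun i : I => z i) := by
        unfold SX
        rw [← sum_sub_distrib, ← sum_sub_distrib]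
        have h1 : ∑ x : I', (S.X (G x) - S.X (z x)) = ∑ x ∈ I', (S.X (G x) - S.X (z x)) :=
          Finset.sum_coe_sort I' (fun x => S.X (G x) - S.X (z x))
        have h2 : ∑ x : I, (S.X (w x) - S.X (z x)) = ∑ x ∈ I, (S.X (G x) - S.X (z x)) := by
          rw [← Finset.sum_coe_sort I (fun x => S.X (G x) - S.X (z x))]
          apply sum_congr rfl
          intro x _
          have : G x = w x := by
            rw [hG]
            dsimp only
            rw [dif_pos x.2]
          rw [this]
        rw [h1, h2]
        symm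
        apply sum_subset hI
        intro x _ hx
        have : G x = z x := by
          rw [hG]
          dsimp only
          rw [dif_neg hx]
        rw [this, sub_self]
      rw [e1]
      exact le_trans hs (D_mono S hC.ok.toOk0 hq)
    · show G i.1 = w i
      rw [hG]
      dsimp only
      rw [dif_pos i.2]
  · rintro q I T ⟨w, hw, hs, i0, rfl⟩ i
    refine ⟨w ∘ Equiv.swap i i0, fun j => hw _, ?_, ?_⟩
    · have : SX S (w ∘ Equiv.swap i i0) = SX S w := by
        unfold SX
        exact Equiv.sum_comp (Equiv.swap i i0) (fun j => S.X (w j))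
      rw [this]
      exact hs
    · simp

end Pool.Agent.SPD
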