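import Pool.Agent.SPD.Stmts

set_option autoImplicit false

/-!
# Few nonempty labels (module LabCard)
-/

open Finset

namespace Pool.Agent.SPD

namespace LabCard

theorem reg_z {F : Type} [Field F] {S : Dat F} {g L Q m₂ r M : ℕ} {z : Fin M → ℕ × ℤ}
    (hC : Ctx S g L Q m₂ r M z) (I : Finset (Fin M)) (hI : I.card ≤ m₂ + 1) :
    Reg S (g ^ 64) L (fun i : I => z i) := by
  obtain ⟨h1, h2⟩ := hC.good I hI
  refine (h2 (fun i : I => z i) (fun i => ?_) ?_).1
  · exact Finset.mem_insert_of_mem (h1 i)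
  · rw [sub_self, abs_zero]
    exact (hC.tr.Dpos _).le

end LabCard

open LabCard in
theorem LabCard_proof (hOwn : Stmt_LabOwn) (hD : Stmt_JplD) : Stmt_LabCard := by
  classical
  intro F _ S g L Q m₂ r M z hC q hq I hI T hT
  obtain ⟨w, hwV, hwX, i₀, hi₀⟩ := hT
  obtain ⟨hown1, hown2⟩ := hOwn F S g L Q m₂ r M z hC q hq I hI w hwV hwX
  have hreg := reg_z hC I (by omega)
  have hTU : T ∈ S.Uh := by
    rw [← hi₀]
    exact hC.tr.V_sub (hwV i₀)
  -- the key
  have key : ∀ l, lab S g (z l) T ≠ ∅ → l ∈ I ∧ ∃ t j, t ∈ (range S.k).filter (fun t => S.Big g t T) ∧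
      j ≤ t + 2 ∧ t ≤ j + 2 ∧ S.Jp (g ^ 64) j (z l) := by
    intro l hl
    have h0 : (lab0 S g (z l) T).Nonempty := by
      rw [Finset.nonempty_iff_ne_empty]
      intro he
      apply hl
      rw [lab, he, Finset.image_empty]
    obtain ⟨j, hj⟩ := h0
    have hlI : l ∈ I := by
      by_contra hnI
      have h1 := hown2 l hnI i₀
      rw [hi₀] at h1
      rw [h1] at hj
      exact absurd hj (Finset.notMem_empty j)
    have hjB : j ∈ BL S g (z l) := (Finset.mem_filter.1 hj).1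
    obtain ⟨i, -, ⟨t, ht1, ht2, ht3⟩, huniq⟩ := hown1 l hlI j hjB
    have hii : i₀ = i := huniq i₀ (by rw [hi₀]; exact hj)
    subst hii
    rw [hi₀] at ht3
    refine ⟨hlI, t, j, ?_, ht1, ht2, ?_⟩
    · rw [Finset.mem_filter, Finset.mem_range]
      exact ⟨ht3.1, ht3⟩
    · have hB : S.Big (g ^ 8) j (z l) := (Finset.mem_filter.1 hjB).2
      exact ⟨hB.1, Or.inl hB.2.1⟩
  choose! hlI tt jj htt htj1 htj2 hJp using key
  have hcard := hD F S hC.ok hC.tr g r hC.g2 hC.card T hTU
  refine le_trans ?_ hcard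
  refine Finset.card_le_card_of_injOn tt ?_ ?_
  · intro l hl
    have hl' : lab S g (z l) T ≠ ∅ := by
      simpa using hl
    exact htt l hl'
  · intro l hl l' hl' heq
    have h1 : lab S g (z l) T ≠ ∅ := by simpa using hl
    have h2 : lab S g (z l') T ≠ ∅ := by simpa using hl'
    by_contra hne
    have h3 := hreg.sep ⟨l, hlI l h1⟩ ⟨l', hlI l' h2⟩ (by
      intro hc
      exact hne (congrArg Subtype.val hc)) (jj l) (jj l') (hJp l h1) (hJp l' h2)
    have e1 := htj1 l h1
    have e2 := htj2 l h1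
    have e3 := htj1 l' h2
    have e4 := htj2 l' h2
    have hL := hC.hL
    rw [heq] at e1 e2
    rcases h3 with h3 | h3 <;> omega

end Pool.Agent.SPD
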