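import Pool.Agent.SPD.Stmts

set_option autoImplicit false

/-!
# SPD, module LabOwn: the owners of the big letters
-/

open Finset

namespace Pool.Agent.SPD

namespace LabOwn

variable {F : Type} (S : Dat F)

lemma D_mono [Field F] {S : Dat F} (h : Ok S) {q q' : ℕ} (hq : q ≤ q') :
    S.D (S.k - q) ≤ S.D (S.k - q') := by
  have hb : (1 : ℤ) ≤ S.b := by
    have h1 := h.k_pos
    have h2 := h.b_big
    exact_mod_cast (by omega : 1 ≤ S.b)
  have hP : (0 : ℤ) ≤ S.P := by positivity
  unfold Dat.D
  exact mul_le_mul_of_nonneg_right (pow_le_pow_right₀ hb (by omega)) hP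

lemma mem_Vp [Field F] {S : Dat F} {x : ℕ × ℤ} (h : x ∈ S.V) : x ∈ S.Vp :=
  Finset.mem_insert_of_mem h

lemma D_nonneg (S : Dat F) (t : ℕ) : 0 ≤ S.D t := by
  unfold Dat.D
  positivity

end LabOwn

open LabOwn in
theorem LabOwn_proof : Stmt_LabOwn := by
  classical
  intro F _ S g L Q m₂ r M z hC q hq I hI w hwV hw
  have hL := hC.hL
  have hgood := hC.good I (by omega)
  have hzV := hgood.1
  have hDq : S.D (S.k - q) ≤ S.D (S.k - Q) := D_mono hC.ok hq
  have hDq1 : S.D (S.k - q) ≤ S.D (S.k - (Q + 1)) := D_mono hC.ok (by omega)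
  have hRw : Reg S (g ^ 64) L w :=
    (hgood.2 w (fun i => mem_Vp (hwV i)) (hw.trans hDq)).1
  have hz0 := hgood.2 (fun i : I => z i) (fun i => mem_Vp (hzV i)) (by
    rw [sub_self, abs_zero]
    exact D_nonneg S _)
  refine ⟨?_, ?_⟩
  · intro l hl j hj
    have hj' := hj
    unfold BL at hj'
    rw [mem_filter] at hj'
    obtain ⟨-, hbig⟩ := hj'
    have hex : ∃ i : I, ∃ t, j ≤ t + 2 ∧ t ≤ j + 2 ∧ S.Big g t (w i) := by
      by_contra hcon
      push Not at hcon
      apply hz0.2.1
      refine ⟨w, hRw, ?_, ⟨l, hl⟩, j, ?_, ?_⟩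
      · rw [abs_sub_comm]
        exact hw.trans hDq1
      · simpa using hbig
      · intro i' t h1 h2
        simpa using hcon i' t h1 h2
    obtain ⟨i, t, h1, h2, h3⟩ := hex
    refine ⟨i, ?_, ⟨t, h1, h2, h3⟩, ?_⟩
    · unfold lab0
      rw [mem_filter]
      exact ⟨hj, t, h1, h2, h3.1, h3.2.1⟩
    · intro i' hi'
      unfold lab0 at hi'
      rw [mem_filter] at hi'
      obtain ⟨-, t', h1', h2', h3', h4'⟩ := hi'
      by_contra hne
      have := hRw.sep i' i hne t' t ⟨h3', Or.inl h4'⟩ ⟨h3.1, Or.inl h3.2.1⟩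
      omega
  · intro l hl i
    rw [Finset.eq_empty_iff_forall_notMem]
    intro j hj
    unfold lab0 at hj
    rw [mem_filter] at hj
    obtain ⟨hjB, t, h1, h2, h3, h4⟩ := hj
    unfold BL at hjB
    rw [mem_filter] at hjB
    obtain ⟨-, hbig⟩ := hjB
    have hgood' := hC.good (insert l I) ((Finset.card_insert_le l I).trans (by omega))
    set W : Fin M → ℕ × ℤ := fun x => if h : x ∈ I then w ⟨x, h⟩ else z x with hW
    have hWl : W l = z l := by simp [hW, hl]
    have hWI : ∀ x : I, W x = w x := by
      intro x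
      simp [hW]
    have hsum1 : SX S (fun x : (insert l I : Finset (Fin M)) => W x) =
        S.X (z l) + SX S w := by
      unfold SX
      rw [Finset.sum_coe_sort (insert l I) (fun x => S.X (W x)), Finset.sum_insert hl, hWl,
        ← Finset.sum_coe_sort I (fun x => S.X (W x))]
      congr 1
      exact Finset.sum_congr rfl (fun x _ => by rw [hWI x])
    have hsum2 : SX S (fun x : (insert l I : Finset (Fin M)) => z x) =
        S.X (z l) + SX S (fun i : I => z i) := by
      unfold SX
      rw [Finset.sum_coe_sort (insert l I) (fun x => S.X (z x)), Finset.sum_insert hl,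
        ← Finset.sum_coe_sort I (fun x => S.X (z x))]
    have hR : Reg S (g ^ 64) L (fun x : (insert l I : Finset (Fin M)) => W x) := by
      refine (hgood'.2 _ ?_ ?_).1
      · intro x
        apply mem_Vp
        by_cases hx : (x : Fin M) ∈ I
        · have : W x = w ⟨x, hx⟩ := hWI ⟨x, hx⟩
          rw [this]
          exact hwV _
        · have : W x = z x := by simp [hW, hx]
          rw [this]
          exact hgood'.1 x
      · rw [hsum1, hsum2, add_sub_add_left_eq_sub]
        exact hw.trans hDq
    have hne : (⟨l, Finset.mem_insert_self l I⟩ : (insert l I : Finset (Fin M))) ≠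
        ⟨i, Finset.mem_insert_of_mem i.2⟩ := by
      intro h
      apply hl
      have := congrArg Subtype.val h
      simp only at this
      rw [this]
      exact i.2
    have hs := hR.sep _ _ hne j t ⟨hbig.1, Or.inl (by
      simp only
      rw [hWl]
      exact hbig.2.1)⟩ ⟨h3, Or.inl (by
      simp only
      rw [hWI i]
      exact h4)⟩
    omega

end Pool.Agent.SPD
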