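import Pool.Agent.SPD.Stmts

set_option autoImplicit false

/-!
# SPD / LabRank: the ranks of the labels
-/

open Finset

namespace Pool.Agent.SPD

namespace LabRank

/-- The rank is injective. -/
theorem rank_inj {B : Finset ℕ} {j j' : ℕ} (hj : j ∈ B) (hj' : j' ∈ B)
    (h : (B.filter (fun i => i < j)).card = (B.filter (fun i => i < j')).card) : j = j' := by
  rcases lt_trichotomy j j' with h1 | h1 | h1
  · exfalso
    have h2 : B.filter (fun i => i < j) ⊂ B.filter (fun i => i < j') := by
      rw [Finset.ssubset_iff_of_subset (fun i hi => by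
        rw [mem_filter] at hi ⊢
        exact ⟨hi.1, hi.2.trans h1⟩)]
      refine ⟨j, by rw [mem_filter]; exact ⟨hj, h1⟩, ?_⟩
      rw [mem_filter]
      intro h3
      exact lt_irrefl _ h3.2
    have := Finset.card_lt_card h2
    omega
  · exact h1
  · exfalso
    have h2 : B.filter (fun i => i < j') ⊂ B.filter (fun i => i < j) := by
      rw [Finset.ssubset_iff_of_subset (fun i hi => by
        rw [mem_filter] at hi ⊢
        exact ⟨hi.1, hi.2.trans h1⟩)]
      refine ⟨j', by rw [mem_filter]; exact ⟨hj', h1⟩, ?_⟩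
      rw [mem_filter]
      intro h3
      exact lt_irrefl _ h3.2
    have := Finset.card_lt_card h2
    omega

theorem rank_lt {B : Finset ℕ} {j : ℕ} (hj : j ∈ B) :
    (B.filter (fun i => i < j)).card < B.card := by
  apply Finset.card_lt_card
  rw [Finset.ssubset_iff_of_subset (Finset.filter_subset _ _)]
  refine ⟨j, hj, ?_⟩
  rw [mem_filter]
  intro h
  exact lt_irrefl _ h.2

end LabRank

theorem LabRank_proof (hJplD : Stmt_JplD) : Stmt_LabRank := by
  classical
  intro F _ S g L Q m₂ r M z hC l T T'
  have hz : z l ∈ S.Uh := by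
    have h1 := (hC.good {l} (by rw [card_singleton]; omega)).1 ⟨l, mem_singleton_self l⟩
    exact hC.tr.V_sub h1
  have hBL : (BL S g (z l)).card ≤ r := by
    have h2 : 2 ≤ g ^ 8 := hC.g2.trans (Nat.le_self_pow (by norm_num) g)
    have h3 : S.Uh.card ≤ (g ^ 8) ^ r := by
      refine hC.card.trans ?_
      exact Nat.pow_le_pow_left (Nat.le_self_pow (by norm_num) g) r
    have h4 := hJplD F S hC.ok hC.tr (g ^ 8) r h2 h3 (z l) hz
    unfold BL
    refine le_trans (le_of_eq ?_) h4
    congr
  have hsub : ∀ T, lab0 S g (z l) T ⊆ BL S g (z l) := by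
    intro T
    unfold lab0
    exact Finset.filter_subset _ _
  have hmem : ∀ T a, a ∈ lab S g (z l) T ↔ ∃ j ∈ lab0 S g (z l) T,
      ((BL S g (z l)).filter (fun j' => j' < j)).card = a := by
    intro T a
    unfold lab
    rw [Finset.mem_image]
  refine ⟨?_, ?_, ?_, ?_⟩
  · intro a ha
    rw [hmem] at ha
    obtain ⟨j, hj, rfl⟩ := ha
    exact (LabRank.rank_lt (hsub T hj)).trans_le hBL
  · intro h
    have key : ∀ T T', lab S g (z l) T = lab S g (z l) T' →
        lab0 S g (z l) T ⊆ lab0 S g (z l) T' := by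
      intro T T' h j hj
      have h1 : ((BL S g (z l)).filter (fun j' => j' < j)).card ∈ lab S g (z l) T := by
        rw [hmem]
        exact ⟨j, hj, rfl⟩
      rw [h, hmem] at h1
      obtain ⟨j', hj', h2⟩ := h1
      have := LabRank.rank_inj (hsub T' hj') (hsub T hj) h2
      rwa [← this]
    exact Finset.Subset.antisymm (key T T' h) (key T' T h.symm)
  · unfold lab
    rw [Finset.image_eq_empty]
  · constructor
    · intro h
      rw [Finset.disjoint_left] at h ⊢
      intro j hj hj'
      exact h ((hmem T _).2 ⟨j, hj, rfl⟩) ((hmem T' _).2 ⟨j, hj', rfl⟩)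
    · intro h
      rw [Finset.disjoint_left] at h ⊢
      intro a ha ha'
      rw [hmem] at ha ha'
      obtain ⟨j, hj, h1⟩ := ha
      obtain ⟨j', hj', h2⟩ := ha'
      have h3 := LabRank.rank_inj (hsub T hj) (hsub T' hj') (h1.trans h2.symm)
      subst h3
      exact h hj hj'

end Pool.Agent.SPD
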