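import Pool.Agent.SPD.Stmts

set_option autoImplicit false

/-!
LabUniq: a point of a representation is determined by its labels.
-/

open Finset

namespace Pool.Agent.SPD

namespace LabUniq

variable {F : Type} [Field F] {S : Dat F}

theorem aux (hRank : Stmt_LabRank) (hC : Stmt_JplC) {g L Q m₂ r M : ℕ} {z : Fin M → ℕ × ℤ}
    (hX : Ctx S g L Q m₂ r M z) {q : ℕ} (hq : q ≤ Q) {I : Finset (Fin M)} (hI : I.card ≤ m₂)
    (w w' : I → ℕ × ℤ) (hwV : ∀ i, w i ∈ S.V) (hw'V : ∀ i, w' i ∈ S.V)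
    (hw : |SX S w - SX S (fun i : I => z i)| ≤ S.D (S.k - q))
    (hw' : |SX S w' - SX S (fun i : I => z i)| ≤ S.D (S.k - q)) (i : I) (j : ℕ) (hj : j < S.k)
    (hR : S.R j (w i) (w' i)) (hR' : ¬ S.R (j + 1) (w i) (w' i)) (hM : ¬ S.Mn j (w i))
    (hlab : ∀ l, lab S g (z l) (w i) = lab S g (z l) (w' i)) : False := by
  classical
  have hA := hX.tr.toTrA
  have hgood := hX.good I (by omega)
  have hDq : S.D (S.k - q) ≤ S.D (S.k - Q) := hA.Danti _ _ (by omega)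
  have hVp : ∀ x, x ∈ S.V → x ∈ S.Vp := fun x hx => Finset.mem_insert_of_mem hx
  obtain ⟨hRw, -, hB1w, hB2w⟩ := hgood.2 w (fun i => hVp _ (hwV i)) (hw.trans hDq)
  obtain ⟨hRw', -, -, -⟩ := hgood.2 w' (fun i => hVp _ (hw'V i)) (hw'.trans hDq)
  obtain ⟨hRz, -, -, -⟩ := hgood.2 (fun i : I => z i) (fun i => hVp _ (hgood.1 i)) (by
    rw [sub_self, abs_zero]
    exact (hA.Dpos _).le)
  have hJ : S.Jp (g ^ 64) j (w i) := ⟨hj, Or.inl hM⟩
  have hL := hX.hL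
  have hfin := hRw.fin i j hJ
  -- distances
  have hb : 100 ≤ S.b := by
    have := hX.hb
    omega
  have hDs : S.D (S.k - (Q + 1)) = (S.b : ℤ) ^ 3 * S.D (S.k - Q) := by
    have h1 := hA.Dsucc (S.k - (Q + 1)) (by omega)
    have h2 : S.k - (Q + 1) + 1 = S.k - Q := by omega
    rw [h2] at h1
    exact h1
  have hD0 : 0 < S.D (S.k - Q) := hA.Dpos _
  have hb3 : (2 : ℤ) ≤ (S.b : ℤ) ^ 3 := by
    have h1 : (2 : ℤ) ≤ S.b := by exact_mod_cast (by omega : 2 ≤ S.b)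
    calc (2 : ℤ) ≤ (S.b : ℤ) := h1
      _ ≤ (S.b : ℤ) ^ 3 := le_self_pow₀ (by linarith) (by norm_num)
  have h2D : 2 * S.D (S.k - Q) ≤ S.D (S.k - (Q + 1)) := by
    rw [hDs]
    exact mul_le_mul_of_nonneg_right hb3 hD0.le
  have hww' : |SX S w - SX S w'| ≤ S.D (S.k - (Q + 1)) := by
    have e1 : SX S w - SX S w' = (SX S w - SX S (fun i : I => z i))
        - (SX S w' - SX S (fun i : I => z i)) := by ring
    rw [e1]
    refine (abs_sub _ _).trans ?_
    linarith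
  have hwz : |SX S w - SX S (fun i : I => z i)| ≤ S.D (S.k - (Q + 1)) := by linarith
  -- B2 fails: some other coordinate of `w'` is special within 10 of `j`
  have hex : ∃ i', i' ≠ i ∧ ∃ t, S.Jp (g ^ 64) t (w' i') ∧ j ≤ t + 10 ∧ t ≤ j + 10 := by
    by_contra hcon
    push Not at hcon
    apply hB2w
    refine ⟨w', hRw', hww', i, j, hR, hR', hJ, ?_, ?_⟩
    · intro i' hi' t ht
      have := hRw.sep i' i hi' t j ht hJ
      omega
    · intro i' hi' t ht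
      by_contra hc
      have := hcon i' hi' t ht (by omega)
      omega
  obtain ⟨i', hi', t₀, ht₀, ha, hb'⟩ := hex
  have hfar : ∀ s, S.Jp (g ^ 64) s (w' i) → s + L < t₀ ∨ t₀ + L < s := fun s hs =>
    hRw'.sep i i' (Ne.symm hi') s t₀ hs ht₀
  have hnJ : ¬ S.Jp (g ^ 64) j (w' i) := by
    intro h
    have := hfar j h
    omega
  have hnn : g ^ 64 * S.nm j (w' i) < S.nn j (w' i) := by
    by_contra hc
    exact hnJ ⟨hj, Or.inr (not_lt.mp hc)⟩
  have hJr : S.Jr (g ^ 64) j (w i) := by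
    refine ⟨hj, hM, ?_⟩
    rw [hX.tr.toTrB.nnR j _ _ hR, hX.tr.toTrB.nmR j _ _ hR]
    exact hnn
  have hwU : w i ∈ S.U := Finset.mem_insert_of_mem (hX.tr.toTrC.V_sub (hwV i))
  have hBig : S.Big (g ^ 64) j (w i) := (hC F S hX.ok hX.tr).2 (g ^ 64) j (w i) hwU hJr
  -- B1 fails
  have hex2 : ∃ (l : I) (t : ℕ), j ≤ t + 2 ∧ t ≤ j + 2 ∧ S.Big (g ^ 8) t (z l) := by
    by_contra hcon
    push Not at hcon
    apply hB1w
    exact ⟨fun i : I => z i, hRz, hwz, i, j, hBig, fun l t h1 h2 => hcon l t h1 h2⟩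
  obtain ⟨l, t, h1, h2, h3⟩ := hex2
  have hmem : t ∈ lab0 S g (z l) (w i) := by
    unfold lab0 BL
    rw [Finset.mem_filter, Finset.mem_filter, Finset.mem_range]
    exact ⟨⟨h3.1, h3⟩, j, h2, h1, hj, hM⟩
  rw [(hRank F S g L Q m₂ r M z hX l (w i) (w' i)).2.1 (hlab l)] at hmem
  unfold lab0 at hmem
  obtain ⟨-, s, h4, h5, h6, h7⟩ := Finset.mem_filter.mp hmem
  have := hfar s ⟨h6, Or.inl h7⟩
  omega

end LabUniq

theorem LabUniq_proof (hBase : Stmt_LabBase) (hRank : Stmt_LabRank) (hC : Stmt_JplC) :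
    Stmt_LabUniq := by
  intro F _ S g L Q m₂ r M z hX q hq I hI T T' hT hT' hlab
  classical
  by_contra hne
  obtain ⟨w, hwV, hw, i, hi⟩ := hT
  obtain ⟨w', hw'V, hw', hi'⟩ := (hBase F S g L Q m₂ r M z hX).2.2.2 q I T' hT' i
  subst hi
  subst hi'
  have hVp : ∀ x, x ∈ S.V → x ∈ S.Vp := fun x hx => Finset.mem_insert_of_mem hx
  have hU : ∀ x, x ∈ S.V → x ∈ S.U := fun x hx =>
    Finset.mem_insert_of_mem (hX.tr.toTrC.V_sub hx)
  have hRk : ¬ S.R S.k (w i) (w' i) := fun h =>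
    hne (hX.tr.toTrC.V_eq _ (hVp _ (hwV i)) _ (hVp _ (hw'V i)) h)
  have hex : ∃ n, ¬ S.R n (w i) (w' i) := ⟨S.k, hRk⟩
  have h0 : Nat.find hex ≠ 0 := by
    intro h
    have := Nat.find_spec hex
    rw [h] at this
    exact this (hX.tr.toTrA.root _ (hU _ (hwV i)) _ (hU _ (hw'V i)))
  obtain ⟨j, hj⟩ := Nat.exists_eq_succ_of_ne_zero h0
  have hR' : ¬ S.R (j + 1) (w i) (w' i) := by
    have := Nat.find_spec hex
    rw [hj] at this
    exact this
  have hR : S.R j (w i) (w' i) := by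
    have := Nat.find_min hex (m := j) (by omega)
    exact not_not.mp this
  have hjk : j < S.k := by
    have := Nat.find_min' hex hRk
    omega
  by_cases hM : S.Mn j (w i)
  · have hM' : ¬ S.Mn j (w' i) := fun hM' => hR'
      (hX.tr.toTrB.main j _ (hU _ (hwV i)) _ (hU _ (hw'V i)) hR hM hM')
    exact LabUniq.aux hRank hC hX hq hI w' w hw'V hwV hw' hw i j hjk
      (hX.tr.toTrA.symm _ _ _ hR) (fun h => hR' (hX.tr.toTrA.symm _ _ _ h)) hM'
      (fun l => (hlab l).symm)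
  · exact LabUniq.aux hRank hC hX hq hI w w' hwV hw'V hw hw' i j hjk hR hR' hM hlab

end Pool.Agent.SPD
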