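import Pool.Agent.SPD.Stmts

set_option autoImplicit false

open Finset

namespace Pool.Agent.SPD

namespace Lex

/-- words with small letters have small values -/
theorem tail_lt (N : ℕ) : ∀ (l : ℕ) (u : Fin l → ℕ), (∀ a, u a < N) → wval N u < N ^ l := by
  intro l
  induction l with
  | zero => intro u _; simp [wval]
  | succ l ih =>
    intro u hu
    have h1 : wval N u = u 0 * N ^ l + wval N (fun a : Fin l => u a.succ) := by
      unfold wval
      rw [Fin.sum_univ_succ]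
      congr 1
      apply Finset.sum_congr rfl
      intro a _
      congr 2
      simp only [Fin.val_succ]
      omega
    have h2 := ih (fun a : Fin l => u a.succ) (fun a => hu _)
    have h3 := hu 0
    rw [h1, pow_succ]
    calc u 0 * N ^ l + wval N (fun a : Fin l => u a.succ) < u 0 * N ^ l + N ^ l := by omega
      _ = (u 0 + 1) * N ^ l := by ring
      _ ≤ N * N ^ l := Nat.mul_le_mul_right _ h3
      _ = N ^ l * N := by ring

/-- lexicographic comparison implies comparison of values -/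
theorem lt_of_lex (N : ℕ) : ∀ (l : ℕ) (u w : Fin l → ℕ), (∀ a, u a < N) → ∀ a : Fin l,
    (∀ a' < a, u a' = w a') → u a < w a → wval N u < wval N w := by
  intro l
  induction l with
  | zero => intro u w _ a; exact a.elim0
  | succ l ih =>
    intro u w hu a heq hlt
    have h1 : ∀ u : Fin (l + 1) → ℕ, wval N u = u 0 * N ^ l + wval N (fun a : Fin l => u a.succ) := by
      intro u
      unfold wval
      rw [Fin.sum_univ_succ]
      congr 1
      apply Finset.sum_congr rfl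
      intro a _
      congr 2
      simp only [Fin.val_succ]
      omega
    rw [h1 u, h1 w]
    rcases Fin.eq_zero_or_eq_succ a with rfl | ⟨b, rfl⟩
    · have h2 := tail_lt N l (fun a : Fin l => u a.succ) (fun a => hu _)
      calc u 0 * N ^ l + wval N (fun a : Fin l => u a.succ) < u 0 * N ^ l + N ^ l := by omega
        _ = (u 0 + 1) * N ^ l := by ring
        _ ≤ w 0 * N ^ l := Nat.mul_le_mul_right _ hlt
        _ ≤ _ := Nat.le_add_right _ _
    · have h0 : u 0 = w 0 := heq 0 (Fin.succ_pos b)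
      have h2 := ih (fun a : Fin l => u a.succ) (fun a : Fin l => w a.succ) (fun a => hu _) b
        (fun a' ha' => heq _ (Fin.succ_lt_succ_iff.2 ha')) hlt
      rw [h0]
      omega

/-- comparison of values implies lexicographic comparison -/
theorem lex_of_le (N : ℕ) (l : ℕ) (u w : Fin l → ℕ) (hw : ∀ a, w a < N)
    (h : wval N u ≤ wval N w) : u = w ∨ ∃ a, (∀ a' < a, u a' = w a') ∧ u a < w a := by
  classical
  by_cases he : u = w
  · exact Or.inl he
  right
  have hne : (univ.filter fun a => u a ≠ w a).Nonempty := by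
    by_contra hn
    rw [Finset.not_nonempty_iff_eq_empty, Finset.filter_eq_empty_iff] at hn
    exact he (funext fun a => not_not.1 (hn (mem_univ a)))
  set a := (univ.filter fun a => u a ≠ w a).min' hne with ha
  have h1 : u a ≠ w a := (Finset.mem_filter.1 (Finset.min'_mem _ hne)).2
  have h2 : ∀ a' < a, u a' = w a' := by
    intro a' ha'
    by_contra hn
    have := Finset.min'_le (univ.filter fun a => u a ≠ w a) a' (by simp [hn])
    exact absurd ha' (not_lt.2 this)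
  refine ⟨a, h2, ?_⟩
  rcases lt_or_gt_of_ne h1 with h3 | h3
  · exact h3
  · exfalso
    have := lt_of_lex N l w u hw a (fun a' ha' => (h2 a' ha').symm) h3
    omega

/-- merging the same word along two families of positions -/
noncomputable def mg {l : ℕ} (w : Fin l → ℕ) (ψ₁ ψ₂ : Fin l ↪o Fin (2 * l)) (x : Fin (2 * l)) :
    ℕ :=
  open Classical in
  if h : ∃ a, ψ₁ a = x then w (Classical.choose h)
  else if h : ∃ a, ψ₂ a = x then w (Classical.choose h) else 0

theorem mg_left {l : ℕ} (w : Fin l → ℕ) (ψ₁ ψ₂ : Fin l ↪o Fin (2 * l)) (a : Fin l) :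
    mg w ψ₁ ψ₂ (ψ₁ a) = w a := by
  have h : ∃ b, ψ₁ b = ψ₁ a := ⟨a, rfl⟩
  unfold mg
  rw [dif_pos h]
  congr 1
  exact ψ₁.injective (Classical.choose_spec h)

theorem mg_right {l : ℕ} (w : Fin l → ℕ) (ψ₁ ψ₂ : Fin l ↪o Fin (2 * l))
    (hd : ∀ a a', ψ₁ a ≠ ψ₂ a') (a : Fin l) :
    mg w ψ₁ ψ₂ (ψ₂ a) = w a := by
  have h0 : ¬ ∃ b, ψ₁ b = ψ₂ a := fun ⟨b, hb⟩ => hd b a hb
  have h : ∃ b, ψ₂ b = ψ₂ a := ⟨a, rfl⟩
  unfold mg
  rw [dif_neg h0, dif_pos h]
  congr 1
  exact ψ₂.injective (Classical.choose_spec h)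

theorem cover {l : ℕ} (ψ₁ ψ₂ : Fin l ↪o Fin (2 * l)) (hd : ∀ a a', ψ₁ a ≠ ψ₂ a')
    (x : Fin (2 * l)) : (∃ a, ψ₁ a = x) ∨ ∃ a, ψ₂ a = x := by
  classical
  have h1 : ((univ.map ψ₁.toEmbedding) ∪ (univ.map ψ₂.toEmbedding)) = (univ : Finset (Fin (2 * l))) := by
    apply Finset.eq_univ_of_card
    rw [Finset.card_union_of_disjoint, Finset.card_map, Finset.card_map]
    · simp; ring
    · rw [Finset.disjoint_left]
      intro y hy hy'
      rw [Finset.mem_map] at hy hy'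
      obtain ⟨a, _, ha⟩ := hy
      obtain ⟨a', _, ha'⟩ := hy'
      exact hd a a' (ha.trans ha'.symm)
  have h2 : x ∈ ((univ.map ψ₁.toEmbedding) ∪ (univ.map ψ₂.toEmbedding)) := by
    rw [h1]; exact mem_univ x
  rw [Finset.mem_union, Finset.mem_map, Finset.mem_map] at h2
  rcases h2 with ⟨a, _, ha⟩ | ⟨a, _, ha⟩
  · exact Or.inl ⟨a, ha⟩
  · exact Or.inr ⟨a, ha⟩

/-- replacing both subwords by `w` does not decrease the value -/
theorem replace {l N : ℕ} (w : Fin l → ℕ) (hw : ∀ a, w a < N) (W : Fin (2 * l) → ℕ)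
    (hW : ∀ x, W x < N) (φ₁ φ₂ : Fin l ↪o Fin (2 * l)) (hd : ∀ a a', φ₁ a ≠ φ₂ a')
    (h1 : wval N (fun a => W (φ₁ a)) ≤ wval N w) (h2 : wval N (fun a => W (φ₂ a)) ≤ wval N w)
    (hne : ¬ ((∀ a, W (φ₁ a) = w a) ∧ (∀ a, W (φ₂ a) = w a))) :
    wval N W < wval N (mg w φ₁ φ₂) := by
  have k1 := lex_of_le N l _ w hw h1
  have k2 := lex_of_le N l _ w hw h2
  have g1 := mg_left w φ₁ φ₂
  have g2 := mg_right w φ₁ φ₂ hd
  -- general comparison at a position
  rcases k1 with k1 | ⟨a, ha, ha'⟩ <;> rcases k2 with k2 | ⟨c, hc, hc'⟩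
  · exact absurd ⟨fun a => congrFun k1 a, fun a => congrFun k2 a⟩ hne
  · apply lt_of_lex N (2 * l) _ _ hW (φ₂ c)
    · intro x hx
      rcases cover φ₁ φ₂ hd x with ⟨b, rfl⟩ | ⟨b, rfl⟩
      · rw [g1]; exact congrFun k1 b
      · rw [g2]; exact hc b (φ₂.lt_iff_lt.1 hx)
    · rw [g2]; exact hc'
  · apply lt_of_lex N (2 * l) _ _ hW (φ₁ a)
    · intro x hx
      rcases cover φ₁ φ₂ hd x with ⟨b, rfl⟩ | ⟨b, rfl⟩
      · rw [g1]; exact ha b (φ₁.lt_iff_lt.1 hx)
      · rw [g2]; exact congrFun k2 b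
    · rw [g1]; exact ha'
  · rcases lt_or_gt_of_ne (hd a c) with hlt | hlt
    · apply lt_of_lex N (2 * l) _ _ hW (φ₁ a)
      · intro x hx
        rcases cover φ₁ φ₂ hd x with ⟨b, rfl⟩ | ⟨b, rfl⟩
        · rw [g1]; exact ha b (φ₁.lt_iff_lt.1 hx)
        · rw [g2]; exact hc b (φ₂.lt_iff_lt.1 (hx.trans hlt))
      · rw [g1]; exact ha'
    · apply lt_of_lex N (2 * l) _ _ hW (φ₂ c)
      · intro x hx
        rcases cover φ₁ φ₂ hd x with ⟨b, rfl⟩ | ⟨b, rfl⟩
        · rw [g1]; exact ha b (φ₁.lt_iff_lt.1 (hx.trans hlt))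
        · rw [g2]; exact hc b (φ₂.lt_iff_lt.1 hx)
      · rw [g2]; exact hc'

end Lex

open Pool.Agent.SPD.Lex in
theorem Lex_proof : Stmt_Lex := by
  intro l N w hw
  let α := {p : (Fin l ↪o Fin (2 * l)) × (Fin l ↪o Fin (2 * l)) // ∀ a a', p.1 a ≠ p.2 a'}
  have : Finite (Fin l ↪o Fin (2 * l)) :=
    Finite.of_injective (fun f => (f : Fin l → Fin (2 * l))) DFunLike.coe_injective
  have : Finite α := Subtype.finite
  have : Nonempty α := by
    let f1 : Fin l ↪o Fin (2 * l) := OrderEmbedding.ofStrictMono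
      (fun a => ⟨a, by omega⟩) (fun a b h => by rw [Fin.lt_def] at h ⊢; exact h)
    let f2 : Fin l ↪o Fin (2 * l) := OrderEmbedding.ofStrictMono
      (fun a => ⟨l + a, by omega⟩)
      (fun a b h => by rw [Fin.lt_def] at h ⊢; exact Nat.add_lt_add_left h l)
    refine ⟨⟨(f1, f2), ?_⟩⟩
    intro a a' h
    have h' := congrArg Fin.val h
    have e1 : ((f1 a : Fin (2 * l)) : ℕ) = a := rfl
    have e2 : ((f2 a' : Fin (2 * l)) : ℕ) = l + a' := rfl
    rw [e1, e2] at h'
    omega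
  obtain ⟨p, hp⟩ := Finite.exists_max (fun p : α => wval N (mg w p.1.1 p.1.2))
  refine ⟨p.1.1, p.1.2, p.2, ?_⟩
  intro W h1 h2 φ₁ φ₂ hd k1 k2
  have hWe : W = mg w p.1.1 p.1.2 := by
    funext x
    rcases cover p.1.1 p.1.2 p.2 x with ⟨b, rfl⟩ | ⟨b, rfl⟩
    · rw [h1, mg_left]
    · rw [h2, mg_right w _ _ p.2]
  have hW : ∀ x, W x < N := by
    intro x
    rcases cover p.1.1 p.1.2 p.2 x with ⟨b, rfl⟩ | ⟨b, rfl⟩
    · rw [h1]; exact (hw b).2
    · rw [h2]; exact (hw b).2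
  by_contra hne
  have h3 := replace w (fun a => (hw a).2) W hW φ₁ φ₂ hd k1 k2 hne
  have h4 := hp ⟨(φ₁, φ₂), hd⟩
  simp only at h4
  rw [hWe] at h3
  omega

end Pool.Agent.SPD
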