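import Pool.Agent.SPD.Stmts1

/-!
SPD, module Ok0: the structural axioms of the data.
-/

set_option autoImplicit false

open Finset

namespace Pool.Agent.SPD

theorem ok0_proof (hEEs : Stmt_EEs) : Stmt_Ok0 := by
  intro p N lam E m₁ b P K k G hPar hk hkK
  have hbig := hPar.big
  have hK10 := hPar.hK
  -- sizes
  have hKb : K + 2 + lam ≤ b := by
    have h1 : 1 ≤ (lam + 1) ^ 2 := Nat.one_le_pow _ _ (Nat.succ_pos _)
    have h2 : lam + 1 ≤ (lam + 1) ^ 2 := by nlinarith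
    have h3 : K + 2 ≤ (K + 2) ^ 2 := by nlinarith
    have h4 : (K + 2) * (lam + 1) ≤ (K + 2) ^ 2 * (lam + 1) ^ 2 := Nat.mul_le_mul h3 h2
    have h5 : (K + 2) ^ 2 * (lam + 1) ^ 2 ≤ 10 * (K + 2) ^ 2 * (lam + 1) ^ 2 * (E + 1) := by
      have : (K + 2) ^ 2 * (lam + 1) ^ 2 * 1 ≤ (K + 2) ^ 2 * (lam + 1) ^ 2 * (10 * (E + 1)) :=
        Nat.mul_le_mul_left _ (by omega)
      calc (K + 2) ^ 2 * (lam + 1) ^ 2 = (K + 2) ^ 2 * (lam + 1) ^ 2 * 1 := by ring
        _ ≤ (K + 2) ^ 2 * (lam + 1) ^ 2 * (10 * (E + 1)) := this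
        _ = _ := by ring
    have h6 : K + 2 + lam ≤ (K + 2) * (lam + 1) := by nlinarith
    omega
  have hb1 : 1 ≤ b := by omega
  have hP1 : 1 ≤ P := le_trans (Nat.one_le_pow _ _ hb1) hPar.hP
  set J := jm G P ((b : ℤ) ^ 3 * P) with hJ
  obtain ⟨e1, e2, e3, e4, e5, -, -⟩ := hEEs p G J b P hb1 hP1
  have hsub : vis G J b P k ⊆ J := by
    classical
    unfold vis
    exact Finset.filter_subset _ _
  have hJmem : ∀ v ∈ J, (P : ℤ) < v ∧ v ≤ (b : ℤ) ^ 3 * P ∧ G v ≠ G (v - 1) := by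
    intro v hv
    rw [hJ, jm, Finset.mem_filter, Finset.mem_Ioc] at hv
    exact ⟨hv.1.1, hv.1.2, hv.2⟩
  have hbN : (b : ℤ) ^ 3 * P < N := by
    have h1 : b ^ 3 * P ≤ b ^ (3 * K) * P :=
      Nat.mul_le_mul_right _ (Nat.pow_le_pow_right hb1 (by omega))
    have h2 := hPar.hN
    have h3 : b ^ 3 * P < N := lt_of_le_of_lt h1 h2
    exact_mod_cast h3
  have hcard : J.card ≤ b ^ 2 := by
    have h1 : J.card ≤ lam := by
      refine le_trans (Finset.card_le_card ?_) hPar.hyp.jmp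
      intro v hv
      obtain ⟨h2, h3, h4⟩ := hJmem v hv
      rw [Finset.mem_filter, Finset.mem_Ico]
      refine ⟨⟨?_, ?_⟩, h4⟩
      · have : (0 : ℤ) ≤ P := by positivity
        omega
      · omega
    have h2 : b ≤ b ^ 2 := by nlinarith
    omega
  refine ⟨hk, ?_, hP1, e1, e2, ?_, ?_, ?_, ?_, ?_⟩
  · show k ≤ b
    omega
  · exact e5 k
  · intro v hv
    obtain ⟨h2, h3, h4⟩ := hJmem v (hsub hv)
    by_contra hc
    push Not at hc
    exact h4 (hPar.gap v h2 (le_of_lt hc))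
  · intro v hv
    exact (hJmem v (hsub hv)).2.1
  · intro s v _ v' _ h
    exact e3 hcard s v v' h
  · intro s v hv v' hv' h
    exact e4 s v (hsub hv) v' (hsub hv') h

end Pool.Agent.SPD
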