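import Pool.Agent.SPD.Stmts1

set_option autoImplicit false

/-!
# SPD module OkDat: the axioms hold for the data of the digits
-/

open Finset

namespace Pool.Agent.SPD

namespace OkDat

lemma pow_mono_mul {b k K P : ℕ} (hb : 1 ≤ b) (h : k ≤ K) :
    b ^ (3 * k) * P ≤ b ^ (3 * K) * P :=
  Nat.mul_le_mul_right _ (Nat.pow_le_pow_right hb (by omega))

section

variable {p N lam E m₁ b P K : ℕ} {G : ℤ → ZMod p}

lemma b_pos (h : Par G N lam E m₁ b P K) : 1 ≤ b := by
  rw [h.hb]
  exact Nat.one_le_pow _ _ h.prime.pos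

lemma b_ge (h : Par G N lam E m₁ b P K) : 10 ≤ b := by
  have h1 := h.big
  have h2 : 1 ≤ (K + 2) ^ 2 := Nat.one_le_pow _ _ (by omega)
  have h3 : 1 ≤ (lam + 1) ^ 2 := Nat.one_le_pow _ _ (by omega)
  have h4 : 10 * 1 * 1 * 1 ≤ 10 * (K + 2) ^ 2 * (lam + 1) ^ 2 * (E + 1) :=
    Nat.mul_le_mul (Nat.mul_le_mul (Nat.mul_le_mul_left _ h2) h3) (by omega)
  omega

lemma lt_N (h : Par G N lam E m₁ b P K) {k : ℕ} (hk : k ≤ K) : b ^ (3 * k) * P < N :=
  lt_of_le_of_lt (pow_mono_mul (b_pos h) hk) h.hN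

lemma jm_card (h : Par G N lam E m₁ b P K) {a c : ℤ} (ha : -1 ≤ a) (hc : c < N) :
    (jm G a c).card ≤ lam := by
  refine le_trans (Finset.card_le_card ?_) h.hyp.jmp
  intro x hx
  rw [jm, Finset.mem_filter, Finset.mem_Ioc] at hx
  rw [Finset.mem_filter, Finset.mem_Ico]
  exact ⟨⟨by omega, by omega⟩, hx.2⟩

end

end OkDat

open OkDat in
open Classical in
/-- module OkDat -/
theorem OkDat_proof (h0 : Stmt_Ok0) (hA : Stmt_TreeA) (hC : Stmt_TreeC) (hN : Stmt_GoodN)
    (hR : Stmt_Rel1) : Stmt_OkDat := by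
  intro p N lam E m₁ b P K k G _ hPar hk10 hkK
  have hb := b_ge hPar
  have hb1 : (1 : ℤ) ≤ b := by omega
  have ok0 := h0 p N lam E m₁ b P K k G hPar hk10 hkK
  have trA := hA (ZMod p) (dat G k b P) ok0
  have trC := hC (ZMod p) (dat G k b P) ok0 trA
  have hNk : ((b : ℤ) ^ (3 * k) * P) < N := by exact_mod_cast lt_N hPar hkK
  have hN1 : ((b : ℤ) ^ 3 * P) < N := by
    have := lt_N hPar (show 1 ≤ K by omega)
    simpa using (by exact_mod_cast this : ((b : ℤ) ^ (3 * 1) * P) < N)
  have hP1 : 1 ≤ P := ok0.P_pos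
  -- the shifts
  set Sh : Finset ℤ := jm G (-1) ((b : ℤ) ^ (3 * k) * P) ∪ (dat G k b P).Vp.image (dat G k b P).X
    with hSh
  have hV0 : (dat G k b P).V0.card ≤ lam := by
    refine le_trans (Finset.card_le_card ?_) (jm_card (a := P) (c := (b : ℤ) ^ 3 * P) hPar
      (by omega) hN1)
    exact Finset.filter_subset _ _
  have hShc : Sh.card ≤ (k + 1) * lam + 1 := by
    have h1 := jm_card (a := -1) (c := (b : ℤ) ^ (3 * k) * P) hPar le_rfl hNk
    have h2 : (dat G k b P).Uh.card = k * (dat G k b P).V0.card := by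
      rw [Dat.Uh, Finset.card_product]
      simp [dat]
    have h3 : (dat G k b P).Vp.card ≤ k * lam + 1 := by
      calc (dat G k b P).Vp.card ≤ (dat G k b P).V.card + 1 := Finset.card_insert_le _ _
        _ ≤ (dat G k b P).Uh.card + 1 := by
          have := Finset.card_le_card trC.V_sub
          omega
        _ ≤ k * lam + 1 := by
          rw [h2]
          have := Nat.mul_le_mul_left k hV0
          omega
    have h4 : Sh.card ≤ (jm G (-1) ((b : ℤ) ^ (3 * k) * P)).card +
        ((dat G k b P).Vp.image (dat G k b P).X).card := Finset.card_union_le _ _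
    have h5 : ((dat G k b P).Vp.image (dat G k b P).X).card ≤ (dat G k b P).Vp.card :=
      Finset.card_image_le
    calc Sh.card ≤ lam + (k * lam + 1) := by omega
      _ = (k + 1) * lam + 1 := by ring
  -- good places
  have good : ∀ a : ℤ, 0 ≤ a → a + b * P ≤ (b : ℤ) ^ (3 * k) * P → ∃ n, a ≤ n ∧ n ≤ a + b * P ∧
      ∑ q ∈ ((dat G k b P).Vp ×ˢ (dat G k b P).Vp).filter
        (fun q => (dat G k b P).X q.1 + (dat G k b P).X q.2 ≤ n),
        (dat G k b P).cw q.1 * (dat G k b P).cw q.2 = 2 := by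
    intro a ha hab
    obtain ⟨n, h1, h2, h3, h4⟩ := hN p N lam E m₁ b P K k G hPar hk10 hkK a ha (by omega) Sh hShc
    refine ⟨n, h1, h2, hR p N lam E m₁ b P K k G hPar hk10 hkK n (by omega) (by omega) h3 ?_ ?_⟩
    · intro i hi
      exact h4 i (Finset.mem_union_left _ hi)
    · intro x hx
      exact h4 _ (Finset.mem_union_right _ (Finset.mem_image_of_mem _ hx))
  have hbP : ∀ j : ℕ, (b : ℤ) * P * 100 ≤ (b : ℤ) ^ (3 * (j + 1)) * P := by
    intro j
    have h1 : b * 100 ≤ b ^ (3 * (j + 1)) := by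
      calc b * 100 ≤ b * b ^ 2 := by
            refine Nat.mul_le_mul_left _ ?_
            nlinarith
        _ = b ^ 3 := by ring
        _ ≤ b ^ (3 * (j + 1)) := Nat.pow_le_pow_right (by omega) (by omega)
    have h2 : b * 100 * P ≤ b ^ (3 * (j + 1)) * P := Nat.mul_le_mul_right _ h1
    have h3 : ((b * 100 * P : ℕ) : ℤ) ≤ ((b ^ (3 * (j + 1)) * P : ℕ) : ℤ) := by exact_mod_cast h2
    push_cast at h3
    linarith
  have hbP0 : (0 : ℤ) < b * P := by positivity
  refine { ok0 with ne := ?_, rel := ?_ }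
  · -- nonempty
    by_contra hne
    rw [Finset.not_nonempty_iff_eq_empty] at hne
    have hU : (dat G k b P).Uh = ∅ := by
      rw [Dat.Uh, hne, Finset.product_empty]
    have hV : (dat G k b P).V = ∅ := by
      have := trC.V_sub
      rw [hU] at this
      exact Finset.subset_empty.mp this
    have hVp : (dat G k b P).Vp = {(dat G k b P).zero} := by
      rw [Dat.Vp, hV]
      rfl
    obtain ⟨n, h1, h2, h3⟩ := good 0 le_rfl (by
      have := hbP (k - 1)
      rw [show k - 1 + 1 = k by omega] at this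
      linarith)
    have hX : (dat G k b P).X (dat G k b P).zero = 0 := by
      simp [Dat.X, Dat.zero]
    have hcw : (dat G k b P).cw (dat G k b P).zero = G P := by
      unfold Dat.cw
      rw [if_pos (by rfl)]
      rfl
    rw [hVp, Finset.singleton_product_singleton, Finset.filter_singleton, if_pos (by
      rw [hX]; linarith), Finset.sum_singleton, hcw] at h3
    exact hPar.nsq ⟨G P, h3.symm⟩
  · -- relation
    intro σ hσ1 hσ2
    have hD0 : (dat G k b P).D 0 = (b : ℤ) ^ (3 * k) * P := by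
      simp [Dat.D, dat]
    have hDk : (dat G k b P).D ((dat G k b P).k - 2) = (b : ℤ) ^ (3 * 2) * P := by
      have : (dat G k b P).k - ((dat G k b P).k - 2) = 2 := by
        have : (dat G k b P).k = k := rfl
        omega
      unfold Dat.D
      rw [this]
      rfl
    have hbb : (dat G k b P).b = b := rfl
    have hPP : (dat G k b P).P = P := rfl
    rw [hD0, hbb, hPP] at hσ2
    rw [hDk] at hσ1
    rw [hbb, hPP]
    have h1 := hbP 1
    obtain ⟨n₁, a1, a2, a3⟩ := good (σ - 2 * b * P) (by linarith) (by linarith)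
    obtain ⟨n₂, b1, b2, b3⟩ := good (σ + b * P) (by linarith) (by linarith)
    refine ⟨n₁, n₂, a1, by linarith, b1, by linarith, ?_⟩
    have hsplit : ∑ q ∈ ((dat G k b P).Vp ×ˢ (dat G k b P).Vp).filter
        (fun q => (dat G k b P).X q.1 + (dat G k b P).X q.2 ≤ n₂),
        (dat G k b P).cw q.1 * (dat G k b P).cw q.2 =
        ∑ q ∈ ((dat G k b P).Vp ×ˢ (dat G k b P).Vp).filter
        (fun q => (dat G k b P).X q.1 + (dat G k b P).X q.2 ≤ n₁),
        (dat G k b P).cw q.1 * (dat G k b P).cw q.2 +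
        ∑ q ∈ ((dat G k b P).Vp ×ˢ (dat G k b P).Vp).filter
        (fun q => n₁ < (dat G k b P).X q.1 + (dat G k b P).X q.2 ∧
          (dat G k b P).X q.1 + (dat G k b P).X q.2 ≤ n₂),
        (dat G k b P).cw q.1 * (dat G k b P).cw q.2 := by
      rw [← Finset.sum_union]
      · congr 1
        ext q
        simp only [Finset.mem_union, Finset.mem_filter]
        constructor
        · rintro ⟨h, h'⟩
          rcases le_or_gt ((dat G k b P).X q.1 + (dat G k b P).X q.2) n₁ with h2 | h2
          · exact Or.inl ⟨h, h2⟩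
          · exact Or.inr ⟨h, h2, h'⟩
        · rintro (⟨h, h'⟩ | ⟨h, h', h''⟩)
          · exact ⟨h, by linarith⟩
          · exact ⟨h, h''⟩
      · rw [Finset.disjoint_left]
        intro q hq hq'
        rw [Finset.mem_filter] at hq hq'
        have := hq.2
        have := hq'.2.1
        omega
    rw [a3, b3] at hsplit
    have := (add_eq_left (a := (2 : ZMod p))).mp hsplit.symm
    exact this

end Pool.Agent.SPD
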