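import Pool.Agent.SPD.Stmts

set_option autoImplicit false

/-!
Module `Opt`: the number of clusters reached near a given tree path by steps which are not big.
-/

open Finset

namespace Pool.Agent.SPD

namespace Opt

variable {F : Type} [Field F] {S : Dat F}

open Classical in
/-- the number of clusters at time `t + s` below the cluster of `z` at time `t` which are reached
through children that are main or not big -/
theorem reach (hT : Tr S) {H : ℕ} (hH : 2 ≤ H) {z : ℕ × ℤ} (hz : z ∈ S.U) (t : ℕ) :
    ∀ s : ℕ, t + s ≤ S.k → ∀ Y : Finset (ℕ × ℤ),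
    (∀ y ∈ Y, ∃ x ∈ S.Uh, S.R t x z ∧ (∀ t', t ≤ t' → t' < t + s → ¬ S.Big H t' x) ∧
      y = S.cenU (t + s) x) → Y.card ≤ (H + 1) ^ s := by
  intro s
  have hU : ∀ x ∈ S.Uh, x ∈ S.U := fun x hx => by
    unfold Dat.U
    exact mem_insert_of_mem hx
  induction s with
  | zero =>
    intro hk Y hY
    rw [pow_zero, Finset.card_le_one]
    intro a ha b hb
    obtain ⟨x, hx, hxz, -, rfl⟩ := hY a ha
    obtain ⟨x', hx', hxz', -, rfl⟩ := hY b hb
    simp only [add_zero] at hk ⊢
    rw [hT.cen_eq t hk x (hU x hx) z hz hxz, hT.cen_eq t hk x' (hU x' hx') z hz hxz']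
  | succ s ih =>
    intro hk Y hY
    set τ := t + s with hτ
    choose! x hx hxz hxb hxy using hY
    have hk' : τ < S.k := by omega
    -- the images at time `τ`
    have h1 : (Y.image (fun y => S.cenU τ (x y))).card ≤ (H + 1) ^ s := by
      apply ih (by omega)
      intro y' hy'
      obtain ⟨y, hy, rfl⟩ := mem_image.1 hy'
      exact ⟨x y, hx y hy, hxz y hy, fun t' h1 h2 => hxb y hy t' h1 (by omega), rfl⟩
    have h2 : Y.card ≤ (H + 1) * (Y.image (fun y => S.cenU τ (x y))).card := by
      apply Finset.card_le_mul_card_image_of_maps_to (f := fun y => S.cenU τ (x y))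
      · intro y hy
        exact mem_image_of_mem _ hy
      · intro y' _
        set W := Y.filter (fun y => S.cenU τ (x y) = y') with hW
        -- all points are in the same cluster at time `τ`
        have hR : ∀ a ∈ W, ∀ b ∈ W, S.R τ (x a) (x b) := by
          intro a ha b hb
          rw [hW, mem_filter] at ha hb
          have e1 := hT.cen_R τ hk'.le (x a) (hU _ (hx a ha.1))
          have e2 := hT.cen_R τ hk'.le (x b) (hU _ (hx b hb.1))
          rw [ha.2] at e1
          rw [hb.2] at e2
          exact hT.trans _ _ _ _ e1 (hT.symm _ _ _ e2)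
        -- different elements are in different clusters at time `τ + 1`
        have hne : ∀ a ∈ W, ∀ b ∈ W, S.R (τ + 1) (x a) (x b) → a = b := by
          intro a ha b hb hab
          rw [hW, mem_filter] at ha hb
          rw [hxy a ha.1, hxy b hb.1]
          exact hT.cen_eq (t + (s + 1)) hk _ (hU _ (hx a ha.1)) _ (hU _ (hx b hb.1)) hab
        -- split
        have hsplit : W.card = (W.filter (fun y => S.Mn τ (x y))).card +
            (W.filter (fun y => ¬ S.Mn τ (x y))).card :=
          (Finset.card_filter_add_card_filter_not _).symm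
        have hmain : (W.filter (fun y => S.Mn τ (x y))).card ≤ 1 := by
          rw [Finset.card_le_one]
          intro a ha b hb
          rw [mem_filter] at ha hb
          have ha' := ha.1
          have hb' := hb.1
          rw [hW, mem_filter] at ha' hb'
          exact hne a ha.1 b hb.1 (hT.main τ _ (hU _ (hx a ha'.1)) _ (hU _ (hx b hb'.1))
            (hR a ha.1 b hb.1) ha.2 hb.2)
        have hnon : (W.filter (fun y => ¬ S.Mn τ (x y))).card ≤ H := by
          set N := W.filter (fun y => ¬ S.Mn τ (x y)) with hN
          rcases N.eq_empty_or_nonempty with h0 | ⟨a, ha⟩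
          · rw [h0]
            simp
          · have haW : a ∈ W := (mem_filter.1 (hN ▸ ha)).1
            have hbig : ∀ b ∈ N, S.nn τ (x a) < H * S.nn (τ + 1) (x b) := by
              intro b hb
              have hbW : b ∈ W := (mem_filter.1 (hN ▸ hb)).1
              have hbM : ¬ S.Mn τ (x b) := by
                rw [hN, mem_filter] at hb
                exact hb.2
              have hbY : b ∈ Y := (mem_filter.1 (hW ▸ hbW)).1
              have h3 := hxb b hbY τ (by omega) (by omega)
              rw [hT.nnR τ _ _ (hR a haW b hbW)]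
              by_contra hcon
              push Not at hcon
              exact h3 ⟨hk', hbM, hcon⟩
            -- the clusters are disjoint
            have hdisj : ∑ b ∈ N, S.nn (τ + 1) (x b) ≤ S.nn τ (x a) := by
              unfold Dat.nn
              rw [← Finset.card_biUnion]
              · apply Finset.card_le_card
                intro u hu
                rw [mem_biUnion] at hu
                obtain ⟨b, hb, hu⟩ := hu
                rw [mem_filter] at hu ⊢
                have hbW : b ∈ W := (mem_filter.1 (hN ▸ hb)).1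
                refine ⟨hu.1, hT.trans _ _ _ _ (hR a haW b hbW)
                  (hT.mono τ (τ + 1) _ _ (by omega) hu.2)⟩
              · intro b hb b' hb' hbb'
                rw [Function.onFun, Finset.disjoint_left]
                intro u hu hu'
                rw [mem_filter] at hu hu'
                apply hbb'
                have hbW : b ∈ W := (mem_filter.1 (hN ▸ hb)).1
                have hbW' : b' ∈ W := (mem_filter.1 (hN ▸ hb')).1
                exact hne b hbW b' hbW' (hT.trans _ _ _ _ hu.2 (hT.symm _ _ _ hu'.2))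
            have h4 : N.card * (S.nn τ (x a) + 1) ≤ H * S.nn τ (x a) := by
              calc N.card * (S.nn τ (x a) + 1) = ∑ b ∈ N, (S.nn τ (x a) + 1) := by
                    rw [sum_const, smul_eq_mul]
                _ ≤ ∑ b ∈ N, H * S.nn (τ + 1) (x b) := sum_le_sum fun b hb => hbig b hb
                _ = H * ∑ b ∈ N, S.nn (τ + 1) (x b) := by rw [mul_sum]
                _ ≤ H * S.nn τ (x a) := Nat.mul_le_mul_left _ hdisj
            by_contra hcon
            push Not at hcon
            have h5 : (H + 1) * (S.nn τ (x a) + 1) ≤ H * S.nn τ (x a) :=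
              (Nat.mul_le_mul_right _ hcon).trans h4
            nlinarith
        omega
    calc Y.card ≤ (H + 1) * (Y.image (fun y => S.cenU τ (x y))).card := h2
      _ ≤ (H + 1) * (H + 1) ^ s := Nat.mul_le_mul_left _ h1
      _ = (H + 1) ^ (s + 1) := by ring

open Classical in
/-- number of times `t < k` which are special for `z` -/
theorem times (hO : Ok S) (hT : Tr S) (hA : Stmt_JplA) {H : ℕ} (hH : 2 ≤ H) {z : ℕ × ℤ}
    (hz : z ∈ S.U) :
    ((range S.k).filter (fun t => S.nn t z < H * S.nm t z)).card ≤ 2 * H * ll S := by
  have hll : 2 ≤ ll S := by unfold ll; omega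
  rcases mem_insert.1 (show z ∈ insert S.zero S.Uh from hz) with h | h
  · subst h
    have hV : 0 < S.V0.card := hO.ne.card_pos
    have : (range S.k).filter (fun t => S.nn t S.zero < H * S.nm t S.zero) ⊆
        Finset.Icc (S.k - H) (S.k - 1) := by
      intro t ht
      rw [mem_filter, mem_range] at ht
      obtain ⟨h1, h2⟩ := ht
      rw [hT.zero_nn t h1.le, hT.zero_nm t h1] at h2
      have h3 : S.k - t < H := lt_of_mul_lt_mul_right h2 (Nat.zero_le _)
      rw [mem_Icc]
      omega
    calc _ ≤ (Finset.Icc (S.k - H) (S.k - 1)).card := card_le_card this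
      _ ≤ H + 1 := by rw [Nat.card_Icc]; omega
      _ ≤ 2 * H * ll S := by nlinarith
  · refine le_trans (card_le_card ?_) (hA F S hO hT H hH z h)
    intro t ht
    rw [mem_filter, mem_range] at ht ⊢
    exact ⟨ht.1, ht.1, Or.inr ht.2.le⟩

end Opt

open Classical in
theorem Opt_proof (hA : Stmt_JplA) : Stmt_Opt := by
  intro F _ S hO hT H hH z hz K hK
  have hU : ∀ x ∈ S.Uh, x ∈ S.U := fun x hx => by
    unfold Dat.U
    exact mem_insert_of_mem hx
  choose! x hx t hxz hnm hjt htj hjk hb hy using hK
  have ht : ∀ q ∈ K, t q ∈ (range S.k).filter (fun t => S.nn t z < H * S.nm t z) := by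
    intro q hq
    have h1 : t q < S.k := by have := htj q hq; have := hjk q hq; omega
    rw [mem_filter, mem_range]
    refine ⟨h1, ?_⟩
    rw [← hT.nnR _ _ _ (hxz q hq), ← hT.nmR _ _ _ (hxz q hq)]
    have h2 : ¬ S.Big H (t q) (x q) := hb q hq (t q) le_rfl (htj q hq)
    have h3 : S.nn (t q) (x q) < H * S.nn (t q + 1) (x q) := by
      by_contra hcon
      push Not at hcon
      exact h2 ⟨h1, hnm q hq, hcon⟩
    have h4 := hT.nn_dep (t q) (x q) (hU _ (hx q hq)) (hnm q hq)
    exact h3.trans_le (Nat.mul_le_mul_left _ h4)
  -- first the pairs `(t, j)`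
  set P : Finset (ℕ × ℕ) := K.image (fun q => (t q, q.1)) with hP
  have hPcard : P.card ≤ 5 * (2 * H * ll S) := by
    have h1 : P.card ≤ 5 * (P.image Prod.fst).card := by
      apply Finset.card_le_mul_card_image
      intro t₀ _
      have : P.filter (fun p => p.1 = t₀) ⊆ {t₀} ×ˢ Finset.Icc (t₀ - 2) (t₀ + 2) := by
        intro p hp
        rw [mem_filter, hP, mem_image] at hp
        obtain ⟨⟨q, hq, rfl⟩, h2⟩ := hp
        simp only at h2
        rw [mem_product, mem_singleton, mem_Icc]
        have := htj q hq
        have := hjt q hq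
        simp only
        refine ⟨h2, ?_, ?_⟩ <;> omega
      refine (card_le_card this).trans ?_
      rw [card_product, card_singleton, Nat.card_Icc]
      omega
    have h2 : (P.image Prod.fst) ⊆
        (range S.k).filter (fun t => S.nn t z < H * S.nm t z) := by
      intro t₀ ht₀
      rw [hP, image_image, mem_image] at ht₀
      obtain ⟨q, hq, rfl⟩ := ht₀
      exact ht q hq
    have h3 := (card_le_card h2).trans (Opt.times hO hT hA hH hz)
    calc P.card ≤ 5 * (P.image Prod.fst).card := h1
      _ ≤ 5 * (2 * H * ll S) := Nat.mul_le_mul_left _ h3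
  have hKcard : K.card ≤ (H + 1) ^ 5 * P.card := by
    apply Finset.card_le_mul_card_image_of_maps_to (f := fun q => (t q, q.1))
    · intro q hq
      exact mem_image_of_mem _ hq
    · rintro ⟨t₀, j₀⟩ _
      set W := K.filter (fun q => (t q, q.1) = (t₀, j₀)) with hW
      rcases W.eq_empty_or_nonempty with h0 | ⟨q₀, hq₀⟩
      · rw [h0]
        simp
      · rw [hW, mem_filter] at hq₀
        obtain ⟨hq₀K, hq₀e⟩ := hq₀
        have e1 : t q₀ = t₀ := (Prod.mk.inj hq₀e).1
        have e2 : q₀.1 = j₀ := (Prod.mk.inj hq₀e).2
        have h1 := hjt q₀ hq₀K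
        have h2 := htj q₀ hq₀K
        have h3 := hjk q₀ hq₀K
        obtain ⟨s, hs⟩ : ∃ s, j₀ + 3 = t₀ + s := ⟨j₀ + 3 - t₀, by omega⟩
        have hs5 : s ≤ 5 := by omega
        have hcard : W.card = (W.image Prod.snd).card := by
          rw [Finset.card_image_of_injOn]
          intro a ha b hb hab
          rw [hW, mem_coe, mem_filter] at ha hb
          have := (Prod.mk.inj ha.2).2
          have := (Prod.mk.inj hb.2).2
          exact Prod.ext (by omega) hab
        rw [hcard]
        have := Opt.reach hT hH hz t₀ s (by omega) (W.image Prod.snd) (by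
          intro y hy'
          obtain ⟨q, hq, rfl⟩ := mem_image.1 hy'
          rw [hW, mem_filter] at hq
          obtain ⟨hqK, hqe⟩ := hq
          have f1 : t q = t₀ := (Prod.mk.inj hqe).1
          have f2 : q.1 = j₀ := (Prod.mk.inj hqe).2
          refine ⟨x q, hx q hqK, f1 ▸ hxz q hqK, ?_, ?_⟩
          · intro t' h5 h6
            exact hb q hqK t' (by omega) (by omega)
          · rw [hy q hqK, f2, hs])
        refine this.trans ?_
        exact Nat.pow_le_pow_right (by omega) hs5
  calc K.card ≤ (H + 1) ^ 5 * P.card := hKcard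
    _ ≤ (H + 1) ^ 5 * (5 * (2 * H * ll S)) := Nat.mul_le_mul_left _ hPcard
    _ ≤ (2 * H) ^ 5 * (5 * (2 * H * ll S)) := by
        apply Nat.mul_le_mul_right
        apply Nat.pow_le_pow_left
        omega
    _ = 320 * ll S * H ^ 6 := by ring
    _ ≤ 640 * ll S * H ^ 6 := by
        apply Nat.mul_le_mul_right
        omega

end Pool.Agent.SPD
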