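import Pool.Agent.SPD.Stmts

set_option autoImplicit false

open Finset

namespace Pool.Agent.SPD

open Classical in
theorem Pick_proof : Stmt_Pick := by
  intro M m C₀
  refine ⟨2 ^ M * (C₀ + 1) ^ M + 1, by omega, ?_⟩
  intro α V Z B P hZV hZ hB hP
  set N := 2 ^ M * (C₀ + 1) ^ M + 1 with hN
  have hZ0 : 0 < Z.card := Finset.card_pos.2 hZ
  let all : Finset (Fin M → α) := Fintype.piFinset (fun _ => Z)
  have hall : all.card = Z.card ^ M := by
    simp [all, Fintype.card_piFinset]
  let bd : Finset (Fin M) → Finset (Fin M → α) := fun I =>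
    all.filter (fun z => ¬ P I (fun i => z i))
  by_contra hcon
  push Not at hcon
  have hcov : all ⊆ (univ.filter (fun I : Finset (Fin M) => I.card ≤ m)).biUnion bd := by
    intro z hz
    obtain ⟨I, hI, hPI⟩ := hcon z (fun i => (Fintype.mem_piFinset.1 hz) i)
    exact Finset.mem_biUnion.2 ⟨I, by simp [hI], Finset.mem_filter.2 ⟨hz, hPI⟩⟩
  have hbd : ∀ I : Finset (Fin M), I.card ≤ m →
      (bd I).card * N ≤ (C₀ + 1) ^ M * Z.card ^ M := by
    intro I hI
    have h1 : (bd I).card ≤ (((Fintype.piFinset (fun _ : I => V)).filter (fun z => ¬ P I z)) ×ˢ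
        (Fintype.piFinset (fun _ : {i // i ∉ I} => Z))).card := by
      apply Finset.card_le_card_of_injOn (fun z => (fun i : I => z i, fun i : {i // i ∉ I} => z i))
      · intro z hz
        have hz' := Finset.mem_filter.1 hz
        have hz1 := Fintype.mem_piFinset.1 hz'.1
        rw [Finset.mem_coe, Finset.mem_product, Finset.mem_filter, Fintype.mem_piFinset,
          Fintype.mem_piFinset]
        exact ⟨⟨fun i => hZV (hz1 _), hz'.2⟩, fun i => hz1 _⟩
      · intro z _ z' _ he
        funext i
        rw [Prod.mk.injEq] at he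
        by_cases hi : i ∈ I
        · exact congrFun he.1 ⟨i, hi⟩
        · exact congrFun he.2 ⟨i, hi⟩
    have h2 : (Fintype.piFinset (fun _ : {i // i ∉ I} => Z)).card = Z.card ^ (M - I.card) := by
      rw [Fintype.card_piFinset, Finset.prod_const, Finset.card_univ]
      congr 1
      rw [Fintype.card_subtype_compl]
      simp
    rw [Finset.card_product, h2] at h1
    have h3 := hP I hI
    have hIM : I.card ≤ M := by
      have := Finset.card_le_univ I
      simpa using this
    calc (bd I).card * N ≤ (((Fintype.piFinset (fun _ : I => V)).filter (fun z => ¬ P I z)).card *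
          Z.card ^ (M - I.card)) * N := Nat.mul_le_mul_right _ h1
      _ = (((Fintype.piFinset (fun _ : I => V)).filter (fun z => ¬ P I z)).card * N) *
          Z.card ^ (M - I.card) := by ring
      _ ≤ B ^ I.card * Z.card ^ (M - I.card) := Nat.mul_le_mul_right _ h3
      _ ≤ (C₀ * Z.card) ^ I.card * Z.card ^ (M - I.card) :=
          Nat.mul_le_mul_right _ (Nat.pow_le_pow_left hB _)
      _ = C₀ ^ I.card * (Z.card ^ I.card * Z.card ^ (M - I.card)) := by rw [mul_pow]; ring
      _ = C₀ ^ I.card * Z.card ^ M := by rw [← pow_add, Nat.add_sub_cancel' hIM]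
      _ ≤ (C₀ + 1) ^ M * Z.card ^ M := by
          apply Nat.mul_le_mul_right
          calc C₀ ^ I.card ≤ (C₀ + 1) ^ I.card := Nat.pow_le_pow_left (by omega) _
            _ ≤ (C₀ + 1) ^ M := Nat.pow_le_pow_right (by omega) hIM
  have h4 : all.card * N ≤ 2 ^ M * ((C₀ + 1) ^ M * Z.card ^ M) := by
    calc all.card * N ≤ (∑ I ∈ univ.filter (fun I : Finset (Fin M) => I.card ≤ m), (bd I).card) * N :=
          Nat.mul_le_mul_right _ ((Finset.card_le_card hcov).trans Finset.card_biUnion_le)
      _ = ∑ I ∈ univ.filter (fun I : Finset (Fin M) => I.card ≤ m), (bd I).card * N := by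
          rw [Finset.sum_mul]
      _ ≤ ∑ I ∈ univ.filter (fun I : Finset (Fin M) => I.card ≤ m),
            ((C₀ + 1) ^ M * Z.card ^ M) :=
          Finset.sum_le_sum (fun I hI => hbd I (Finset.mem_filter.1 hI).2)
      _ = (univ.filter (fun I : Finset (Fin M) => I.card ≤ m)).card *
            ((C₀ + 1) ^ M * Z.card ^ M) := by rw [Finset.sum_const, smul_eq_mul]
      _ ≤ 2 ^ M * ((C₀ + 1) ^ M * Z.card ^ M) := by
          apply Nat.mul_le_mul_right
          calc _ ≤ (univ : Finset (Finset (Fin M))).card := Finset.card_le_card (Finset.filter_subset _ _)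
            _ = 2 ^ M := by simp
  rw [hall] at h4
  have h5 : 0 < Z.card ^ M := pow_pos hZ0 _
  have h6 : Z.card ^ M * N = Z.card ^ M * (2 ^ M * (C₀ + 1) ^ M) + Z.card ^ M := by
    rw [hN]; ring
  have h7 : 2 ^ M * ((C₀ + 1) ^ M * Z.card ^ M) = Z.card ^ M * (2 ^ M * (C₀ + 1) ^ M) := by ring
  omega

end Pool.Agent.SPD
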