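import Pool.Agent.SPD.Stmts1

set_option autoImplicit false

open Finset

namespace Pool.Agent.SPD

theorem Pigeon_proof : Stmt_Pigeon := by
  intro a K C hK hmono ha1 haK
  set I := Nat.log 4 K with hI
  have hIK : 4 ^ I ≤ K := Nat.pow_log_le_self 4 (by omega)
  have hI2 : 2 ^ I * 2 ^ I ≤ K := by
    calc 2 ^ I * 2 ^ I = 4 ^ I := by rw [← mul_pow]; norm_num
      _ ≤ K := hIK
  -- the division points
  have hk : ∀ i ≤ I, 2 ^ I ≤ K / 2 ^ i := by
    intro i hi
    rw [Nat.le_div_iff_mul_le (by positivity)]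
    calc 2 ^ I * 2 ^ i ≤ 2 ^ I * 2 ^ I := Nat.mul_le_mul_left _ (Nat.pow_le_pow_right (by omega) hi)
      _ ≤ K := hI2
  have hsq : ∀ i ≤ I, K ≤ 4 * (K / 2 ^ i) ^ 2 ∧ 20 ≤ K / 2 ^ i := by
    intro i hi
    set q := K / 2 ^ i with hq
    have h1 := hk i hi
    have hpow : 0 < 2 ^ i := by positivity
    have h2 : K < 2 ^ i * (q + 1) := by
      rw [hq]; exact Nat.lt_mul_div_succ K hpow
    have h3 : 2 ^ i ≤ 2 ^ I := Nat.pow_le_pow_right (by omega) hi
    have h4 : 2 ^ i ≤ q := h3.trans h1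
    have h5 : K < q * (q + 1) := lt_of_lt_of_le h2 (Nat.mul_le_mul_right _ h4)
    constructor
    · nlinarith
    · by_contra hlt
      push Not at hlt
      have : q * (q + 1) ≤ 19 * 20 := Nat.mul_le_mul (by omega) (by omega)
      omega
  by_contra hcon
  push Not at hcon
  have key : ∀ i ≤ I, 2 ^ (C * i) * a (K / 2 ^ i) ≤ a K := by
    intro i
    induction i with
    | zero => intro _; simp
    | succ i ih =>
      intro hi
      have h1 := ih (by omega)
      obtain ⟨h2, h3⟩ := hsq i (by omega)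
      have h4 := hcon (K / 2 ^ i) h3 (Nat.div_le_self _ _) h2
      have e1 : K / 2 ^ i / 2 = K / 2 ^ (i + 1) := by
        rw [Nat.div_div_eq_div_mul, pow_succ]
      rw [e1] at h4
      calc 2 ^ (C * (i + 1)) * a (K / 2 ^ (i + 1))
          = 2 ^ (C * i) * (2 ^ C * a (K / 2 ^ (i + 1))) := by rw [Nat.mul_succ, pow_add]; ring
        _ ≤ 2 ^ (C * i) * a (K / 2 ^ i) := Nat.mul_le_mul_left _ h4.le
        _ ≤ a K := h1
  have h1 := key I le_rfl
  have h2 := ha1 (K / 2 ^ I) (by have := (hsq I le_rfl).2; omega) (Nat.div_le_self _ _)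
  have h3 : 2 ^ (C * I) ≤ a K := by
    calc 2 ^ (C * I) = 2 ^ (C * I) * 1 := by ring
      _ ≤ 2 ^ (C * I) * a (K / 2 ^ I) := Nat.mul_le_mul_left _ h2
      _ ≤ a K := h1
  omega

end Pool.Agent.SPD
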