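import Pool.Agent.SPD.Stmts

set_option autoImplicit false

open Finset

namespace Pool.Agent.SPD

namespace Ram

/-- Ramsey property for subsets of size `n` (finite sets of natural numbers) -/
def Ra (n : ℕ) : Prop := ∀ (C : Type) [Finite C] (h : ℕ), ∃ M : ℕ, ∀ V : Finset ℕ, M ≤ V.card →
  ∀ χ : Finset ℕ → C, ∃ H ⊆ V, H.card = h ∧ ∃ a, ∀ I ⊆ H, I.card = n → χ I = a

theorem ra_zero : Ra 0 := by
  intro C _ h
  refine ⟨h, fun V hV χ => ?_⟩
  obtain ⟨H, hHV, hH⟩ := Finset.exists_subset_card_eq hV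
  refine ⟨H, hHV, hH, χ ∅, fun I _ hI => ?_⟩
  rw [Finset.card_eq_zero.1 hI]

/-- end-homogeneous sets -/
theorem endhom {n : ℕ} (hn : Ra n) (C : Type) [Finite C] : ∀ k : ℕ, ∃ M : ℕ, ∀ V : Finset ℕ,
    M ≤ V.card → ∀ χ : Finset ℕ → C, ∃ A ⊆ V, A.card = k ∧ ∃ c : ℕ → C,
      ∀ I ⊆ A, I.card = n + 1 → ∀ x ∈ I, (∀ y ∈ I, x ≤ y) → χ I = c x := by
  intro k
  induction k with
  | zero =>
    refine ⟨0, fun V _ χ => ⟨∅, Finset.empty_subset _, rfl, fun _ => χ ∅, ?_⟩⟩
    intro I hI hc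
    rw [Finset.subset_empty.1 hI] at hc
    simp at hc
  | succ k ih =>
    obtain ⟨M₀, hM₀⟩ := ih
    obtain ⟨M, hM⟩ := hn C M₀
    refine ⟨M + 1, fun V hV χ => ?_⟩
    have hVn : V.Nonempty := by
      rw [← Finset.card_pos]; omega
    set v := V.min' hVn with hv
    have hvV : v ∈ V := Finset.min'_mem _ _
    obtain ⟨V', hV', hc', a, ha⟩ := hM (V.erase v) (by rw [Finset.card_erase_of_mem hvV]; omega)
      (fun I => χ (insert v I))
    obtain ⟨A, hA, hAc, c, hc⟩ := hM₀ V' (le_of_eq hc'.symm) χ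
    have hvA : v ∉ A := fun h => (Finset.mem_erase.1 (hV' (hA h))).1 rfl
    have hlt : ∀ y ∈ A, v < y := by
      intro y hy
      have h1 := Finset.mem_erase.1 (hV' (hA hy))
      exact lt_of_le_of_ne (Finset.min'_le _ _ h1.2) (Ne.symm h1.1)
    refine ⟨insert v A, ?_, by rw [Finset.card_insert_of_notMem hvA, hAc],
      fun x => if x = v then a else c x, ?_⟩
    · intro y hy
      rcases Finset.mem_insert.1 hy with rfl | hy
      · exact hvV
      · exact (Finset.mem_erase.1 (hV' (hA hy))).2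
    · intro I hI hcI x hx hmin
      by_cases hvI : v ∈ I
      · have hxv : x = v := by
          have h1 := hmin v hvI
          rcases Finset.mem_insert.1 (hI hx) with h2 | h2
          · exact h2
          · have := hlt x h2; omega
        simp only [hxv, if_true]
        have h3 : χ (insert v (I.erase v)) = a := by
          apply ha (I.erase v)
          · intro y hy
            have h4 := Finset.mem_erase.1 hy
            rcases Finset.mem_insert.1 (hI h4.2) with h5 | h5
            · exact absurd h5 h4.1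
            · exact hA h5
          · rw [Finset.card_erase_of_mem hvI]; omega
        rwa [Finset.insert_erase hvI] at h3
      · have hIA : I ⊆ A := by
          intro y hy
          rcases Finset.mem_insert.1 (hI hy) with h5 | h5
          · rw [h5] at hy; exact absurd hy hvI
          · exact h5
        have hxv : x ≠ v := fun h => hvI (h ▸ hx)
        simp only [if_neg hxv]
        exact hc I hIA hcI x hx hmin

theorem ra_succ {n : ℕ} (hn : Ra n) : Ra (n + 1) := by
  classical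
  intro C _ h
  have : Fintype C := Fintype.ofFinite C
  obtain ⟨M, hM⟩ := endhom hn C (Fintype.card C * h + 1)
  refine ⟨M, fun V hV χ => ?_⟩
  obtain ⟨A, hA, hAc, c, hc⟩ := hM V hV χ
  obtain ⟨a, _, ha⟩ := Finset.exists_lt_card_fiber_of_mul_lt_card_of_maps_to
    (s := A) (t := (univ : Finset C)) (f := c) (n := h) (fun x _ => mem_univ _)
    (by rw [Finset.card_univ, hAc]; omega)
  obtain ⟨H, hHs, hH⟩ := Finset.exists_subset_card_eq ha.le
  refine ⟨H, fun x hx => hA (Finset.mem_filter.1 (hHs hx)).1, hH, a, ?_⟩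
  intro I hI hcI
  have hne : I.Nonempty := by rw [← Finset.card_pos]; omega
  have h1 := hc I (fun x hx => (Finset.mem_filter.1 (hHs (hI hx))).1) hcI (I.min' hne)
    (Finset.min'_mem _ _) (fun y hy => Finset.min'_le _ _ hy)
  rw [h1]
  exact (Finset.mem_filter.1 (hHs (hI (Finset.min'_mem _ hne)))).2

theorem ra (n : ℕ) : Ra n := by
  induction n with
  | zero => exact ra_zero
  | succ n ih => exact ra_succ ih

theorem multi (n : ℕ → ℕ) (C : ℕ → Type) [∀ s, Finite (C s)] (h : ℕ) : ∀ k : ℕ, ∃ M : ℕ,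
    ∀ V : Finset ℕ, M ≤ V.card → ∀ χ : (s : ℕ) → Finset ℕ → C s, ∃ H ⊆ V, H.card = h ∧
      ∀ s < k, ∃ a, ∀ I ⊆ H, I.card = n s → χ s I = a := by
  intro k
  induction k with
  | zero =>
    refine ⟨h, fun V hV χ => ?_⟩
    obtain ⟨H, hHV, hH⟩ := Finset.exists_subset_card_eq hV
    exact ⟨H, hHV, hH, fun s hs => absurd hs (Nat.not_lt_zero _)⟩
  | succ k ih =>
    obtain ⟨M₀, hM₀⟩ := ih
    obtain ⟨M, hM⟩ := ra (n k) (C k) M₀
    refine ⟨M, fun V hV χ => ?_⟩
    obtain ⟨V', hV', hc', a, ha⟩ := hM V hV (χ k)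
    obtain ⟨H, hH, hHc, hh⟩ := hM₀ V' (le_of_eq hc'.symm) χ
    refine ⟨H, hH.trans hV', hHc, fun s hs => ?_⟩
    rcases Nat.lt_succ_iff_lt_or_eq.1 hs with h1 | rfl
    · exact hh s h1
    · exact ⟨a, fun I hI => ha I (hI.trans hH)⟩

end Ram

open Pool.Agent.SPD.Ram in
theorem Ram_proof : Stmt_Ram := by
  classical
  intro h s₁ n C _
  obtain ⟨M, hM⟩ := multi n C h (s₁ + 1)
  refine ⟨M, fun χ => ?_⟩
  obtain ⟨H, hH, hHc, hh⟩ := hM (Finset.range M) (by simp)
    (fun s I => χ s (univ.filter (fun x : Fin M => (x : ℕ) ∈ I)))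
  have key : ∀ J : Finset (Fin M), univ.filter (fun x : Fin M => (x : ℕ) ∈ J.map Fin.valEmbedding)
      = J := by
    intro J
    ext x
    simp only [Finset.mem_filter, Finset.mem_univ, true_and, Finset.mem_map,
      Fin.valEmbedding_apply]
    constructor
    · rintro ⟨y, hy, hyx⟩
      rwa [← Fin.ext hyx]
    · intro hx
      exact ⟨x, hx, rfl⟩
  refine ⟨univ.filter (fun x : Fin M => (x : ℕ) ∈ H), ?_, ?_⟩
  · rw [← hHc]
    apply Finset.card_bij (fun (x : Fin M) _ => (x : ℕ))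
    · intro x hx; exact (Finset.mem_filter.1 hx).2
    · intro x _ y _ hxy; exact Fin.ext hxy
    · intro y hy
      exact ⟨⟨y, Finset.mem_range.1 (hH hy)⟩, by simp [hy], rfl⟩
  · intro s hs
    obtain ⟨a, ha⟩ := hh s (Nat.lt_succ_of_le hs)
    refine ⟨a, fun I hI hIc => ?_⟩
    have h1 := ha (I.map Fin.valEmbedding) (by
      intro y hy
      obtain ⟨x, hx, rfl⟩ := Finset.mem_map.1 hy
      exact (Finset.mem_filter.1 (hI hx)).2) (by rw [Finset.card_map, hIc])
    rwa [key I] at h1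

end Pool.Agent.SPD
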