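import Pool.Agent.SPD.Stmts1

set_option autoImplicit false

/-!
The relation for the coarse measure.
-/

open Finset

namespace Pool.Agent.SPD

namespace Rel1

theorem V_sub {F : Type} [AddCommMonoid F] (S : Dat F) : S.V ⊆ S.Uh := by
  classical
  intro x hx
  unfold Dat.V at hx
  exact (Finset.mem_filter.1 hx).1

variable {p N lam E m₁ b P K k : ℕ} {G : ℤ → ZMod p}

theorem X_nonneg (h0 : Ok0 (dat G k b P)) {x : ℕ × ℤ} (hx : x ∈ (dat G k b P).Vp) :
    0 ≤ (dat G k b P).X x := by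
  unfold Dat.Vp at hx
  rw [mem_insert] at hx
  rcases hx with hx | hx
  · rw [hx]
    simp [Dat.X, Dat.zero]
  · have h1 : x ∈ (dat G k b P).Uh := V_sub _ hx
    unfold Dat.Uh at h1
    rw [mem_product] at h1
    have h2 := h0.lo x.2 h1.2
    have hP : (1 : ℤ) ≤ ((dat G k b P).P : ℤ) := by exact_mod_cast h0.P_pos
    have hb : (0 : ℤ) ≤ ((dat G k b P).b : ℤ) := by positivity
    have h3 : 0 < x.2 := by
      by_contra hcon
      push Not at hcon
      have h4 : ((dat G k b P).b : ℤ) * x.2 ≤ 0 := mul_nonpos_of_nonneg_of_nonpos hb hcon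
      nlinarith
    unfold Dat.X
    positivity

end Rel1

open Rel1 in
theorem Rel1_proof (hC : Stmt_Coarse) (hT : Stmt_Tel) (hOk : Stmt_Ok0) : Stmt_Rel1 := by
  classical
  intro p N lam E m₁ b P K k G par h10 hkK n hn0 hnM hsum hJ hV
  have h0 := hOk p N lam E m₁ b P K k G par h10 hkK
  set S := dat G k b P with hS
  set M : ℤ := (b : ℤ) ^ (3 * k) * P with hM
  have hX : ∀ x ∈ S.Vp, 0 ≤ S.X x := fun x hx => X_nonneg h0 hx
  -- values of `G` at `n - X x`
  have hGX : ∀ x ∈ S.Vp, G (n - S.X x) = Gh S (n - S.X x) := fun x hx =>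
    hC p N lam E m₁ b P K k G par h10 hkK _ (hV x hx) (by have := hX x hx; omega)
  have hGJ : ∀ i ∈ jm G (-1) M, G (n - i) = Gh S (n - i) := fun i hi =>
    hC p N lam E m₁ b P K k G par h10 hkK _ (hJ i hi) (by
      unfold jm at hi
      rw [mem_filter, mem_Ioc] at hi
      omega)
  have hGy : ∀ y ≤ M, ∑ i ∈ (jm G (-1) M).filter (fun i => i ≤ y), (G i - G (i - 1)) = G y := by
    intro y hy
    rcases le_or_gt (-1) y with h1 | h1
    · rw [hT p G (-1) M y h1 hy, par.hyp.neg (-1) (by norm_num), sub_zero]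
    · rw [filter_eq_empty_iff.2, sum_empty, par.hyp.neg y (by omega)]
      intro i hi
      unfold jm at hi
      rw [mem_filter, mem_Ioc] at hi
      omega
  have h1 : ∑ i ∈ Icc 0 n, (G i - G (i - 1)) * G (n - i) =
      ∑ i ∈ (jm G (-1) M).filter (fun i => i ≤ n), (G i - G (i - 1)) * G (n - i) := by
    symm
    refine sum_subset ?_ ?_
    · intro i hi
      unfold jm at hi
      rw [mem_filter, mem_filter, mem_Ioc] at hi
      rw [mem_Icc]
      omega
    · intro i hi hn
      have h2 : G i = G (i - 1) := by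
        by_contra hne
        apply hn
        unfold jm
        rw [mem_Icc] at hi
        rw [mem_filter, mem_filter, mem_Ioc]
        exact ⟨⟨⟨by omega, by omega⟩, hne⟩, hi.2⟩
      rw [h2, sub_self, zero_mul]
  have h2 : ∑ i ∈ (jm G (-1) M).filter (fun i => i ≤ n), (G i - G (i - 1)) * G (n - i) =
      ∑ i ∈ (jm G (-1) M).filter (fun i => i ≤ n), (G i - G (i - 1)) *
        ∑ x ∈ S.Vp.filter (fun x => S.X x ≤ n - i), S.cw x := by
    refine sum_congr rfl fun i hi => ?_
    rw [mem_filter] at hi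
    rw [hGJ i hi.1]
    rfl
  have h3 : ∑ i ∈ (jm G (-1) M).filter (fun i => i ≤ n), (G i - G (i - 1)) *
      ∑ x ∈ S.Vp.filter (fun x => S.X x ≤ n - i), S.cw x =
      ∑ x ∈ S.Vp, S.cw x * ∑ i ∈ (jm G (-1) M).filter (fun i => i ≤ n - S.X x),
        (G i - G (i - 1)) := by
    have e1 : ∑ i ∈ (jm G (-1) M).filter (fun i => i ≤ n), (G i - G (i - 1)) *
        ∑ x ∈ S.Vp.filter (fun x => S.X x ≤ n - i), S.cw x =
        ∑ i ∈ jm G (-1) M, ∑ x ∈ S.Vp, if i ≤ n - S.X x then (G i - G (i - 1)) * S.cw x else 0 := by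
      rw [sum_filter]
      refine sum_congr rfl fun i hi => ?_
      by_cases hin : i ≤ n
      · rw [if_pos hin, sum_filter, mul_sum]
        refine sum_congr rfl fun x hx => ?_
        by_cases hc : S.X x ≤ n - i
        · rw [if_pos hc, if_pos (by omega)]
        · rw [if_neg hc, if_neg (by omega), mul_zero]
      · rw [if_neg hin]
        symm
        refine sum_eq_zero fun x hx => ?_
        have := hX x hx
        rw [if_neg (by omega)]
    rw [e1, sum_comm]
    refine sum_congr rfl fun x hx => ?_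
    rw [sum_filter, mul_sum]
    refine sum_congr rfl fun i hi => ?_
    by_cases hc : i ≤ n - S.X x
    · rw [if_pos hc, if_pos hc, mul_comm]
    · rw [if_neg hc, if_neg hc, mul_zero]
  have h4 : ∑ x ∈ S.Vp, S.cw x * ∑ i ∈ (jm G (-1) M).filter (fun i => i ≤ n - S.X x),
      (G i - G (i - 1)) = ∑ x ∈ S.Vp, S.cw x *
        ∑ x' ∈ S.Vp.filter (fun x' => S.X x' ≤ n - S.X x), S.cw x' := by
    refine sum_congr rfl fun x hx => ?_
    rw [hGy _ (by have := hX x hx; omega), hGX x hx]
    rfl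
  have h5 : ∑ q ∈ (S.Vp ×ˢ S.Vp).filter (fun q => S.X q.1 + S.X q.2 ≤ n), S.cw q.1 * S.cw q.2 =
      ∑ x ∈ S.Vp, S.cw x * ∑ x' ∈ S.Vp.filter (fun x' => S.X x' ≤ n - S.X x), S.cw x' := by
    rw [sum_filter, sum_product]
    refine sum_congr rfl fun x hx => ?_
    rw [sum_filter, mul_sum]
    refine sum_congr rfl fun x' hx' => ?_
    by_cases hc : S.X x + S.X x' ≤ n
    · rw [if_pos hc, if_pos (by omega)]
    · rw [if_neg hc, if_neg (by omega), mul_zero]
  rw [h5, ← h4, ← h3, ← h2, ← h1, hsum]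

end Pool.Agent.SPD
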