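import Pool.Agent.SPD.Stmts

set_option autoImplicit false

/-!
Rep: the relation of the measure between members of the families.
-/

open Finset

namespace Pool.Agent.SPD

namespace Rep

variable {F : Type} (S : Dat F)

theorem SX_coe {M : ℕ} (I : Finset (Fin M)) (W : Fin M → ℕ × ℤ) :
    SX S (fun i : I => W i) = ∑ l ∈ I, S.X (W l) := by
  unfold SX
  exact Finset.sum_coe_sort I (fun l => S.X (W l))

theorem sum_upd {M : ℕ} (I : Finset (Fin M)) (W : Fin M → ℕ × ℤ) (l₀ : Fin M) (h : l₀ ∈ I)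
    (s : ℕ × ℤ) : ∑ l ∈ I, S.X (Function.update W l₀ s l)
      = ∑ l ∈ I, S.X (W l) - S.X (W l₀) + S.X s := by
  rw [← Finset.add_sum_erase I _ h, ← Finset.add_sum_erase I (fun l => S.X (W l)) h,
    Function.update_self]
  have : ∑ x ∈ I.erase l₀, S.X (Function.update W l₀ s x) = ∑ x ∈ I.erase l₀, S.X (W x) := by
    refine Finset.sum_congr rfl fun x hx => ?_
    rw [Function.update_of_ne (Finset.ne_of_mem_erase hx)]
  rw [this]
  ring

/-- owners -/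
theorem own_sub {M : ℕ} (I : Finset (Fin M)) (W W' : Fin M → ℕ × ℤ) (l₁ l₂ : Fin M)
    (h₁ : l₁ ∈ I) (h₂ : l₂ ∈ I) (hW : ∀ l, l ≠ l₁ → l ≠ l₂ → W' l = W l)
    (lb : ℕ × ℤ → Finset ℕ) (B : Finset ℕ) (hB : ∀ T, lb T ⊆ B)
    (ho : ∀ j ∈ B, ∃ i : I, j ∈ lb (W i))
    (ho' : ∀ j ∈ B, ∃ i : I, ∀ i' : I, j ∈ lb (W' i') → i' = i) :
    lb (W' l₁) ∪ lb (W' l₂) ⊆ lb (W l₁) ∪ lb (W l₂) := by
  intro j hj
  have hjB : j ∈ B := by
    rcases Finset.mem_union.1 hj with h | h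
    · exact hB _ h
    · exact hB _ h
  obtain ⟨i, hi⟩ := ho j hjB
  obtain ⟨i₀, hi₀⟩ := ho' j hjB
  by_cases e1 : (i : Fin M) = l₁
  · rw [e1] at hi
    exact Finset.mem_union_left _ hi
  by_cases e2 : (i : Fin M) = l₂
  · rw [e2] at hi
    exact Finset.mem_union_right _ hi
  exfalso
  have hi' : j ∈ lb (W' i) := by
    rw [hW _ e1 e2]
    exact hi
  have a1 := hi₀ i hi'
  rcases Finset.mem_union.1 hj with h | h
  · have a2 := hi₀ ⟨l₁, h₁⟩ h
    exact e1 (by rw [a1, ← a2])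
  · have a2 := hi₀ ⟨l₂, h₂⟩ h
    exact e2 (by rw [a1, ← a2])

end Rep

open Pool.Agent.SPD.Rep

theorem Rep_proof (hOwn : Stmt_LabOwn) (hRank : Stmt_LabRank) : Stmt_Rep := by
  classical
  intro F _ S g L Q m₂ r M z hX q I₁ I₂ T₁ T₂ hq hcard hdis hF₁ hF₂
  obtain ⟨w₁, hw₁V, hw₁D, ⟨l₁, hl₁⟩, hT₁⟩ := hF₁
  obtain ⟨w₂, hw₂V, hw₂D, ⟨l₂, hl₂⟩, hT₂⟩ := hF₂
  have tr := hX.tr
  have ok := hX.ok
  have hne : l₁ ≠ l₂ := by
    rintro rfl
    exact Finset.disjoint_left.1 hdis hl₁ hl₂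
  -- a total function
  set W : Fin M → ℕ × ℤ := fun l => if h : l ∈ I₁ then w₁ ⟨l, h⟩ else
    if h : l ∈ I₂ then w₂ ⟨l, h⟩ else (0, 0) with hW
  have eW1 : w₁ = fun i : I₁ => W i := by
    funext i
    simp only [hW]
    rw [dif_pos i.2]
  have eW2 : w₂ = fun i : I₂ => W i := by
    funext i
    have : (i : Fin M) ∉ I₁ := fun h => Finset.disjoint_left.1 hdis h i.2
    simp only [hW]
    rw [dif_neg this, dif_pos i.2]
  have hT₁' : W l₁ = T₁ := by rw [← hT₁, eW1]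
  have hT₂' : W l₂ = T₂ := by rw [← hT₂, eW2]
  have hWV1 : ∀ l ∈ I₁, W l ∈ S.V := by
    intro l hl
    have := hw₁V ⟨l, hl⟩
    rw [eW1] at this
    exact this
  have hWV2 : ∀ l ∈ I₂, W l ∈ S.V := by
    intro l hl
    have := hw₂V ⟨l, hl⟩
    rw [eW2] at this
    exact this
  set I := I₁ ∪ I₂ with hI
  have hIcard : I.card ≤ m₂ := by
    rw [hI, Finset.card_union_of_disjoint hdis]
    exact hcard
  have hl₁I : l₁ ∈ I := Finset.mem_union_left _ hl₁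
  have hl₂I : l₂ ∈ I := Finset.mem_union_right _ hl₂
  have hWV : ∀ l ∈ I, W l ∈ S.V := by
    intro l hl
    rcases Finset.mem_union.1 hl with h | h
    · exact hWV1 l h
    · exact hWV2 l h
  have hgood := hX.good I (by omega)
  obtain ⟨hzV, hgood⟩ := hgood
  have hVU : ∀ x ∈ S.V, x ∈ S.Uh := fun x hx => tr.V_sub hx
  have hUhU : ∀ x ∈ S.Uh, x ∈ S.U := fun x hx => Finset.mem_insert_of_mem hx
  have hVVp : ∀ x ∈ S.V, x ∈ S.Vp := fun x hx => Finset.mem_insert_of_mem hx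
  -- numbers
  have hbig := hX.hb
  have hbZ : (200 : ℤ) ≤ S.b := by
    have : (200 : ℕ) ≤ S.b := by omega
    exact_mod_cast this
  have hbm : 100 * ((m₂ : ℤ) + 2) ≤ S.b := by exact_mod_cast hbig
  have hP : (1 : ℤ) ≤ S.P := by exact_mod_cast ok.P_pos
  have hk10 := ok.k_pos
  -- sums
  have hsum1 : |∑ l ∈ I₁, S.X (W l) - ∑ l ∈ I₁, S.X (z l)| ≤ S.D (S.k - q) := by
    rw [eW1, SX_coe, SX_coe] at hw₁D
    exact hw₁D
  have hsum2 : |∑ l ∈ I₂, S.X (W l) - ∑ l ∈ I₂, S.X (z l)| ≤ S.D (S.k - q) := by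
    rw [eW2, SX_coe, SX_coe] at hw₂D
    exact hw₂D
  have hsum : |∑ l ∈ I, S.X (W l) - ∑ l ∈ I, S.X (z l)| ≤ 2 * S.D (S.k - q) := by
    rw [hI, Finset.sum_union hdis, Finset.sum_union hdis]
    rw [abs_le] at hsum1 hsum2 ⊢
    constructor <;> linarith [hsum1.1, hsum1.2, hsum2.1, hsum2.2]
  -- first use of goodness with the tuple `W`; need `q + 1 ≤ k`
  have hLk : Q < S.k := by
    -- the point `z` itself is regular
    have h := hgood (fun i : I => z i) (fun i => hVVp _ (hzV i)) (by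
      rw [sub_self, abs_zero]
      exact (tr.Dpos _).le)
    have hz1 : z l₁ ∈ S.Uh := hVU _ (hzV ⟨l₁, hl₁I⟩)
    have hd := tr.dep_self _ hz1
    have hk1 : (z l₁).1 - 1 < S.k := by
      have := (Finset.mem_product.1 hz1).1
      rw [Finset.mem_Icc] at this
      omega
    have := h.1.fin ⟨l₁, hl₁I⟩ ((z l₁).1 - 1) ⟨hk1, Or.inl hd⟩
    have hL := hX.hL
    omega
  have hDq : S.D (S.k - (q + 1)) = (S.b : ℤ) ^ 3 * S.D (S.k - q) := by
    have := tr.Dsucc (S.k - (q + 1)) (by omega)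
    rw [this]
    congr 2
    omega
  have hD0 := tr.Dpos (S.k - q)
  have hDP := tr.DP (S.k - q)
  have hb3 : (S.b : ℤ) ^ 3 ≥ 2 * S.b + 2 := by
    nlinarith [sq_nonneg ((S.b : ℤ)), mul_self_nonneg ((S.b : ℤ))]
  have hDanti : S.D (S.k - (q + 1)) ≤ S.D (S.k - Q) := tr.Danti _ _ (by omega)
  -- a tuple close to `z` in `Vp` is in `V`
  have key : ∀ W' : Fin M → ℕ × ℤ, (∀ l ∈ I, W' l ∈ S.Vp) →
      |∑ l ∈ I, S.X (W' l) - ∑ l ∈ I, S.X (z l)| ≤ 2 * S.D (S.k - q) + 2 * S.b * S.P →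
      Reg S (g ^ 64) L (fun i : I => W' i) ∧ (∀ l ∈ I, W' l ∈ S.V) ∧
      |SX S (fun i : I => W' i) - SX S (fun i : I => z i)| ≤ S.D (S.k - (q + 1)) := by
    intro W' hV' hd
    have hd' : |SX S (fun i : I => W' i) - SX S (fun i : I => z i)| ≤ S.D (S.k - (q + 1)) := by
      rw [SX_coe, SX_coe, hDq]
      refine hd.trans ?_
      have h1 : 2 * (S.b : ℤ) * S.P ≤ 2 * S.b * S.D (S.k - q) := by
        have : (0 : ℤ) ≤ 2 * S.b := by positivity
        exact mul_le_mul_of_nonneg_left hDP this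
      calc 2 * S.D (S.k - q) + 2 * S.b * S.P
          ≤ 2 * S.D (S.k - q) + 2 * S.b * S.D (S.k - q) := by linarith
        _ = (2 * S.b + 2) * S.D (S.k - q) := by ring
        _ ≤ (S.b : ℤ) ^ 3 * S.D (S.k - q) := mul_le_mul_of_nonneg_right hb3 hD0.le
    have hR := (hgood (fun i : I => W' i) (fun i => hV' i i.2) (hd'.trans hDanti)).1
    refine ⟨hR, fun l hl => ?_, hd'⟩
    have h1 : W' l ∈ S.Uh := hR.mem ⟨l, hl⟩
    have h2 := hV' l hl
    rcases Finset.mem_insert.1 h2 with h | h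
    · exfalso
      rw [h] at h1
      have := (Finset.mem_product.1 h1).1
      rw [Finset.mem_Icc] at this
      have h3 : S.zero.1 = S.k + 1 := rfl
      omega
    · exact h
  have hbP : (0 : ℤ) ≤ 2 * S.b * S.P := by positivity
  obtain ⟨hRW, -, hdW⟩ := key W (fun l hl => hVVp _ (hWV l hl)) (by linarith)
  -- the bounds for `σ`
  have hT₁V : T₁ ∈ S.V := by rw [← hT₁']; exact hWV1 l₁ hl₁
  have hT₂V : T₂ ∈ S.V := by rw [← hT₂']; exact hWV2 l₂ hl₂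
  have hT₁U := hVU _ hT₁V
  have hT₂U := hVU _ hT₂V
  have hXnn : ∀ l ∈ I, 0 ≤ S.X (W l) := fun l hl =>
    tr.Xnonneg _ (hUhU _ (hVU _ (hWV l hl)))
  have hT₁1 : T₁.1 ≤ S.k - 2 := by
    have hd := tr.dep_self _ hT₁U
    have hm := (Finset.mem_product.1 hT₁U).1
    rw [Finset.mem_Icc] at hm
    have hk1 : T₁.1 - 1 < S.k := by omega
    have := hRW.fin ⟨l₁, hl₁I⟩ (T₁.1 - 1) ⟨hk1, Or.inl (by rw [hT₁']; exact hd)⟩
    have hL := hX.hL
    omega
  have hσ1 : S.D (S.k - 2) ≤ S.X T₁ + S.X T₂ := by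
    have h1 := tr.Xlo _ hT₁U
    have h2 := tr.Danti _ _ hT₁1
    have h3 := tr.Xnonneg _ (hUhU _ hT₂U)
    linarith
  have hσ2 : S.X T₁ + S.X T₂ + 4 * S.b * S.P ≤ S.D 0 := by
    -- `X T₁ + X T₂ ≤ ∑ X (W l)`
    have h1 : S.X T₁ + S.X T₂ ≤ ∑ l ∈ I, S.X (W l) := by
      have h2 : ({l₁, l₂} : Finset (Fin M)) ⊆ I := by
        intro x hx
        rw [Finset.mem_insert, Finset.mem_singleton] at hx
        rcases hx with rfl | rfl
        · exact hl₁I
        · exact hl₂I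
      have h3 := Finset.sum_le_sum_of_subset_of_nonneg h2
        (f := fun l => S.X (W l)) (fun l hl _ => hXnn l hl)
      rw [Finset.sum_pair hne, hT₁', hT₂'] at h3
      exact h3
    have h4 : ∑ l ∈ I, S.X (z l) ≤ m₂ * S.D 1 := by
      have h5 : ∀ l ∈ I, S.X (z l) ≤ S.D 1 := by
        intro l hl
        have hzu : z l ∈ S.Uh := hVU _ (hzV ⟨l, hl⟩)
        have h6 := tr.Xhi _ hzu
        have h7 := hX.two l
        exact h6.trans (tr.Danti _ _ (by omega))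
      have h8 := Finset.sum_le_card_nsmul I _ _ h5
      refine h8.trans ?_
      rw [nsmul_eq_mul]
      have : ((I.card : ℕ) : ℤ) ≤ m₂ := by exact_mod_cast hIcard
      exact mul_le_mul_of_nonneg_right this (tr.Dpos 1).le
    have h9 : S.D (S.k - q) ≤ S.D 1 := tr.Danti _ _ (by omega)
    have h10 : S.D 0 = (S.b : ℤ) ^ 3 * S.D 1 := tr.Dsucc 0 (by omega)
    have h11 := tr.DP 1
    have h12 := tr.Dpos 1
    rw [abs_le] at hsum
    have h13 : 4 * (S.b : ℤ) * S.P ≤ 4 * S.b * S.D 1 := by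
      have : (0 : ℤ) ≤ 4 * S.b := by positivity
      exact mul_le_mul_of_nonneg_left h11 this
    have h14 : (m₂ : ℤ) + 2 + 4 * S.b ≤ (S.b : ℤ) ^ 3 := by
      have hm0 : (0 : ℤ) ≤ m₂ := by positivity
      nlinarith [sq_nonneg ((S.b : ℤ)), mul_self_nonneg ((S.b : ℤ))]
    rw [h10]
    calc S.X T₁ + S.X T₂ + 4 * S.b * S.P
        ≤ m₂ * S.D 1 + 2 * S.D 1 + 4 * S.b * S.D 1 := by linarith [hsum.2]
      _ = (m₂ + 2 + 4 * S.b) * S.D 1 := by ring
      _ ≤ (S.b : ℤ) ^ 3 * S.D 1 := mul_le_mul_of_nonneg_right h14 h12.le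
  obtain ⟨n₁, n₂, hn1, hn2, hn3, hn4, hrel⟩ := ok.rel _ hσ1 hσ2
  have hbP1 : (0 : ℤ) < S.b * S.P := by positivity
  refine ⟨(S.Vp ×ˢ S.Vp).filter (fun q => n₁ < S.X q.1 + S.X q.2 ∧ S.X q.1 + S.X q.2 ≤ n₂),
    ?_, ?_, hrel⟩
  · rw [Finset.mem_filter, Finset.mem_product]
    exact ⟨⟨hVVp _ hT₁V, hVVp _ hT₂V⟩, by show n₁ < S.X T₁ + S.X T₂; linarith,
      by show S.X T₁ + S.X T₂ ≤ n₂; linarith⟩
  intro s hs
  rw [Finset.mem_filter, Finset.mem_product] at hs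
  obtain ⟨⟨hs1, hs2⟩, hs3, hs4⟩ := hs
  set W' : Fin M → ℕ × ℤ := Function.update (Function.update W l₁ s.1) l₂ s.2 with hW'
  have e1 : W' l₁ = s.1 := by
    rw [hW', Function.update_of_ne hne, Function.update_self]
  have e2 : W' l₂ = s.2 := by
    rw [hW', Function.update_self]
  have e3 : ∀ l, l ≠ l₁ → l ≠ l₂ → W' l = W l := by
    intro l h1 h2
    rw [hW', Function.update_of_ne h2, Function.update_of_ne h1]
  have hsW' : ∑ l ∈ I, S.X (W' l) = ∑ l ∈ I, S.X (W l) - S.X T₁ + S.X s.1 - S.X T₂ + S.X s.2 := by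
    rw [hW', sum_upd S I _ l₂ hl₂I, sum_upd S I _ l₁ hl₁I, Function.update_of_ne hne.symm, hT₁',
      hT₂']
  obtain ⟨hRW', hV', hdW'⟩ := key W' (by
      intro l hl
      by_cases h1 : l = l₁
      · rw [h1, e1]; exact hs1
      by_cases h2 : l = l₂
      · rw [h2, e2]; exact hs2
      rw [e3 l h1 h2]
      exact hVVp _ (hWV l hl)) (by
      rw [hsW']
      rw [abs_le] at hsum ⊢
      constructor <;> linarith [hsum.1, hsum.2])
  refine ⟨⟨fun i : I => W' i, fun i => hV' i i.2, hdW', ⟨l₁, hl₁I⟩, e1⟩,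
    ⟨fun i : I => W' i, fun i => hV' i i.2, hdW', ⟨l₂, hl₂I⟩, e2⟩, fun l => ?_⟩
  -- labels
  obtain ⟨o1, o2⟩ := hOwn F S g L Q m₂ r M z hX (q + 1) hq I hIcard (fun i : I => W i)
    (fun i => hWV i i.2) hdW
  obtain ⟨o1', o2'⟩ := hOwn F S g L Q m₂ r M z hX (q + 1) hq I hIcard (fun i : I => W' i)
    (fun i => hV' i i.2) hdW'
  have hsub : ∀ T, lab0 S g (z l) T ⊆ BL S g (z l) := by
    intro T
    unfold lab0
    exact Finset.filter_subset _ _
  have main : Disjoint (lab0 S g (z l) s.1) (lab0 S g (z l) s.2) ∧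
      lab0 S g (z l) s.1 ∪ lab0 S g (z l) s.2 = lab0 S g (z l) T₁ ∪ lab0 S g (z l) T₂ := by
    by_cases hl : l ∈ I
    · have p1 : ∀ j ∈ BL S g (z l), ∃ i : I, j ∈ lab0 S g (z l) (W i) := by
        intro j hj
        obtain ⟨i, h, -, -⟩ := o1 l hl j hj
        exact ⟨i, h⟩
      have p2 : ∀ j ∈ BL S g (z l), ∃ i : I, ∀ i' : I, j ∈ lab0 S g (z l) (W i') → i' = i := by
        intro j hj
        obtain ⟨i, -, -, h⟩ := o1 l hl j hj
        exact ⟨i, h⟩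
      have p1' : ∀ j ∈ BL S g (z l), ∃ i : I, j ∈ lab0 S g (z l) (W' i) := by
        intro j hj
        obtain ⟨i, h, -, -⟩ := o1' l hl j hj
        exact ⟨i, h⟩
      have p2' : ∀ j ∈ BL S g (z l), ∃ i : I, ∀ i' : I, j ∈ lab0 S g (z l) (W' i') → i' = i := by
        intro j hj
        obtain ⟨i, -, -, h⟩ := o1' l hl j hj
        exact ⟨i, h⟩
      constructor
      · rw [Finset.disjoint_left]
        intro j hj1 hj2
        obtain ⟨i, hi⟩ := p2' j (hsub _ hj1)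
        have a1 := hi ⟨l₁, hl₁I⟩ (by rw [e1]; exact hj1)
        have a2 := hi ⟨l₂, hl₂I⟩ (by rw [e2]; exact hj2)
        exact hne (congrArg Subtype.val (a1.trans a2.symm))
      · have s1 := own_sub I W W' l₁ l₂ hl₁I hl₂I e3 (lab0 S g (z l)) (BL S g (z l)) hsub p1 p2'
        have s2 := own_sub I W' W l₁ l₂ hl₁I hl₂I (fun l h1 h2 => (e3 l h1 h2).symm)
          (lab0 S g (z l)) (BL S g (z l)) hsub p1' p2
        rw [e1, e2, hT₁', hT₂'] at s1 s2
        exact Finset.Subset.antisymm s1 s2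
    · have q1 := o2 l hl ⟨l₁, hl₁I⟩
      have q2 := o2 l hl ⟨l₂, hl₂I⟩
      have q1' := o2' l hl ⟨l₁, hl₁I⟩
      have q2' := o2' l hl ⟨l₂, hl₂I⟩
      simp only at q1 q2 q1' q2'
      rw [hT₁'] at q1
      rw [hT₂'] at q2
      rw [e1] at q1'
      rw [e2] at q2'
      rw [q1, q2, q1', q2']
      simp
  constructor
  · exact ((hRank F S g L Q m₂ r M z hX l s.1 s.2).2.2.2).2 main.1
  · unfold lab
    rw [← Finset.image_union, ← Finset.image_union, main.2]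

end Pool.Agent.SPD
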