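import Pool.Agent.SPD.Stmts1

set_option autoImplicit false

/-!
Iterated scaling.
-/

open Finset

namespace Pool.Agent.SPD

namespace ScaleA

variable {p : ℕ} {G : ℤ → ZMod p} {N lam E : ℕ}

theorem iter (hp : 0 < p) (e : ℕ) : ∀ x : ℤ, 0 ≤ x → x < N → Cl G N e x →
    G x = (-1) ^ e * G (x / (p : ℤ) ^ e) := by
  induction e with
  | zero => intro x _ _ _; simp
  | succ e ih =>
    intro x hx0 hx hcl
    have h1 := ih x hx0 hx (fun i hi => hcl i (by omega))
    have h2 := hcl e (by omega)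
    have h3 : (0 : ℤ) < (p : ℤ) ^ e := by positivity
    have h4 : 0 ≤ x / (p : ℤ) ^ e := Int.ediv_nonneg hx0 h3.le
    have h5 : x / (p : ℤ) ^ e < N := lt_of_le_of_lt (Int.ediv_le_self _ hx0) hx
    have h6 : G (x / (p : ℤ) ^ e) = - G (x / (p : ℤ) ^ e / p) := by
      by_contra hne
      exact h2 ⟨h4, h5, hne⟩
    rw [h1, h6, Int.ediv_ediv_of_nonneg h3.le, ← pow_succ, pow_succ]
    ring

/-- the exceptions -/
noncomputable def Z (G : ℤ → ZMod p) (N : ℕ) : Finset ℤ :=
  (Ico 0 (N : ℤ)).filter (fun n => G n ≠ - G (n / p))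

theorem geom (hp : 2 ≤ p) (e : ℕ) : ∑ i ∈ range e, E * p ^ i ≤ E * p ^ e := by
  induction e with
  | zero => simp
  | succ e ih =>
    rw [sum_range_succ, pow_succ]
    have : E * p ^ e * 2 ≤ E * p ^ e * p := Nat.mul_le_mul_left _ hp
    calc _ ≤ E * p ^ e + E * p ^ e := Nat.add_le_add_right ih _
      _ = E * p ^ e * 2 := by ring
      _ ≤ E * p ^ e * p := this
      _ = _ := by ring

end ScaleA

open ScaleA in
theorem ScaleA_proof : Stmt_ScaleA := by
  classical
  intro p N lam E G hp hyp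
  refine ⟨fun e x h0 h1 h2 => iter hp.pos e (x : ℤ) (by exact_mod_cast h0) (by exact_mod_cast h1) h2, ?_⟩
  intro e a c
  have hsub : (Ico a c).filter (fun x => ¬ Cl G N e x) ⊆
      (range e).biUnion (fun i => (Z G N).biUnion
        (fun z => Ico ((p : ℤ) ^ i * z) ((p : ℤ) ^ i * (z + 1)))) := by
    intro x hx
    rw [mem_filter] at hx
    have h1 := hx.2
    unfold Cl at h1
    push Not at h1
    obtain ⟨i, hi, h2, h3, h4⟩ := h1
    rw [mem_biUnion]
    refine ⟨i, mem_range.2 hi, ?_⟩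
    rw [mem_biUnion]
    refine ⟨x / (p : ℤ) ^ i, ?_, ?_⟩
    · unfold Z
      rw [mem_filter, mem_Ico]
      exact ⟨⟨h2, h3⟩, h4⟩
    · have h5 : (0 : ℤ) < (p : ℤ) ^ i := by
        have := hp.pos
        positivity
      rw [mem_Ico]
      constructor
      · exact Int.mul_ediv_self_le h5.ne'
      · exact Int.lt_mul_ediv_self_add h5 |>.trans_eq (by ring)
  refine (card_le_card hsub).trans (card_biUnion_le.trans ?_)
  refine le_trans (sum_le_sum fun i _ => ?_) (geom hp.two_le e)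
  refine card_biUnion_le.trans ?_
  have h2 : ∀ z ∈ Z G N, (Ico ((p : ℤ) ^ i * z : ℤ) ((p : ℤ) ^ i * (z + 1))).card ≤ p ^ i := by
    intro z _
    rw [Int.card_Ico]
    have : (p : ℤ) ^ i * (z + 1) - (p : ℤ) ^ i * z = ((p ^ i : ℕ) : ℤ) := by push_cast; ring
    rw [this]; simp
  refine (sum_le_sum h2).trans ?_
  rw [sum_const, smul_eq_mul]
  exact Nat.mul_le_mul_right _ hyp.scl

end Pool.Agent.SPD
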