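import Pool.Agent.SPD.Stmts

set_option autoImplicit false

/-!
Separation of two representations.
-/

open Finset

namespace Pool.Agent.SPD

namespace Sep

/-- One of the cases of the separation lemma. -/
theorem caseA {F : Type} [Field F] (S : Dat F) (htr : Tr S) {ι : Type} (G L j τ : ℕ)
    (w w' : ι → ℕ × ℤ) (hL : 2 ≤ L) (hw : Reg S G L w) (hw' : Reg S G L w') (hj : j + 2 ≤ S.k)
    (i i' : ι) (hii : i ≠ i') (hτ : τ = j ∨ τ = j + 1) (hR : S.R j (w i) (w' i))
    (hR' : S.R τ (w i') (w' i')) (hn' : ¬ S.R (τ + 1) (w i') (w' i'))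
    (hm : ¬ S.Mn j (w i)) :
    S.Jr G j (w i) ∧ S.Jr G τ (w' i') := by
  have hU : ∀ l, w l ∈ S.U := fun l => mem_insert_of_mem (hw.mem l)
  have hU' : ∀ l, w' l ∈ S.U := fun l => mem_insert_of_mem (hw'.mem l)
  have h1 : S.Jp G j (w i) := ⟨by omega, Or.inl hm⟩
  have h2 : ¬ S.Jp G τ (w i') := by
    intro h
    have := hw.sep i i' hii j τ h1 h
    omega
  have h3 : S.Mn τ (w i') ∧ G * S.nm τ (w i') < S.nn τ (w i') := by
    unfold Dat.Jp at h2
    have h4 : τ < S.k := by omega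
    by_contra h5
    apply h2
    refine ⟨h4, ?_⟩
    by_cases h6 : S.Mn τ (w i')
    · right
      by_contra h7
      exact h5 ⟨h6, by omega⟩
    · exact Or.inl h6
  have h4 : ¬ S.Mn τ (w' i') := fun h =>
    hn' (htr.main τ (w i') (hU i') (w' i') (hU' i') hR' h3.1 h)
  have h5 : S.Jp G τ (w' i') := ⟨by omega, Or.inl h4⟩
  have h6 : ¬ S.Jp G j (w' i) := by
    intro h
    have := hw'.sep i i' hii j τ h h5
    omega
  have h7 : G * S.nm j (w' i) < S.nn j (w' i) := by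
    by_contra h8
    exact h6 ⟨by omega, Or.inr (by omega)⟩
  refine ⟨⟨by omega, hm, ?_⟩, ⟨by omega, h4, ?_⟩⟩
  · rw [htr.nmR j _ _ hR, htr.nnR j _ _ hR]
    exact h7
  · rw [← htr.nmR τ _ _ hR', ← htr.nnR τ _ _ hR']
    exact h3.2

end Sep

theorem Sep_proof : Stmt_Sep := by
  classical
  intro F _ S hok htr ι _ G L C T j w w' hC hL hw hw' hS hjT hT hR ⟨i, hi⟩
  have hU : ∀ l, w l ∈ S.U := fun l => mem_insert_of_mem (hw.mem l)
  have hU' : ∀ l, w' l ∈ S.U := fun l => mem_insert_of_mem (hw'.mem l)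
  have hDpos := htr.Dpos (j + 2)
  have hb : 0 < (S.b : ℤ) := by
    have : 0 < S.b := by omega
    exact_mod_cast this
  have h1 := htr.far (j + 1) (by omega) (w i) (hU i) (w' i) (hU' i) hi
  rw [htr.Dsucc (j + 1) (by omega)] at h1
  have h2 : (S.b : ℤ) * S.D (j + 2) < |S.X (w i) - S.X (w' i)| := by
    have h3 : (S.b : ℤ) ^ 2 * (S.b * S.D (j + 2)) < (S.b : ℤ) ^ 2 * |S.X (w i) - S.X (w' i)| := by
      have e1 : j + 1 + 1 = j + 2 := rfl
      rw [e1] at h1
      nlinarith [h1]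
    exact lt_of_mul_lt_mul_left h3 (by positivity)
  have h3 : |SX S w - SX S w'| ≤ C * S.D (j + 2) := by
    refine hS.trans ?_
    exact mul_le_mul_of_nonneg_left (htr.Danti _ _ hjT) (by positivity)
  -- some other coordinate
  obtain ⟨i', hii', h4⟩ : ∃ i', i' ≠ i ∧ S.D (j + 2) < |S.X (w i') - S.X (w' i')| := by
    by_contra hcon
    push Not at hcon
    have h5 : SX S w - SX S w' = ∑ l, (S.X (w l) - S.X (w' l)) := by
      unfold SX
      rw [sum_sub_distrib]
    have h6 : ∑ l, (S.X (w l) - S.X (w' l)) = (S.X (w i) - S.X (w' i)) +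
        ∑ l ∈ univ.erase i, (S.X (w l) - S.X (w' l)) := by
      rw [← add_sum_erase univ _ (mem_univ i)]
    have h7 : |∑ l ∈ univ.erase i, (S.X (w l) - S.X (w' l))| ≤ Fintype.card ι * S.D (j + 2) := by
      refine (abs_sum_le_sum_abs _ _).trans ?_
      refine (sum_le_card_nsmul _ _ (S.D (j + 2)) fun l hl => hcon l (ne_of_mem_erase hl)).trans ?_
      rw [nsmul_eq_mul]
      refine mul_le_mul_of_nonneg_right ?_ hDpos.le
      exact_mod_cast (card_le_card (erase_subset i univ)).trans (le_of_eq card_univ)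
    have h8 : |S.X (w i) - S.X (w' i)| ≤ C * S.D (j + 2) + Fintype.card ι * S.D (j + 2) := by
      have h9 : S.X (w i) - S.X (w' i) = (SX S w - SX S w') -
          ∑ l ∈ univ.erase i, (S.X (w l) - S.X (w' l)) := by
        rw [h5, h6]; ring
      rw [h9]
      exact (abs_sub _ _).trans (add_le_add h3 h7)
    have h9 : (Fintype.card ι : ℤ) + C < S.b := by exact_mod_cast hC
    nlinarith
  have h5 : ¬ S.R (j + 2) (w i') (w' i') := fun h =>
    absurd (htr.near (j + 2) (by omega) _ (hU i') _ (hU' i') h) (not_le.2 h4)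
  obtain ⟨τ, hτ, hR', hn'⟩ : ∃ τ, (τ = j ∨ τ = j + 1) ∧ S.R τ (w i') (w' i') ∧
      ¬ S.R (τ + 1) (w i') (w' i') := by
    by_cases h : S.R (j + 1) (w i') (w' i')
    · exact ⟨j + 1, Or.inr rfl, h, h5⟩
    · exact ⟨j, Or.inl rfl, hR i', h⟩
  by_cases hm : S.Mn j (w i)
  · have hm' : ¬ S.Mn j (w' i) := fun h =>
      hi (htr.main j (w i) (hU i) (w' i) (hU' i) (hR i) hm h)
    have h6 := Sep.caseA S htr G L j τ w' w hL hw' hw (by omega) i i' hii'.symm hτ
      (htr.symm _ _ _ (hR i)) (htr.symm _ _ _ hR') (fun h => hn' (htr.symm _ _ _ h)) hm'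
    exact ⟨i', i, τ, j, hii', hτ, Or.inl rfl, h6.2, h6.1⟩
  · have h6 := Sep.caseA S htr G L j τ w w' hL hw hw' (by omega) i i' hii'.symm hτ
      (hR i) hR' hn' hm
    exact ⟨i, i', j, τ, hii'.symm, Or.inl rfl, hτ, h6.1, h6.2⟩

end Pool.Agent.SPD
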