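import Pool.Agent.SPD.Stmts1

set_option autoImplicit false

/-!
The sum of the jumps telescopes.
-/

open Finset

namespace Pool.Agent.SPD

namespace Tel

theorem sum_Ioc {p : ℕ} (G : ℤ → ZMod p) (a y : ℤ) (h : a ≤ y) :
    ∑ x ∈ Ioc a y, (G x - G (x - 1)) = G y - G a := by
  induction y, h using Int.leInduction with
  | base => simp
  | succ n hn ih =>
    have h1 : Ioc a (n + 1) = insert (n + 1) (Ioc a n) := by
      ext x
      simp only [mem_Ioc, mem_insert]
      omega
    rw [h1, sum_insert (by simp), ih]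
    simp

end Tel

theorem Tel_proof : Stmt_Tel := by
  intro p G a c y hay hyc
  have h1 : (jm G a c).filter (fun x => x ≤ y)
      = (Ioc a y).filter (fun x => G x ≠ G (x - 1)) := by
    ext x
    simp only [jm, mem_filter, mem_Ioc]
    constructor
    · rintro ⟨⟨⟨h1, h2⟩, h3⟩, h4⟩
      exact ⟨⟨h1, h4⟩, h3⟩
    · rintro ⟨⟨h1, h2⟩, h3⟩
      exact ⟨⟨⟨h1, by omega⟩, h3⟩, h2⟩
  rw [h1, ← Tel.sum_Ioc G a y hay, sum_filter]
  refine sum_congr rfl fun x _ => ?_
  split_ifs with h2
  · rfl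
  · push Not at h2
    rw [h2, sub_self]

end Pool.Agent.SPD
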