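import Pool.Agent.SPD.Stmts

set_option autoImplicit false

/-!
First facts on the tree.
-/

open Finset

namespace Pool.Agent.SPD

namespace TreeA

variable {F : Type} {S : Dat F}

lemma mem_Uh {x : ℕ × ℤ} : x ∈ S.Uh ↔ (1 ≤ x.1 ∧ x.1 ≤ S.k) ∧ x.2 ∈ S.V0 := by
  unfold Dat.Uh; rw [mem_product, mem_Icc]

lemma mem_U {x : ℕ × ℤ} : x ∈ S.U ↔ x = S.zero ∨ x ∈ S.Uh := by
  unfold Dat.U; rw [mem_insert]

lemma bpos (h : Ok0 S) : (0 : ℤ) < S.b := by
  have h1 := h.k_pos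
  have h2 := h.b_big
  have : 0 < S.b := by omega
  exact_mod_cast this

lemma b10 (h : Ok0 S) : (10 : ℤ) ≤ S.b := by
  have h1 := h.k_pos
  have h2 := h.b_big
  have : 10 ≤ S.b := by omega
  exact_mod_cast this

lemma Ppos (h : Ok0 S) : (0 : ℤ) < S.P := by exact_mod_cast h.P_pos

lemma v_gt (h : Ok0 S) {v : ℤ} (hv : v ∈ S.V0) : (S.P : ℤ) < v := by
  have h1 := h.lo v hv
  have h2 := bpos h
  have h3 := Ppos h
  by_contra hcon
  push Not at hcon
  nlinarith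

lemma D_succ (t : ℕ) (ht : t < S.k) : S.D t = (S.b : ℤ) ^ 3 * S.D (t + 1) := by
  unfold Dat.D
  rw [← mul_assoc, ← pow_add]
  congr 2
  omega

lemma D_anti (h : Ok0 S) {t t' : ℕ} (ht : t ≤ t') : S.D t' ≤ S.D t := by
  unfold Dat.D
  have hb := b10 h
  have hP := Ppos h
  apply mul_le_mul_of_nonneg_right _ hP.le
  exact pow_le_pow_right₀ (by linarith) (by omega)

lemma D_pos (h : Ok0 S) (t : ℕ) : 0 < S.D t := by
  unfold Dat.D
  have hb := bpos h
  have hP := Ppos h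
  positivity

lemma X_lo' (h : Ok0 S) {x : ℕ × ℤ} (hx : x ∈ S.Uh) : ((S.b : ℤ) + 1) * S.D x.1 ≤ S.b * S.X x := by
  unfold Dat.D Dat.X
  have h1 := h.lo x.2 (mem_Uh.1 hx).2
  have hb : (0 : ℤ) ≤ (S.b : ℤ) ^ (3 * (S.k - x.1)) := pow_nonneg (bpos h).le _
  nlinarith [mul_le_mul_of_nonneg_left h1 hb]

lemma X_hi (h : Ok0 S) {x : ℕ × ℤ} (hx : x ∈ S.Uh) : S.X x ≤ S.D (x.1 - 1) := by
  unfold Dat.D Dat.X
  have hx' := mem_Uh.1 hx
  have h1 := h.hi x.2 hx'.2
  have hb : (0 : ℤ) ≤ (S.b : ℤ) ^ (3 * (S.k - x.1)) := pow_nonneg (bpos h).le _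
  calc (S.b : ℤ) ^ (3 * (S.k - x.1)) * x.2 ≤ (S.b : ℤ) ^ (3 * (S.k - x.1)) * ((S.b : ℤ) ^ 3 * S.P) :=
        mul_le_mul_of_nonneg_left h1 hb
    _ = _ := by
      rw [← mul_assoc, ← pow_add]
      congr 2
      omega

lemma X_zero : S.X S.zero = 0 := by
  unfold Dat.X Dat.zero; simp

lemma X_lo (h : Ok0 S) {x : ℕ × ℤ} (hx : x ∈ S.Uh) : S.D x.1 < S.X x := by
  have h1 := X_lo' h hx
  have h2 := bpos h
  have h3 := D_pos h x.1
  by_contra hcon
  push Not at hcon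
  nlinarith

lemma X_nonneg (h : Ok0 S) {x : ℕ × ℤ} (hx : x ∈ S.U) : 0 ≤ S.X x := by
  rcases mem_U.1 hx with rfl | hx
  · rw [X_zero]
  · exact (D_pos h _).le.trans (X_lo h hx).le

lemma X_le_D (h : Ok0 S) {x : ℕ × ℤ} (hx : x ∈ S.U) {t : ℕ} (ht : t < x.1) : S.X x ≤ S.D t := by
  rcases mem_U.1 hx with rfl | hx
  · rw [X_zero]; exact (D_pos h t).le
  · exact (X_hi h hx).trans (D_anti h (by omega))

lemma near (h : Ok0 S) {t : ℕ} (ht : t ≤ S.k) {x y : ℕ × ℤ} (hx : x ∈ S.U) (hy : y ∈ S.U)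
    (hR : S.R t x y) : |S.X x - S.X y| ≤ S.D t := by
  rcases hR with ⟨h1, h2⟩ | ⟨h1, h2, h3⟩
  · have h4 := X_nonneg h hx
    have h5 := X_nonneg h hy
    have h6 := X_le_D h hx h1
    have h7 := X_le_D h hy h2
    rw [abs_le]
    constructor <;> linarith
  · -- the same scale
    have hx1 : x ∈ S.Uh := by
      rcases mem_U.1 hx with rfl | hx
      · exfalso
        have : S.zero.1 = S.k + 1 := rfl
        omega
      · exact hx
    have hy1 : y ∈ S.Uh := by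
      rcases mem_U.1 hy with rfl | hy
      · exfalso
        have : S.zero.1 = S.k + 1 := rfl
        omega
      · exact hy
    have hx2 := mem_Uh.1 hx1
    have hy2 := mem_Uh.1 hy1
    have h4 := h.near (t - x.1) x.2 hx2.2 y.2 hy2.2 h3
    unfold Dat.X Dat.D
    rw [← h1, ← mul_sub, abs_mul, abs_of_nonneg (pow_nonneg (bpos h).le _)]
    have h5 : (S.b : ℤ) ^ (3 * (S.k - x.1))
        = (S.b : ℤ) ^ (3 * (S.k - t)) * (S.b : ℤ) ^ (3 * (t - x.1)) := by
      rw [← pow_add]; congr 1; omega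
    rw [h5, mul_assoc]
    apply mul_le_mul_of_nonneg_left _ (pow_nonneg (bpos h).le _)
    rw [mul_comm]
    exact h4

/-- Points of different scales. -/
lemma far_diff (h : Ok0 S) {t : ℕ} {x y : ℕ × ℤ} (hx : x ∈ S.Uh) (hy : y ∈ S.U)
    (hxy : x.1 < y.1) (ht : x.1 ≤ t) : S.D t < (S.X x - S.X y) * (S.b : ℤ) ^ 2 := by
  have h1 := X_lo' h hx
  have h2 := X_le_D h hy hxy
  have h3 := b10 h
  have h4 := D_pos h x.1
  have h5 := D_anti h ht
  have h6 : S.D x.1 ≤ S.b * (S.X x - S.X y) := by nlinarith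
  have h7 : (S.X x - S.X y) * (S.b : ℤ) ^ 2 = S.b * (S.b * (S.X x - S.X y)) := by ring
  rw [h7]
  nlinarith

lemma far (h : Ok0 S) {t : ℕ} (ht : t ≤ S.k) {x y : ℕ × ℤ} (hx : x ∈ S.U) (hy : y ∈ S.U)
    (hR : ¬ S.R t x y) : S.D t < |S.X x - S.X y| * (S.b : ℤ) ^ 2 := by
  have hb2 : (0 : ℤ) ≤ (S.b : ℤ) ^ 2 := pow_nonneg (bpos h).le _
  have hle : ∀ u : ℤ, u * (S.b : ℤ) ^ 2 ≤ |u| * (S.b : ℤ) ^ 2 :=
    fun u => mul_le_mul_of_nonneg_right (le_abs_self u) hb2
  rcases lt_trichotomy x.1 y.1 with h1 | h1 | h1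
  · have h2 : x.1 ≤ t := by
      by_contra hcon
      push Not at hcon
      exact hR (Or.inl ⟨hcon, by omega⟩)
    have hx1 : x ∈ S.Uh := by
      rcases mem_U.1 hx with rfl | hx
      · exfalso
        have : S.zero.1 = S.k + 1 := rfl
        omega
      · exact hx
    exact (far_diff h hx1 hy h1 h2).trans_le (hle _)
  · have h2 : x.1 ≤ t := by
      by_contra hcon
      push Not at hcon
      exact hR (Or.inl ⟨hcon, by omega⟩)
    have hx1 : x ∈ S.Uh := by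
      rcases mem_U.1 hx with rfl | hx
      · exfalso
        have : S.zero.1 = S.k + 1 := rfl
        omega
      · exact hx
    have hy1 : y ∈ S.Uh := by
      rcases mem_U.1 hy with rfl | hy
      · exfalso
        have : S.zero.1 = S.k + 1 := rfl
        omega
      · exact hy
    have h3 : ¬ S.E (t - x.1) x.2 y.2 := fun h4 => hR (Or.inr ⟨h1, h2, h4⟩)
    have h4 := h.far (t - x.1) x.2 (mem_Uh.1 hx1).2 y.2 (mem_Uh.1 hy1).2 h3
    unfold Dat.X Dat.D
    rw [← h1, ← mul_sub, abs_mul, abs_of_nonneg (pow_nonneg (bpos h).le _)]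
    have h5 : (S.b : ℤ) ^ (3 * (S.k - x.1))
        = (S.b : ℤ) ^ (3 * (S.k - t)) * (S.b : ℤ) ^ (3 * (t - x.1)) := by
      rw [← pow_add]; congr 1; omega
    rw [h5, mul_assoc, mul_assoc]
    apply mul_lt_mul_of_pos_left _ (pow_pos (bpos h) _)
    calc (S.P : ℤ) < |x.2 - y.2| * (S.b : ℤ) ^ (3 * (t - x.1) + 2) := h4
      _ = _ := by rw [pow_add]; ring
  · have h2 : y.1 ≤ t := by
      by_contra hcon
      push Not at hcon
      exact hR (Or.inl ⟨by omega, hcon⟩)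
    have hy1 : y ∈ S.Uh := by
      rcases mem_U.1 hy with rfl | hy
      · exfalso
        have : S.zero.1 = S.k + 1 := rfl
        omega
      · exact hy
    rw [abs_sub_comm]
    exact (far_diff h hy1 hx h1 h2).trans_le (hle _)

end TreeA

open TreeA in
theorem TreeA_proof : Stmt_TreeA := by
  intro F _ S h
  refine
    { refl := ?_, symm := ?_, trans := ?_, mono := ?_, root := ?_, near := ?_, far := ?_,
      Dpos := D_pos h, DP := ?_, Dsucc := fun t ht => D_succ t ht,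
      Danti := fun t t' ht => D_anti h ht, Xnonneg := fun x hx => X_nonneg h hx,
      Xlo := fun x hx => X_lo h hx, Xhi := fun x hx => X_hi h hx }
  · intro t x
    rcases Nat.lt_or_ge t x.1 with h1 | h1
    · exact Or.inl ⟨h1, h1⟩
    · exact Or.inr ⟨rfl, h1, (h.equiv _).refl _⟩
  · rintro t x y (⟨h1, h2⟩ | ⟨h1, h2, h3⟩)
    · exact Or.inl ⟨h2, h1⟩
    · exact Or.inr ⟨h1.symm, h1 ▸ h2, by rw [← h1]; exact (h.equiv _).symm h3⟩
  · rintro t x y z (⟨h1, h2⟩ | ⟨h1, h2, h3⟩) (⟨h4, h5⟩ | ⟨h4, h5, h6⟩)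
    · exact Or.inl ⟨h1, h5⟩
    · omega
    · omega
    · exact Or.inr ⟨h1.trans h4, h2, (h.equiv _).trans h3 (by rw [h1]; exact h6)⟩
  · intro t t' x y htt
    induction t', htt using Nat.le_induction with
    | base => exact id
    | succ s hs ih =>
      intro h1
      apply ih
      rcases h1 with ⟨h1, h2⟩ | ⟨h1, h2, h3⟩
      · exact Or.inl ⟨by omega, by omega⟩
      · rcases Nat.lt_or_ge s x.1 with h4 | h4
        · exact Or.inl ⟨h4, by omega⟩
        · refine Or.inr ⟨h1, h4, h.mono _ _ _ ?_⟩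
          rwa [show s - x.1 + 1 = s + 1 - x.1 by omega]
  · intro x hx y hy
    have hpos : ∀ z ∈ S.U, 0 < z.1 := by
      intro z hz
      rcases mem_U.1 hz with rfl | hz
      · exact Nat.succ_pos _
      · have := (mem_Uh.1 hz).1.1
        omega
    exact Or.inl ⟨hpos x hx, hpos y hy⟩
  · intro t ht x hx y hy hR
    exact TreeA.near h ht hx hy hR
  · intro t ht x hx y hy hR
    exact TreeA.far h ht hx hy hR
  · intro t
    unfold Dat.D
    have h1 : (1 : ℤ) ≤ (S.b : ℤ) ^ (3 * (S.k - t)) := one_le_pow₀ (by linarith [b10 h])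
    have := Ppos h
    nlinarith

end Pool.Agent.SPD
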