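import Pool.Agent.SPD.Stmts

set_option autoImplicit false

/-!
Superpolylogarithmic number of digit changes of `√2`: main children and numbers of points.
-/

open Finset

namespace Pool.Agent.SPD

namespace TreeB

variable {F : Type} {S : Dat F}

theorem mem_U {x : ℕ × ℤ} : x ∈ S.U ↔ x = S.zero ∨ x ∈ S.Uh := by
  simp [Dat.U]

theorem mem_Uh {x : ℕ × ℤ} : x ∈ S.Uh ↔ (1 ≤ x.1 ∧ x.1 ≤ S.k) ∧ x.2 ∈ S.V0 := by
  simp [Dat.Uh, Finset.mem_product]

theorem mem_cls {s : ℕ} {v u : ℤ} : u ∈ S.cls s v ↔ u ∈ S.V0 ∧ S.E s v u := by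
  simp [Dat.cls]

theorem cls_congr (h : Ok0 S) {s : ℕ} {v v' : ℤ} (e : S.E s v v') : S.cls s v = S.cls s v' := by
  ext u
  rw [mem_cls, mem_cls]
  exact ⟨fun ⟨a, b⟩ => ⟨a, (h.equiv s).trans ((h.equiv s).symm e) b⟩,
    fun ⟨a, b⟩ => ⟨a, (h.equiv s).trans e b⟩⟩

theorem self_mem_cls (h : Ok0 S) {s : ℕ} {v : ℤ} (hv : v ∈ S.V0) : v ∈ S.cls s v :=
  mem_cls.2 ⟨hv, (h.equiv s).refl v⟩

theorem choose_congr {A B : Finset ℤ} (f : ℤ → ℕ) (e : A = B) (hA : A.Nonempty)
    (hB : B.Nonempty) : Classical.choose (Finset.exists_max_image A f hA) =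
      Classical.choose (Finset.exists_max_image B f hB) := by
  subst e; rfl

theorem mc_congr (h : Ok0 S) {s : ℕ} {v v' : ℤ} (hv : v ∈ S.V0) (e : S.E s v v') :
    S.mc s v = S.mc s v' := by
  have h1 := cls_congr h e
  have h2 : (S.cls s v).Nonempty := ⟨v, self_mem_cls h hv⟩
  have h3 : (S.cls s v').Nonempty := h1 ▸ h2
  unfold Dat.mc
  rw [dif_pos h2, dif_pos h3]
  exact choose_congr _ h1 h2 h3

theorem mc_spec (h : Ok0 S) {s : ℕ} {v : ℤ} (hv : v ∈ S.V0) :
    S.mc s v ∈ S.cls s v ∧ ∀ u ∈ S.cls s v, (S.cls (s + 1) u).card ≤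
      (S.cls (s + 1) (S.mc s v)).card := by
  have h2 : (S.cls s v).Nonempty := ⟨v, self_mem_cls h hv⟩
  unfold Dat.mc
  rw [dif_pos h2]
  exact Classical.choose_spec (Finset.exists_max_image (S.cls s v)
    (fun u => (S.cls (s + 1) u).card) h2)

theorem Mn_lt {t : ℕ} {x : ℕ × ℤ} (h : t < x.1) : S.Mn t x ↔ t + 1 < x.1 := by
  unfold Dat.Mn; rw [if_pos h]

theorem Mn_ge {t : ℕ} {x : ℕ × ℤ} (h : x.1 ≤ t) :
    S.Mn t x ↔ S.E (t - x.1 + 1) (S.mc (t - x.1) x.2) x.2 := by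
  unfold Dat.Mn; rw [if_neg (not_lt.2 h)]

theorem R_lt {t : ℕ} {x y : ℕ × ℤ} (h : t < x.1) : S.R t x y ↔ t < y.1 := by
  unfold Dat.R
  constructor
  · rintro (h1 | h1)
    · exact h1.2
    · omega
  · intro h1; exact Or.inl ⟨h, h1⟩

theorem R_ge {t : ℕ} {x y : ℕ × ℤ} (h : x.1 ≤ t) :
    S.R t x y ↔ x.1 = y.1 ∧ S.E (t - x.1) x.2 y.2 := by
  unfold Dat.R
  constructor
  · rintro (h1 | h1)
    · omega
    · exact ⟨h1.1, h1.2.2⟩
  · intro h1; exact Or.inr ⟨h1.1, h, h1.2⟩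

/-- two points of `U` at the same scale: equal to zero, or both in `Uh` -/
theorem same_scale {x y : ℕ × ℤ} (hx : x ∈ S.U) (hy : y ∈ S.U) (h : x.1 = y.1) :
    x = y ∨ (x ∈ S.Uh ∧ y ∈ S.Uh) := by
  rcases mem_U.1 hx with rfl | hx'
  · rcases mem_U.1 hy with rfl | hy'
    · exact Or.inl rfl
    · have := (mem_Uh.1 hy').1.2
      simp only [Dat.zero] at h
      omega
  · rcases mem_U.1 hy with rfl | hy'
    · have := (mem_Uh.1 hx').1.2
      simp only [Dat.zero] at h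
      omega
    · exact Or.inr ⟨hx', hy'⟩

theorem mn_iff (h : Ok0 S) {t : ℕ} {x y : ℕ × ℤ} (hx : x ∈ S.U) (hy : y ∈ S.U)
    (hs : x.1 = y.1) (ht : x.1 ≤ t) (e : S.E (t - x.1) x.2 y.2) :
    S.Mn t y ↔ S.E (t - x.1 + 1) (S.mc (t - x.1) x.2) y.2 := by
  rcases same_scale hx hy hs with rfl | ⟨hx', hy'⟩
  · exact Mn_ge ht
  · rw [Mn_ge (hs ▸ ht), ← hs, mc_congr h (mem_Uh.1 hx').2 e]

theorem nn_ge {t : ℕ} {x : ℕ × ℤ} (hx : x ∈ S.Uh) (ht : x.1 ≤ t) :
    S.nn t x = (S.cls (t - x.1) x.2).card := by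
  classical
  unfold Dat.nn
  apply Finset.card_bij (fun y _ => y.2)
  · intro y hy
    rw [Finset.mem_filter] at hy
    rw [mem_cls]
    exact ⟨(mem_Uh.1 hy.1).2, ((R_ge ht).1 hy.2).2⟩
  · intro y hy z hz hyz
    rw [Finset.mem_filter] at hy hz
    have h1 := ((R_ge ht).1 hy.2).1
    have h2 := ((R_ge ht).1 hz.2).1
    exact Prod.ext (h1.symm.trans h2) hyz
  · intro u hu
    rw [mem_cls] at hu
    refine ⟨(x.1, u), ?_, rfl⟩
    rw [Finset.mem_filter]
    exact ⟨mem_Uh.2 ⟨(mem_Uh.1 hx).1, hu.1⟩, (R_ge ht).2 ⟨rfl, hu.2⟩⟩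

theorem nn_lt {t : ℕ} {x : ℕ × ℤ} (ht : t < x.1) :
    S.nn t x = (S.k - t) * S.V0.card := by
  classical
  have : S.Uh.filter (fun y => S.R t x y) = Icc (t + 1) S.k ×ˢ S.V0 := by
    ext y
    rw [Finset.mem_filter, mem_Uh, R_lt ht, Finset.mem_product, Finset.mem_Icc]
    constructor
    · rintro ⟨⟨⟨_, h2⟩, h3⟩, h4⟩
      exact ⟨⟨h4, h2⟩, h3⟩
    · rintro ⟨⟨h1, h2⟩, h3⟩
      exact ⟨⟨⟨by omega, h2⟩, h3⟩, by omega⟩
  have h2 : S.nn t x = (Icc (t + 1) S.k ×ˢ S.V0).card := by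
    rw [← this, Dat.nn]
  rw [h2, Finset.card_product, Nat.card_Icc]
  congr 1
  omega

theorem cls_mono (h : Ok0 S) {s : ℕ} {v : ℤ} : S.cls (s + 1) v ⊆ S.cls s v := by
  intro u hu
  rw [mem_cls] at hu ⊢
  exact ⟨hu.1, h.mono s _ _ hu.2⟩

end TreeB

open TreeB

theorem TreeB_proof : Stmt_TreeB := by
  intro F _ S h hA
  classical
  have hmain : ∀ t, ∀ x ∈ S.U, ∀ y ∈ S.U, S.R t x y → S.Mn t x → S.Mn t y →
      S.R (t + 1) x y := by
    intro t x hx y hy hR hMx hMy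
    rcases lt_or_ge t x.1 with ht | ht
    · have hy1 := (R_lt ht).1 hR
      exact Or.inl ⟨(Mn_lt ht).1 hMx, (Mn_lt hy1).1 hMy⟩
    · obtain ⟨h1, h2⟩ := (R_ge ht).1 hR
      have h3 := (Mn_ge ht).1 hMx
      have h4 := (mn_iff h hx hy h1 ht h2).1 hMy
      refine (R_ge (ht.trans (Nat.le_succ t))).2 ⟨h1, ?_⟩
      rw [show t + 1 - x.1 = t - x.1 + 1 by omega]
      exact (h.equiv _).trans ((h.equiv _).symm h3) h4
  have hmnR : ∀ t, ∀ x ∈ S.U, ∀ y ∈ S.U, S.R (t + 1) x y → (S.Mn t x ↔ S.Mn t y) := by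
    intro t x hx y hy hR
    rcases lt_or_ge (t + 1) x.1 with ht | ht
    · have hy1 := (R_lt ht).1 hR
      rw [Mn_lt (by omega), Mn_lt (by omega)]
      exact ⟨fun _ => hy1, fun _ => ht⟩
    · obtain ⟨h1, h2⟩ := (R_ge ht).1 hR
      rcases Nat.lt_or_ge t x.1 with ht' | ht'
      · rw [Mn_lt ht', Mn_lt (by omega)]
        omega
      · rw [show t + 1 - x.1 = t - x.1 + 1 by omega] at h2
        rw [mn_iff h hx hy h1 ht' (h.mono _ _ _ h2), Mn_ge ht']
        exact ⟨fun a => (h.equiv _).trans a h2, fun a => (h.equiv _).trans a ((h.equiv _).symm h2)⟩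
  have hsub : ∀ {x}, x ∈ S.Uh → x ∈ S.U := fun hx => mem_U.2 (Or.inr hx)
  have hdep : ∀ t, ∀ x ∈ S.U, ¬ S.Mn t x → S.nn (t + 1) x ≤ S.nm t x := by
    intro t x hx hM
    apply Finset.card_le_card
    intro y hy
    rw [Finset.mem_filter] at hy ⊢
    refine ⟨hy.1, hA.mono t (t + 1) x y (Nat.le_succ t) hy.2, ?_⟩
    rw [← hmnR t x hx y (hsub hy.1) hy.2]
    exact hM
  have hUc : S.Uh.card = S.k * S.V0.card := by
    unfold Dat.Uh
    rw [Finset.card_product, Nat.card_Icc, Nat.add_sub_cancel]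
  refine
    { main := hmain
      mnR := hmnR
      nnR := ?_
      nmR := ?_
      nn_anti := ?_
      nn_pos := ?_
      nn_root := ?_
      nn_main := ?_
      nn_dep := hdep
      half := ?_
      zero_main := ?_
      zero_nn := ?_
      zero_nm := ?_
      dep_self := ?_
      Uh_card := hUc }
  · intro t x y hR
    unfold Dat.nn
    congr 1
    apply Finset.filter_congr
    intro z _
    exact ⟨fun a => hA.trans _ _ _ _ (hA.symm _ _ _ hR) a, fun a => hA.trans _ _ _ _ hR a⟩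
  · intro t x y hR
    unfold Dat.nm
    congr 1
    apply Finset.filter_congr
    intro z _
    exact ⟨fun a => ⟨hA.trans _ _ _ _ (hA.symm _ _ _ hR) a.1, a.2⟩,
      fun a => ⟨hA.trans _ _ _ _ hR a.1, a.2⟩⟩
  · intro t t' x htt
    apply Finset.card_le_card
    intro y hy
    rw [Finset.mem_filter] at hy ⊢
    exact ⟨hy.1, hA.mono t t' x y htt hy.2⟩
  · intro t x hx
    apply Finset.card_pos.2
    exact ⟨x, Finset.mem_filter.2 ⟨hx, hA.refl t x⟩⟩
  · intro x hx
    unfold Dat.nn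
    congr 1
    apply Finset.filter_true_of_mem
    intro y hy
    exact hA.root x hx y (hsub hy)
  · intro t x hx hM
    have h1 : S.nn (t + 1) x = (S.Uh.filter (fun y => S.R t x y ∧ S.Mn t y)).card := by
      unfold Dat.nn
      congr 1
      apply Finset.filter_congr
      intro y hy
      constructor
      · intro a
        exact ⟨hA.mono t (t + 1) x y (Nat.le_succ t) a, (hmnR t x hx y (hsub hy) a).1 hM⟩
      · intro a
        exact hmain t x hx y (hsub hy) a.1 hM a.2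
    rw [h1]
    unfold Dat.nn Dat.nm
    rw [← Finset.filter_filter, ← Finset.filter_filter]
    exact Finset.card_filter_add_card_filter_not _
  · intro t htk x hx hM
    rcases Nat.lt_or_ge t x.1 with ht | ht
    · rw [Mn_lt ht] at hM
      have hx1 : x.1 = t + 1 := by omega
      have hxU : x ∈ S.Uh := by
        rcases mem_U.1 hx with rfl | hx'
        · simp only [Dat.zero] at hx1; omega
        · exact hx'
      rw [nn_lt ht, nn_ge hxU hx1.le]
      have h1 : (S.cls (t + 1 - x.1) x.2).card ≤ S.V0.card :=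
        Finset.card_le_card (Finset.filter_subset _ _)
      have h2 : 2 ≤ S.k - t := by omega
      calc 2 * (S.cls (t + 1 - x.1) x.2).card ≤ 2 * S.V0.card := by omega
        _ ≤ (S.k - t) * S.V0.card := Nat.mul_le_mul_right _ h2
    · have hxU : x ∈ S.Uh := by
        rcases mem_U.1 hx with rfl | hx'
        · simp only [Dat.zero] at ht; omega
        · exact hx'
      rw [nn_ge hxU ht, nn_ge hxU (ht.trans (Nat.le_succ t)),
        show t + 1 - x.1 = t - x.1 + 1 by omega]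
      rw [Mn_ge ht] at hM
      set s := t - x.1 with hs
      have hv := (mem_Uh.1 hxU).2
      obtain ⟨hm1, hm2⟩ := mc_spec (s := s) h hv
      have h3 := hm2 x.2 (self_mem_cls h hv)
      have h4 : S.cls s (S.mc s x.2) = S.cls s x.2 :=
        (cls_congr h (mem_cls.1 hm1).2).symm
      have h5 : Disjoint (S.cls (s + 1) x.2) (S.cls (s + 1) (S.mc s x.2)) := by
        rw [Finset.disjoint_left]
        intro u hu hu'
        rw [mem_cls] at hu hu'
        exact hM ((h.equiv _).trans hu'.2 ((h.equiv _).symm hu.2))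
      have h6 : S.cls (s + 1) x.2 ∪ S.cls (s + 1) (S.mc s x.2) ⊆ S.cls s x.2 :=
        Finset.union_subset (cls_mono h) ((cls_mono h).trans h4.le)
      have h7 := Finset.card_le_card h6
      rw [Finset.card_union_of_disjoint h5] at h7
      omega
  · intro t ht
    have h0 : t < (S.zero).1 := by simp only [Dat.zero]; omega
    rw [Mn_lt h0]
    simp only [Dat.zero]; omega
  · intro t ht
    exact nn_lt (by simp only [Dat.zero]; omega)
  · intro t ht
    have h0 : t < (S.zero).1 := by simp only [Dat.zero]; omega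
    have : S.Uh.filter (fun y => S.R t S.zero y ∧ ¬ S.Mn t y) = {t + 1} ×ˢ S.V0 := by
      ext y
      rw [Finset.mem_filter, mem_Uh, R_lt h0, Finset.mem_product, Finset.mem_singleton]
      constructor
      · rintro ⟨⟨⟨_, h2⟩, h3⟩, h4, h5⟩
        rw [Mn_lt h4] at h5
        exact ⟨by omega, h3⟩
      · rintro ⟨h1, h3⟩
        exact ⟨⟨⟨by omega, by omega⟩, h3⟩, by omega, by rw [Mn_lt (by omega)]; omega⟩
    have h2 : S.nm t S.zero = (({t + 1} : Finset ℕ) ×ˢ S.V0).card := by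
      rw [← this, Dat.nm]
    rw [h2, Finset.card_product, Finset.card_singleton, one_mul]
  · intro x hx
    have h1 := (mem_Uh.1 hx).1.1
    rw [Mn_lt (by omega)]
    omega

end Pool.Agent.SPD
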