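import Pool.Agent.SPD.TreeB

set_option autoImplicit false

/-!
Superpolylogarithmic number of digit changes of `√2`: the centres of the clusters.
-/

open Finset

namespace Pool.Agent.SPD

namespace TreeC

open TreeB

variable {F : Type} {S : Dat F}

theorem mc_mem (h : Ok0 S) {s : ℕ} {v : ℤ} (hv : v ∈ S.V0) :
    S.mc s v ∈ S.V0 ∧ S.E s v (S.mc s v) := mem_cls.1 (mc_spec h hv).1

theorem cenF_mem (h : Ok0 S) : ∀ (f s : ℕ) (v : ℤ), v ∈ S.V0 →
    S.cenF f s v ∈ S.V0 ∧ S.E s v (S.cenF f s v) := by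
  intro f
  induction f with
  | zero => intro s v hv; exact ⟨hv, (h.equiv s).refl v⟩
  | succ f ih =>
    intro s v hv
    have h1 := mc_mem (s := s) h hv
    have h2 := ih (s + 1) (S.mc s v) h1.1
    rw [Dat.cenF]
    exact ⟨h2.1, (h.equiv s).trans h1.2 (h.mono _ _ _ h2.2)⟩

theorem cenF_congr (h : Ok0 S) {f s : ℕ} {v v' : ℤ} (hf : f ≠ 0) (hv : v ∈ S.V0)
    (e : S.E s v v') : S.cenF f s v = S.cenF f s v' := by
  obtain ⟨f, rfl⟩ := Nat.exists_eq_succ_of_ne_zero hf
  rw [Dat.cenF, Dat.cenF, mc_congr h hv e]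

theorem cenF_main (h : Ok0 S) : ∀ (f s : ℕ) (v : ℤ), v ∈ S.V0 → ∀ s', s ≤ s' → s' < s + f →
    S.E (s' + 1) (S.mc s' (S.cenF f s v)) (S.cenF f s v) := by
  intro f
  induction f with
  | zero => intro s v _ s' h1 h2; omega
  | succ f ih =>
    intro s v hv s' h1 h2
    have h3 := mc_mem (s := s) h hv
    have h4 := cenF_mem h f (s + 1) (S.mc s v) h3.1
    have h5 := cenF_mem h (f + 1) s v hv
    rw [Dat.cenF] at h5 ⊢
    rcases Nat.eq_or_lt_of_le h1 with rfl | h1'
    · rw [← mc_congr h hv h5.2]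
      exact h4.2
    · exact ih (s + 1) (S.mc s v) h3.1 s' h1' (by omega)

theorem cenU_lt {t : ℕ} {x : ℕ × ℤ} (h : t < x.1) : S.cenU t x = S.zero := by
  unfold Dat.cenU; rw [if_pos h]

theorem cenU_ge {t : ℕ} {x : ℕ × ℤ} (h : x.1 ≤ t) :
    S.cenU t x = (x.1, S.cen (t - x.1) x.2) := by
  unfold Dat.cenU; rw [if_neg (not_lt.2 h)]

theorem mem_Uh_of_le {t : ℕ} (ht : t ≤ S.k) {x : ℕ × ℤ} (hx : x ∈ S.U) (h : x.1 ≤ t) :
    x ∈ S.Uh := by
  rcases mem_U.1 hx with rfl | hx'
  · simp only [Dat.zero] at h; omega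
  · exact hx'

end TreeC

open TreeB TreeC

theorem TreeC_proof : Stmt_TreeC := by
  intro F _ S h hA
  classical
  have hVs : S.V ⊆ S.Uh := Finset.filter_subset _ _
  have hzU : S.zero ∈ S.U := mem_U.2 (Or.inl rfl)
  have hsub : S.Uh ⊆ S.U := fun x hx => mem_U.2 (Or.inr hx)
  have hVps : S.Vp ⊆ S.U := by
    intro x hx
    rcases Finset.mem_insert.1 hx with rfl | hx
    · exact hzU
    · exact hsub (hVs hx)
  refine
    { cen_mem := ?_
      cen_R := ?_
      cen_main := ?_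
      cen_eq := ?_
      V_eq := ?_
      V_sub := hVs
      Vp_sub := hVps
      cw_ne := ?_ }
  · intro t ht x hx
    rcases lt_or_ge t x.1 with h1 | h1
    · rw [cenU_lt h1]; exact hzU
    · have hx' := mem_Uh_of_le ht hx h1
      rw [cenU_ge h1]
      exact hsub (mem_Uh.2 ⟨(mem_Uh.1 hx').1, (cenF_mem h _ _ _ (mem_Uh.1 hx').2).1⟩)
  · intro t ht x hx
    rcases lt_or_ge t x.1 with h1 | h1
    · rw [cenU_lt h1, R_lt h1]; simp only [Dat.zero]; omega
    · have hx' := mem_Uh_of_le ht hx h1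
      rw [cenU_ge h1, R_ge h1]
      exact ⟨rfl, (cenF_mem h _ _ _ (mem_Uh.1 hx').2).2⟩
  · intro t t' htt ht' x hx
    rcases lt_or_ge t x.1 with h1 | h1
    · rw [cenU_lt h1, Mn_lt (by simp only [Dat.zero]; omega)]
      simp only [Dat.zero]; omega
    · have hx' := mem_Uh_of_le (htt.trans ht'.le) hx h1
      have h2 := (mem_Uh.1 hx').1
      rw [cenU_ge h1, Mn_ge (x := (x.1, S.cen (t - x.1) x.2)) (h1.trans htt)]
      exact cenF_main h _ _ _ (mem_Uh.1 hx').2 _ (by simp only; omega) (by simp only; omega)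
  · intro t ht x hx y hy hR
    rcases lt_or_ge t x.1 with h1 | h1
    · rw [cenU_lt h1, cenU_lt ((R_lt h1).1 hR)]
    · have hx' := mem_Uh_of_le ht hx h1
      have h2 := (mem_Uh.1 hx').1
      obtain ⟨h3, h4⟩ := (R_ge h1).1 hR
      rw [cenU_ge h1, cenU_ge (h3 ▸ h1), ← h3]
      unfold Dat.cen
      rw [cenF_congr h (by omega) (mem_Uh.1 hx').2 h4]
  · have key : ∀ x ∈ S.V, ∀ y ∈ S.Vp, S.R S.k x y → x = y := by
      intro x hx y hy hR
      have hx' := mem_Uh.1 (hVs hx)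
      obtain ⟨h3, h4⟩ := (R_ge hx'.1.2).1 hR
      rcases Finset.mem_insert.1 hy with rfl | hy
      · simp only [Dat.zero] at h3
        have := hx'.1.2
        omega
      · have e1 := (Finset.mem_filter.1 hx).2.1
        have e2 := (Finset.mem_filter.1 hy).2.1
        rw [← h3] at e2
        unfold Dat.cen at e1 e2
        rw [cenF_congr h (by omega) hx'.2 h4, e2] at e1
        exact Prod.ext h3 e1.symm
    intro x hx y hy hR
    rcases Finset.mem_insert.1 hx with rfl | hx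
    · rcases Finset.mem_insert.1 hy with rfl | hy
      · rfl
      · have h1 := (R_lt (by simp only [Dat.zero]; omega)).1 hR
        have := (mem_Uh.1 (hVs hy)).1.2
        omega
    · exact key x hx y hy hR
  · intro x hx
    exact (Finset.mem_filter.1 hx).2.2

end Pool.Agent.SPD
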