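import Pool.Agent.SPD.Stmts1

set_option autoImplicit false

/-!
The number of clusters of nonzero weight.
-/

open Finset

namespace Pool.Agent.SPD

namespace Vis

/-- the properties of the clusters that are used -/
structure Clu {p : ℕ} (G : ℤ → ZMod p) (J : Finset ℤ) (b P : ℕ) : Prop where
  equiv : ∀ s, Equivalence (EE J b P s)
  mono : ∀ s t, s ≤ t → ∀ v v', EE J b P t v v' → EE J b P s v v'
  uniq : ∀ s, ∀ v ∈ vis G J b P s, ∀ v' ∈ vis G J b P s, EE J b P s v v' → v = v'
  ex : ∀ s, ∀ x ∈ J, wt G J b P s x ≠ 0 → ∃ v ∈ vis G J b P s, EE J b P s v x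
  wt_eq : ∀ s v v', EE J b P s v v' → wt G J b P s v = wt G J b P s v'

theorem mk_cl (hEEs : Stmt_EEs) {p : ℕ} (G : ℤ → ZMod p) (J : Finset ℤ) (b P : ℕ) (hb : 1 ≤ b)
    (hP : 1 ≤ P) : Clu G J b P := by
  obtain ⟨h1, h2, _, _, h5, h6, h7⟩ := hEEs p G J b P hb hP
  refine ⟨h1, ?_, h5, h6, h7⟩
  intro s t hst
  induction t, hst using Nat.le_induction with
  | base => exact fun v v' h => h
  | succ t _ ih => exact fun v v' h => ih v v' (h2 t v v' h)

variable {p : ℕ} {G : ℤ → ZMod p} {J : Finset ℤ} {b P : ℕ}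

open Classical in
/-- the sum over a union of classes of weight zero -/
theorem sum_zero (h : Clu G J b P) (t : ℕ) (A : Finset ℤ) (hA : A ⊆ J)
    (hA' : ∀ x ∈ A, ∀ y ∈ J, EE J b P t x y → y ∈ A) (h0 : ∀ x ∈ A, wt G J b P t x = 0) :
    ∑ x ∈ A, (G x - G (x - 1)) = 0 := by
  refine Finset.sum_cancels_of_partition_cancels ⟨EE J b P t, h.equiv t⟩ ?_
  intro x hx
  rw [← h0 x hx]
  unfold wt
  apply Finset.sum_congr _ (fun _ _ => rfl)
  ext y
  rw [mem_filter, mem_filter]
  constructor
  · rintro ⟨hy, hyx⟩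
    exact ⟨hA hy, (h.equiv t).symm hyx⟩
  · rintro ⟨hy, hyx⟩
    exact ⟨hA' x hx y hy hyx, (h.equiv t).symm hyx⟩

/-- a cluster of nonzero weight has a subcluster of nonzero weight -/
theorem sub_ne (h : Clu G J b P) {s t : ℕ} (hst : s ≤ t) {v : ℤ} (hv : wt G J b P s v ≠ 0) :
    ∃ u ∈ vis G J b P t, EE J b P s v u := by
  classical
  by_contra hcon
  push Not at hcon
  apply hv
  unfold wt
  refine sum_zero h t _ (filter_subset _ _) ?_ ?_
  · intro x hx y hy hxy
    rw [mem_filter] at hx ⊢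
    exact ⟨hy, (h.equiv s).trans hx.2 (h.mono s t hst _ _ hxy)⟩
  · intro x hx
    rw [mem_filter] at hx
    by_contra hne
    obtain ⟨u, hu, hux⟩ := h.ex t x hx.1 hne
    exact hcon u hu ((h.equiv s).trans hx.2 ((h.equiv s).symm (h.mono s t hst _ _ hux)))

theorem vis_mem {s : ℕ} {v : ℤ} (hv : v ∈ vis G J b P s) : v ∈ J ∧ wt G J b P s v ≠ 0 := by
  classical
  unfold vis at hv
  rw [mem_filter] at hv
  exact ⟨hv.1, hv.2.2⟩

theorem card_le (h : Clu G J b P) {s t : ℕ} (hst : s ≤ t) :
    (vis G J b P s).card ≤ (vis G J b P t).card := by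
  classical
  have h1 : ∀ v ∈ vis G J b P s, ∃ u ∈ vis G J b P t, EE J b P s v u :=
    fun v hv => sub_ne h hst (vis_mem hv).2
  choose! f hf hf' using h1
  refine Finset.card_le_card_of_injOn f hf ?_
  intro v hv v' hv' he
  apply h.uniq s v hv v' hv'
  have h2 := hf' v' hv'
  rw [← he] at h2
  exact (h.equiv s).trans (hf' v hv) ((h.equiv s).symm h2)

open Classical in
/-- the weight of a cluster is the sum of the weights of the subclusters -/
theorem wt_sum (h : Clu G J b P) {s t : ℕ} (hst : s ≤ t) (v : ℤ) :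
    ∑ u ∈ (vis G J b P t).filter (fun u => EE J b P s v u), wt G J b P t u = wt G J b P s v := by
  set C := J.filter (fun x => EE J b P s v x) with hC
  have h1 : wt G J b P s v = ∑ x ∈ C.filter (fun x => wt G J b P t x ≠ 0), (G x - G (x - 1))
      + ∑ x ∈ C.filter (fun x => ¬ wt G J b P t x ≠ 0), (G x - G (x - 1)) := by
    rw [Finset.sum_filter_add_sum_filter_not]
    unfold wt
    rw [hC]
  have h2 : ∑ x ∈ C.filter (fun x => ¬ wt G J b P t x ≠ 0), (G x - G (x - 1)) = 0 := by
    refine sum_zero h t _ ((filter_subset _ _).trans (filter_subset _ _)) ?_ ?_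
    · intro x hx y hy hxy
      rw [mem_filter, hC, mem_filter] at hx ⊢
      refine ⟨⟨hy, (h.equiv s).trans hx.1.2 (h.mono s t hst _ _ hxy)⟩, ?_⟩
      rw [← h.wt_eq t x y hxy]
      exact hx.2
    · intro x hx
      rw [mem_filter] at hx
      exact not_not.1 hx.2
  rw [h1, h2, add_zero]
  have h3 : C.filter (fun x => wt G J b P t x ≠ 0) =
      ((vis G J b P t).filter (fun u => EE J b P s v u)).biUnion
        (fun u => J.filter (fun x => EE J b P t u x)) := by
    ext x
    rw [mem_filter, hC, mem_filter, mem_biUnion]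
    constructor
    · rintro ⟨⟨hx, hvx⟩, hne⟩
      obtain ⟨u, hu, hux⟩ := h.ex t x hx hne
      refine ⟨u, mem_filter.2 ⟨hu, ?_⟩, mem_filter.2 ⟨hx, hux⟩⟩
      exact (h.equiv s).trans hvx ((h.equiv s).symm (h.mono s t hst _ _ hux))
    · rintro ⟨u, hu, hx⟩
      rw [mem_filter] at hu hx
      refine ⟨⟨hx.1, (h.equiv s).trans hu.2 (h.mono s t hst _ _ hx.2)⟩, ?_⟩
      rw [← h.wt_eq t u x hx.2]
      exact (vis_mem hu.1).2
  rw [h3, Finset.sum_biUnion]
  · apply Finset.sum_congr rfl
    intro u _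
    rfl
  · intro u hu u' hu' hne
    rw [Finset.mem_coe, mem_filter] at hu hu'
    rw [Function.onFun, Finset.disjoint_left]
    intro x hx hx'
    rw [mem_filter] at hx hx'
    exact hne (h.uniq t u hu.1 u' hu'.1 ((h.equiv t).trans hx.2 ((h.equiv t).symm hx'.2)))

theorem mem_V {F : Type} [AddCommMonoid F] (S : Dat F) (x : ℕ × ℤ) :
    x ∈ S.V ↔ x ∈ S.Uh ∧ S.cen (S.k - x.1) x.2 = x.2 ∧ S.cw x ≠ 0 := by
  classical
  unfold Dat.V
  rw [mem_filter]

end Vis

open Vis in
theorem Vis_proof (hEEs : Stmt_EEs) (hOk : Stmt_Ok0) (hA : Stmt_TreeA) (hC : Stmt_TreeC) :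
    Stmt_Vis := by
  classical
  intro p N lam E m₁ b P K G hPar
  have hfact : Fact p.Prime := ⟨hPar.prime⟩
  have hb1 : 1 ≤ b := by
    rw [hPar.hb]
    exact Nat.one_le_pow _ _ hPar.prime.pos
  have hP1 : 1 ≤ P := le_trans (Nat.one_le_pow _ _ hb1) hPar.hP
  set J := jm G P ((b : ℤ) ^ 3 * P) with hJ
  have hcl : Clu G J b P := mk_cl hEEs G J b P hb1 hP1
  refine ⟨fun s => card_le hcl (Nat.le_succ s), fun s => ?_, ?_⟩
  · refine le_trans (Finset.card_le_card ?_) hPar.hyp.jmp
    intro v hv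
    have h1 := (vis_mem hv).1
    rw [hJ, jm, mem_filter, mem_Ioc] at h1
    rw [mem_filter, mem_Ico]
    refine ⟨⟨?_, ?_⟩, h1.2⟩
    · have : (0 : ℤ) ≤ P := Int.natCast_nonneg P
      linarith [h1.1.1]
    · have h2 : b ^ 3 * P ≤ b ^ (3 * K) * P := by
        apply Nat.mul_le_mul_right
        apply Nat.pow_le_pow_right hb1
        have := hPar.hK
        omega
      have h3 : ((b ^ 3 * P : ℕ) : ℤ) < (N : ℤ) := by exact_mod_cast lt_of_le_of_lt h2 hPar.hN
      push_cast at h3
      linarith [h1.1.2]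
  · intro k n hk hkK hn hnk
    have hOk' : Ok0 (dat G k b P) := hOk p N lam E m₁ b P K k G hPar hk hkK
    have hTA : TrA (dat G k b P) := hA (ZMod p) _ hOk'
    have hTC : TrC (dat G k b P) := hC (ZMod p) _ hOk' hTA
    have hcw : ∀ v, (dat G k b P).cw (n, v) = wt G J b P (k - n) v := by
      intro v
      unfold Dat.cw
      have hne : ¬ (n = (dat G k b P).k + 1) := by
        have : (dat G k b P).k = k := rfl
        omega
      rw [if_neg hne]
      exact wt_sum hcl (Nat.sub_le k n) v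
    have hUh : ∀ v, (n, v) ∈ (dat G k b P).Uh ↔ v ∈ vis G J b P k := by
      intro v
      unfold Dat.Uh
      rw [mem_product, mem_Icc]
      constructor
      · exact fun h => h.2
      · exact fun h => ⟨⟨hn, hnk⟩, h⟩
    have hV : ∀ v, (n, v) ∈ (dat G k b P).V ↔ v ∈ vis G J b P k ∧
        (dat G k b P).cen (k - n) v = v ∧ wt G J b P (k - n) v ≠ 0 := by
      intro v
      rw [mem_V, hUh, ← hcw]
      rfl
    have hR : ∀ v v', (dat G k b P).R k (n, v) (n, v') ↔ EE J b P (k - n) v v' := by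
      intro v v'
      unfold Dat.R
      constructor
      · rintro (⟨h1, _⟩ | ⟨_, _, h⟩)
        · simp only at h1
          omega
        · exact h
      · exact fun h => Or.inr ⟨rfl, hnk, h⟩
    have hcenU : ∀ v, (dat G k b P).cenU k (n, v) = (n, (dat G k b P).cen (k - n) v) := by
      intro v
      unfold Dat.cenU
      rw [if_neg (by simp only; omega)]
    apply le_antisymm
    · have h1 : ∀ x ∈ (dat G k b P).V.filter (fun x => x.1 = n),
          ∃ v ∈ vis G J b P (k - n), EE J b P (k - n) v x.2 := by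
        rintro ⟨m, v⟩ hx
        rw [mem_filter] at hx
        obtain ⟨hx, hm⟩ := hx
        simp only at hm
        subst hm
        have h2 := (hV v).1 hx
        exact hcl.ex _ _ (vis_mem h2.1).1 h2.2.2
      choose! f hf hf' using h1
      refine Finset.card_le_card_of_injOn f hf ?_
      rintro ⟨m, v⟩ hx ⟨m', v'⟩ hx' he
      have g1 := hf' _ hx
      have g2 := hf' _ hx'
      rw [← he] at g2
      rw [Finset.mem_coe, mem_filter] at hx hx'
      obtain ⟨hx, hm⟩ := hx
      obtain ⟨hx', hm'⟩ := hx'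
      simp only at hm hm' g1 g2
      subst hm
      subst hm'
      apply hTC.V_eq _ (mem_insert_of_mem hx) _ (mem_insert_of_mem hx')
      exact (hR v v').2 ((hcl.equiv _).trans ((hcl.equiv _).symm g1) g2)
    · have h1 : ∀ v ∈ vis G J b P (k - n), ∃ x ∈ (dat G k b P).V.filter (fun x => x.1 = n),
          EE J b P (k - n) v x.2 := by
        intro v hv
        obtain ⟨u, hu, hvu⟩ := sub_ne hcl (Nat.sub_le k n) (vis_mem hv).2
        have hu1 : (n, u) ∈ (dat G k b P).U := mem_insert_of_mem ((hUh u).2 hu)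
        have hmem := hTC.cen_mem k le_rfl _ hu1
        have hR1 := hTC.cen_R k le_rfl _ hu1
        have heq := hTC.cen_eq k le_rfl _ hu1 _ hmem hR1
        rw [hcenU] at hmem hR1 heq
        rw [hcenU] at heq
        have hEE := (hR _ _).1 hR1
        have hcen := (Prod.mk.inj heq).2
        refine ⟨(n, (dat G k b P).cen (k - n) u), ?_, (hcl.equiv _).trans hvu hEE⟩
        rw [mem_filter]
        refine ⟨(hV _).2 ⟨?_, hcen.symm, ?_⟩, rfl⟩
        · rw [← hUh]
          rcases Finset.mem_insert.1 hmem with h | h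
          · exfalso
            have h2 : n = k + 1 := congrArg Prod.fst h
            omega
          · exact h
        · rw [← hcl.wt_eq _ _ _ hEE, ← hcl.wt_eq _ _ _ hvu]
          exact (vis_mem hv).2
      choose! f hf hf' using h1
      refine Finset.card_le_card_of_injOn f hf ?_
      intro v hv v' hv' he
      have g2 := hf' _ hv'
      rw [← he] at g2
      exact hcl.uniq _ v hv v' hv' ((hcl.equiv _).trans (hf' v hv) ((hcl.equiv _).symm g2))

end Pool.Agent.SPD
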