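import Pool.Agent.SPD.Lex

set_option autoImplicit false

open Finset

namespace Pool.Agent.SPD

namespace Vl

theorem enc_pos (X : Finset ℕ) (h : X ≠ ∅) : 1 ≤ enc X := by
  obtain ⟨j, hj⟩ := Finset.nonempty_iff_ne_empty.2 h
  have h1 : 2 ^ j ≤ enc X := Finset.single_le_sum (f := fun j => 2 ^ j) (fun i _ => Nat.zero_le _) hj
  have h2 : 1 ≤ 2 ^ j := Nat.one_le_two_pow
  omega

theorem enc_lt (r : ℕ) (X : Finset ℕ) (h : ∀ j ∈ X, j < r) : enc X < 2 ^ r :=
  Nat.geomSum_lt (le_refl 2) h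

theorem enc_inj (X Y : Finset ℕ) (h : enc X = enc Y) : X = Y :=
  Finset.geomSum_injective (le_refl 2) h

/-- the value in terms of an enumeration of the support -/
theorem vl_eq (M N : ℕ) (α : Type) (lb : α → Fin M → Finset ℕ) (T : α) (l : ℕ)
    (e : Fin l ↪o Fin M) (he : ∀ x, lb T x ≠ ∅ ↔ ∃ a, e a = x) :
    vl N lb T = wval N (fun a => enc (lb T (e a))) := by
  unfold vl wval
  symm
  apply Finset.sum_bij (fun a _ => e a)
  · intro a _
    simp only [Finset.mem_filter, Finset.mem_univ, true_and]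
    exact (he _).2 ⟨a, rfl⟩
  · intro a _ b _ h; exact e.injective h
  · intro x hx
    obtain ⟨a, ha⟩ := (he x).1 (Finset.mem_filter.1 hx).2
    exact ⟨a, Finset.mem_univ _, ha⟩
  · intro a _
    congr 2
    have : (univ.filter (fun y => lb T y ≠ ∅ ∧ e a < y)) =
        (univ.filter (fun b : Fin l => a < b)).map e.toEmbedding := by
      ext y
      simp only [Finset.mem_filter, Finset.mem_univ, true_and, Finset.mem_map]
      constructor
      · rintro ⟨h1, h2⟩
        obtain ⟨b, rfl⟩ := (he y).1 h1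
        exact ⟨b, e.lt_iff_lt.1 h2, rfl⟩
      · rintro ⟨b, hb, rfl⟩
        exact ⟨(he _).2 ⟨b, rfl⟩, e.lt_iff_lt.2 hb⟩
    rw [this, Finset.card_map]
    have h2 : univ.filter (fun b : Fin l => a < b) = Finset.Ioi a := by
      ext b; simp
    rw [h2, Fin.card_Ioi]

theorem exists_enum {M : ℕ} {α : Type} (lb : α → Fin M → Finset ℕ) (T : α) :
    ∃ e : Fin (univ.filter (fun l => lb T l ≠ ∅)).card ↪o Fin M,
      ∀ x, lb T x ≠ ∅ ↔ ∃ a, e a = x := by
  refine ⟨(univ.filter (fun l => lb T l ≠ ∅)).orderEmbOfFin rfl, fun x => ?_⟩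
  have h1 := Finset.range_orderEmbOfFin (univ.filter (fun l => lb T l ≠ ∅)) rfl
  have h2 : x ∈ Set.range ((univ.filter (fun l => lb T l ≠ ∅)).orderEmbOfFin rfl) ↔ lb T x ≠ ∅ := by
    rw [h1]; simp
  rw [← h2]; rfl

theorem le_wval (N l : ℕ) (u : Fin l → ℕ) (hl : 0 < l) (hu : ∀ a, 1 ≤ u a) :
    N ^ (l - 1) ≤ wval N u := by
  unfold wval
  have h1 := Finset.single_le_sum (f := fun a : Fin l => u a * N ^ (l - 1 - (a : ℕ)))
    (fun i _ => Nat.zero_le _) (Finset.mem_univ (⟨0, hl⟩ : Fin l))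
  refine le_trans ?_ h1
  simp only [Nat.sub_zero]
  exact Nat.le_mul_of_pos_left _ (hu _)

end Vl

open Pool.Agent.SPD.Vl in
theorem Vl_proof : Stmt_Vl := by
  refine ⟨enc_pos, enc_lt, enc_inj, vl_eq, ?_⟩
  intro M r α lb hr
  have hlt : ∀ T, vl (2 ^ r) lb T < (2 ^ r) ^ (univ.filter (fun l => lb T l ≠ ∅)).card := by
    intro T
    obtain ⟨e, he⟩ := exists_enum lb T
    rw [vl_eq M (2 ^ r) α lb T _ e he]
    exact Pool.Agent.SPD.Lex.tail_lt _ _ _ (fun a => enc_lt r _ (hr T _))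
  refine ⟨hlt, fun T T' h => ?_⟩
  by_cases h0 : (univ.filter (fun l => lb T l ≠ ∅)).card = 0
  · rw [h0]; exact Nat.zero_le _
  obtain ⟨e, he⟩ := exists_enum lb T
  have h1 : (2 ^ r) ^ ((univ.filter (fun l => lb T l ≠ ∅)).card - 1) ≤ vl (2 ^ r) lb T := by
    rw [vl_eq M (2 ^ r) α lb T _ e he]
    exact le_wval _ _ _ (Nat.pos_of_ne_zero h0) (fun a => enc_pos _ ((he _).2 ⟨a, rfl⟩))
  have hr1 : 1 < 2 ^ r := by
    rcases Nat.eq_zero_or_pos r with rfl | hr0
    · exfalso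
      apply h0
      rw [Finset.card_eq_zero, Finset.filter_eq_empty_iff]
      intro x _ hx
      apply hx
      rw [Finset.eq_empty_iff_forall_notMem]
      intro j hj
      exact absurd (hr T x j hj) (Nat.not_lt_zero _)
    · exact Nat.one_lt_two_pow (by omega)
  have h2 := lt_of_le_of_lt (h1.trans h) (hlt T')
  have h3 := (Nat.pow_lt_pow_iff_right hr1).1 h2
  omega

end Pool.Agent.SPD
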