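import Pool.Agent.SPD.Stmts1

set_option autoImplicit false

/-!
WtSum: sums over first elements of clusters.
-/

open Finset

namespace Pool.Agent.SPD

namespace WtSum

open Classical in
/-- sums over the minima of the classes of an equivalence relation -/
theorem sum_min {F : Type} [AddCommGroup F] (J : Finset ℤ) (r : ℤ → ℤ → Prop) (hr : Equivalence r)
    (δ : ℤ → F) (y : ℤ) (hy : ∀ x ∈ J, ∀ x' ∈ J, x ≤ y → y < x' → ¬ r x x') :
    ∑ u ∈ (J.filter (fun v => (∀ u ∈ J, r v u → v ≤ u) ∧
        ∑ x ∈ J.filter (fun x => r v x), δ x ≠ 0)).filter (fun u => u ≤ y),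
      ∑ x ∈ J.filter (fun x => r u x), δ x = ∑ x ∈ J.filter (fun x => x ≤ y), δ x := by
  -- the minimum of the class
  have hne : ∀ x ∈ J, (J.filter (fun u => r x u)).Nonempty := fun x hx =>
    ⟨x, mem_filter.2 ⟨hx, hr.refl x⟩⟩
  set m : ℤ → ℤ := fun x => if h : (J.filter (fun u => r x u)).Nonempty then
    (J.filter (fun u => r x u)).min' h else x with hm
  have hm1 : ∀ x ∈ J, m x ∈ J ∧ r x (m x) := by
    intro x hx
    have h := Finset.min'_mem _ (hne x hx)
    have e : m x = (J.filter (fun u => r x u)).min' (hne x hx) := by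
      simp only [hm]
      rw [dif_pos (hne x hx)]
    rw [← e, mem_filter] at h
    exact h
  have hm2 : ∀ x ∈ J, ∀ u ∈ J, r x u → m x ≤ u := by
    intro x hx u hu hxu
    have e : m x = (J.filter (fun u => r x u)).min' (hne x hx) := by
      simp only [hm]
      rw [dif_pos (hne x hx)]
    rw [e]
    exact Finset.min'_le _ _ (mem_filter.2 ⟨hu, hxu⟩)
  set A := J.filter (fun x => x ≤ y) with hA
  have hmaps : ∀ x ∈ A, m x ∈ A := by
    intro x hx
    rw [hA, mem_filter] at hx ⊢
    exact ⟨(hm1 x hx.1).1, (hm2 x hx.1 x hx.1 (hr.refl x)).trans hx.2⟩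
  rw [← Finset.sum_fiberwise_of_maps_to hmaps]
  have key : ∀ v ∈ A, ∑ x ∈ A.filter (fun x => m x = v), δ x =
      if (∀ u ∈ J, r v u → v ≤ u) ∧ ∑ x ∈ J.filter (fun x => r v x), δ x ≠ 0 then
        ∑ x ∈ J.filter (fun x => r v x), δ x else 0 := by
    intro v hv
    rw [hA, mem_filter] at hv
    by_cases h : ∀ u ∈ J, r v u → v ≤ u
    · have e : A.filter (fun x => m x = v) = J.filter (fun x => r v x) := by
        ext x
        rw [mem_filter, hA, mem_filter, mem_filter]
        constructor
        · rintro ⟨⟨hx, hxy⟩, hmx⟩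
          refine ⟨hx, ?_⟩
          have := (hm1 x hx).2
          rw [hmx] at this
          exact hr.symm this
        · rintro ⟨hx, hvx⟩
          refine ⟨⟨hx, ?_⟩, ?_⟩
          · by_contra hc
            exact hy v hv.1 x hx hv.2 (not_le.1 hc) hvx
          · apply le_antisymm
            · exact hm2 x hx v hv.1 (hr.symm hvx)
            · exact h _ (hm1 x hx).1 (hr.trans hvx (hm1 x hx).2)
      rw [e]
      by_cases h0 : ∑ x ∈ J.filter (fun x => r v x), δ x = 0
      · rw [if_neg (fun hc => hc.2 h0), h0]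
      · rw [if_pos ⟨h, h0⟩]
    · rw [if_neg (fun hc => h hc.1)]
      have e : A.filter (fun x => m x = v) = ∅ := by
        rw [Finset.filter_eq_empty_iff]
        intro x hx hmx
        rw [hA, mem_filter] at hx
        apply h
        intro u hu hvu
        rw [← hmx]
        refine hm2 x hx.1 u hu ?_
        have := (hm1 x hx.1).2
        rw [hmx] at this
        exact hr.trans this hvu
      rw [e, Finset.sum_empty]
  rw [Finset.sum_congr rfl key, ← Finset.sum_filter]
  refine Finset.sum_congr ?_ fun _ _ => rfl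
  ext v
  simp only [hA, mem_filter]
  tauto

end WtSum

theorem WtSum_proof (hEEs : Stmt_EEs) : Stmt_WtSum := by
  classical
  intro p G J b P s y hb hP hy
  have hE := (hEEs p G J b P hb hP).1 s
  have := WtSum.sum_min J (EE J b P s) hE (fun x => G x - G (x - 1)) y hy
  unfold vis wt
  convert this

end Pool.Agent.SPD
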