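import Pool.Agent.SPD.AsmB
import Pool.Agent.SPD.AsmL
import Pool.Agent.SPD.Brk
import Pool.Agent.SPD.TreeA
import Pool.Agent.SPD.TreeB
import Pool.Agent.SPD.TreeC
import Pool.Agent.SPD.JplA
import Pool.Agent.SPD.JplB
import Pool.Agent.SPD.JplC
import Pool.Agent.SPD.JplD
import Pool.Agent.SPD.Irr
import Pool.Agent.SPD.Sep
import Pool.Agent.SPD.CodeA
import Pool.Agent.SPD.CodeB
import Pool.Agent.SPD.CodeC
import Pool.Agent.SPD.FamT
import Pool.Agent.SPD.FamV
import Pool.Agent.SPD.Keys
import Pool.Agent.SPD.Cnt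
import Pool.Agent.SPD.Opt
import Pool.Agent.SPD.B1k
import Pool.Agent.SPD.B1c
import Pool.Agent.SPD.B2k
import Pool.Agent.SPD.B2c
import Pool.Agent.SPD.GoodE
import Pool.Agent.SPD.GoodC
import Pool.Agent.SPD.Pick
import Pool.Agent.SPD.LabBase
import Pool.Agent.SPD.LabOwn
import Pool.Agent.SPD.LabRank
import Pool.Agent.SPD.LabCard
import Pool.Agent.SPD.LabUniq
import Pool.Agent.SPD.Rep
import Pool.Agent.SPD.Ram
import Pool.Agent.SPD.Lex
import Pool.Agent.SPD.Fill
import Pool.Agent.SPD.Vl
import Pool.Agent.SPD.FinA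
import Pool.Agent.SPD.FinB
import Pool.Agent.SPD.Inst
import Pool.Agent.SPD.ScaleA
import Pool.Agent.SPD.ChooseP
import Pool.Agent.SPD.EEs
import Pool.Agent.SPD.Ok0
import Pool.Agent.SPD.CenSum
import Pool.Agent.SPD.WtSum
import Pool.Agent.SPD.Tel
import Pool.Agent.SPD.Coarse
import Pool.Agent.SPD.GoodN
import Pool.Agent.SPD.Rel1
import Pool.Agent.SPD.OkDat
import Pool.Agent.SPD.Vis
import Pool.Agent.SPD.Pigeon
import Pool.Agent.SPD.Grow
import Pool.Agent.SPD.Inert
import Pool.Agent.SPD.Num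

set_option autoImplicit false

/-!
The final theorem.
-/

namespace Pool.Agent.SPD

theorem codeA : Stmt_CodeA := CodeA_proof Sep_proof
theorem codeB : Stmt_CodeB := CodeB_proof JplC_proof JplD_proof
theorem famT : Stmt_FamT := FamT_proof codeA codeB CodeC_proof
theorem famV : Stmt_FamV := FamV_proof codeA codeB CodeC_proof
theorem keys : Stmt_Keys := Keys_proof codeA codeB CodeC_proof famT JplC_proof
theorem jplB : Stmt_JplB := JplB_proof JplA_proof
theorem goodC : Stmt_GoodC := GoodC_proof (GoodE_proof (Irr_proof JplA_proof jplB) famV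
  (B1c_proof B1k_proof keys Cnt_proof (Opt_proof JplA_proof))
  (B2c_proof B2k_proof keys Cnt_proof jplB))
theorem labRank : Stmt_LabRank := LabRank_proof JplD_proof
theorem labCard : Stmt_LabCard := LabCard_proof LabOwn_proof JplD_proof
theorem labUniq : Stmt_LabUniq := LabUniq_proof LabBase_proof labRank JplC_proof
theorem rep : Stmt_Rep := Rep_proof LabOwn_proof labRank
theorem fin : Stmt_Fin := Fin_proof (FinA_proof Ram_proof Vl_proof)
  (FinB_proof Lex_proof Fill_proof Vl_proof)
theorem main2 : Stmt_Main2 := Main2_proof TreeA_proof TreeB_proof TreeC_proof goodC Pick_proof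
  LabBase_proof LabOwn_proof labRank labCard labUniq rep fin

theorem ok0 : Stmt_Ok0 := ok0_proof EEs_proof
theorem coarse : Stmt_Coarse := Coarse_proof EEs_proof ok0 TreeA_proof TreeC_proof ScaleA_proof
  CenSum_proof (WtSum_proof EEs_proof) Tel_proof
theorem okDat : Stmt_OkDat := OkDat_proof ok0 TreeA_proof TreeC_proof (GoodN_proof ScaleA_proof)
  (Rel1_proof coarse Tel_proof ok0)
theorem grow : Stmt_Grow := Grow_proof (Vis_proof EEs_proof ok0 TreeA_proof TreeC_proof)
  Pigeon_proof okDat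
theorem lam_large : Stmt_Lam := Lam_proof Inst_proof (ChooseP_proof ScaleA_proof) okDat grow
  Inert_proof Num_proof main2
theorem brk_large : Stmt_Brk := Brk_proof lam_large

end Pool.Agent.SPD
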