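import Pool.Agent.SPD.Stmts1

set_option autoImplicit false

/-!
The choice of the numbers `m₁` and `K`.
-/

open Finset

namespace Pool.Agent.SPD

namespace Num

/-- Powers grow more slowly than exponentials. -/
theorem pow_le_two_pow (c : ℕ) : ∃ K₀ : ℕ, ∀ K, K₀ ≤ K → K ^ c ≤ 2 ^ K := by
  have h := tendsto_pow_const_div_const_pow_of_one_lt c (r := (2 : ℝ)) one_lt_two
  have h1 := (h.eventually_lt_const (show (0 : ℝ) < 1 by norm_num))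
  obtain ⟨K₀, hK⟩ := Filter.eventually_atTop.1 h1
  refine ⟨K₀, fun K hKK => ?_⟩
  have h2 := hK K hKK
  rw [div_lt_one (by positivity)] at h2
  have h3 : ((K ^ c : ℕ) : ℝ) ≤ ((2 ^ K : ℕ) : ℝ) := by
    push_cast
    exact h2.le
  exact_mod_cast h3

theorem pow_sq {K D : ℕ} (hK : 400 ≤ K) (h : K ^ (14 * (D + 1)) ≤ 2 ^ K) :
    K ^ ((D + 1) * (3 * (2 * K + 3))) ≤ 2 ^ ((K - 1) * (K - 1)) := by
  have h1 : (K ^ ((D + 1) * (3 * (2 * K + 3)))) ^ 2 ≤ (2 ^ ((K - 1) * (K - 1))) ^ 2 := by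
    calc (K ^ ((D + 1) * (3 * (2 * K + 3)))) ^ 2 = K ^ ((D + 1) * (3 * (2 * K + 3)) * 2) := by
          rw [← pow_mul]
      _ ≤ K ^ (14 * (D + 1) * K) := by
          refine Nat.pow_le_pow_right (by omega) ?_
          have : 3 * (2 * K + 3) * 2 ≤ 14 * K := by omega
          nlinarith
      _ = (K ^ (14 * (D + 1))) ^ K := by rw [pow_mul]
      _ ≤ (2 ^ K) ^ K := Nat.pow_le_pow_left h _
      _ = 2 ^ (K * K) := by rw [← pow_mul]
      _ ≤ 2 ^ ((K - 1) * (K - 1) * 2) := by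
          refine Nat.pow_le_pow_right (by omega) ?_
          obtain ⟨a, rfl⟩ : ∃ a, K = a + 400 := ⟨K - 400, by omega⟩
          have : a + 400 - 1 = a + 399 := by omega
          rw [this]
          nlinarith
      _ = (2 ^ ((K - 1) * (K - 1))) ^ 2 := by rw [← pow_mul]
  exact (Nat.pow_le_pow_iff_left (by norm_num)).1 h1

end Num

theorem Num_proof : Stmt_Num := by
  intro A p k₀ hA hp
  obtain ⟨D, hD⟩ : ∃ D, D = 6 + (2 * A + 1) * (p + 4) := ⟨_, rfl⟩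
  obtain ⟨K₁, hK₁⟩ := Num.pow_le_two_pow (14 * (D + 1))
  obtain ⟨K₀, hK₀⟩ : ∃ K₀, K₀ = 400 + k₀ + 4 ^ A + p ^ 2 + 34 * p + K₁ := ⟨_, rfl⟩
  refine ⟨2 ^ (K₀ * K₀), fun N hN lam hlam => ?_⟩
  have hN0 : N ≠ 0 := by
    have : 0 < 2 ^ (K₀ * K₀) := by positivity
    omega
  have hx : K₀ * K₀ ≤ Nat.log 2 N := by
    exact Nat.le_log_of_pow_le (by norm_num) hN
  obtain ⟨K, hKd⟩ : ∃ K, K = Nat.sqrt (Nat.log 2 N) + 1 := ⟨_, rfl⟩
  have hK : K₀ ≤ K := by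
    have : K₀ ≤ Nat.sqrt (Nat.log 2 N) := Nat.le_sqrt.2 hx
    omega
  have hK1 : Nat.log 2 N < K ^ 2 := by
    rw [hKd, sq]
    exact Nat.lt_succ_sqrt _
  have hK2 : (K - 1) * (K - 1) ≤ Nat.log 2 N := by
    have : K - 1 = Nat.sqrt (Nat.log 2 N) := by omega
    rw [this]
    exact Nat.sqrt_le _
  have h4pos : 0 < 4 ^ A := by positivity
  have h400 : 400 ≤ K := by omega
  have h4A : 4 ^ A ≤ K := by omega
  have hp2 : p ^ 2 ≤ K := by omega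
  have h34 : 34 * p ≤ K := by omega
  have hlamK : lam ≤ K ^ (2 * A) := by
    refine hlam.trans ?_
    rw [pow_mul]
    exact Nat.pow_le_pow_left hK1.le _
  have hlam1 : lam + 1 ≤ K ^ (2 * A + 1) := by
    have h1 : 1 ≤ K ^ (2 * A) := Nat.one_le_pow _ _ (by omega)
    rw [pow_succ]
    nlinarith
  have hM : 10 * (K + 2) ^ 2 * (lam + 1) ^ 2 * (33 * p * (lam + 1) ^ (p + 2) + 1) ≤ K ^ D := by
    have h1 : K + 2 ≤ K ^ 2 := by nlinarith
    have h2 : (K + 2) ^ 2 ≤ (K ^ 2) ^ 2 := Nat.pow_le_pow_left h1 2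
    have h3 : (lam + 1) ^ 2 ≤ (K ^ (2 * A + 1)) ^ 2 := Nat.pow_le_pow_left hlam1 2
    have h4 : 33 * p * (lam + 1) ^ (p + 2) + 1 ≤ K * (K ^ (2 * A + 1)) ^ (p + 2) := by
      have h5 : (lam + 1) ^ (p + 2) ≤ (K ^ (2 * A + 1)) ^ (p + 2) := Nat.pow_le_pow_left hlam1 _
      have h6 : 1 ≤ (K ^ (2 * A + 1)) ^ (p + 2) :=
        Nat.one_le_pow _ _ (Nat.pos_of_ne_zero (pow_ne_zero _ (by omega)))
      have h7 : 33 * p * (lam + 1) ^ (p + 2) ≤ 33 * p * (K ^ (2 * A + 1)) ^ (p + 2) :=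
        Nat.mul_le_mul_left _ h5
      have h8 : (33 * p + 1) * (K ^ (2 * A + 1)) ^ (p + 2) ≤ K * (K ^ (2 * A + 1)) ^ (p + 2) :=
        Nat.mul_le_mul_right _ (by omega)
      calc 33 * p * (lam + 1) ^ (p + 2) + 1
          ≤ 33 * p * (K ^ (2 * A + 1)) ^ (p + 2) + (K ^ (2 * A + 1)) ^ (p + 2) :=
            Nat.add_le_add h7 h6
        _ = (33 * p + 1) * (K ^ (2 * A + 1)) ^ (p + 2) := by ring
        _ ≤ _ := h8
    calc 10 * (K + 2) ^ 2 * (lam + 1) ^ 2 * (33 * p * (lam + 1) ^ (p + 2) + 1)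
        ≤ K * (K ^ 2) ^ 2 * (K ^ (2 * A + 1)) ^ 2 * (K * (K ^ (2 * A + 1)) ^ (p + 2)) := by
          exact Nat.mul_le_mul (Nat.mul_le_mul (Nat.mul_le_mul (by omega) h2) h3) h4
      _ = K ^ D := by
          rw [hD]
          ring
  have hp21 : 1 < p ^ 2 := by nlinarith
  have hKD : K ^ D ≠ 0 := pow_ne_zero _ (by omega)
  have hm2 : p ^ (2 * (Nat.log (p ^ 2) (K ^ D) + 1)) ≤ K ^ (D + 1) := by
    rw [pow_mul, pow_succ]
    calc (p ^ 2) ^ Nat.log (p ^ 2) (K ^ D) * p ^ 2 ≤ K ^ D * K :=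
          Nat.mul_le_mul (Nat.pow_log_le_self _ hKD) hp2
      _ = K ^ (D + 1) := by rw [pow_succ]
  refine ⟨Nat.log (p ^ 2) (K ^ D) + 1, K, by omega, h400, by omega, ?_, ?_, ?_, hlamK⟩
  · refine hM.trans ?_
    rw [pow_mul]
    exact (Nat.lt_pow_succ_log_self hp21 _).le
  · calc (p ^ (2 * (Nat.log (p ^ 2) (K ^ D) + 1))) ^ (3 * (2 * K + 3))
        ≤ (K ^ (D + 1)) ^ (3 * (2 * K + 3)) := Nat.pow_le_pow_left hm2 _
      _ = K ^ ((D + 1) * (3 * (2 * K + 3))) := by rw [← pow_mul]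
      _ ≤ 2 ^ ((K - 1) * (K - 1)) := Num.pow_sq h400 (hK₁ K (by omega))
      _ ≤ 2 ^ Nat.log 2 N := Nat.pow_le_pow_right (by norm_num) hK2
      _ ≤ N := Nat.pow_log_le_self _ hN0
  · have h1 : K < 4 ^ (Nat.log 4 K + 1) := Nat.lt_pow_succ_log_self (by norm_num) _
    have h2 : A ≤ Nat.log 4 K := Nat.le_log_of_pow_le (by norm_num) h4A
    calc lam ≤ K ^ (2 * A) := hlamK
      _ < (4 ^ (Nat.log 4 K + 1)) ^ (2 * A) := Nat.pow_lt_pow_left h1 (by omega)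
      _ = 2 ^ (2 * ((Nat.log 4 K + 1) * (2 * A))) := by
          rw [← pow_mul, show (4 : ℕ) = 2 ^ 2 by norm_num, ← pow_mul]
      _ ≤ 2 ^ ((4 * A + 4) * Nat.log 4 K) := by
          refine Nat.pow_le_pow_right (by norm_num) ?_
          nlinarith

end Pool.Agent.SPD
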