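import Pool.Agent.SPD.Defs

set_option autoImplicit false

/-!
Superpolylogarithmic number of digit changes of `√2`: the statements of the modules, Part II
(combinatorics).
-/

open Finset

namespace Pool.Agent.SPD

/-! ### The tree of clusters -/

/-- The logarithm of the number of points. -/
noncomputable def ll {F : Type} (S : Dat F) : ℕ := Nat.log 2 S.Uh.card + 2

/-- First facts on the tree. -/
structure TrA {F : Type} [Field F] (S : Dat F) : Prop where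
  refl : ∀ t x, S.R t x x
  symm : ∀ t x y, S.R t x y → S.R t y x
  trans : ∀ t x y z, S.R t x y → S.R t y z → S.R t x z
  mono : ∀ t t' x y, t ≤ t' → S.R t' x y → S.R t x y
  root : ∀ x ∈ S.U, ∀ y ∈ S.U, S.R 0 x y
  near : ∀ t ≤ S.k, ∀ x ∈ S.U, ∀ y ∈ S.U, S.R t x y → |S.X x - S.X y| ≤ S.D t
  far : ∀ t ≤ S.k, ∀ x ∈ S.U, ∀ y ∈ S.U, ¬ S.R t x y →
    S.D t < |S.X x - S.X y| * (S.b : ℤ) ^ 2
  Dpos : ∀ t, 0 < S.D t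
  DP : ∀ t, (S.P : ℤ) ≤ S.D t
  Dsucc : ∀ t < S.k, S.D t = (S.b : ℤ) ^ 3 * S.D (t + 1)
  Danti : ∀ t t', t ≤ t' → S.D t' ≤ S.D t
  Xnonneg : ∀ x ∈ S.U, 0 ≤ S.X x
  Xlo : ∀ x ∈ S.Uh, S.D x.1 < S.X x
  Xhi : ∀ x ∈ S.Uh, S.X x ≤ S.D (x.1 - 1)

def Stmt_TreeA : Prop := ∀ (F : Type) [Field F] (S : Dat F), Ok0 S → TrA S

/-- Second facts on the tree: main children and numbers of points. -/
structure TrB {F : Type} [Field F] (S : Dat F) : Prop where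
  main : ∀ t, ∀ x ∈ S.U, ∀ y ∈ S.U, S.R t x y → S.Mn t x → S.Mn t y → S.R (t + 1) x y
  mnR : ∀ t, ∀ x ∈ S.U, ∀ y ∈ S.U, S.R (t + 1) x y → (S.Mn t x ↔ S.Mn t y)
  nnR : ∀ t x y, S.R t x y → S.nn t x = S.nn t y
  nmR : ∀ t x y, S.R t x y → S.nm t x = S.nm t y
  nn_anti : ∀ t t' x, t ≤ t' → S.nn t' x ≤ S.nn t x
  nn_pos : ∀ t, ∀ x ∈ S.Uh, 1 ≤ S.nn t x
  nn_root : ∀ x ∈ S.U, S.nn 0 x = S.Uh.card
  nn_main : ∀ t, ∀ x ∈ S.U, S.Mn t x → S.nn (t + 1) x + S.nm t x = S.nn t x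
  nn_dep : ∀ t, ∀ x ∈ S.U, ¬ S.Mn t x → S.nn (t + 1) x ≤ S.nm t x
  half : ∀ t, t + 1 < S.k → ∀ x ∈ S.U, ¬ S.Mn t x → 2 * S.nn (t + 1) x ≤ S.nn t x
  zero_main : ∀ t < S.k, S.Mn t S.zero
  zero_nn : ∀ t ≤ S.k, S.nn t S.zero = (S.k - t) * S.V0.card
  zero_nm : ∀ t < S.k, S.nm t S.zero = S.V0.card
  dep_self : ∀ x ∈ S.Uh, ¬ S.Mn (x.1 - 1) x
  Uh_card : S.Uh.card = S.k * S.V0.card

def Stmt_TreeB : Prop := ∀ (F : Type) [Field F] (S : Dat F), Ok0 S → TrA S → TrB S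

/-- Third facts on the tree: the centres. -/
structure TrC {F : Type} [Field F] (S : Dat F) : Prop where
  cen_mem : ∀ t ≤ S.k, ∀ x ∈ S.U, S.cenU t x ∈ S.U
  cen_R : ∀ t ≤ S.k, ∀ x ∈ S.U, S.R t x (S.cenU t x)
  cen_main : ∀ t t', t ≤ t' → t' < S.k → ∀ x ∈ S.U, S.Mn t' (S.cenU t x)
  cen_eq : ∀ t ≤ S.k, ∀ x ∈ S.U, ∀ y ∈ S.U, S.R t x y → S.cenU t x = S.cenU t y
  V_eq : ∀ x ∈ S.Vp, ∀ y ∈ S.Vp, S.R S.k x y → x = y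
  V_sub : S.V ⊆ S.Uh
  Vp_sub : S.Vp ⊆ S.U
  cw_ne : ∀ x ∈ S.V, S.cw x ≠ 0

def Stmt_TreeC : Prop := ∀ (F : Type) [Field F] (S : Dat F), Ok0 S → TrA S → TrC S

/-- All facts on the tree. -/
structure Tr {F : Type} [Field F] (S : Dat F) : Prop extends TrA S, TrB S, TrC S

/-! ### Numbers of special times -/

open Classical in
def Stmt_JplA : Prop := ∀ (F : Type) [Field F] (S : Dat F), Ok S → Tr S → ∀ G : ℕ, 2 ≤ G →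
  ∀ x ∈ S.Uh, ((range S.k).filter (fun t => S.Jp G t x)).card ≤ 2 * G * ll S

open Classical in
def Stmt_JplB : Prop := ∀ (F : Type) [Field F] (S : Dat F), Ok S → Tr S → ∀ G : ℕ, 2 ≤ G →
  ∀ t < S.k, (S.Uh.filter (fun x => S.Jp G t x)).card ≤ 3 * G * ll S * S.V0.card

open Classical in
def Stmt_JplC : Prop := ∀ (F : Type) [Field F] (S : Dat F), Ok S → Tr S →
  (∀ x ∈ S.Uh, ((range S.k).filter (fun t => ¬ S.Mn t x)).card ≤ ll S) ∧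
  (∀ G t, ∀ x ∈ S.U, S.Jr G t x → S.Big G t x)

open Classical in
def Stmt_JplD : Prop := ∀ (F : Type) [Field F] (S : Dat F), Ok S → Tr S → ∀ H r : ℕ, 2 ≤ H →
  S.Uh.card ≤ H ^ r → ∀ x ∈ S.Uh, ((range S.k).filter (fun t => S.Big H t x)).card ≤ r

/-! ### Irregular tuples -/

open Classical in
def Stmt_Irr : Prop := ∀ (F : Type) [Field F] (S : Dat F), Ok S → Tr S →
  ∀ (ι : Type) [Fintype ι] (G L : ℕ), 2 ≤ G →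
  ((Fintype.piFinset (fun _ : ι => S.Uh)).filter (fun w => ¬ Reg S G L w)).card * S.k
    ≤ 20 * (L + 1) * Fintype.card ι ^ 2 * G ^ 2 * ll S ^ 2 * S.Uh.card ^ Fintype.card ι

/-! ### Separation of two representations -/

def Stmt_Sep : Prop := ∀ (F : Type) [Field F] (S : Dat F), Ok S → Tr S →
  ∀ (ι : Type) [Fintype ι] (G L C T j : ℕ) (w w' : ι → ℕ × ℤ),
  Fintype.card ι + C < S.b → 2 ≤ L → Reg S G L w → Reg S G L w' →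
  |SX S w - SX S w'| ≤ C * S.D T → j + 2 ≤ T → T ≤ S.k →
  (∀ i, S.R j (w i) (w' i)) → (∃ i, ¬ S.R (j + 1) (w i) (w' i)) →
  ∃ i₁ i₂ τ₁ τ₂, i₁ ≠ i₂ ∧ (τ₁ = j ∨ τ₁ = j + 1) ∧ (τ₂ = j ∨ τ₂ = j + 1) ∧
    S.Jr G τ₁ (w i₁) ∧ S.Jr G τ₂ (w' i₂)

/-! ### Codes -/

open Classical in
/-- The word of the coordinates of the rare letters before time `s`. -/
noncomputable def code {F : Type} (S : Dat F) {ι : Type} (G s : ℕ) (w : ι → ℕ × ℤ) : List ι :=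
  (List.range s).filterMap
    (fun t => if h : ∃ i, S.Jr G t (w i) then some (Classical.choose h) else none)

def Stmt_CodeA : Prop := ∀ (F : Type) [Field F] (S : Dat F), Ok S → Tr S →
  ∀ (ι : Type) [Fintype ι] (G L C T s s' : ℕ) (w w' : ι → ℕ × ℤ),
  Fintype.card ι + C < S.b → 2 ≤ L → Reg S G L w → Reg S G L w' →
  |SX S w - SX S w'| ≤ C * S.D T → T ≤ S.k → (∃ i, ¬ S.R (T - 2) (w i) (w' i)) →
  T ≤ s + 1 → T ≤ s' + 1 → code S G s w ≠ code S G s' w'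

def Stmt_CodeB : Prop := ∀ (F : Type) [Field F] (S : Dat F), Ok S → Tr S →
  ∀ (ι : Type) [Fintype ι] (G r s : ℕ) (w : ι → ℕ × ℤ), 2 ≤ G → S.Uh.card ≤ G ^ r →
  (∀ i, w i ∈ S.Uh) → (code S G s w).length ≤ Fintype.card ι * r

def Stmt_CodeC : Prop := ∀ (ι : Type) [Fintype ι] [DecidableEq ι] (n : ℕ) (A : Finset (List ι)),
  (∀ l ∈ A, l.length ≤ n) → A.card ≤ (Fintype.card ι + 1) ^ n

def Stmt_FamT : Prop := ∀ (F : Type) [Field F] (S : Dat F), Ok S → Tr S →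
  ∀ (ι : Type) [Fintype ι] (G L C T r : ℕ) (σ : ℤ), Fintype.card ι + 2 * C < S.b → 2 ≤ L →
  2 ≤ G → S.Uh.card ≤ G ^ r → T ≤ S.k → ∀ K : Finset (ι → ℕ × ℤ),
  (∀ ω ∈ K, ∃ w', Reg S G L w' ∧ |SX S w' - σ| ≤ C * S.D T ∧
    ω = fun i => S.cenU (T - 2) (w' i)) →
  K.card ≤ (Fintype.card ι + 1) ^ (Fintype.card ι * r)

def Stmt_FamV : Prop := ∀ (F : Type) [Field F] (S : Dat F), Ok S → Tr S →
  ∀ (ι : Type) [Fintype ι] (G L C q r : ℕ) (σ : ℤ), Fintype.card ι + 2 * C < S.b → q + 3 ≤ L →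
  2 ≤ G → S.Uh.card ≤ G ^ r → ∀ K : Finset (ι → ℕ × ℤ),
  (∀ w ∈ K, (∀ i, w i ∈ S.V) ∧ Reg S G L w ∧ |SX S w - σ| ≤ C * S.D (S.k - q)) →
  K.card ≤ (Fintype.card ι + 1) ^ (Fintype.card ι * r)

/-- `q = (t, ω')` is a key of `v`. -/
def KeyOf {F : Type} (S : Dat F) {ι : Type} [Fintype ι] (G L C : ℕ) (v : ι → ℕ × ℤ)
    (q : ℕ × (ι → ℕ × ℤ)) : Prop :=
  q.1 ≤ S.k ∧ ∃ w' : ι → ℕ × ℤ, Reg S G L w' ∧ q.2 = (fun i => S.cenU (q.1 - 2) (w' i)) ∧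
    |SX S v - SX S w'| ≤ C * S.D q.1 ∧
    (q.1 = 0 ∨ (∃ l, ¬ S.Mn (q.1 - 1) (v l)) ∨ (3 ≤ q.1 ∧ ∃ l, ¬ S.Mn (q.1 - 3) (w' l)))

def Stmt_Keys : Prop := ∀ (F : Type) [Field F] (S : Dat F), Ok S → Tr S →
  ∀ (ι : Type) [Fintype ι] (G L C r : ℕ) (v : ι → ℕ × ℤ), Fintype.card ι + 2 * C < S.b →
  2 ≤ L → 2 ≤ G → S.Uh.card ≤ G ^ r → (∀ i, v i ∈ S.Uh) →
  ∀ K : Finset (ℕ × (ι → ℕ × ℤ)), (∀ q ∈ K, KeyOf S G L C v q) →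
  K.card ≤ 2 * (Fintype.card ι + 1) ^ (Fintype.card ι * r) * (Fintype.card ι * ll S + 1)

/-! ### The counting lemma -/

open Classical in
def Stmt_Cnt : Prop := ∀ (Ω T K : Type) (A bad : Finset Ω) (cl : T → Ω → Ω → Prop)
  (τ : Ω → T) (κ : Ω → K) (a H N : ℕ), bad ⊆ A → (∀ t, Equivalence (cl t)) →
  (∀ x ∈ A, ∀ Q : Finset (T × K), (∀ q ∈ Q, ∃ w ∈ bad, τ w = q.1 ∧ κ w = q.2 ∧ cl q.1 w x) →
    Q.card ≤ a) →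
  (∀ w ∈ bad, H * (bad.filter (fun u => τ u = τ w ∧ κ u = κ w ∧ cl (τ w) w u)).card
    ≤ N * (A.filter (fun u => cl (τ w) w u)).card) →
  H * bad.card ≤ N * a * A.card

/-! ### Bad tuples of the first kind -/

def Stmt_Opt : Prop := ∀ (F : Type) [Field F] (S : Dat F), Ok S → Tr S → ∀ H : ℕ, 2 ≤ H →
  ∀ z ∈ S.U, ∀ K : Finset (ℕ × (ℕ × ℤ)),
  (∀ q ∈ K, ∃ x ∈ S.Uh, ∃ t₁, S.R t₁ x z ∧ ¬ S.Mn t₁ x ∧ q.1 ≤ t₁ + 2 ∧ t₁ ≤ q.1 + 2 ∧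
    q.1 + 3 ≤ S.k ∧ (∀ t', t₁ ≤ t' → t' ≤ q.1 + 2 → ¬ S.Big H t' x) ∧
    q.2 = S.cenU (q.1 + 3) x) →
  K.card ≤ 640 * ll S * H ^ 6

def Stmt_B1k : Prop := ∀ (F : Type) [Field F] (S : Dat F), Ok S → Tr S →
  ∀ (ι : Type) [Fintype ι] (G L q g e : ℕ), 2 ≤ g → 1 ≤ e → 2 ≤ G → q + 12 ≤ L →
  100 * (Fintype.card ι + 1) ≤ S.b → ∀ w : ι → ℕ × ℤ, Reg S G L w → B1 S G L q g e w →
  ∃ (t j : ℕ) (i : ι) (ω' : ι → ℕ × ℤ) (o : Option (ι × (ℕ × (ℕ × ℤ)))),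
    t ≤ j ∧ j + 12 ≤ S.k ∧ S.Big (g ^ (8 * e)) j (w i) ∧
    (∀ t', t ≤ t' → t' < j → S.Mn t' (w i)) ∧
    (∀ v : ι → ℕ × ℤ, (∀ l, v l ∈ S.Uh) → (∀ l, S.R t (w l) (v l)) →
      KeyOf S G L (Fintype.card ι + 1) v (t, ω')) ∧
    (∀ l, ω' l ∈ S.U) ∧
    (o = none → |S.X (w i) - (SX S ω' - SX S (fun l => S.cenU t (w l)) + S.X (S.cenU t (w i)))|
      ≤ (2 * Fintype.card ι + 2) * S.D (j + 3)) ∧
    (∀ i' j' y, o = some (i', (j', y)) → j' = j ∧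
      (∃ x ∈ S.Uh, ∃ t₁, S.R t₁ x (ω' i') ∧ ¬ S.Mn t₁ x ∧ j' ≤ t₁ + 2 ∧ t₁ ≤ j' + 2 ∧
        j' + 3 ≤ S.k ∧ (∀ t', t₁ ≤ t' → t' ≤ j' + 2 → ¬ S.Big (g ^ e) t' x) ∧
        y = S.cenU (j' + 3) x) ∧
      |S.X (w i) - (SX S ω' - S.X (ω' i') + S.X y - SX S (fun l => S.cenU t (w l))
        + S.X (S.cenU t (w i)))| ≤ (2 * Fintype.card ι + 2) * S.D (j + 3))

open Classical in
def Stmt_B1c : Prop := ∀ (F : Type) [Field F] (S : Dat F), Ok S → Tr S →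
  ∀ (ι : Type) [Fintype ι] (G L q g e r : ℕ), 2 ≤ g → 1 ≤ e → 2 ≤ G → q + 12 ≤ L →
  100 * (Fintype.card ι + 1) ≤ S.b → S.Uh.card ≤ G ^ r →
  ((Fintype.piFinset (fun _ : ι => S.Uh)).filter
      (fun w => Reg S G L w ∧ B1 S G L q g e w)).card * g ^ (2 * e)
    ≤ 2000 * (Fintype.card ι + 1) ^ 3 * (Fintype.card ι + 1) ^ (Fintype.card ι * r) * ll S ^ 3
      * S.Uh.card ^ Fintype.card ι

/-! ### Bad tuples of the second kind -/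

open Classical in
def Stmt_B2k : Prop := ∀ (F : Type) [Field F] (S : Dat F), Ok S → Tr S →
  ∀ (ι : Type) [Fintype ι] (G L q : ℕ), 2 ≤ G → q + 12 ≤ L →
  100 * (Fintype.card ι + 1) ≤ S.b → ∀ w : ι → ℕ × ℤ, Reg S G L w → B2 S G L q w →
  ∃ (i : ι) (t j : ℕ) (ω' : {l : ι // l ≠ i} → ℕ × ℤ),
    t ≤ j ∧ j + 12 ≤ S.k ∧ S.Jp G j (w i) ∧
    (∀ v : {l : ι // l ≠ i} → ℕ × ℤ, (∀ l, v l ∈ S.Uh) → (∀ l, S.R t (w l.1) (v l)) →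
      KeyOf S G L (Fintype.card ι + 1) v (t, ω')) ∧
    S.D (j + 1) < 2 * (S.b : ℤ) ^ 2 *
      |SX S ω' - SX S (fun l : {l : ι // l ≠ i} => S.cenU t (w l.1))| ∧
    |SX S ω' - SX S (fun l : {l : ι // l ≠ i} => S.cenU t (w l.1))| < 2 * S.D j

open Classical in
def Stmt_B2c : Prop := ∀ (F : Type) [Field F] (S : Dat F), Ok S → Tr S →
  ∀ (ι : Type) [Fintype ι] (G L q r : ℕ), 2 ≤ G → q + 12 ≤ L →
  100 * (Fintype.card ι + 1) ≤ S.b → S.Uh.card ≤ G ^ r →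
  ((Fintype.piFinset (fun _ : ι => S.Uh)).filter
      (fun w => Reg S G L w ∧ B2 S G L q w)).card * S.k
    ≤ 20 * (Fintype.card ι + 1) ^ 3 * (Fintype.card ι + 1) ^ (Fintype.card ι * r) * G
      * ll S ^ 2 * S.Uh.card ^ Fintype.card ι

/-! ### Good tuples -/

open Classical in
def Stmt_GoodE : Prop := ∀ (F : Type) [Field F] (S : Dat F), Ok S → Tr S →
  ∀ (ι : Type) [Fintype ι] (g L Q r : ℕ), 2 ≤ g → Q + 20 ≤ L →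
  100 * (Fintype.card ι + 1) ≤ S.b → S.Uh.card ≤ (g ^ 64) ^ r → g ^ 150 ≤ S.k →
  ((Fintype.piFinset (fun _ : ι => S.V)).filter
      (fun z => ¬ Good S (g ^ 64) L Q g z)).card * g ^ 2
    ≤ 10000 * (L + 1) * (Fintype.card ι + 1) ^ 3 * 2 ^ Fintype.card ι
      * ((Fintype.card ι + 1) ^ (Fintype.card ι * r)) ^ 2 * ll S ^ 3
      * S.Uh.card ^ Fintype.card ι

open Classical in
def Stmt_GoodC : Prop := ∀ d m N L Q : ℕ, Q + 20 ≤ L → ∃ g₀ : ℕ, ∀ (F : Type) [Field F]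
  (S : Dat F), Ok S → Tr S → ∀ g, g₀ ≤ g → g ^ 150 ≤ S.k → S.k ≤ g ^ 300 →
  S.V0.card ≤ S.k ^ d → ∀ (ι : Type) [Fintype ι], Fintype.card ι ≤ m →
  ((Fintype.piFinset (fun _ : ι => S.V)).filter
      (fun z => ¬ Good S (g ^ 64) L Q g z)).card * N ≤ S.Uh.card ^ Fintype.card ι

open Classical in
def Stmt_Pick : Prop := ∀ M m C₀ : ℕ, ∃ N : ℕ, 1 ≤ N ∧ ∀ (α : Type) (V Z : Finset α) (B : ℕ)
  (P : ∀ I : Finset (Fin M), (I → α) → Prop), Z ⊆ V → Z.Nonempty → B ≤ C₀ * Z.card →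
  (∀ I : Finset (Fin M), I.card ≤ m →
    ((Fintype.piFinset (fun _ : I => V)).filter (fun z => ¬ P I z)).card * N ≤ B ^ I.card) →
  ∃ z : Fin M → α, (∀ i, z i ∈ Z) ∧ ∀ I : Finset (Fin M), I.card ≤ m → P I (fun i => z i)

/-! ### Labels -/

/-- The context after the choice of the generic points `z`. -/
structure Ctx {F : Type} [Field F] (S : Dat F) (g L Q m₂ r M : ℕ) (z : Fin M → ℕ × ℤ) :
    Prop where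
  ok : Ok S
  tr : Tr S
  g2 : 2 ≤ g
  hL : Q + 20 ≤ L
  hb : 100 * (m₂ + 2) ≤ S.b
  card : S.Uh.card ≤ g ^ r
  good : ∀ I : Finset (Fin M), I.card ≤ m₂ + 1 → Good S (g ^ 64) L Q g (fun i : I => z i)
  two : ∀ l, 2 ≤ (z l).1

open Classical in
/-- The big letters. -/
noncomputable def BL {F : Type} (S : Dat F) (g : ℕ) (x : ℕ × ℤ) : Finset ℕ :=
  (range S.k).filter (fun j => S.Big (g ^ 8) j x)

open Classical in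
/-- The big letters of `x` near departures of `T`. -/
noncomputable def lab0 {F : Type} (S : Dat F) (g : ℕ) (x T : ℕ × ℤ) : Finset ℕ :=
  (BL S g x).filter (fun j => ∃ t, j ≤ t + 2 ∧ t ≤ j + 2 ∧ t < S.k ∧ ¬ S.Mn t T)

open Classical in
/-- The ranks of the big letters of `x` near departures of `T`. -/
noncomputable def lab {F : Type} (S : Dat F) (g : ℕ) (x T : ℕ × ℤ) : Finset ℕ :=
  (lab0 S g x T).image (fun j => ((BL S g x).filter (fun j' => j' < j)).card)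

/-- `T` belongs to a representation of the sum of the `z l`, `l ∈ I`. -/
def Fam {F : Type} [AddCommMonoid F] (S : Dat F) {M : ℕ} (z : Fin M → ℕ × ℤ) (q : ℕ)
    (I : Finset (Fin M)) (T : ℕ × ℤ) : Prop :=
  ∃ w : I → ℕ × ℤ, (∀ i, w i ∈ S.V) ∧ |SX S w - SX S (fun i : I => z i)| ≤ S.D (S.k - q) ∧
    ∃ i, w i = T

def Stmt_LabBase : Prop := ∀ (F : Type) [Field F] (S : Dat F) (g L Q m₂ r M : ℕ)
  (z : Fin M → ℕ × ℤ), Ctx S g L Q m₂ r M z →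
  (∀ l, Fam S z 0 {l} (z l)) ∧ (∀ q I T, Fam S z q I T → T ∈ S.V) ∧
  (∀ q q' I I' T, q ≤ q' → I ⊆ I' → Fam S z q I T → Fam S z q' I' T) ∧
  (∀ q (I : Finset (Fin M)) T, Fam S z q I T → ∀ i : I, ∃ w : I → ℕ × ℤ, (∀ i, w i ∈ S.V) ∧
    |SX S w - SX S (fun i : I => z i)| ≤ S.D (S.k - q) ∧ w i = T)

def Stmt_LabOwn : Prop := ∀ (F : Type) [Field F] (S : Dat F) (g L Q m₂ r M : ℕ)
  (z : Fin M → ℕ × ℤ), Ctx S g L Q m₂ r M z → ∀ q ≤ Q, ∀ I : Finset (Fin M), I.card ≤ m₂ →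
  ∀ w : I → ℕ × ℤ, (∀ i, w i ∈ S.V) → |SX S w - SX S (fun i : I => z i)| ≤ S.D (S.k - q) →
  (∀ l ∈ I, ∀ j ∈ BL S g (z l), ∃ i : I, j ∈ lab0 S g (z l) (w i) ∧
    (∃ t, j ≤ t + 2 ∧ t ≤ j + 2 ∧ S.Big g t (w i)) ∧
    ∀ i' : I, j ∈ lab0 S g (z l) (w i') → i' = i) ∧
  (∀ l, l ∉ I → ∀ i, lab0 S g (z l) (w i) = ∅)

def Stmt_LabRank : Prop := ∀ (F : Type) [Field F] (S : Dat F) (g L Q m₂ r M : ℕ)
  (z : Fin M → ℕ × ℤ), Ctx S g L Q m₂ r M z → ∀ l T T',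
  (∀ j ∈ lab S g (z l) T, j < r) ∧
  (lab S g (z l) T = lab S g (z l) T' → lab0 S g (z l) T = lab0 S g (z l) T') ∧
  (lab S g (z l) T = ∅ ↔ lab0 S g (z l) T = ∅) ∧
  (Disjoint (lab S g (z l) T) (lab S g (z l) T') ↔
    Disjoint (lab0 S g (z l) T) (lab0 S g (z l) T'))

def Stmt_LabCard : Prop := ∀ (F : Type) [Field F] (S : Dat F) (g L Q m₂ r M : ℕ)
  (z : Fin M → ℕ × ℤ), Ctx S g L Q m₂ r M z → ∀ q ≤ Q, ∀ I : Finset (Fin M), I.card ≤ m₂ →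
  ∀ T, Fam S z q I T → (univ.filter (fun l => lab S g (z l) T ≠ ∅)).card ≤ r

def Stmt_LabUniq : Prop := ∀ (F : Type) [Field F] (S : Dat F) (g L Q m₂ r M : ℕ)
  (z : Fin M → ℕ × ℤ), Ctx S g L Q m₂ r M z → ∀ q ≤ Q, ∀ I : Finset (Fin M), I.card ≤ m₂ →
  ∀ T T', Fam S z q I T → Fam S z q I T' → (∀ l, lab S g (z l) T = lab S g (z l) T') → T = T'

def Stmt_Rep : Prop := ∀ (F : Type) [Field F] (S : Dat F) (g L Q m₂ r M : ℕ)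
  (z : Fin M → ℕ × ℤ), Ctx S g L Q m₂ r M z → ∀ q I₁ I₂ T₁ T₂, q + 1 ≤ Q →
  I₁.card + I₂.card ≤ m₂ → Disjoint I₁ I₂ → Fam S z q I₁ T₁ → Fam S z q I₂ T₂ →
  ∃ Sg : Finset ((ℕ × ℤ) × (ℕ × ℤ)), (T₁, T₂) ∈ Sg ∧
    (∀ s ∈ Sg, Fam S z (q + 1) (I₁ ∪ I₂) s.1 ∧ Fam S z (q + 1) (I₁ ∪ I₂) s.2 ∧
      ∀ l, Disjoint (lab S g (z l) s.1) (lab S g (z l) s.2) ∧
        lab S g (z l) s.1 ∪ lab S g (z l) s.2 = lab S g (z l) T₁ ∪ lab S g (z l) T₂) ∧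
    ∑ s ∈ Sg, S.cw s.1 * S.cw s.2 = 0

/-! ### The end: an abstract argument with Ramsey's theorem -/

/-- The abstract configuration. -/
structure Conf (p r₂ r₃ m₂ Q M : ℕ) {α : Type} (cw : α → ZMod p)
    (Fm : ℕ → Finset (Fin M) → α → Prop) (lb : α → Fin M → Finset ℕ) : Prop where
  base : ∀ l, ∃ T, Fm 0 {l} T
  mono : ∀ q q' I I' T, q ≤ q' → q' ≤ Q → I ⊆ I' → I'.card ≤ m₂ → Fm q I T → Fm q' I' T
  cw_ne : ∀ q I T, q ≤ Q → I.card ≤ m₂ → Fm q I T → cw T ≠ 0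
  lab_lt : ∀ T l, ∀ j ∈ lb T l, j < r₃
  supp : ∀ q I T l, q ≤ Q → I.card ≤ m₂ → Fm q I T → l ∉ I → lb T l = ∅
  card : ∀ q I T, q ≤ Q → I.card ≤ m₂ → Fm q I T →
    (univ.filter (fun l => lb T l ≠ ∅)).card ≤ r₂
  uniq : ∀ q I T T', q ≤ Q → I.card ≤ m₂ → Fm q I T → Fm q I T' →
    (∀ l, lb T l = lb T' l) → T = T'
  rep : ∀ q I₁ I₂ T₁ T₂, q + 1 ≤ Q → I₁.card + I₂.card ≤ m₂ → Disjoint I₁ I₂ →
    Fm q I₁ T₁ → Fm q I₂ T₂ → ∃ Sg : Finset (α × α), (T₁, T₂) ∈ Sg ∧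
      (∀ s ∈ Sg, Fm (q + 1) (I₁ ∪ I₂) s.1 ∧ Fm (q + 1) (I₁ ∪ I₂) s.2 ∧
        ∀ l, Disjoint (lb s.1 l) (lb s.2 l) ∧ lb s.1 l ∪ lb s.2 l = lb T₁ l ∪ lb T₂ l) ∧
      ∑ s ∈ Sg, cw s.1 * cw s.2 = 0

/-- Ramsey's theorem for several colourings of subsets of several sizes. -/
def Stmt_Ram : Prop := ∀ (h s₁ : ℕ) (n : ℕ → ℕ) (C : ℕ → Type) [∀ s, Finite (C s)], ∃ M : ℕ,
  ∀ χ : (s : ℕ) → Finset (Fin M) → C s, ∃ H : Finset (Fin M), H.card = h ∧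
    ∀ s ≤ s₁, ∃ a, ∀ I ⊆ H, I.card = n s → χ s I = a

/-- The value of a word in base `N`. -/
def wval (N : ℕ) {l : ℕ} (u : Fin l → ℕ) : ℕ := ∑ a, u a * N ^ (l - 1 - (a : ℕ))

/-- Lexicographically maximal merging. -/
def Stmt_Lex : Prop := ∀ (l N : ℕ) (w : Fin l → ℕ), (∀ a, 1 ≤ w a ∧ w a < N) →
  ∃ ψ₁ ψ₂ : Fin l ↪o Fin (2 * l), (∀ a a', ψ₁ a ≠ ψ₂ a') ∧
    ∀ W : Fin (2 * l) → ℕ, (∀ a, W (ψ₁ a) = w a) → (∀ a, W (ψ₂ a) = w a) →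
    ∀ φ₁ φ₂ : Fin l ↪o Fin (2 * l), (∀ a a', φ₁ a ≠ φ₂ a') →
      wval N (fun a => W (φ₁ a)) ≤ wval N w → wval N (fun a => W (φ₂ a)) ≤ wval N w →
      (∀ a, W (φ₁ a) = w a) ∧ (∀ a, W (φ₂ a) = w a)

/-- Index sets with a prescribed pattern. -/
def Stmt_Fill : Prop := ∀ (m l : ℕ) (ρ : Fin l ↪o Fin m) (M : ℕ) (H : Finset (Fin M)),
  (2 * l + 2) * (2 * m + 2) ≤ H.card →
  ∃ (y : Fin (2 * l) ↪o Fin M) (J : Fin 2 → (Fin l ↪o Fin (2 * l)) → (Fin m ↪o Fin M)),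
    (∀ κ ψ x, J κ ψ x ∈ H) ∧ (∀ κ ψ a, J κ ψ (ρ a) = y (ψ a)) ∧
    ∀ ψ ψ' : Fin l ↪o Fin (2 * l), (∀ a a', ψ a ≠ ψ' a') → ∀ x x', J 0 ψ x ≠ J 1 ψ' x'

/-- The code of a finite set of numbers `< r₃`. -/
def enc (X : Finset ℕ) : ℕ := ∑ j ∈ X, 2 ^ j

/-- The value of the label word of `T`. -/
def vl {M : ℕ} {α : Type} (N : ℕ) (lb : α → Fin M → Finset ℕ) (T : α) : ℕ :=
  ∑ x ∈ univ.filter (fun l => lb T l ≠ ∅),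
    enc (lb T x) * N ^ (univ.filter (fun y => lb T y ≠ ∅ ∧ x < y)).card

/-- Facts on the values. -/
def Stmt_Vl : Prop := (∀ X : Finset ℕ, X ≠ ∅ → 1 ≤ enc X) ∧
  (∀ (r : ℕ) (X : Finset ℕ), (∀ j ∈ X, j < r) → enc X < 2 ^ r) ∧
  (∀ X Y : Finset ℕ, enc X = enc Y → X = Y) ∧
  (∀ (M N : ℕ) (α : Type) (lb : α → Fin M → Finset ℕ) (T : α) (l : ℕ) (e : Fin l ↪o Fin M),
    (∀ x, lb T x ≠ ∅ ↔ ∃ a, e a = x) →
    vl N lb T = wval N (fun a => enc (lb T (e a)))) ∧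
  (∀ (M r : ℕ) (α : Type) (lb : α → Fin M → Finset ℕ), (∀ T x, ∀ j ∈ lb T x, j < r) →
    (∀ T, vl (2 ^ r) lb T < (2 ^ r) ^ (univ.filter (fun l => lb T l ≠ ∅)).card) ∧
    (∀ T T', vl (2 ^ r) lb T ≤ vl (2 ^ r) lb T' →
      (univ.filter (fun l => lb T l ≠ ∅)).card ≤ (univ.filter (fun l => lb T' l ≠ ∅)).card))

/-- Homogeneity of `H` at the stage `(m, q)`. -/
def Hom {p M : ℕ} {α : Type} (cw : α → ZMod p) (Fm : ℕ → Finset (Fin M) → α → Prop)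
    (lb : α → Fin M → Finset ℕ) (H : Finset (Fin M)) (m q : ℕ) : Prop :=
  ∀ e e' : Fin m ↪o Fin M, (∀ x, e x ∈ H) → (∀ x, e' x ∈ H) → ∀ T,
    Fm q (univ.image e) T → ∃ T', Fm q (univ.image e') T' ∧
      (∀ x, lb T' (e' x) = lb T (e x)) ∧ cw T' = cw T

/-- A stable homogeneous stage. -/
def Stmt_FinA : Prop := ∀ (p r₂ r₃ : ℕ), p.Prime → ∀ hh : ℕ → ℕ, ∃ m₂ Q M : ℕ,
  ∀ (α : Type) (cw : α → ZMod p) (Fm : ℕ → Finset (Fin M) → α → Prop)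
    (lb : α → Fin M → Finset ℕ), Conf p r₂ r₃ m₂ Q M cw Fm lb →
  ∃ (m q v : ℕ) (H : Finset (Fin M)), q + 1 ≤ Q ∧ 3 * m ≤ m₂ ∧ hh m ≤ H.card ∧
    Hom cw Fm lb H m q ∧
    (∃ e : Fin m ↪o Fin M, (∀ x, e x ∈ H) ∧ ∃ T, Fm q (univ.image e) T ∧
      vl (2 ^ r₃) lb T = v) ∧
    (∀ I ⊆ H, I.card = 2 * m → ∀ T, Fm (q + 1) I T → vl (2 ^ r₃) lb T ≤ v)

/-- The contradiction at a stable stage. -/
def Stmt_FinB : Prop := ∀ (p r₂ r₃ m₂ Q M : ℕ), p.Prime → 4 ^ r₂ < p →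
  ∀ (α : Type) (cw : α → ZMod p) (Fm : ℕ → Finset (Fin M) → α → Prop)
    (lb : α → Fin M → Finset ℕ), Conf p r₂ r₃ m₂ Q M cw Fm lb →
  ∀ (m q v : ℕ) (H : Finset (Fin M)), q + 1 ≤ Q → 3 * m ≤ m₂ →
    (2 * m + 2) * (2 * m + 2) ≤ H.card → Hom cw Fm lb H m q →
    (∃ e : Fin m ↪o Fin M, (∀ x, e x ∈ H) ∧ ∃ T, Fm q (univ.image e) T ∧
      vl (2 ^ r₃) lb T = v) →
    (∀ I ⊆ H, I.card = 2 * m → ∀ T, Fm (q + 1) I T → vl (2 ^ r₃) lb T ≤ v) → False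

def Stmt_Fin : Prop := ∀ (p r₂ r₃ : ℕ), p.Prime → 4 ^ r₂ < p → ∃ m₂ Q M : ℕ, 1 ≤ m₂ ∧
  ∀ (α : Type) (cw : α → ZMod p) (Fm : ℕ → Finset (Fin M) → α → Prop)
    (lb : α → Fin M → Finset ℕ), ¬ Conf p r₂ r₃ m₂ Q M cw Fm lb

/-! ### Part II -/

def Stmt_Main2 : Prop := ∀ d C₀ p : ℕ, ∀ [Fact p.Prime], 4 ^ (300 * (d + 1)) < p → ∃ k₀ : ℕ,
  ∀ S : Dat (ZMod p), Ok S → k₀ ≤ S.k → S.V0.card ≤ S.k ^ d →
  ∀ Z ⊆ S.V, (∀ x ∈ Z, 2 ≤ x.1) → S.k * S.V0.card ≤ C₀ * Z.card → False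

end Pool.Agent.SPD
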