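import Pool.Agent.SPD.Stmts
import Pool.Agent.DChg.Step

set_option autoImplicit false

/-!
Superpolylogarithmic number of digit changes of `√2`: the statements of the modules, Part I
(from the digits of `√2` to the combinatorial setting) and the end.
-/

open Finset

namespace Pool.Agent.SPD

/-- The input modulo `p`: `G` vanishes at negative integers, has at most `lam` jumps in `[0, N)`,
satisfies `G n = - G ⌊n/p⌋` and `∑_{i ≤ n} (G i - G (i-1)) G (n-i) = 2` up to at most `E`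
exceptions in `[0, N)`. -/
structure HypP {p : ℕ} (G : ℤ → ZMod p) (N lam E : ℕ) : Prop where
  neg : ∀ n < 0, G n = 0
  jmp : ((Ico 0 (N : ℤ)).filter (fun n => G n ≠ G (n - 1))).card ≤ lam
  scl : ((Ico 0 (N : ℤ)).filter (fun n => G n ≠ - G (n / p))).card ≤ E
  sq : ((Ico 0 (N : ℤ)).filter
    (fun n => ∑ i ∈ Icc 0 n, (G i - G (i - 1)) * G (n - i) ≠ 2)).card ≤ E

/-- Frobenius modulo `p`. -/
def Stmt_Inst : Prop := ∀ p : ℕ, p.Prime → 11 ≤ p → ¬ IsSquare (2 : ZMod p) → ∀ N : ℕ,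
  ∃ G : ℤ → ZMod p, HypP G N (Sqrt2Digits.lam DChg.fs N)
    (33 * p * (Sqrt2Digits.lam DChg.fs N + 1) ^ (p + 2))

/-- Iterated scaling is not disturbed at `x`. -/
def Cl {p : ℕ} (G : ℤ → ZMod p) (N e : ℕ) (x : ℤ) : Prop :=
  ∀ i < e, ¬ (0 ≤ x / (p : ℤ) ^ i ∧ x / (p : ℤ) ^ i < N ∧
    G (x / (p : ℤ) ^ i) ≠ - G (x / (p : ℤ) ^ i / p))

open Classical in
def Stmt_ScaleA : Prop := ∀ (p N lam E : ℕ) (G : ℤ → ZMod p), p.Prime → HypP G N lam E →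
  (∀ e x, 0 ≤ x → x < N → Cl G N e x → G x = (-1) ^ e * G (x / (p : ℤ) ^ e)) ∧
  (∀ (e : ℕ) (a c : ℤ), ((Ico a c).filter (fun x => ¬ Cl G N e x)).card ≤ E * p ^ e)

/-- The jumps in `(a, c]`. -/
noncomputable def jm {p : ℕ} (G : ℤ → ZMod p) (a c : ℤ) : Finset ℤ :=
  (Ioc a c).filter (fun x => G x ≠ G (x - 1))

/-- The same cluster at level `s`. -/
def EE (J : Finset ℤ) (b P s : ℕ) (v v' : ℤ) : Prop :=
  ∀ y, min v v' ≤ y → y < max v v' → ∃ x ∈ J, y < x ∧ (x - y) * (b : ℤ) ^ (3 * s + 2) ≤ P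

open Classical in
/-- The weight of the cluster of `v` at level `s`. -/
noncomputable def wt {p : ℕ} (G : ℤ → ZMod p) (J : Finset ℤ) (b P s : ℕ) (v : ℤ) : ZMod p :=
  ∑ x ∈ J.filter (fun x => EE J b P s v x), (G x - G (x - 1))

open Classical in
/-- The first elements of the clusters of weight `≠ 0` at level `s`. -/
noncomputable def vis {p : ℕ} (G : ℤ → ZMod p) (J : Finset ℤ) (b P s : ℕ) : Finset ℤ :=
  J.filter (fun v => (∀ u ∈ J, EE J b P s v u → v ≤ u) ∧ wt G J b P s v ≠ 0)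

/-- The data. -/
noncomputable def dat {p : ℕ} (G : ℤ → ZMod p) (k b P : ℕ) : Dat (ZMod p) where
  k := k
  b := b
  P := P
  V0 := vis G (jm G P ((b : ℤ) ^ 3 * P)) b P k
  E := EE (jm G P ((b : ℤ) ^ 3 * P)) b P
  c := wt G (jm G P ((b : ℤ) ^ 3 * P)) b P k
  g0 := G P

/-- The parameters. -/
structure Par {p : ℕ} (G : ℤ → ZMod p) (N lam E m₁ b P K : ℕ) : Prop where
  prime : p.Prime
  nsq : ¬ IsSquare (2 : ZMod p)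
  hyp : HypP G N lam E
  hm : 1 ≤ m₁
  hb : b = p ^ (2 * m₁)
  big : 10 * (K + 2) ^ 2 * (lam + 1) ^ 2 * (E + 1) ≤ b
  hK : 10 ≤ K
  hP : b ^ (3 * K) ≤ P
  hN : b ^ (3 * K) * P < N
  gap : ∀ x : ℤ, (P : ℤ) < x → (b : ℤ) * x ≤ (b + 1) * P → G x = G (x - 1)
  per : G ((b : ℤ) ^ 3 * P) = G P

/-- The choice of `P`. -/
def Stmt_ChooseP : Prop := ∀ (p N lam E m₁ K : ℕ) (G : ℤ → ZMod p), p.Prime →
  ¬ IsSquare (2 : ZMod p) → HypP G N lam E → 1 ≤ m₁ → 10 ≤ K →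
  10 * (K + 2) ^ 2 * (lam + 1) ^ 2 * (E + 1) ≤ p ^ (2 * m₁) →
  (p ^ (2 * m₁)) ^ (3 * (2 * K + 3)) ≤ N →
  ∃ P : ℕ, Par G N lam E m₁ (p ^ (2 * m₁)) P K

/-- The clusters. -/
def Stmt_EEs : Prop := ∀ (p : ℕ) (G : ℤ → ZMod p) (J : Finset ℤ) (b P : ℕ), 1 ≤ b → 1 ≤ P →
  (∀ s, Equivalence (EE J b P s)) ∧
  (∀ s v v', EE J b P (s + 1) v v' → EE J b P s v v') ∧
  (J.card ≤ b ^ 2 → ∀ s v v', EE J b P s v v' → |v - v'| * (b : ℤ) ^ (3 * s) ≤ P) ∧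
  (∀ s, ∀ v ∈ J, ∀ v' ∈ J, ¬ EE J b P s v v' → (P : ℤ) < |v - v'| * (b : ℤ) ^ (3 * s + 2)) ∧
  (∀ s, ∀ v ∈ vis G J b P s, ∀ v' ∈ vis G J b P s, EE J b P s v v' → v = v') ∧
  (∀ s, ∀ x ∈ J, wt G J b P s x ≠ 0 → ∃ v ∈ vis G J b P s, EE J b P s v x) ∧
  (∀ s v v', EE J b P s v v' → wt G J b P s v = wt G J b P s v')

/-- The structural axioms hold. -/
def Stmt_Ok0 : Prop := ∀ (p N lam E m₁ b P K k : ℕ) (G : ℤ → ZMod p),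
  Par G N lam E m₁ b P K → 10 ≤ k → k ≤ K → Ok0 (dat G k b P)

open Classical in
/-- Sums over centres, for general data. -/
def Stmt_CenSum : Prop := ∀ (F : Type) [Field F] (S : Dat F), Ok0 S → TrA S → TrC S →
  ∀ n, 1 ≤ n → n ≤ S.k → ∀ y : ℤ,
  (∀ v ∈ S.V0, ∀ v' ∈ S.V0, v ≤ y → y < v' → ¬ S.E (S.k - n) v v') →
  ∑ x ∈ S.V.filter (fun x => x.1 = n ∧ x.2 ≤ y), S.cw x = ∑ u ∈ S.V0.filter (fun u => u ≤ y), S.c u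

open Classical in
/-- Sums over first elements. -/
def Stmt_WtSum : Prop := ∀ (p : ℕ) (G : ℤ → ZMod p) (J : Finset ℤ) (b P s : ℕ) (y : ℤ),
  1 ≤ b → 1 ≤ P → (∀ x ∈ J, ∀ x' ∈ J, x ≤ y → y < x' → ¬ EE J b P s x x') →
  ∑ u ∈ (vis G J b P s).filter (fun u => u ≤ y), wt G J b P s u
    = ∑ x ∈ J.filter (fun x => x ≤ y), (G x - G (x - 1))

/-- The sum of the jumps. -/
def Stmt_Tel : Prop := ∀ (p : ℕ) (G : ℤ → ZMod p) (a c y : ℤ), a ≤ y → y ≤ c →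
  ∑ x ∈ (jm G a c).filter (fun x => x ≤ y), (G x - G (x - 1)) = G y - G a

/-- `y` is negative, or clean and far from all clusters. -/
def Free {p : ℕ} (G : ℤ → ZMod p) (N k b P m₁ : ℕ) (y : ℤ) : Prop :=
  y < 0 ∨ (3 * (P : ℤ) < y ∧ Cl G N (6 * m₁ * k) y ∧
    ∀ n ∈ Icc 1 k, ∀ x ∈ jm G P ((b : ℤ) ^ 3 * P), 3 * (P : ℤ) < |y - (b : ℤ) ^ (3 * (k - n)) * x|)

open Classical in
/-- The coarse function. -/
noncomputable def Gh {F : Type} [AddCommMonoid F] (S : Dat F) (y : ℤ) : F :=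
  ∑ x ∈ S.Vp.filter (fun x => S.X x ≤ y), S.cw x

def Stmt_Coarse : Prop := ∀ (p N lam E m₁ b P K k : ℕ) (G : ℤ → ZMod p),
  Par G N lam E m₁ b P K → 10 ≤ k → k ≤ K → ∀ y, Free G N k b P m₁ y →
  y ≤ (b : ℤ) ^ (3 * k) * P → G y = Gh (dat G k b P) y

def Stmt_GoodN : Prop := ∀ (p N lam E m₁ b P K k : ℕ) (G : ℤ → ZMod p),
  Par G N lam E m₁ b P K → 10 ≤ k → k ≤ K → ∀ a : ℤ, 0 ≤ a → a + b * P < N →
  ∀ Sh : Finset ℤ, Sh.card ≤ (k + 1) * lam + 1 → ∃ n, a ≤ n ∧ n ≤ a + b * P ∧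
    ∑ i ∈ Icc 0 n, (G i - G (i - 1)) * G (n - i) = 2 ∧ ∀ s ∈ Sh, Free G N k b P m₁ (n - s)

open Classical in
def Stmt_Rel1 : Prop := ∀ (p N lam E m₁ b P K k : ℕ) (G : ℤ → ZMod p),
  Par G N lam E m₁ b P K → 10 ≤ k → k ≤ K → ∀ n : ℤ, 0 ≤ n → n ≤ (b : ℤ) ^ (3 * k) * P →
  ∑ i ∈ Icc 0 n, (G i - G (i - 1)) * G (n - i) = 2 →
  (∀ i ∈ jm G (-1) ((b : ℤ) ^ (3 * k) * P), Free G N k b P m₁ (n - i)) →
  (∀ x ∈ (dat G k b P).Vp, Free G N k b P m₁ (n - (dat G k b P).X x)) →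
  ∑ q ∈ ((dat G k b P).Vp ×ˢ (dat G k b P).Vp).filter
      (fun q => (dat G k b P).X q.1 + (dat G k b P).X q.2 ≤ n),
    (dat G k b P).cw q.1 * (dat G k b P).cw q.2 = 2

/-- The axioms hold. -/
def Stmt_OkDat : Prop := ∀ (p N lam E m₁ b P K k : ℕ) (G : ℤ → ZMod p) [Fact p.Prime],
  Par G N lam E m₁ b P K → 10 ≤ k → k ≤ K → Ok (dat G k b P)

/-- The number of clusters of nonzero weight. -/
def Stmt_Vis : Prop := ∀ (p N lam E m₁ b P K : ℕ) (G : ℤ → ZMod p),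
  Par G N lam E m₁ b P K →
  (∀ s, (vis G (jm G P ((b : ℤ) ^ 3 * P)) b P s).card
    ≤ (vis G (jm G P ((b : ℤ) ^ 3 * P)) b P (s + 1)).card) ∧
  (∀ s, (vis G (jm G P ((b : ℤ) ^ 3 * P)) b P s).card ≤ lam) ∧
  ∀ k n, 10 ≤ k → k ≤ K → 1 ≤ n → n ≤ k →
    ((dat G k b P).V.filter (fun x => x.1 = n)).card
      = (vis G (jm G P ((b : ℤ) ^ 3 * P)) b P (k - n)).card

/-- The choice of `k`. -/
def Stmt_Pigeon : Prop := ∀ (a : ℕ → ℕ) (K C : ℕ), 400 ≤ K → (∀ s, a s ≤ a (s + 1)) →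
  (∀ s, 10 ≤ s → s ≤ K → 1 ≤ a s) → a K < 2 ^ (C * Nat.log 4 K) →
  ∃ k, 20 ≤ k ∧ k ≤ K ∧ K ≤ 4 * k ^ 2 ∧ a k ≤ 2 ^ C * a (k / 2)

def Stmt_Grow : Prop := ∀ (p N lam E m₁ b P K C : ℕ) (G : ℤ → ZMod p) [Fact p.Prime],
  Par G N lam E m₁ b P K → 400 ≤ K → lam < 2 ^ (C * Nat.log 4 K) →
  ∃ k, 20 ≤ k ∧ k ≤ K ∧ K ≤ 4 * k ^ 2 ∧ (dat G k b P).V0.card ≤ lam ∧
    ∃ Z ⊆ (dat G k b P).V, (∀ x ∈ Z, 2 ≤ x.1) ∧
      k * (dat G k b P).V0.card ≤ (4 * 2 ^ C) * Z.card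

/-- Infinitely many primes modulo which `2` is not a square. -/
def Stmt_Inert : Prop := ∀ n : ℕ, ∃ p : ℕ, n < p ∧ p.Prime ∧ ¬ IsSquare (2 : ZMod p)

/-- The numbers. -/
def Stmt_Num : Prop := ∀ A p k₀ : ℕ, 1 ≤ A → 11 ≤ p → ∃ N₀ : ℕ, ∀ N, N₀ ≤ N → ∀ lam : ℕ,
  lam ≤ (Nat.log 2 N) ^ A → ∃ m₁ K : ℕ, 1 ≤ m₁ ∧ 400 ≤ K ∧ k₀ ≤ K ∧
    10 * (K + 2) ^ 2 * (lam + 1) ^ 2 * (33 * p * (lam + 1) ^ (p + 2) + 1) ≤ p ^ (2 * m₁) ∧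
    (p ^ (2 * m₁)) ^ (3 * (2 * K + 3)) ≤ N ∧
    lam < 2 ^ ((4 * A + 4) * Nat.log 4 K) ∧ lam ≤ K ^ (2 * A)

/-- The number of nonzero sparse digits. -/
def Stmt_Lam : Prop := ∀ A : ℕ, ∃ N₀ : ℕ, ∀ N, N₀ ≤ N →
  (Nat.log 2 N) ^ A < Sqrt2Digits.lam DChg.fs N

/-- The end. -/
def Stmt_Brk : Prop := ∀ m : ℕ, 0 < m → ∀ A : ℝ, ∀ᶠ N : ℕ in Filter.atTop,
  Real.log N ^ A ≤ (SqrtFrob.brk m N : ℝ)

end Pool.Agent.SPD
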